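import Pool.Agent.H453R2.JS.Spec

namespace Pool.Agent.H453R2.JS

namespace ASG

/-- the situation after the walk `w` -/
structure Inv (w : List Tr) (A : List (KJ × ℕ × ℕ)) : Prop where
  full : ∀ j, (A.map Prod.fst).count (KJ.full j) = nact (some (j, false)) w
  inc : ∀ j, (A.map Prod.fst).count (KJ.inc j) + nact (some (j, false)) w = nact (some (j, true)) w
  dum : (A.map Prod.fst).count KJ.dum = nact none w + 1
  pos : (A.flatMap kpos).Perm (List.range (w.length + 1))
  ok : ∀ a ∈ A, kok w a

theorem nact_append (a : Act) (w : List Tr) (t : Tr) :
    nact a (w ++ [t]) = nact a w + if t.2.1 = a then 1 else 0 := by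
  unfold nact
  rw [List.countP_append, List.countP_singleton]
  simp only [decide_eq_true_eq]

theorem acts_append (w : List Tr) (t : Tr) : acts (w ++ [t]) = acts w ++ [t.2.1] := by
  simp [acts]

theorem acts_length (w : List Tr) : (acts w).length = w.length + 1 := by simp [acts]

theorem acts_lt {w : List Tr} {a : ℕ} {x : Act} (h : (acts w)[a]? = some x) : a < w.length + 1 := by
  rw [← acts_length]
  exact (List.getElem?_eq_some_iff.1 h).1

theorem acts_old {w : List Tr} {t : Tr} {a : ℕ} {x : Act} (h : (acts w)[a]? = some x) :
    (acts (w ++ [t]))[a]? = some x := by
  rw [acts_append, List.getElem?_append_left (by rw [acts_length]; exact acts_lt h)]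
  exact h

theorem acts_new (w : List Tr) (t : Tr) : (acts (w ++ [t]))[w.length + 1]? = some t.2.1 := by
  rw [acts_append, List.getElem?_append_right (by rw [acts_length]), acts_length]
  simp

theorem kok_old {w : List Tr} {t : Tr} {a : KJ × ℕ × ℕ} (h : kok w a) : kok (w ++ [t]) a := by
  obtain ⟨k, a, b⟩ := a
  cases k with
  | full j => exact ⟨acts_old h.1, acts_old h.2.1, h.2.2⟩
  | inc j => exact acts_old (w := w) h
  | dum => exact acts_old (w := w) h

theorem base : Inv [] [(KJ.dum, 0, 0)] := by
  refine ⟨fun j => ?_, fun j => ?_, ?_, ?_, ?_⟩
  · simp [nact]
  · simp [nact]
  · simp [nact]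
  · simp [kpos]
  · intro a ha
    rw [List.mem_singleton] at ha
    subst ha
    simp [kok, acts]

theorem pos_snoc {w : List Tr} {t : Tr} {A : List (KJ × ℕ × ℕ)} {x : KJ × ℕ × ℕ}
    (h : (A.flatMap kpos).Perm (List.range (w.length + 1))) (hx : kpos x = [w.length + 1]) :
    ((A ++ [x]).flatMap kpos).Perm (List.range ((w ++ [t]).length + 1)) := by
  rw [List.flatMap_append, List.flatMap_singleton, hx, List.length_append, List.length_singleton,
    List.range_succ (n := w.length + 1)]
  exact h.append_right _

theorem step {w : List Tr} {t : Tr} {A : List (KJ × ℕ × ℕ)} (h : Inv w A)
    (hN : Nonneg (w ++ [t])) (hG : Gap (w ++ [t])) : ∃ A', Inv (w ++ [t]) A' := by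
  rcases ht : t.2.1 with _ | ⟨i, b⟩
  · -- no action
    refine ⟨A ++ [(KJ.dum, w.length + 1, 0)], fun j => ?_, fun j => ?_, ?_, pos_snoc h.pos rfl, ?_⟩
    · rw [List.map_append, List.count_append, h.full, nact_append, ht]
      simp
    · rw [List.map_append, List.count_append, nact_append, nact_append, ht, ← h.inc j]
      simp
    · rw [List.map_append, List.count_append, h.dum, nact_append, ht]
      simp
    · intro a ha
      rcases List.mem_append.1 ha with ha | ha
      · exact kok_old (h.ok a ha)
      · rw [List.mem_singleton] at ha
        subst ha
        show (acts (w ++ [t]))[w.length + 1]? = some none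
        rw [acts_new, ht]
  · cases b with
    | true =>
      refine ⟨A ++ [(KJ.inc i, w.length + 1, 0)], fun j => ?_, fun j => ?_, ?_, pos_snoc h.pos rfl, ?_⟩
      · rw [List.map_append, List.count_append, h.full, nact_append, ht]
        simp
      · rw [List.map_append, List.count_append, nact_append, nact_append, ht, ← h.inc j]
        by_cases hij : i = j
        · subst hij
          simp
          ring
        · simp [hij]
      · rw [List.map_append, List.count_append, h.dum, nact_append, ht]
        simp
      · intro a ha
        rcases List.mem_append.1 ha with ha | ha
        · exact kok_old (h.ok a ha)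
        · rw [List.mem_singleton] at ha
          subst ha
          show (acts (w ++ [t]))[w.length + 1]? = some (some (i, true))
          rw [acts_new, ht]
    | false =>
      -- an unmatched increment
      have h1 := hN (w ++ [t]) (List.prefix_refl _) i
      rw [nact_append, nact_append, ht] at h1
      have h2 := h.inc i
      have h3 : 0 < (A.map Prod.fst).count (KJ.inc i) := by
        simp only [if_true, Option.some.injEq, Prod.mk.injEq, Bool.false_eq_true, and_false,
          if_false, add_zero] at h1
        omega
      rw [List.count_pos_iff, List.mem_map] at h3
      obtain ⟨⟨k, a, x⟩, hmem, hk⟩ := h3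
      simp only at hk
      subst hk
      have hok : (acts w)[a]? = some (some (i, true)) := h.ok _ hmem
      have halt := acts_lt hok
      have hane : a ≠ w.length := by
        rintro rfl
        rcases List.eq_nil_or_concat w with hw | ⟨w', s, hw⟩
        · subst hw
          simp [acts] at hok
        · subst hw
          rw [List.concat_eq_append] at hok hG
          have e : (w' ++ [s]).length = w'.length + 1 := by simp
          rw [e, acts_new] at hok
          have hs : s.2.1 = some (i, true) := Option.some.inj hok
          unfold Gap at hG
          rw [List.append_assoc] at hG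
          have h4 := (List.isChain_append.1 hG).2.1
          simp only [List.singleton_append, List.isChain_cons_cons] at h4
          exact h4.1 i i hs ht
      obtain ⟨A1, A2, rfl⟩ := List.append_of_mem hmem
      refine ⟨A1 ++ (KJ.full i, a, w.length + 1) :: A2, fun j => ?_, fun j => ?_, ?_, ?_, ?_⟩
      · have h5 := h.full j
        rw [nact_append, ← h5, ht]
        simp only [List.map_append, List.map_cons, List.count_append, List.count_cons]
        by_cases hij : i = j
        · subst hij
          simp
          ring
        · simp [hij]
      · have h5 := h.inc j
        rw [nact_append, nact_append, ht]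
        simp only [List.map_append, List.map_cons, List.count_append, List.count_cons] at h5 ⊢
        by_cases hij : i = j
        · subst hij
          simp at h5 ⊢
          omega
        · simp [hij] at h5 ⊢
          omega
      · have h5 := h.dum
        rw [nact_append, ht]
        simp only [List.map_append, List.map_cons, List.count_append, List.count_cons] at h5 ⊢
        simp at h5 ⊢
        omega
      · have h5 := h.pos
        simp only [List.flatMap_append, List.flatMap_cons, kpos] at h5 ⊢
        rw [List.length_append, List.length_singleton, List.range_succ (n := w.length + 1)]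
        refine List.Perm.trans ?_ (h5.append_right [w.length + 1])
        rw [List.append_assoc]
        refine List.Perm.append_left _ ?_
        simp only [List.cons_append, List.nil_append]
        refine List.Perm.cons _ ?_
        exact (List.perm_append_singleton (w.length + 1) _).symm
      · intro z hz
        rcases List.mem_append.1 hz with hz | hz
        · exact kok_old (h.ok z (List.mem_append.2 (Or.inl hz)))
        · rcases List.mem_cons.1 hz with hz | hz
          · subst hz
            refine ⟨acts_old hok, ?_, by omega⟩
            rw [acts_new, ht]
          · exact kok_old (h.ok z (List.mem_append.2 (Or.inr (List.mem_cons_of_mem _ hz))))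

theorem exists_inv (w : List Tr) (hN : Nonneg w) (hG : Gap w) : ∃ A, Inv w A := by
  induction w using List.reverseRecOn with
  | nil => exact ⟨_, base⟩
  | append_singleton w t ih =>
    obtain ⟨A, hA⟩ := ih (fun l hl j => hN l (hl.trans (List.prefix_append _ _)) j)
      (List.isChain_append.1 hG).1
    exact step hA hN hG

theorem cnt_full (T : List Tr) (nc j : ℕ) : (((List.range nc).flatMap fun j =>
    List.replicate (nact (some (j, false)) T) (KJ.full j) ++
    List.replicate (nact (some (j, true)) T - nact (some (j, false)) T) (KJ.inc j))).count
      (KJ.full j) = if j < nc then nact (some (j, false)) T else 0 := by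
  induction nc with
  | zero => simp
  | succ n ih =>
    rw [List.range_succ, List.flatMap_append, List.count_append, ih, List.flatMap_singleton,
      List.count_append, List.count_replicate, List.count_replicate]
    by_cases h : n = j
    · subst h; simp
    · have h1 : (j < n + 1) ↔ j < n := by omega
      simp [h, h1]

theorem cnt_inc (T : List Tr) (nc j : ℕ) : (((List.range nc).flatMap fun j =>
    List.replicate (nact (some (j, false)) T) (KJ.full j) ++
    List.replicate (nact (some (j, true)) T - nact (some (j, false)) T) (KJ.inc j))).count
      (KJ.inc j) = if j < nc then nact (some (j, true)) T - nact (some (j, false)) T else 0 := by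
  induction nc with
  | zero => simp
  | succ n ih =>
    rw [List.range_succ, List.flatMap_append, List.count_append, ih, List.flatMap_singleton,
      List.count_append, List.count_replicate, List.count_replicate]
    by_cases h : n = j
    · subst h; simp
    · have h1 : (j < n + 1) ↔ j < n := by omega
      simp [h, h1]

theorem cnt_dum (T : List Tr) (nc : ℕ) : (((List.range nc).flatMap fun j =>
    List.replicate (nact (some (j, false)) T) (KJ.full j) ++
    List.replicate (nact (some (j, true)) T - nact (some (j, false)) T) (KJ.inc j))).count
      KJ.dum = 0 := by
  induction nc with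
  | zero => simp
  | succ n ih =>
    rw [List.range_succ, List.flatMap_append, List.count_append, ih, List.flatMap_singleton,
      List.count_append, List.count_replicate, List.count_replicate]
    simp

end ASG

open ASG in
theorem ASG_holds : S_ASG := by
  intro nc w hnc hN hG
  obtain ⟨A, hA⟩ := exists_inv w hN hG
  have hz : ∀ j b, ¬ j < nc → nact (some (j, b)) w = 0 := by
    intro j b hj
    unfold nact
    rw [List.countP_eq_zero]
    intro t ht
    rw [decide_eq_true_eq]
    intro h
    exact hj (hnc t ht j b h)
  refine ⟨A, ?_, hA.pos, hA.ok⟩
  rw [List.perm_iff_count]
  intro k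
  unfold kjs
  rw [List.count_append, List.count_replicate]
  cases k with
  | full j =>
    rw [cnt_full, hA.full]
    by_cases hj : j < nc
    · simp [hj]
    · simp [hj, hz j false hj]
  | inc j =>
    rw [cnt_inc]
    have h := hA.inc j
    by_cases hj : j < nc
    · simp [hj]; omega
    · rw [hz j true hj] at h
      simp [hj]; omega
  | dum =>
    rw [cnt_dum, hA.dum]
    simp

end Pool.Agent.H453R2.JS
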