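import Pool.Agent.H453R2.JS.Spec

/-! CIND: induction over the frames -/

namespace Pool.Agent.H453R2.JS

namespace CIND

section

variable {nq nc : ℕ} {T : List Tr} {L : ℕ}

theorem cB_pos (nq nc : ℕ) : 4 ≤ cB nq nc := by unfold cB; omega

theorem cMu_le (nq nc : ℕ) : cMu nq nc ≤ 1 + 2 * cB nq nc := by unfold cMu cB; omega

theorem cKa_lo (nq nc : ℕ) (a : Act) : cB nq nc ≤ cKa nq nc a := by
  rcases a with _ | ⟨j, b⟩
  · exact le_rfl
  · cases b
    · simp only [cKa]; omega
    · simp only [cKa]; omega

theorem cAl_lo (nq nc q : ℕ) : cB nq nc ≤ cAl nq nc q := by unfold cAl; omega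

theorem cBe_lo (nq nc : ℕ) (t : Tr) : 1 + 2 * cB nq nc ≤ cBe nq nc t := by
  unfold cBe
  have := cKa_lo nq nc t.2.1
  have := cAl_lo nq nc t.2.2
  omega

theorem cKa_hi (nq nc : ℕ) (a : Act) (h : ∀ j b, a = some (j, b) → j < nc) :
    cKa nq nc a + 1 ≤ cB nq nc + cW nc := by
  rcases a with _ | ⟨j, b⟩
  · simp only [cKa, cW]; omega
  · have := h j b rfl
    cases b
    · simp only [cKa, cW]; omega
    · simp only [cKa, cW]; omega

theorem cAl_hi (nq nc q : ℕ) (h : q < nq) : cAl nq nc q + cW nc ≤ cB nq nc + cE nq nc := by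
  unfold cAl cE
  have : cW nc * (q + 1) ≤ cW nc * nq := Nat.mul_le_mul_left _ h
  rw [Nat.mul_succ] at this
  omega

theorem len3_lo (c : O3 T.length) (hc : c ≠ O3.E) : 1 + 2 * cB nq nc ≤ len3 nq nc T c := by
  cases c with
  | tr i => exact cBe_lo nq nc _
  | S =>
    simp only [len3, cBs]
    have := cAl_lo nq nc 0
    omega
  | E => exact absurd rfl hc

theorem len3_hi (hG : Good nq nc T) (c : O3 T.length) (hc : c ≠ O3.E) :
    len3 nq nc T c ≤ cMax nq nc := by
  cases c with
  | tr i =>
    simp only [len3, cBe, cMax]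
    have hm : T.get i ∈ T := List.get_mem T i
    have h1 := cKa_hi nq nc (T.get i).2.1 (fun j b h => hG.cnt _ hm j b h)
    have h2 := cAl_hi nq nc (T.get i).2.2 (hG.tgt _ hm)
    omega
  | S =>
    simp only [len3, cBs, cMax]
    have h2 := cAl_hi nq nc 0 hG.pos
    omega
  | E => exact absurd rfl hc

theorem len3_pos (c : O3 T.length) : 0 < len3 nq nc T c := by
  by_cases hc : c = O3.E
  · subst hc
    simp only [len3, cEnd, cMax]
    have := cMu_le nq nc
    omega
  · have := len3_lo (nq := nq) (nc := nc) c hc
    omega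

theorem walk_append (q r : ℕ) (w : List Tr) (t : Tr) (h : IsWalk q r w) (ht : t.1 = r) :
    IsWalk q t.2.2 (w ++ [t]) := by
  induction w generalizing q with
  | nil =>
    simp only [IsWalk] at h
    subst h
    exact ⟨ht, rfl⟩
  | cons a w ih =>
    obtain ⟨h1, h2⟩ := h
    exact ⟨h1, ih _ h2⟩

/-- the source state of a frame -/
def srcOf (T : List Tr) : O3 T.length → ℕ
  | O3.tr i => (T.get i).1
  | _ => 0

/-- the unit operation of a frame -/
def rhoOf {n : ℕ} {KO : Type} : O3 n → O1 n KO
  | O3.tr i => O1.rho i
  | O3.S => O1.rhoS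
  | O3.E => O1.rhoS

/-- the history -/
structure Hist (Y : Sys nq nc T L) (s : ℕ) (c : O3 T.length) (ρ : O1 T.length Y.KO)
    (hist : List (Fin T.length)) (kk : List Y.KO) : Prop where
  nod : hist.Nodup
  mem : ∀ i, i ∈ hist ↔ Y.s3 (O3.tr i) < s
  code : (c = O3.S ∧ hist = [] ∧ kk = []) ∨
    (c ≠ O3.S ∧ kk.map Y.code = none :: hist.map (fun i => (T.get i).2.1))
  srt : kk.Pairwise (fun a b => Y.s1 (O1.ka a) < Y.s1 (O1.ka b))
  kmem : ∀ k, k ∈ kk ↔ Y.s1 (O1.ka k) < s
  walk : IsWalk 0 (srcOf T c) (hist.map T.get)
  r1 : ∀ j, Y.s3 (O3.tr j) < s → O1.rho j = ρ ∨ Y.s1 (O1.rho j) < s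
  r2 : Y.s3 O3.S < s → O1.rhoS = ρ ∨ Y.s1 O1.rhoS < s
  r3 : O1.rhoS' = ρ ∨ Y.s1 O1.rhoS' < s

theorem al_len {KO : Type} {code : KO → Act} (z : O3 T.length) (a : O1 T.length KO)
    (h : alOf z = some a) : 0 < len1 nq nc T code a ∧ w1 nq nc T a = 0 ∧ ¬ isRho a ∧
      (∀ k, a ≠ O1.ka k) ∧ srcOf T z = stOf T a ∧ z ≠ O3.S := by
  cases z with
  | tr i =>
    simp only [alOf, Option.some.injEq] at h
    subst h
    have := cAl_lo nq nc (T.get i).1
    have := cB_pos nq nc
    refine ⟨?_, rfl, id, fun k => by simp, rfl, by simp⟩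
    simp only [len1]
    omega
  | S => simp [alOf] at h
  | E =>
    simp only [alOf, Option.some.injEq] at h
    subst h
    have := cAl_lo nq nc 0
    have := cB_pos nq nc
    refine ⟨?_, rfl, id, fun k => by simp, rfl, by simp⟩
    simp only [len1]
    omega

theorem al_inj {KO : Type} (z z' : O3 T.length) (a : O1 T.length KO) (h : alOf z = some a)
    (h' : alOf z' = some a) : z = z' := by
  cases z with
  | tr i =>
    simp only [alOf, Option.some.injEq] at h
    subst h
    cases z' with
    | tr j =>
      simp only [alOf, Option.some.injEq, O1.al.injEq] at h'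
      rw [h']
    | S => simp [alOf] at h'
    | E => simp [alOf] at h'
  | S => simp [alOf] at h
  | E =>
    simp only [alOf, Option.some.injEq] at h
    subst h
    cases z' with
    | tr j => simp [alOf] at h'
    | S => simp [alOf] at h'
    | E => rfl

theorem start (Y : Sys nq nc T L) (_hG : Good nq nc T) :
    AtFrame Y 0 ∅ O3.S O1.rhoS' (cMax nq nc) ∧ Hist Y 0 O3.S O1.rhoS' [] [] := by
  have hB := cB_pos nq nc
  have hL : 0 < L := by
    have h1 := Y.end3 O3.S
    have h2 := len3_pos (nq := nq) (nc := nc) (T := T) O3.S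
    omega
  have hS : Y.s3 O3.S = 0 := by
    obtain ⟨o, ho⟩ := Y.next3 0 hL (Or.inl rfl)
    cases o with
    | tr i =>
      have h1 := Y.prec_al i
      have h2 := cAl_lo nq nc (T.get i).1
      omega
    | S => exact ho
    | E =>
      have h1 := Y.prec_alE
      have h2 := cAl_lo nq nc 0
      omega
  constructor
  · refine ⟨hS, ?_, Or.inl rfl, ?_, ?_, le_rfl, ?_, ?_, trivial, Nat.zero_le _, ?_, ?_, ?_, ?_⟩
    · intro o; simp
    · intro o ho; simp at ho
    · unfold cMax; omega
    · simp; omega
    · simp only [w1]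
      have := cMu_le nq nc
      unfold cMax
      omega
    · intro o ho _ hne
      cases o with
      | al i => exact ho.elim
      | alE => exact ho.elim
      | rho i =>
        have h1 := Y.prec_rho i
        rcases Y.dis3 (O3.tr i) O3.S (by simp) with h2 | h2
        · have h3 := len3_pos (nq := nq) (nc := nc) (O3.tr i : O3 T.length)
          omega
        · omega
      | rhoS =>
        have h1 := Y.prec_rhoS
        simp only [len3]
        omega
      | rhoS' => exact absurd rfl hne
      | ka k => exact ho.elim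
      | fil => exact ho.elim
    · intro z a _ h; omega
    · omega
    · omega
  · refine ⟨List.nodup_nil, ?_, Or.inl ⟨rfl, rfl, rfl⟩, List.Pairwise.nil, ?_, rfl, ?_, ?_,
      Or.inl rfl⟩
    · intro i; simp
    · intro k; simp
    · intro j h; omega
    · intro h; omega

theorem rho_len {KO : Type} {code : KO → Act} (o : O1 T.length KO) (h : isRho o) :
    len1 nq nc T code o = 1 ∧ (∀ k, o ≠ O1.ka k) := by
  cases o with
  | al i => exact h.elim
  | alE => exact h.elim
  | rho i => exact ⟨rfl, fun k => by simp⟩
  | rhoS => exact ⟨rfl, fun k => by simp⟩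
  | rhoS' => exact ⟨rfl, fun k => by simp⟩
  | ka k => exact h.elim
  | fil => exact h.elim

/-- The history after the operation `c`. -/
def nextH {n : ℕ} (hist : List (Fin n)) : O3 n → List (Fin n)
  | O3.tr i => hist ++ [i]
  | _ => hist

open Classical in
theorem step (h1 : S_CSTEP) (Y : Sys nq nc T L) (hG : Good nq nc T) (s : ℕ)
    (F : Finset (O1 T.length Y.KO)) (c : O3 T.length) (ρ : O1 T.length Y.KO) (β : ℕ)
    (hist : List (Fin T.length)) (kk : List Y.KO) (hA : AtFrame Y s F c ρ β)
    (hH : Hist Y s c ρ hist kk) (hc : c ≠ O3.E) :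
    ∃ (F' : Finset (O1 T.length Y.KO)) (z : O3 T.length) (hist' : List (Fin T.length))
      (kk' : List Y.KO), AtFrame Y (s + len3 nq nc T c) F' z (rhoOf c) (len3 nq nc T c) ∧
        Hist Y (s + len3 nq nc T c) z (rhoOf c) hist' kk' := by
  obtain ⟨hρs, k, z, a, hk, hza, hst, hz3, hk1, ha1, haend, hall⟩ := h1 nq nc T L Y s F c ρ β hG hA hc
  have hB := cB_pos nq nc
  have hlo := len3_lo (nq := nq) (nc := nc) c hc
  have hhi := len3_hi hG c hc
  obtain ⟨a1, a2, a3, a4, a5, a6⟩ := al_len (nq := nq) (nc := nc) (code := Y.code) z a hza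
  obtain ⟨r1, r2⟩ := rho_len (nq := nq) (nc := nc) (code := Y.code) ρ hA.ρrho
  have hka := cKa_lo nq nc (Y.code k)
  set s' := s + len3 nq nc T c with hs'
  have ha_lt : Y.s1 a < s' := by omega
  have hk_lt : Y.s1 (O1.ka k) < s' := by omega
  have hρ_lt : Y.s1 ρ < s' := by omega
  -- frames
  have frame : ∀ o : O3 T.length, o ≠ c → Y.s3 o < s' → Y.s3 o < s := by
    intro o hne ho
    rcases Y.dis3 o c hne with h | h
    · have := len3_pos (nq := nq) (nc := nc) (T := T) o
      have := hA.start
      omega
    · have := hA.start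
      omega
  -- the unit operations processed
  have R1 : ∀ j, Y.s3 (O3.tr j) < s' → (O1.rho j : O1 T.length Y.KO) = rhoOf c ∨
      Y.s1 (O1.rho j) < s' := by
    intro j hj
    by_cases hjc : O3.tr j = c
    · left; rw [← hjc]; rfl
    · right
      rcases hH.r1 j (frame _ hjc hj) with h | h
      · rw [h]; exact hρ_lt
      · omega
  have R2 : Y.s3 O3.S < s' → (O1.rhoS : O1 T.length Y.KO) = rhoOf c ∨ Y.s1 O1.rhoS < s' := by
    intro hj
    by_cases hjc : O3.S = c
    · left; rw [← hjc]; rfl
    · right
      rcases hH.r2 (frame _ hjc hj) with h | h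
      · rw [h]; exact hρ_lt
      · omega
  have R3 : (O1.rhoS' : O1 T.length Y.KO) = rhoOf c ∨ Y.s1 O1.rhoS' < s' := by
    right
    rcases hH.r3 with h | h
    · rw [h]; exact hρ_lt
    · omega
  have hρ'not : s' ≤ Y.s1 (rhoOf c) := by
    cases c with
    | tr i =>
      have h2 := Y.prec_rho i
      have := hA.start
      simp only [rhoOf, hs', len3]
      omega
    | S =>
      have h2 := Y.prec_rhoS
      have := hA.start
      simp only [rhoOf, hs', len3]
      omega
    | E => exact absurd rfl hc
  have hρF : ρ ∉ F := fun h => by have := (hA.mem ρ).1 h; omega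
  have hkF : O1.ka k ∉ F := fun h => by have := (hA.mem (O1.ka k)).1 h; omega
  have haF : a ∉ F := fun h => by have := (hA.mem a).1 h; omega
  have hρk : ρ ≠ O1.ka k := r2 k
  have hρa : ρ ≠ a := fun h => by rw [h] at hρs; omega
  have hak : a ≠ O1.ka k := a4 k
  have hF' : ∀ o, o ∈ insert a (insert (O1.ka k) (insert ρ F)) ↔ Y.s1 o < s' := by
    intro o
    simp only [Finset.mem_insert]
    constructor
    · rintro (h | h | h | h)
      · rw [h]; exact ha_lt
      · rw [h]; exact hk_lt
      · rw [h]; exact hρ_lt
      · have := (hA.mem o).1 h; omega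
    · intro h
      by_cases h2 : Y.s1 o < s
      · exact Or.inr (Or.inr (Or.inr ((hA.mem o).2 h2)))
      · rcases hall o (by omega) h with h3 | h3 | h3
        · exact Or.inr (Or.inr (Or.inl h3))
        · exact Or.inr (Or.inl h3)
        · exact Or.inl h3
  have hkmem : ∀ k', Y.s1 (O1.ka k') < s' ↔ (Y.s1 (O1.ka k') < s ∨ k' = k) := by
    intro k'
    constructor
    · intro h
      by_cases h2 : Y.s1 (O1.ka k') < s
      · exact Or.inl h2
      · right
        rcases hall (O1.ka k') (by omega) h with h3 | h3 | h3
        · exact absurd h3.symm (r2 k')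
        · simpa using h3
        · exact absurd h3.symm (a4 k')
    · rintro (h | h)
      · omega
      · rw [h]; exact hk_lt
  refine ⟨insert a (insert (O1.ka k) (insert ρ F)), z, nextH hist c, kk ++ [k], ?_, ?_⟩
  · refine ⟨hz3, hF', Or.inr ⟨a, haend⟩, ?_, hlo, hhi, ?_, ?_, ?_, hρ'not, ?_, ?_, ?_, ?_⟩
    · intro o ho
      simp only [Finset.mem_insert] at ho
      rcases ho with h | h | h | h
      · rw [h]; omega
      · rw [h]
        simp only [len1]
        omega
      · rw [h, r1]; omega
      · have := hA.fin o h; omega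
    · rw [Finset.sum_insert (by simp [hak, hρa.symm, haF]),
        Finset.sum_insert (by simp [hρk.symm, hkF]), Finset.sum_insert hρF]
      have h2 := hA.sum
      have h3 := hA.wρ
      have h4 : w1 nq nc T (O1.ka k : O1 T.length Y.KO) = cMu nq nc := rfl
      omega
    · have h2 := cMu_le nq nc
      cases c with
      | tr i =>
        simp only [rhoOf, w1, len3] at hlo ⊢
        omega
      | S =>
        simp only [rhoOf, w1, len3] at hlo ⊢
        omega
      | E => exact absurd rfl hc
    · cases c with
      | tr i => trivial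
      | S => trivial
      | E => exact absurd rfl hc
    · intro o ho hso hne
      cases o with
      | al i => exact ho.elim
      | alE => exact ho.elim
      | rho j =>
        have h2 : ¬ Y.s3 (O3.tr j) < s' := by
          intro h
          rcases R1 j h with h3 | h3
          · exact hne h3
          · omega
        have h3 := Y.prec_rho j
        by_cases hjz : O3.tr j = z
        · rw [← hjz]
          simp only [len3]
          omega
        · rcases Y.dis3 (O3.tr j) z hjz with h4 | h4
          · have := len3_pos (nq := nq) (nc := nc) (O3.tr j : O3 T.length)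
            omega
          · omega
      | rhoS =>
        exfalso
        have h2 := hA.hS
        rcases R2 (by omega) with h3 | h3
        · exact hne h3
        · omega
      | rhoS' =>
        exfalso
        rcases R3 with h3 | h3
        · exact hne h3
        · omega
      | ka k => exact ho.elim
      | fil => exact ho.elim
    · intro z0 a0 h2 h3
      by_cases h4 : Y.s1 a0 < s
      · have := hA.alpha z0 a0 h2 h4; omega
      · obtain ⟨b1, b2, b3, b4, b5, b6⟩ :=
          al_len (nq := nq) (nc := nc) (code := Y.code) z0 a0 h2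
        rcases hall a0 (by omega) h3 with h5 | h5 | h5
        · exact absurd (h5 ▸ hA.ρrho) b3
        · exact absurd h5 (b4 k)
        · rw [h5] at h2
          rw [al_inj z0 z a h2 hza, hz3]
    · have := hA.hS; omega
    · have h2 := hA.hE
      rcases Y.dis3 c O3.E hc with h3 | h3
      · have := hA.start; omega
      · have := len3_pos (nq := nq) (nc := nc) (O3.E : O3 T.length)
        have := hA.start
        omega
  · have hcode : (kk ++ [k]).map Y.code = none ::
        (nextH hist c).map (fun i => (T.get i).2.1) := by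
      rw [List.map_append, List.map_singleton, hk]
      rcases hH.code with ⟨h2, h3, h4⟩ | ⟨h2, h3⟩
      · subst h2
        rw [h3, h4]
        rfl
      · rw [h3]
        cases c with
        | tr i => simp [actOf, nextH]
        | S => exact absurd rfl h2
        | E => exact absurd rfl hc
    refine ⟨?_, ?_, Or.inr ⟨a6, hcode⟩, ?_, ?_, ?_, R1, R2, R3⟩
    · cases c with
      | tr i =>
        simp only [nextH]
        rw [List.nodup_append]
        refine ⟨hH.nod, List.nodup_singleton i, ?_⟩
        intro j hj j' hj' he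
        rw [List.mem_singleton] at hj'
        rw [he, hj'] at hj
        have h2 := (hH.mem i).1 hj
        have := hA.start
        omega
      | S => exact hH.nod
      | E => exact absurd rfl hc
    · intro j
      have h2 : Y.s3 (O3.tr j) < s' ↔ Y.s3 (O3.tr j) < s ∨ O3.tr j = c := by
        constructor
        · intro h
          by_cases hjc : O3.tr j = c
          · exact Or.inr hjc
          · exact Or.inl (frame _ hjc h)
        · rintro (h | h)
          · omega
          · rw [h, hA.start]; omega
      rw [h2]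
      cases c with
      | tr i =>
        simp only [nextH, List.mem_append, List.mem_singleton, O3.tr.injEq]
        rw [hH.mem j]
      | S =>
        simp only [nextH]
        rw [hH.mem j]
        simp
      | E => exact absurd rfl hc
    · rw [List.pairwise_append]
      refine ⟨hH.srt, List.pairwise_singleton _ _, ?_⟩
      intro x hx y hy
      rw [List.mem_singleton] at hy
      rw [hy]
      have := (hH.kmem x).1 hx
      omega
    · intro k'
      rw [List.mem_append, List.mem_singleton, hH.kmem, hkmem]
    · rw [a5, hst]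
      cases c with
      | tr i =>
        simp only [nextH, List.map_append, List.map_singleton, tgtOf]
        exact walk_append _ _ _ _ hH.walk rfl
      | S =>
        simp only [nextH, tgtOf]
        exact hH.walk
      | E => exact absurd rfl hc

theorem finish (h2 : S_CLAST) (Y : Sys nq nc T L) (hG : Good nq nc T) (s : ℕ)
    (F : Finset (O1 T.length Y.KO)) (ρ : O1 T.length Y.KO) (β : ℕ)
    (hist : List (Fin T.length)) (kk : List Y.KO) (hA : AtFrame Y s F O3.E ρ β)
    (hH : Hist Y s O3.E ρ hist kk) : Concl Y := by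
  obtain ⟨-, hz, ho⟩ := h2 nq nc T L Y s F ρ β hG hA
  obtain ⟨r1, r2⟩ := rho_len (nq := nq) (nc := nc) (code := Y.code) ρ hA.ρrho
  have hall : ∀ i, i ∈ hist := by
    intro i
    rw [hH.mem]
    rcases Y.dis3 (O3.tr i) O3.E (by simp) with h | h
    · have := len3_pos (nq := nq) (nc := nc) (O3.tr i : O3 T.length)
      have := hA.start
      omega
    · have := len3_pos (nq := nq) (nc := nc) (O3.E : O3 T.length)
      have := hA.start
      have := hz (O3.tr i)
      omega
  refine ⟨hist, kk, ?_, hH.walk, ?_, hH.srt, ?_⟩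
  · rw [List.perm_ext_iff_of_nodup hH.nod (List.nodup_finRange _)]
    intro i
    simp [hall i]
  · rcases hH.code with ⟨h, -, -⟩ | ⟨-, h⟩
    · simp at h
    · exact h
  · intro k
    rw [hH.kmem]
    by_contra hcon
    rcases ho (O1.ka k) (by omega) with h | h
    · exact r2 k h.symm
    · simp at h

theorem run (h1 : S_CSTEP) (h2 : S_CLAST) (Y : Sys nq nc T L) (hG : Good nq nc T) (m : ℕ) :
    ∀ (s : ℕ) (F : Finset (O1 T.length Y.KO)) (c : O3 T.length) (ρ : O1 T.length Y.KO) (β : ℕ)
    (hist : List (Fin T.length)) (kk : List Y.KO), L - s ≤ m → AtFrame Y s F c ρ β →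
    Hist Y s c ρ hist kk → Concl Y := by
  induction m with
  | zero =>
    intro s F c ρ β hist kk hm hA hH
    exfalso
    have h3 := Y.end3 c
    have h4 := hA.start
    have h5 := len3_pos (nq := nq) (nc := nc) c
    omega
  | succ m ih =>
    intro s F c ρ β hist kk hm hA hH
    by_cases hc : c = O3.E
    · subst hc
      exact finish h2 Y hG s F ρ β hist kk hA hH
    · obtain ⟨F', z, hist', kk', hA', hH'⟩ := step h1 Y hG s F c ρ β hist kk hA hH hc
      have h5 := len3_pos (nq := nq) (nc := nc) c
      exact ih _ F' z _ _ hist' kk' (by omega) hA' hH'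

end

end CIND

theorem CIND_holds (h1 : S_CSTEP) (h2 : S_CLAST) : S_CIND := by
  intro nq nc T L Y hG
  obtain ⟨hA, hH⟩ := CIND.start Y hG
  exact CIND.run h1 h2 Y hG (L - 0) 0 _ _ _ _ _ _ le_rfl hA hH

end Pool.Agent.H453R2.JS
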