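import Pool.Agent.H453R2.JS.Spec

set_option autoImplicit false

/-! # Task CLAST: the last frame of the schedule -/

namespace Pool.Agent.H453R2.JS

namespace CLAST

theorem params (nq nc : ℕ) (h : 0 < nq) : 1 ≤ cE nq nc ∧ 2 * nc + 1 ≤ cE nq nc ∧
    cB nq nc = 4 * cE nq nc + 4 ∧ cMu nq nc = 1 + 3 * cE nq nc ∧
    cMax nq nc = 1 + 2 * cB nq nc + 2 * cE nq nc ∧
    cEnd nq nc + cMu nq nc = cMax nq nc + 1 ∧ (cMax nq nc - cMu nq nc) + 1 = cEnd nq nc := by
  have h1 : 2 * nc + 1 ≤ cE nq nc := by
    unfold cE cW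
    exact Nat.le_mul_of_pos_right _ h
  unfold cEnd cMax cMu cB
  refine ⟨by omega, h1, rfl, rfl, rfl, by omega, by omega⟩

theorem cAl_bd (nq nc q : ℕ) (h : q < nq) :
    cB nq nc ≤ cAl nq nc q ∧ cAl nq nc q ≤ cB nq nc + cE nq nc := by
  unfold cAl cE
  refine ⟨by omega, ?_⟩
  have := Nat.mul_le_mul_left (cW nc) h.le
  omega

theorem cKa_bd (nq nc : ℕ) (a : Act) (hq : 0 < nq) (h : ∀ j b, a = some (j, b) → j < nc) :
    cB nq nc ≤ cKa nq nc a ∧ cKa nq nc a ≤ cB nq nc + cE nq nc := by
  obtain ⟨_, h2, _⟩ := params nq nc hq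
  rcases a with _ | ⟨j, b⟩
  · simp only [cKa]; omega
  · have hj := h j b rfl
    cases b
    · simp only [cKa]; omega
    · simp only [cKa]; omega

/-- Lengths on machine `0`. -/
theorem len_cases {nq nc : ℕ} {T : List Tr} {L : ℕ} (Y : Sys nq nc T L) (hG : Good nq nc T)
    (o : O1 T.length Y.KO) :
    (isRho o ∧ len1 nq nc T Y.code o = 1) ∨
    (¬ isRho o ∧ o ≠ O1.fil ∧ cB nq nc ≤ len1 nq nc T Y.code o ∧
      len1 nq nc T Y.code o ≤ cB nq nc + cE nq nc) ∨
    (¬ isRho o ∧ o = O1.fil ∧ len1 nq nc T Y.code o = cMax nq nc - cMu nq nc) := by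
  cases o with
  | al i =>
    right; left
    obtain ⟨h1, h2⟩ := cAl_bd nq nc (T.get i).1 (hG.src _ (List.get_mem T i))
    exact ⟨id, (by intro h; cases h), h1, h2⟩
  | alE =>
    right; left
    obtain ⟨h1, h2⟩ := cAl_bd nq nc 0 hG.pos
    exact ⟨id, (by intro h; cases h), h1, h2⟩
  | rho i => left; exact ⟨trivial, rfl⟩
  | rhoS => left; exact ⟨trivial, rfl⟩
  | rhoS' => left; exact ⟨trivial, rfl⟩
  | ka k =>
    right; left
    obtain ⟨h1, h2⟩ := cKa_bd nq nc (Y.code k) hG.pos (fun j b h => Y.code_lt k j b h)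
    exact ⟨id, (by intro h; cases h), h1, h2⟩
  | fil => right; right; exact ⟨id, rfl, rfl⟩

theorem len_pos {nq nc : ℕ} {T : List Tr} {L : ℕ} (Y : Sys nq nc T L) (hG : Good nq nc T)
    (o : O1 T.length Y.KO) : 1 ≤ len1 nq nc T Y.code o := by
  obtain ⟨h0, h1, h2, h3, h4, h5, h6⟩ := params nq nc hG.pos
  rcases len_cases Y hG o with h | h | h
  · omega
  · have := h.2.2.1
    omega
  · have := h.2.2
    omega

open Classical in
/-- The next operation on machine `0`. -/
theorem nextOp {nq nc : ℕ} {T : List Tr} {L : ℕ} (Y : Sys nq nc T L) (hG : Good nq nc T) (y : ℕ)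
    (F : Finset (O1 T.length Y.KO)) (hmem : ∀ o, o ∈ F ↔ Y.s1 o < y)
    (hb : y = 0 ∨ ∃ o, Y.s1 o + len1 nq nc T Y.code o = y) (hy : y < L) :
    ∃ o', Y.s1 o' = y ∧ y + len1 nq nc T Y.code o' ≤ 1 + ∑ o ∈ F, w1 nq nc T o ∧ o' ∉ F ∧
      ∀ o, o ∈ insert o' F ↔ Y.s1 o < y + len1 nq nc T Y.code o' := by
  obtain ⟨o', ho'⟩ := Y.next1 y hy hb
  have hp := len_pos Y hG o'
  have hend := Y.end1 o'
  have hkey : ∀ o, o ≠ o' → Y.s1 o < y + len1 nq nc T Y.code o' → Y.s1 o < y := by
    intro o hne hlt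
    rcases Y.dis1 o o' hne with h | h
    · have := len_pos Y hG o
      omega
    · omega
  refine ⟨o', ho', ?_, ?_, ?_⟩
  · have h1 := Y.work (y + len1 nq nc T Y.code o' - 1) (by omega) F (by
      intro o ho
      rw [hmem]
      have hpo := len_pos Y hG o
      refine hkey o ?_ (by omega)
      rintro rfl
      omega)
    omega
  · rw [hmem, ho']
    omega
  · intro o
    rw [Finset.mem_insert, hmem]
    constructor
    · rintro (rfl | h)
      · omega
      · omega
    · intro h
      by_cases hne : o = o'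
      · exact Or.inl hne
      · exact Or.inr (hkey o hne h)

end CLAST

open CLAST in
open Classical in
theorem CLAST_holds : S_CLAST := by
  intro nq nc T L Y s F ρ β hG hA
  obtain ⟨h0, h1, h2, h3, h4, h5, h6⟩ := params nq nc hG.pos
  have hlE : len3 nq nc T O3.E = cEnd nq nc := rfl
  have hsE : Y.s3 O3.E = s := hA.start
  have hLE : s + cEnd nq nc ≤ L := by
    have := Y.end3 O3.E
    rw [hsE, hlE] at this
    exact this
  have hβ1 := hA.βlo
  have hβ2 := hA.βhi
  have hsum := hA.sum
  have hwρ := hA.wρ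
  -- the first operation
  obtain ⟨o1, ho1, hb1, hn1, hm1⟩ := nextOp Y hG s F hA.mem hA.bdry (by omega)
  have hr1 : isRho o1 := by
    rcases len_cases Y hG o1 with h | h | h
    · exact h.1
    · have := h.2.2.1
      omega
    · have := h.2.2
      omega
  have he1 : o1 = ρ := by
    by_contra hne
    have := hA.others o1 hr1 (by omega) hne
    rw [hlE] at this
    omega
  subst he1
  have hl1 : len1 nq nc T Y.code o1 = 1 := by
    rcases len_cases Y hG o1 with h | h | h
    · exact h.2
    · exact absurd hr1 h.1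
    · exact absurd hr1 h.1
  rw [hl1] at hm1
  have hs1 : ∑ o ∈ insert o1 F, w1 nq nc T o = w1 nq nc T o1 + ∑ o ∈ F, w1 nq nc T o :=
    Finset.sum_insert hn1
  -- the second operation
  obtain ⟨o2, ho2, hb2, hn2, hm2⟩ := nextOp Y hG (s + 1) (insert o1 F) hm1
    (Or.inr ⟨o1, by omega⟩) (by omega)
  have hr2 : ¬ isRho o2 := by
    intro hr
    have := hA.others o2 hr (by omega) (by rintro rfl; omega)
    rw [hlE] at this
    omega
  have hs2 : ∑ o ∈ insert o2 (insert o1 F), w1 nq nc T o =
      w1 nq nc T o2 + ∑ o ∈ insert o1 F, w1 nq nc T o := Finset.sum_insert hn2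
  have hl2 : cB nq nc ≤ len1 nq nc T Y.code o2 := by
    rcases len_cases Y hG o2 with h | h | h
    · exact absurd h.1 hr2
    · exact h.2.2.1
    · have := h.2.2
      omega
  -- no unit operation strictly between
  have hmid : ∀ o3, Y.s1 o3 = s + 1 + len1 nq nc T Y.code o2 →
      len1 nq nc T Y.code o2 ≤ cB nq nc + cE nq nc →
      cB nq nc ≤ len1 nq nc T Y.code o3 := by
    intro o3 h33 hle
    rcases len_cases Y hG o3 with h | h | h
    · exfalso
      have := hA.others o3 h.1 (by omega) (by rintro rfl; omega)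
      rw [hlE] at this
      omega
    · exact h.2.2.1
    · have := h.2.2
      omega
  have hL : L = s + len3 nq nc T O3.E := by
    rw [hlE]
    by_contra hne
    obtain ⟨z, hz⟩ := Y.next3 (s + cEnd nq nc) (by omega) (Or.inr ⟨O3.E, by rw [hsE, hlE]⟩)
    cases z with
    | S =>
      have := hA.hS
      omega
    | E => omega
    | tr i =>
      have ha1 : s ≤ Y.s1 (O1.al i) := by
        by_contra hlt
        have := hA.alpha (O3.tr i) (O1.al i) rfl (by omega)
        omega
      have ha2 := Y.prec_al i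
      have hla : len1 nq nc T Y.code (O1.al i) = cAl nq nc (T.get i).1 := rfl
      obtain ⟨hla1, hla2⟩ := cAl_bd nq nc (T.get i).1 (hG.src _ (List.get_mem T i))
      have ha3 : s + 1 ≤ Y.s1 (O1.al i) := by
        rcases Y.dis1 (O1.al i) o1 (by rintro rfl; exact hr1) with h | h
        · omega
        · omega
      by_cases hao : (O1.al i : O1 T.length Y.KO) = o2
      · have hw2 : w1 nq nc T o2 = 0 := by rw [← hao]; rfl
        have hl2' : len1 nq nc T Y.code o2 = cAl nq nc (T.get i).1 := by rw [← hao]; rfl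
        obtain ⟨o3, ho3, hb3, _, _⟩ := nextOp Y hG (s + 1 + len1 nq nc T Y.code o2) _ hm2
          (Or.inr ⟨o2, by omega⟩) (by omega)
        have := hmid o3 ho3 (by omega)
        omega
      · rcases Y.dis1 (O1.al i) o2 hao with h | h
        · omega
        · omega
  refine ⟨hL, ?_, ?_⟩
  · intro z
    by_contra hlt
    have hz : z ≠ O3.E := by
      rintro rfl
      omega
    have he := Y.end3 z
    have hp : 1 ≤ len3 nq nc T z := by
      cases z with
      | S => simp only [len3, cBs]; omega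
      | E => exact absurd rfl hz
      | tr i => simp only [len3, cBe]; omega
    rcases Y.dis3 z O3.E hz with h | h
    · omega
    · omega
  · rw [hlE] at hL
    have hfil : o2 = O1.fil ∧ len1 nq nc T Y.code o2 = cMax nq nc - cMu nq nc := by
      rcases len_cases Y hG o2 with h | h | h
      · exact absurd h.1 hr2
      · exfalso
        have hle := h.2.2.2
        obtain ⟨o3, ho3, hb3, _, _⟩ := nextOp Y hG (s + 1 + len1 nq nc T Y.code o2) _ hm2
          (Or.inr ⟨o2, by omega⟩) (by omega)
        have h3' := hmid o3 ho3 hle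
        have := Y.end1 o3
        omega
      · exact ⟨h.2.1, h.2.2⟩
    intro o ho
    by_contra hcon
    rw [not_or] at hcon
    have hp := len_pos Y hG o
    have he := Y.end1 o
    have hA1 : s + 1 ≤ Y.s1 o := by
      rcases Y.dis1 o o1 hcon.1 with h | h
      · omega
      · omega
    have hne2 : o ≠ o2 := by rw [hfil.1]; exact hcon.2
    rcases Y.dis1 o o2 hne2 with h | h
    · omega
    · have := hfil.2
      omega

end Pool.Agent.H453R2.JS
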