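import Pool.Agent.H453R2.JS.Spec3

/-! Task COMPG: composition of an fpt algorithm with a polynomial-time reduction (helper155). -/

namespace Pool.Agent.H453R2.JS

open Pool.Agent.NPC Pool.Agent.H633R2

theorem COMPG_holds : S_COMPG := by
  intro κ dJ hd f hf c hκ
  have hG : Computable (fun n : ℕ => c * (n + 1) ^ 2 + 4) :=
    add_computable (mul_computable (Computable.const c)
      (pow_computable (add_computable Computable.id (Computable.const 1)) 2)) (Computable.const 4)
  exact FptTime.comp hd (FptTime.of_poly hf) hG hκ

end Pool.Agent.H453R2.JS
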