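import Pool.Agent.H453R2.JS.Spec

namespace Pool.Agent.H453R2.JS

namespace CSTEP

theorem cW_pos (nc : ℕ) : 1 ≤ cW nc := by unfold cW; omega

theorem cE_pos {nq : ℕ} (nc : ℕ) (h : 0 < nq) : 1 ≤ cE nq nc := by
  unfold cE
  exact Nat.one_le_iff_ne_zero.2 (Nat.mul_ne_zero (by have := cW_pos nc; omega) (by omega))

theorem al_le {nq nc q : ℕ} (h : q < nq) : cAl nq nc q ≤ cB nq nc + cE nq nc := by
  unfold cAl cE
  exact Nat.add_le_add_left (Nat.mul_le_mul_left _ h.le) _

theorem al_ge (nq nc q : ℕ) : cB nq nc ≤ cAl nq nc q := by unfold cAl; omega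

/-- the offset of an action -/
def off : Act → ℕ
  | none => 0
  | some (j, true) => 1 + 2 * j
  | some (j, false) => 2 + 2 * j

theorem ka_eq (nq nc : ℕ) (a : Act) : cKa nq nc a = cB nq nc + off a := by
  rcases a with _ | ⟨j, _ | _⟩
  · rfl
  · show cB nq nc + 2 + 2 * j = cB nq nc + (2 + 2 * j); omega
  · show cB nq nc + 1 + 2 * j = cB nq nc + (1 + 2 * j); omega

theorem off_lt {nc : ℕ} {a : Act} (h : ∀ j b, a = some (j, b) → j < nc) : off a < cW nc := by
  unfold cW
  rcases a with _ | ⟨j, _ | _⟩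
  · show 0 < _; omega
  · have := h j false rfl
    show 2 + 2 * j < _; omega
  · have := h j true rfl
    show 1 + 2 * j < _; omega

theorem off_inj {a b : Act} (h : off a = off b) : a = b := by
  rcases a with _ | ⟨j, _ | _⟩ <;> rcases b with _ | ⟨j', _ | _⟩
  · rfl
  · have : 0 = 2 + 2 * j' := h
    omega
  · have : 0 = 1 + 2 * j' := h
    omega
  · have : 2 + 2 * j = 0 := h
    omega
  · have : 2 + 2 * j = 2 + 2 * j' := h
    have e : j = j' := by omega
    rw [e]
  · have : 2 + 2 * j = 1 + 2 * j' := h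
    omega
  · have : 1 + 2 * j = 0 := h
    omega
  · have : 1 + 2 * j = 2 + 2 * j' := h
    omega
  · have : 1 + 2 * j = 1 + 2 * j' := h
    have e : j = j' := by omega
    rw [e]

theorem cW_le_cE {nq : ℕ} (nc : ℕ) (h : 0 < nq) : cW nc ≤ cE nq nc := by
  unfold cE
  exact Nat.le_mul_of_pos_right _ h

section

variable {nq nc : ℕ} {T : List Tr} {L : ℕ}

theorem len1_pos (hT : Good nq nc T) (Y : Sys nq nc T L) (o : O1 T.length Y.KO) :
    1 ≤ len1 nq nc T Y.code o := by
  have hE := cE_pos nc hT.pos
  have hB : cB nq nc = 4 * cE nq nc + 4 := rfl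
  cases o with
  | al i => have := al_ge nq nc (T.get i).1; show 1 ≤ cAl nq nc (T.get i).1; omega
  | alE => have := al_ge nq nc 0; show 1 ≤ cAl nq nc 0; omega
  | rho i => exact le_rfl
  | rhoS => exact le_rfl
  | rhoS' => exact le_rfl
  | ka k => have := ka_eq nq nc (Y.code k); show 1 ≤ cKa nq nc (Y.code k); omega
  | fil =>
    show 1 ≤ cMax nq nc - cMu nq nc
    unfold cMax cMu; omega

theorem len1_ge (hT : Good nq nc T) (Y : Sys nq nc T L) (o : O1 T.length Y.KO)
    (h : ¬ isRho o) : cB nq nc ≤ len1 nq nc T Y.code o := by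
  have hE := cE_pos nc hT.pos
  have hB : cB nq nc = 4 * cE nq nc + 4 := rfl
  cases o with
  | al i => exact al_ge nq nc (T.get i).1
  | alE => exact al_ge nq nc 0
  | rho i => exact absurd trivial h
  | rhoS => exact absurd trivial h
  | rhoS' => exact absurd trivial h
  | ka k => have := ka_eq nq nc (Y.code k); show cB nq nc ≤ cKa nq nc (Y.code k); omega
  | fil =>
    show cB nq nc ≤ cMax nq nc - cMu nq nc
    unfold cMax cMu; omega

theorem len1_rho (Y : Sys nq nc T L) (o : O1 T.length Y.KO) (h : isRho o) :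
    len1 nq nc T Y.code o = 1 := by
  cases o with
  | al i => exact absurd h (fun h => h)
  | alE => exact absurd h (fun h => h)
  | rho i => rfl
  | rhoS => rfl
  | rhoS' => rfl
  | ka k => exact absurd h (fun h => h)
  | fil => exact absurd h (fun h => h)

theorem during (hT : Good nq nc T) (Y : Sys nq nc T L) (a b : O1 T.length Y.KO)
    (h1 : Y.s1 b ≤ Y.s1 a) (h2 : Y.s1 a < Y.s1 b + len1 nq nc T Y.code b) : a = b := by
  by_contra hne
  have p := len1_pos hT Y a
  rcases Y.dis1 a b hne with h | h <;> omega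

theorem work_step (hT : Good nq nc T) (Y : Sys nq nc T L) (t : ℕ) (G : Finset (O1 T.length Y.KO))
    (hG : ∀ o, Y.s1 o < t → o ∈ G) (o' : O1 T.length Y.KO) (ho : Y.s1 o' = t) :
    t + len1 nq nc T Y.code o' ≤ 1 + ∑ o ∈ G, w1 nq nc T o := by
  have p := len1_pos hT Y o'
  have e := Y.end1 o'
  have := Y.work (t + len1 nq nc T Y.code o' - 1) (by omega) G (by
    intro o h
    apply hG
    by_contra hlt
    have po := len1_pos hT Y o
    have : o = o' := during hT Y o o' (by omega) (by omega)
    rw [this] at h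
    omega)
  omega

end

end CSTEP

open CSTEP in
theorem CSTEP_holds : S_CSTEP := by
  classical
  intro nq nc T L Y s F c ρ β hT hA hc
  have hE1 := cE_pos nc hT.pos
  have hB : cB nq nc = 4 * cE nq nc + 4 := rfl
  have hMu : cMu nq nc = 1 + 3 * cE nq nc := rfl
  have hMax : cMax nq nc = 1 + 2 * cB nq nc + 2 * cE nq nc := rfl
  have hEnd : cEnd nq nc = cMax nq nc + 1 - cMu nq nc := rfl
  have hWE := cW_le_cE nc hT.pos
  have hβlo := hA.βlo
  have hsum := hA.sum
  have hwρ := hA.wρ
  have hρn := hA.ρnot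
  have hst := hA.start
  -- the length of the frame
  have hc3 : len3 nq nc T c = 1 + cKa nq nc (actOf T c) + cAl nq nc (tgtOf T c) := by
    cases c with
    | tr i => rfl
    | S => rfl
    | E => exact absurd rfl hc
  have hact : ∀ j b, actOf T c = some (j, b) → j < nc := by
    cases c with
    | tr i =>
      intro j b h
      exact hT.cnt (T.get i) (List.get_mem T i) j b h
    | S => intro j b h; exact absurd h (by simp [actOf])
    | E => exact absurd rfl hc
  have htgt : tgtOf T c < nq := by
    cases c with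
    | tr i => exact hT.tgt (T.get i) (List.get_mem T i)
    | S => exact hT.pos
    | E => exact hT.pos
  have hka1 := ka_eq nq nc (actOf T c)
  have hoff1 := off_lt hact
  have hal1 := al_ge nq nc (tgtOf T c)
  have hal2 := al_le (nc := nc) htgt
  have hlo : 1 + 2 * cB nq nc ≤ len3 nq nc T c := by omega
  have hhi : len3 nq nc T c ≤ cMax nq nc := by omega
  -- the end frame is later
  have hEs : s + len3 nq nc T c ≤ Y.s3 O3.E := by
    have h0 := hA.hE
    rcases Y.dis3 c O3.E hc with h | h
    · omega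
    · have : len3 nq nc T (O3.E : O3 T.length) = cEnd nq nc := rfl
      omega
  have hEL := Y.end3 O3.E
  have hEl : len3 nq nc T (O3.E : O3 T.length) = cEnd nq nc := rfl
  -- the first operation
  obtain ⟨o1, ho1⟩ := Y.next1 s (by omega) hA.bdry
  have W1 := work_step hT Y s F (fun o h => (hA.mem o).2 h) o1 ho1
  have hr1 : isRho o1 := by
    by_contra h
    have := len1_ge hT Y o1 h
    omega
  have e1 : o1 = ρ := by
    by_contra h
    have := hA.others o1 hr1 (by omega) h
    omega
  have hρs : Y.s1 ρ = s := by rw [← e1]; exact ho1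
  have hρl := len1_rho Y ρ hA.ρrho
  have hρF : ρ ∉ F := by
    intro h
    have := (hA.mem ρ).1 h
    omega
  refine ⟨hρs, ?_⟩
  -- no unit operation between
  have hnr : ∀ o, s < Y.s1 o → Y.s1 o < s + len3 nq nc T c → ¬ isRho o := by
    intro o h1 h2 h3
    have hne : o ≠ ρ := by intro h; rw [h] at h1; omega
    have := hA.others o h3 (by omega) hne
    omega
  -- the second operation
  obtain ⟨o2, ho2⟩ := Y.next1 (s + 1) (by omega) (Or.inr ⟨ρ, by omega⟩)
  have hG1 : ∀ o, Y.s1 o < s + 1 → o ∈ insert ρ F := by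
    intro o h
    by_cases h' : Y.s1 o < s
    · exact Finset.mem_insert_of_mem ((hA.mem o).2 h')
    · have : o = ρ := during hT Y o ρ (by omega) (by omega)
      rw [this]; exact Finset.mem_insert_self _ _
  have W2 := work_step hT Y (s + 1) (insert ρ F) hG1 o2 ho2
  rw [Finset.sum_insert hρF] at W2
  have hn2 : ¬ isRho o2 := hnr o2 (by omega) (by omega)
  -- the next frame
  obtain ⟨z, hz⟩ := Y.next3 (s + len3 nq nc T c) (by omega) (Or.inr ⟨c, by omega⟩)
  have hzS : z ≠ O3.S := by
    intro h
    have h0 := hA.hS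
    rw [h] at hz
    omega
  have hza : ∃ a : O1 T.length Y.KO, alOf z = some a ∧ Y.s1 a + len1 nq nc T Y.code a ≤ Y.s3 z ∧
      len1 nq nc T Y.code a = cAl nq nc (stOf T a) ∧ stOf T a < nq ∧ w1 nq nc T a = 0 ∧
      ¬ isRho a ∧ (∀ k, a ≠ O1.ka k) ∧ a ≠ O1.fil := by
    cases z with
    | tr i =>
      refine ⟨O1.al i, rfl, Y.prec_al i, rfl, hT.src (T.get i) (List.get_mem T i), rfl,
        (fun h => h), ?_, ?_⟩
      · intro k h; cases h
      · intro h; cases h
    | S => exact absurd rfl hzS
    | E =>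
      refine ⟨O1.alE, rfl, Y.prec_alE, rfl, hT.pos, rfl, (fun h => h), ?_, ?_⟩
      · intro k h; cases h
      · intro h; cases h
  obtain ⟨a, hza1, hae, hal, hast, haw, har, hak, haf⟩ := hza
  have has : s ≤ Y.s1 a := by
    by_contra h
    have := hA.alpha z a hza1 (by omega)
    omega
  have hal3 := al_ge nq nc (stOf T a)
  have hal4 := al_le (nc := nc) hast
  have haρ : a ≠ ρ := by intro h; rw [h] at har; exact har hA.ρrho
  have has1 : s + 1 ≤ Y.s1 a := by
    rcases Y.dis1 a ρ haρ with h | h <;> omega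
  -- a is after o2 unless equal
  have hao2 : a ≠ o2 → s + 1 + len1 nq nc T Y.code o2 ≤ Y.s1 a := by
    intro h
    rcases Y.dis1 a o2 h with h' | h' <;> omega
  have ho2ρ : o2 ∉ insert ρ F := by
    intro h
    rcases Finset.mem_insert.1 h with h | h
    · rw [h] at ho2; omega
    · have := (hA.mem o2).1 h; omega
  have hG2 : ∀ o, Y.s1 o < s + 1 + len1 nq nc T Y.code o2 → o ∈ insert o2 (insert ρ F) := by
    intro o h
    by_cases h' : Y.s1 o < s + 1
    · exact Finset.mem_insert_of_mem (hG1 o h')
    · have : o = o2 := during hT Y o o2 (by omega) (by omega)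
      rw [this]; exact Finset.mem_insert_self _ _
  -- o2 is not a state operation
  have hstate : w1 nq nc T o2 = 0 → len1 nq nc T Y.code o2 ≤ cB nq nc + cE nq nc → False := by
    intro hw hl
    have hge := len1_ge hT Y o2 hn2
    obtain ⟨o3, ho3⟩ := Y.next1 (s + 1 + len1 nq nc T Y.code o2) (by omega)
      (Or.inr ⟨o2, by omega⟩)
    have W3 := work_step hT Y _ _ hG2 o3 ho3
    rw [Finset.sum_insert ho2ρ, Finset.sum_insert hρF, hw] at W3
    have hn3 : ¬ isRho o3 := hnr o3 (by omega) (by omega)
    have := len1_ge hT Y o3 hn3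
    omega
  have hk : ∃ k, o2 = O1.ka k := by
    cases o2 with
    | al i =>
      exact absurd (hstate rfl (al_le (hT.src (T.get i) (List.get_mem T i)))) (fun h => h)
    | alE => exact absurd (hstate rfl (al_le hT.pos)) (fun h => h)
    | rho i => exact absurd trivial hn2
    | rhoS => exact absurd trivial hn2
    | rhoS' => exact absurd trivial hn2
    | ka k => exact ⟨k, rfl⟩
    | fil =>
      have h := hao2 haf
      have hl : len1 nq nc T Y.code (O1.fil : O1 T.length Y.KO) = cMax nq nc - cMu nq nc := rfl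
      exfalso
      omega
  obtain ⟨k, hk⟩ := hk
  have hkl : len1 nq nc T Y.code o2 = cKa nq nc (Y.code k) := by rw [hk]; rfl
  have hkw : w1 nq nc T o2 = cMu nq nc := by rw [hk]; rfl
  have hkk := ka_eq nq nc (Y.code k)
  have hoffk := off_lt (Y.code_lt k)
  have hk2 : len1 nq nc T Y.code o2 ≤ cB nq nc + cE nq nc := by omega
  have hk1 : cB nq nc ≤ len1 nq nc T Y.code o2 := by omega
  -- the third operation
  obtain ⟨o3, ho3⟩ := Y.next1 (s + 1 + len1 nq nc T Y.code o2) (by omega) (Or.inr ⟨o2, by omega⟩)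
  have hn3 : ¬ isRho o3 := hnr o3 (by omega) (by omega)
  have hl3 := len1_ge hT Y o3 hn3
  have ha2 : a ≠ o2 := by rw [hk]; exact hak k
  have hge2 := hao2 ha2
  have ha3 : a = o3 := by
    by_contra h
    rcases Y.dis1 a o3 h with h' | h' <;> omega
  have has3 : Y.s1 a = s + 1 + len1 nq nc T Y.code o2 := by rw [ha3]; exact ho3
  have hle : Y.s1 a + len1 nq nc T Y.code a ≤ s + len3 nq nc T c := by omega
  have haG : a ∉ insert o2 (insert ρ F) := by
    intro h
    rcases Finset.mem_insert.1 h with h | h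
    · exact ha2 h
    · rcases Finset.mem_insert.1 h with h | h
      · exact haρ h
      · have := (hA.mem a).1 h; omega
  have hG3 : ∀ o, Y.s1 o < Y.s1 a + len1 nq nc T Y.code a →
      o ∈ insert a (insert o2 (insert ρ F)) := by
    intro o h
    by_cases h' : Y.s1 o < s + 1 + len1 nq nc T Y.code o2
    · exact Finset.mem_insert_of_mem (hG2 o h')
    · have : o = a := during hT Y o a (by omega) (by omega)
      rw [this]; exact Finset.mem_insert_self _ _
  -- the three operations fill the frame
  have hfull : Y.s1 a + len1 nq nc T Y.code a = s + len3 nq nc T c := by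
    by_contra hne
    have hlt : Y.s1 a + len1 nq nc T Y.code a < s + len3 nq nc T c := by omega
    obtain ⟨o4, ho4⟩ := Y.next1 (Y.s1 a + len1 nq nc T Y.code a) (by omega) (Or.inr ⟨a, rfl⟩)
    have W4 := work_step hT Y _ _ hG3 o4 ho4
    rw [Finset.sum_insert haG, Finset.sum_insert ho2ρ, Finset.sum_insert hρF, haw, hkw] at W4
    have hn4 : ¬ isRho o4 := hnr o4 (by omega) (by omega)
    have := len1_ge hT Y o4 hn4
    omega
  -- decoding
  have hdec : off (Y.code k) + cW nc * stOf T a = off (actOf T c) + cW nc * tgtOf T c := by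
    have u1 : cAl nq nc (stOf T a) = cB nq nc + cW nc * stOf T a := rfl
    have u2 : cAl nq nc (tgtOf T c) = cB nq nc + cW nc * tgtOf T c := rfl
    omega
  have hW := cW_pos nc
  have hd1 : off (Y.code k) = off (actOf T c) := by
    have h1 := congrArg (fun n => n % cW nc) hdec
    simp only [Nat.add_mul_mod_self_left] at h1
    rw [Nat.mod_eq_of_lt hoffk, Nat.mod_eq_of_lt hoff1] at h1
    exact h1
  have hd2 : stOf T a = tgtOf T c := by
    have h1 : cW nc * stOf T a = cW nc * tgtOf T c := by omega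
    exact Nat.eq_of_mul_eq_mul_left (by omega) h1
  refine ⟨k, z, a, off_inj hd1, hza1, hd2, hz, ?_, ?_, hfull, ?_⟩
  · rw [← hk]; exact ho2
  · rw [has3, hkl]
  · intro o h1 h2
    by_contra hcon
    push Not at hcon
    obtain ⟨c1, c2, c3⟩ := hcon
    rw [← hk] at c2
    have d1 : s + 1 ≤ Y.s1 o := by
      have := len1_pos hT Y o
      rcases Y.dis1 o ρ c1 with h | h <;> omega
    have d2 : s + 1 + len1 nq nc T Y.code o2 ≤ Y.s1 o := by
      have := len1_pos hT Y o
      rcases Y.dis1 o o2 c2 with h | h <;> omega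
    have := len1_pos hT Y o
    rcases Y.dis1 o a c3 with h | h <;> omega

end Pool.Agent.H453R2.JS
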