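import Pool.Agent.H453R2.JS.Spec

/-! # Task CYC: a sequence of rules gives a walk -/

namespace Pool.Agent.H453R2.JS

namespace CYC

/-- the walk of a sequence of rules -/
def wk (D : ℕ) (R : List Rule) (v : List ℕ) : List Tr := v.flatMap (fun i => cyc D i (rl R i))

/-! ### permutation -/

theorem zipIdx_eq (R : List Rule) : R.zipIdx = (List.range R.length).map (fun i => (rl R i, i)) := by
  apply List.ext_getElem
  · simp
  · intro i h1 h2
    have h3 : i < R.length := by simpa using h1
    rw [List.getElem_zipIdx, List.getElem_map, List.getElem_range]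
    simp only [rl, zero_add, List.getD_eq_getElem?_getD, List.getElem?_eq_getElem h3, Option.getD_some]

theorem count_u (R : List Rule) (a : ℕ) : List.count a ((List.range R.length).flatMap
    (fun i => List.replicate (rl R i).2.2 i)) = (rl R a).2.2 := by
  have key : ∀ n : ℕ, List.count a ((List.range n).flatMap
      (fun i => List.replicate (rl R i).2.2 i)) = if a < n then (rl R a).2.2 else 0 := by
    intro n
    induction n with
    | zero => simp
    | succ n ih =>
      rw [List.range_succ, List.flatMap_append, List.count_append, ih, List.flatMap_singleton,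
        List.count_replicate]
      by_cases h : a < n
      · have h1 : ¬ n = a := by omega
        simp [h, h1, show a < n + 1 by omega]
      · by_cases h1 : n = a
        · subst h1; simp
        · simp [h, h1, show ¬ a < n + 1 by omega]
  rw [key]
  split_ifs with h
  · rfl
  · rw [rl, List.getD_eq_default _ _ (by omega)]

theorem perm_u {R : List Rule} {v : List ℕ} (hv : ∀ i, v.count i = (rl R i).2.2) :
    v.Perm ((List.range R.length).flatMap (fun i => List.replicate (rl R i).2.2 i)) := by
  rw [List.perm_iff_count]
  intro a
  rw [hv, count_u]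

theorem perm_wk {D : ℕ} {R : List Rule} {v : List ℕ} (hv : ∀ i, v.count i = (rl R i).2.2) :
    (wk D R v).Perm (toT D R) := by
  have h1 : toT D R = (wk D R ((List.range R.length).flatMap
      (fun i => List.replicate (rl R i).2.2 i))) := by
    unfold toT wk
    rw [zipIdx_eq, List.flatMap_map, List.flatMap_assoc]
    apply List.flatMap_congr
    intro i _
    rw [List.flatMap_replicate]
  rw [h1]
  exact List.Perm.flatMap_right _ (perm_u hv)

/-! ### walk -/

theorem walk_append (w1 w2 : List Tr) (q m r : ℕ) (h1 : IsWalk q m w1) (h2 : IsWalk m r w2) :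
    IsWalk q r (w1 ++ w2) := by
  induction w1 generalizing q with
  | nil =>
    have h : q = m := h1
    subst h
    exact h2
  | cons t w1 ih => exact ⟨h1.1, ih _ h1.2⟩

theorem walk_link (as : List Act) (q s : ℕ) : IsWalk q 0 (link q s as) := by
  induction as generalizing q s with
  | nil => exact ⟨rfl, rfl⟩
  | cons a as ih => exact ⟨rfl, ih _ _⟩

theorem walk_wk (D : ℕ) (R : List Rule) (v : List ℕ) : IsWalk 0 0 (wk D R v) := by
  induction v with
  | nil => exact rfl
  | cons i v ih =>
    unfold wk at ih ⊢
    rw [List.flatMap_cons]
    exact walk_append _ _ _ 0 _ (walk_link _ _ _) ih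

/-! ### actions -/

theorem acts_link (as : List Act) (q s : ℕ) : (link q s as).map (fun t => t.2.1) = as ++ [none] := by
  induction as generalizing q s with
  | nil => rfl
  | cons a as ih =>
    rw [link, List.map_cons, ih]
    rfl

theorem nact_eq (a : Act) (w : List Tr) : nact a w = (w.map (fun t => t.2.1)).count a := by
  unfold nact
  rw [List.count, List.countP_map]
  congr 1
  funext t
  simp [beq_eq_decide]

theorem acts_cyc (D i : ℕ) (r : Rule) : (cyc D i r).map (fun t => t.2.1) =
    r.1.map (fun p => some (p, false)) ++ r.2.1.map (fun p => some (p, true)) ++ [none] := by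
  unfold cyc
  rw [acts_link]

theorem count_map_f (l : List ℕ) (j : ℕ) (b : Bool) :
    (l.map (fun p => (some (p, b) : Act))).count (some (j, b)) = l.count j := by
  have h : Function.Injective (fun p : ℕ => (some (p, b) : Act)) := by
    intro x y hxy
    simpa using hxy
  exact List.count_map_of_injective l (fun p : ℕ => (some (p, b) : Act)) h j

theorem count_map_g (l : List ℕ) (j : ℕ) (b b' : Bool) (h : b ≠ b') :
    (l.map (fun p => (some (p, b) : Act))).count (some (j, b')) = 0 := by
  rw [List.count_eq_zero]
  intro h1
  rw [List.mem_map] at h1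
  obtain ⟨p, _, h2⟩ := h1
  simp only [Option.some.injEq, Prod.mk.injEq] at h2
  exact h h2.2

theorem nact_cyc_false (D i j : ℕ) (r : Rule) : nact (some (j, false)) (cyc D i r) = r.1.count j := by
  rw [nact_eq, acts_cyc, List.count_append, List.count_append, count_map_f,
    count_map_g _ _ true false (by decide)]
  simp

theorem nact_cyc_true (D i j : ℕ) (r : Rule) : nact (some (j, true)) (cyc D i r) = r.2.1.count j := by
  rw [nact_eq, acts_cyc, List.count_append, List.count_append, count_map_f,
    count_map_g _ _ false true (by decide)]
  simp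

theorem nact_append (a : Act) (w w' : List Tr) : nact a (w ++ w') = nact a w + nact a w' := by
  unfold nact
  rw [List.countP_append]

theorem nact_wk_false (D : ℕ) (R : List Rule) (v : List ℕ) (j : ℕ) :
    nact (some (j, false)) (wk D R v) = preC R v j := by
  induction v with
  | nil => rfl
  | cons i v ih =>
    unfold wk preC at *
    rw [List.flatMap_cons, nact_append, nact_cyc_false, ih, List.map_cons, List.sum_cons]

theorem nact_wk_true (D : ℕ) (R : List Rule) (v : List ℕ) (j : ℕ) :
    nact (some (j, true)) (wk D R v) = postC R v j := by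
  induction v with
  | nil => rfl
  | cons i v ih =>
    unfold wk postC at *
    rw [List.flatMap_cons, nact_append, nact_cyc_true, ih, List.map_cons, List.sum_cons]

/-- prefixes of a concatenation -/
theorem prefix_flatMap {α β : Type*} (f : α → List β) (v : List α) (l : List β)
    (h : l <+: v.flatMap f) : l = [] ∨ ∃ u i l', u ++ [i] <+: v ∧ l' <+: f i ∧
      l = u.flatMap f ++ l' := by
  induction v generalizing l with
  | nil =>
    left
    simpa using h
  | cons a v ih =>
    rw [List.flatMap_cons] at h
    rcases List.prefix_or_prefix_of_prefix h (List.prefix_append (f a) _) with h1 | h1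
    · right
      exact ⟨[], a, l, by simp, h1, by simp⟩
    · obtain ⟨l1, rfl⟩ := h1
      rw [List.prefix_append_right_inj] at h
      right
      rcases ih l1 h with h2 | ⟨u, i, l', h2, h3, h4⟩
      · subst h2
        exact ⟨[], a, f a, by simp, List.prefix_refl _, by simp⟩
      · refine ⟨a :: u, i, l', ?_, h3, ?_⟩
        · rw [List.cons_append]
          exact List.cons_prefix_cons.2 ⟨rfl, h2⟩
        · rw [List.flatMap_cons, h4, List.append_assoc]

theorem nonneg_wk {D : ℕ} {R : List Rule} {v : List ℕ} (hv : Legal R v) : Nonneg (wk D R v) := by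
  intro l hl j
  rcases prefix_flatMap _ _ _ hl with h | ⟨u, i, l', h1, h2, h3⟩
  · subst h
    simp [nact]
  · subst h3
    rw [nact_append, nact_append]
    have e1 := nact_wk_false D R u j
    have e2 := nact_wk_true D R u j
    unfold wk at e1 e2
    rw [e1, e2]
    have h4 := hv u i h1 j
    have h5 : preC R (u ++ [i]) j = preC R u j + (rl R i).1.count j := by
      unfold preC
      rw [List.map_append, List.sum_append]
      simp
    have h6 : nact (some (j, false)) l' ≤ (rl R i).1.count j := by
      rw [← nact_cyc_false D i j (rl R i)]
      exact h2.sublist.countP_le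
    omega

/-! ### gap -/

/-- the relation of `Gap` on actions -/
def GS (a b : Act) : Prop := ∀ j j', a = some (j, true) → b ≠ some (j', false)

theorem gs_acts (r : Rule) : (r.1.map (fun p => (some (p, false) : Act)) ++
    r.2.1.map (fun p => some (p, true)) ++ [none]).Pairwise GS := by
  have h1 : ∀ a ∈ r.1.map (fun p => (some (p, false) : Act)), ∀ b, GS a b := by
    intro a ha b j j' h
    rw [List.mem_map] at ha
    obtain ⟨p, _, hp⟩ := ha
    rw [← hp] at h
    simp at h
  have h2 : ∀ b ∈ r.2.1.map (fun p => (some (p, true) : Act)) ++ [none], ∀ a, GS a b := by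
    intro b hb a j j' _ h
    rw [List.mem_append, List.mem_map, List.mem_singleton] at hb
    rcases hb with ⟨p, _, hp⟩ | hb
    · rw [← hp] at h
      simp at h
    · rw [hb] at h
      simp at h
  rw [List.append_assoc, List.pairwise_append]
  refine ⟨?_, ?_, ?_⟩
  · exact List.Pairwise.imp_of_mem (R := fun _ _ => True) (fun ha _ _ => h1 _ ha _)
      (List.pairwise_of_forall (fun _ _ => trivial))
  · exact List.Pairwise.imp_of_mem (R := fun _ _ => True) (fun _ hb _ => h2 _ hb _)
      (List.pairwise_of_forall (fun _ _ => trivial))
  · intro a ha b _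
    exact h1 a ha b

theorem gap_wk (D : ℕ) (R : List Rule) (v : List ℕ) : Gap (wk D R v) := by
  have h0 : Gap (wk D R v) ↔ ((wk D R v).map (fun t => t.2.1)).IsChain GS := by
    rw [List.isChain_map]
    rfl
  rw [h0]
  clear h0
  induction v with
  | nil => exact List.isChain_nil
  | cons i v ih =>
    unfold wk at ih ⊢
    rw [List.flatMap_cons, List.map_append, List.isChain_append, acts_cyc]
    refine ⟨(gs_acts _).isChain, ih, ?_⟩
    intro x hx y _ j j' h
    rw [List.getLast?_append] at hx
    simp only [List.getLast?_singleton, Option.some_or, Option.mem_def, Option.some.injEq] at hx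
    rw [← hx] at h
    simp at h

end CYC

theorem CYC_holds : S_CYC := by
  intro D np R _ hF
  obtain ⟨v, hv, hL⟩ := hF
  exact ⟨CYC.wk D R v, CYC.perm_wk hv, CYC.walk_wk D R v, CYC.nonneg_wk hL, CYC.gap_wk D R v⟩

end Pool.Agent.H453R2.JS
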