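import Pool.Agent.H453R2.JS.Spec

namespace Pool.Agent.H453R2.JS

namespace CYS

/-- The actions of a rule. -/
def aR (r : Rule) : List Act :=
  r.1.map (fun p => some (p, false)) ++ r.2.1.map (fun p => some (p, true))

theorem cyc_eq (D i : ℕ) (r : Rule) : cyc D i r = link 0 (1 + i * D) (aR r) := rfl

theorem aR_length (r : Rule) : (aR r).length = r.1.length + r.2.1.length := by
  simp [aR]

theorem map_link : ∀ (as : List Act) (q s : ℕ),
    (link q s as).map (fun t => t.2.1) = as ++ [none]
  | [], q, s => by simp [link]
  | a :: as, q, s => by simp [link, map_link as]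

theorem nact_eq (a : Act) (w : List Tr) : nact a w = (w.map (fun t => t.2.1)).count a := by
  unfold nact
  rw [List.count, List.countP_map]
  congr 1
  funext t
  simp [Function.comp, beq_eq_decide]

theorem countP_link (c : ℕ) (hc : 1 ≤ c) : ∀ (as : List Act) (q s : ℕ),
    (link q s as).countP (fun t => t.2.2 = c) = if s ≤ c ∧ c < s + as.length then 1 else 0
  | [], q, s => by
      have h0 : ¬ (0 = c) := by omega
      have h1 : ¬ (s ≤ c ∧ c < s + ([] : List Act).length) := by simp
      rw [if_neg h1]
      simp [link, h0]
  | a :: as, q, s => by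
      rw [link, List.countP_cons, countP_link c hc as]
      simp only [List.length_cons, decide_eq_true_eq]
      by_cases h : s = c
      · subst h
        rw [if_neg (by omega), if_pos rfl, if_pos (by omega)]
      · rw [if_neg h]
        by_cases h2 : s + 1 ≤ c ∧ c < s + 1 + as.length
        · rw [if_pos h2, if_pos (by omega)]
        · rw [if_neg h2, if_neg (by omega)]

theorem mem_link : ∀ (as : List Act) (q s : ℕ) (t : Tr), t ∈ link q s as →
    ∃ k, k ≤ as.length ∧ t.1 = (if k = 0 then q else s + (k - 1)) ∧ t.2.1 = as.getD k none ∧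
      t.2.2 = (if k < as.length then s + k else 0)
  | [], q, s, t, h => by
      simp [link] at h
      subst h
      exact ⟨0, by simp⟩
  | a :: as, q, s, t, h => by
      simp only [link, List.mem_cons] at h
      rcases h with h | h
      · subst h
        exact ⟨0, by simp⟩
      · obtain ⟨k, hk, h1, h2, h3⟩ := mem_link as s (s + 1) t h
        refine ⟨k + 1, by simp; exact hk, ?_, ?_, ?_⟩
        · rw [h1]
          by_cases hk0 : k = 0
          · simp [hk0]
          · rw [if_neg hk0, if_neg (by omega)]; omega
        · rw [h2]; simp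
        · rw [h3]
          simp only [List.length_cons]
          by_cases hk1 : k < as.length
          · rw [if_pos hk1, if_pos (by omega)]; omega
          · rw [if_neg hk1, if_neg (by omega)]

/-- The transitions of the cycles. -/
def Fam (D : ℕ) (R : List Rule) (t : Tr) : Prop := ∃ i, i < R.length ∧ t ∈ cyc D i (rl R i)

theorem euc {D i j a b : ℕ} (ha : a < D) (hb : b < D) (h : i * D + a = j * D + b) :
    i = j ∧ a = b := by
  have hD : 0 < D := by omega
  have h1 : (i * D + a) / D = i := by
    rw [Nat.add_comm, Nat.add_mul_div_right _ _ hD, Nat.div_eq_of_lt ha, Nat.zero_add]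
  have h2 : (j * D + b) / D = j := by
    rw [Nat.add_comm, Nat.add_mul_div_right _ _ hD, Nat.div_eq_of_lt hb, Nat.zero_add]
  have h3 : i = j := by rw [← h1, ← h2, h]
  subst h3
  exact ⟨rfl, by omega⟩

variable {D np : ℕ} {R : List Rule}

theorem rl_mem {i : ℕ} (hi : i < R.length) : rl R i ∈ R := by
  unfold rl
  rw [List.getD_eq_getElem _ _ hi]
  exact List.getElem_mem hi

theorem len_le (hR : GoodR D np R) {i : ℕ} (hi : i < R.length) : (aR (rl R i)).length ≤ D := by
  rw [aR_length]; exact hR.len _ (rl_mem hi)

theorem len_pos (hR : GoodR D np R) {i : ℕ} (hi : i < R.length) : 0 < (aR (rl R i)).length := by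
  have := hR.ne _ (rl_mem hi)
  rw [aR_length]
  by_contra h
  apply this
  have h1 : (rl R i).1.length = 0 := by omega
  have h2 : (rl R i).2.1.length = 0 := by omega
  rw [List.length_eq_zero_iff] at h1 h2
  rw [h1, h2]; rfl

theorem fam_src_zero (hR : GoodR D np R) {t : Tr} (ht : Fam D R t) (h0 : t.1 = 0) :
    ∃ i, i < R.length ∧ t = (0, (aR (rl R i)).getD 0 none, 1 + i * D) := by
  obtain ⟨i, hi, hm⟩ := ht
  rw [cyc_eq] at hm
  obtain ⟨k, hk, h1, h2, h3⟩ := mem_link _ _ _ _ hm
  have hk0 : k = 0 := by
    by_contra hk0
    rw [if_neg hk0] at h1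
    omega
  subst hk0
  refine ⟨i, hi, ?_⟩
  rw [if_pos (len_pos hR hi)] at h3
  obtain ⟨a, b, c⟩ := t
  simp only at h0 h1 h2 h3
  rw [h0, h2, h3]
  rfl

theorem fam_src (hR : GoodR D np R) {t : Tr} (ht : Fam D R t) {i k : ℕ} (hi : i < R.length)
    (hk : k < (aR (rl R i)).length) (h0 : t.1 = 1 + i * D + k) :
    t = (1 + i * D + k, (aR (rl R i)).getD (k + 1) none,
      if k + 1 < (aR (rl R i)).length then 1 + i * D + (k + 1) else 0) := by
  obtain ⟨j, hj, hm⟩ := ht
  rw [cyc_eq] at hm
  obtain ⟨l, hl, h1, h2, h3⟩ := mem_link _ _ _ _ hm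
  have hl0 : l ≠ 0 := by
    intro hl0
    rw [if_pos hl0] at h1
    omega
  rw [if_neg hl0, h0] at h1
  have hlj := len_le hR hj
  have hli := len_le hR hi
  obtain ⟨e1, e2⟩ := euc (D := D) (i := i) (j := j) (a := k) (b := l - 1) (by omega) (by omega)
    (by omega)
  subst e1
  have e3 : l = k + 1 := by omega
  subst e3
  obtain ⟨a, b, c⟩ := t
  simp only at h0 h1 h2 h3
  rw [h0, h2, h3]

theorem walk_inner (hR : GoodR D np R) {i : ℕ} (hi : i < R.length) : ∀ (m k : ℕ) (w : List Tr),
    k < (aR (rl R i)).length → (aR (rl R i)).length = k + 1 + m → (∀ t ∈ w, Fam D R t) →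
    IsWalk (1 + i * D + k) 0 w →
    ∃ w', w = link (1 + i * D + k) (1 + i * D + (k + 1)) ((aR (rl R i)).drop (k + 1)) ++ w' ∧
      IsWalk 0 0 w'
  | m, k, [], hk, hm, hw, h => by
      simp only [IsWalk] at h
      omega
  | 0, k, t :: w, hk, hm, hw, h => by
      simp only [IsWalk] at h
      obtain ⟨h1, h2⟩ := h
      have ht := fam_src hR (hw t (by simp)) hi hk h1
      have hd : (aR (rl R i)).drop (k + 1) = [] := List.drop_eq_nil_of_le (by omega)
      have hg : (aR (rl R i)).getD (k + 1) none = none := by
        rw [List.getD_eq_default]; omega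
      rw [if_neg (by omega), hg] at ht
      rw [hd, ht]
      rw [ht] at h2
      exact ⟨w, by simp [link], h2⟩
  | m + 1, k, t :: w, hk, hm, hw, h => by
      simp only [IsWalk] at h
      obtain ⟨h1, h2⟩ := h
      have ht := fam_src hR (hw t (by simp)) hi hk h1
      have hk1 : k + 1 < (aR (rl R i)).length := by omega
      rw [if_pos hk1] at ht
      rw [ht] at h2
      obtain ⟨w', e1, e2⟩ := walk_inner hR hi m (k + 1) w hk1 (by omega)
        (fun t ht => hw t (by simp [ht])) h2
      refine ⟨w', ?_, e2⟩
      rw [e1, ht]
      have hd : (aR (rl R i)).drop (k + 1) =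
          (aR (rl R i)).getD (k + 1) none :: (aR (rl R i)).drop (k + 1 + 1) := by
        rw [List.getD_eq_getElem _ _ hk1]
        exact List.drop_eq_getElem_cons hk1
      rw [hd, link]
      rfl

theorem walk_outer (hR : GoodR D np R) : ∀ (n : ℕ) (w : List Tr), w.length ≤ n →
    (∀ t ∈ w, Fam D R t) → IsWalk 0 0 w →
    ∃ v : List ℕ, (∀ i ∈ v, i < R.length) ∧
      w = (v.map (fun i => cyc D i (rl R i))).flatten
  | n, [], hn, hw, h => ⟨[], by simp⟩
  | 0, t :: w, hn, hw, h => by simp at hn
  | n + 1, t :: w, hn, hw, h => by
      simp only [IsWalk] at h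
      obtain ⟨h1, h2⟩ := h
      obtain ⟨i, hi, ht⟩ := fam_src_zero hR (hw t (by simp)) h1
      rw [ht] at h2
      obtain ⟨w', e1, e2⟩ := walk_inner hR hi ((aR (rl R i)).length - 1) 0 w (len_pos hR hi)
        (by have := len_pos hR hi; omega) (fun t ht => hw t (by simp [ht])) h2
      have hlen : w'.length ≤ n := by
        have : w'.length ≤ w.length := by rw [e1]; simp
        simp only [List.length_cons] at hn
        omega
      obtain ⟨v, hv, hv2⟩ := walk_outer hR n w' hlen
        (fun t ht => hw t (by rw [e1]; simp [ht])) e2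
      refine ⟨i :: v, by simpa using ⟨hi, hv⟩, ?_⟩
      rw [List.map_cons, List.flatten_cons, ← hv2, e1, ht, cyc_eq]
      have hd : aR (rl R i) =
          (aR (rl R i)).getD 0 none :: (aR (rl R i)).drop (0 + 1) := by
        rw [List.getD_eq_getElem _ _ (len_pos hR hi)]
        conv_lhs => rw [← List.drop_zero (l := aR (rl R i))]
        exact List.drop_eq_getElem_cons (len_pos hR hi)
      conv_rhs => rw [hd]
      rw [link]
      rfl

theorem countP_cyc (hR : GoodR D np R) {i j : ℕ} (hj : j < R.length) :
    (cyc D j (rl R j)).countP (fun t => t.2.2 = 1 + i * D) = if j = i then 1 else 0 := by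
  rw [cyc_eq, countP_link _ (by omega)]
  have h1 := len_le hR hj
  have h2 := len_pos hR hj
  by_cases h : j = i
  · subst h
    rw [if_pos rfl, if_pos (by omega)]
  · rw [if_neg h, if_neg]
    rintro ⟨h3, h4⟩
    apply h
    have h5 : j * D ≤ i * D := by omega
    obtain ⟨e, -⟩ := euc (D := D) (i := j) (j := i) (a := i * D - j * D) (b := 0)
      (by omega) (by omega) (by omega)
    exact e

theorem count_flatten (hR : GoodR D np R) (i : ℕ) : ∀ v : List ℕ, (∀ j ∈ v, j < R.length) →
    ((v.map (fun j => cyc D j (rl R j))).flatten).countP (fun t => t.2.2 = 1 + i * D) = v.count i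
  | [], _ => by simp
  | j :: v, hv => by
      rw [List.map_cons, List.flatten_cons, List.countP_append,
        count_flatten hR i v (fun j hj => hv j (by simp [hj])), countP_cyc hR (hv j (by simp)),
        List.count_cons]
      by_cases h : j = i
      · simp [h, Nat.add_comm]
      · simp [h]

theorem countP_rep {α : Type} (p : α → Bool) (l : List α) : ∀ n : ℕ,
    ((List.replicate n l).flatten).countP p = n * l.countP p
  | 0 => by simp
  | n + 1 => by
      rw [List.replicate_succ, List.flatten_cons, List.countP_append, countP_rep p l n]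
      ring

theorem zip_sum (f : Rule → ℕ → ℕ) (g : Rule → ℕ) (hg : g ([], [], 0) = 0)
    (i : ℕ) : ∀ (R : List Rule) (n k : ℕ),
    (∀ r j, (r, j) ∈ R.zipIdx n → f r j = if j = n + k then g r else 0) →
    ((R.zipIdx n).map (fun rj => f rj.1 rj.2)).sum = g (R.getD k ([], [], 0))
  | [], n, k, h => by simp [hg]
  | r :: R, n, k, h => by
      have h0 := h r n (by simp)
      cases k with
      | zero =>
        have hz : ((R.zipIdx (n + 1)).map (fun rj => f rj.1 rj.2)).sum = 0 := by
          apply List.sum_eq_zero
          intro x hx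
          rw [List.mem_map] at hx
          obtain ⟨⟨r', j'⟩, hm, rfl⟩ := hx
          have h1 := h r' j' (by rw [List.zipIdx_cons]; simp [hm])
          have h2 : n + 1 ≤ j' := by
            have := List.le_snd_of_mem_zipIdx hm
            simpa using this
          rw [h1, if_neg (by omega)]
        rw [List.zipIdx_cons, List.map_cons, List.sum_cons, hz, h0]
        simp
      | succ k =>
        have ih := zip_sum f g hg i R (n + 1) k (by
          intro r' j' hm
          rw [h r' j' (by rw [List.zipIdx_cons]; simp [hm])]
          congr 1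
          apply propext
          constructor <;> intro h <;> omega)
        rw [List.zipIdx_cons, List.map_cons, List.sum_cons, ih, h0, if_neg (by omega)]
        simp

theorem count_toT (hR : GoodR D np R) (i : ℕ) :
    (toT D R).countP (fun t => t.2.2 = 1 + i * D) = (rl R i).2.2 := by
  unfold toT
  rw [List.countP_flatMap]
  have := zip_sum (fun r j => (((List.replicate r.2.2 (cyc D j r)).flatten).countP
    (fun t => t.2.2 = 1 + i * D))) (fun r => r.2.2) rfl i R 0 i (by
      intro r j hm
      rw [countP_rep]
      rw [List.mem_zipIdx_iff_getElem?] at hm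
      simp only [] at hm
      obtain ⟨hj, hr⟩ := List.getElem?_eq_some_iff.1 hm
      have hrl : rl R j = r := by
        unfold rl
        rw [List.getD_eq_getElem _ _ hj, hr]
      have := countP_cyc (i := i) hR hj
      rw [hrl] at this
      rw [this]
      by_cases h : j = i
      · simp [h]
      · simp [h])
  rw [← show (R.getD i ([], [], 0)) = rl R i from rfl]
  exact this

theorem fam_toT {t : Tr} (ht : t ∈ toT D R) : Fam D R t := by
  unfold toT at ht
  rw [List.mem_flatMap] at ht
  obtain ⟨⟨r, j⟩, hm, h⟩ := ht
  rw [List.mem_flatten] at h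
  obtain ⟨l, hl, htl⟩ := h
  have hl' := List.eq_of_mem_replicate hl
  rw [List.mem_zipIdx_iff_getElem?] at hm
  simp only [] at hm
  obtain ⟨hj, hr⟩ := List.getElem?_eq_some_iff.1 hm
  refine ⟨j, hj, ?_⟩
  have hrl : rl R j = r := by
    unfold rl
    rw [List.getD_eq_getElem _ _ hj, hr]
  rw [hrl, ← hl']
  exact htl

theorem nact_cyc (p : ℕ) (b : Bool) (D i : ℕ) (r : Rule) :
    nact (some (p, b)) (cyc D i r) = (aR r).count (some (p, b)) := by
  rw [nact_eq, cyc_eq, map_link, List.count_append]
  simp

theorem count_aR_false (p : ℕ) (r : Rule) : (aR r).count (some (p, false)) = r.1.count p := by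
  unfold aR
  rw [List.count_append]
  have h1 : (r.1.map (fun p => (some (p, false) : Act))).count (some (p, false)) = r.1.count p := by
    exact List.count_map_of_injective r.1 (fun p => (some (p, false) : Act))
      (fun a b h => by simpa using h) p
  have h2 : (r.2.1.map (fun p => (some (p, true) : Act))).count (some (p, false)) = 0 := by
    rw [List.count_eq_zero]
    simp
  rw [h1, h2, Nat.add_zero]

theorem count_aR_true (p : ℕ) (r : Rule) : (aR r).count (some (p, true)) = r.2.1.count p := by
  unfold aR
  rw [List.count_append]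
  have h1 : (r.2.1.map (fun p => (some (p, true) : Act))).count (some (p, true)) = r.2.1.count p := by
    exact List.count_map_of_injective r.2.1 (fun p => (some (p, true) : Act))
      (fun a b h => by simpa using h) p
  have h2 : (r.1.map (fun p => (some (p, false) : Act))).count (some (p, true)) = 0 := by
    rw [List.count_eq_zero]
    simp
  rw [h1, h2, Nat.zero_add]

theorem nact_append (a : Act) (u v : List Tr) : nact a (u ++ v) = nact a u + nact a v := by
  unfold nact; exact List.countP_append

theorem nact_cycles (D : ℕ) (R : List Rule) (p : ℕ) : ∀ l : List ℕ,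
    nact (some (p, false)) ((l.map (fun i => cyc D i (rl R i))).flatten) = preC R l p ∧
    nact (some (p, true)) ((l.map (fun i => cyc D i (rl R i))).flatten) = postC R l p
  | [] => by simp [nact, preC, postC]
  | i :: l => by
      obtain ⟨h1, h2⟩ := nact_cycles D R p l
      rw [List.map_cons, List.flatten_cons, nact_append, nact_append, h1, h2, nact_cyc, nact_cyc,
        count_aR_false, count_aR_true]
      simp [preC, postC]

theorem nact_take (D i : ℕ) (r : Rule) (p : ℕ) :
    nact (some (p, false)) ((cyc D i r).take r.1.length) = r.1.count p ∧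
    nact (some (p, true)) ((cyc D i r).take r.1.length) = 0 := by
  have key : ((cyc D i r).take r.1.length).map (fun t => t.2.1) =
      r.1.map (fun p => (some (p, false) : Act)) := by
    rw [List.map_take, cyc_eq, map_link]
    unfold aR
    rw [List.append_assoc, List.take_append_of_le_length (by simp)]
    rw [List.take_of_length_le (by simp)]
  rw [nact_eq, nact_eq, key]
  constructor
  · exact List.count_map_of_injective r.1 (fun p => (some (p, false) : Act))
      (fun a b h => by simpa using h) p
  · rw [List.count_eq_zero]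
    simp

end CYS

open CYS in
theorem CYS_holds : S_CYS := by
  intro D np R hR ⟨w, hp, hw, hn⟩
  have hfam : ∀ t ∈ w, Fam D R t := fun t ht => fam_toT (hp.mem_iff.1 ht)
  obtain ⟨v, hv, hvw⟩ := walk_outer hR w.length w le_rfl hfam hw
  refine ⟨v, ?_, ?_⟩
  · intro i
    rw [← count_toT hR i, ← hp.countP_eq, hvw, count_flatten hR i v hv]
  · intro l i hl p
    obtain ⟨v', hv'⟩ := hl
    have hpre : (l.map (fun i => cyc D i (rl R i))).flatten ++
        (cyc D i (rl R i)).take (rl R i).1.length <+: w := by
      rw [hvw, ← hv']
      rw [List.map_append, List.map_append, List.flatten_append, List.flatten_append,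
        List.append_assoc]
      rw [List.prefix_append_right_inj]
      rw [List.map_singleton, List.flatten_cons, List.flatten_nil, List.append_nil]
      exact (List.take_prefix _ _).trans (List.prefix_append _ _)
    have h := hn _ hpre p
    rw [nact_append, nact_append, (nact_cycles D R p l).1, (nact_cycles D R p l).2,
      (nact_take D i (rl R i) p).1, (nact_take D i (rl R i) p).2, Nat.add_zero] at h
    have e : preC R (l ++ [i]) p = preC R l p + (rl R i).1.count p := by
      simp [preC]
    rw [e]
    exact h

end Pool.Agent.H453R2.JS
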