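import Pool.Agent.H453R2.JS.Spec

/-! Task EXT: the abstract form of a schedule -/

namespace Pool.Agent.H453R2.JS

namespace EXT

/-- the code of an operation of an action job -/
def codeF : KJ → Bool → Act
  | KJ.full j, false => some (j, true)
  | KJ.full j, true => some (j, false)
  | KJ.inc j, _ => some (j, true)
  | KJ.dum, _ => none

/-- the operations on machine `0` of the action jobs -/
abbrev KOt (nc : ℕ) (T : List Tr) : Type :=
  {p : ℕ × Bool // ∃ k, (kjs nc T)[p.1]? = some k ∧ (p.2 = true → ∃ j, k = KJ.full j)}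

/-- the kind of the job -/
def kj {nc : ℕ} {T : List Tr} (p : KOt nc T) : KJ := ((kjs nc T)[p.1.1]?).getD KJ.dum

theorem kj_spec {nc : ℕ} {T : List Tr} (p : KOt nc T) : (kjs nc T)[p.1.1]? = some (kj p) := by
  obtain ⟨k, hk, _⟩ := p.2
  unfold kj
  rw [hk]
  rfl

theorem kj_full {nc : ℕ} {T : List Tr} (p : KOt nc T) (h : p.1.2 = true) :
    ∃ j, kj p = KJ.full j := by
  obtain ⟨k, hk, h2⟩ := p.2
  obtain ⟨j, hj⟩ := h2 h
  refine ⟨j, ?_⟩
  unfold kj
  rw [hk, hj]
  rfl

/-- the index pair of an operation on machine `0` -/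
def idx {nc : ℕ} {T : List Tr} : O1 T.length (KOt nc T) → ℕ × ℕ
  | O1.al i => (5 + i, 0)
  | O1.alE => (3, 0)
  | O1.rho i => (5 + i, 2)
  | O1.rhoS => (0, 1)
  | O1.rhoS' => (1, 0)
  | O1.ka p => (5 + T.length + p.1.1, if p.1.2 then 2 else 0)
  | O1.fil => (4, 0)

/-- the index pair of an operation on machine `2` -/
def idx3 {n : ℕ} : O3 n → ℕ × ℕ
  | O3.tr i => (5 + i, 1)
  | O3.S => (0, 0)
  | O3.E => (3, 1)

theorem idx_inj {nc : ℕ} {T : List Tr} (a b : O1 T.length (KOt nc T)) (h : idx a = idx b) :
    a = b := by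
  cases a with
  | al i => cases b <;> simp [idx] at h ⊢ <;> omega
  | alE => cases b <;> simp [idx] at h ⊢ <;> omega
  | rho i => cases b <;> simp [idx] at h ⊢ <;> omega
  | rhoS => cases b <;> simp [idx] at h ⊢ <;> omega
  | rhoS' => cases b <;> simp [idx] at h ⊢ <;> omega
  | fil => cases b <;> simp [idx] at h ⊢ <;> omega
  | ka p =>
    cases b with
    | al i => simp [idx] at h; omega
    | alE => simp [idx] at h; try omega
    | rho i => simp [idx] at h; try omega
    | rhoS => simp [idx] at h; try omega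
    | rhoS' => simp [idx] at h; try omega
    | fil => simp [idx] at h; try omega
    | ka p' =>
      obtain ⟨⟨a, e⟩, hp⟩ := p
      obtain ⟨⟨a', e'⟩, hp'⟩ := p'
      simp only [idx, Prod.mk.injEq, Nat.add_left_cancel_iff] at h
      obtain ⟨h1, h2⟩ := h
      subst h1
      have : e = e' := by
        cases e <;> cases e' <;> simp at h2 ⊢
      subst this
      rfl

theorem idx3_inj {n : ℕ} (a b : O3 n) (h : idx3 a = idx3 b) : a = b := by
  cases a <;> cases b <;> simp [idx3] at h ⊢ <;> omega

section ops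
variable (nq nc : ℕ) (T : List Tr)

theorem get_sp (j : ℕ) (hj : j < 5) : (inst nq nc T)[j]? = (specials nq nc)[j]? := by
  unfold inst
  rw [List.getElem?_append_left]
  exact hj

theorem get_tr (i : Fin T.length) : (inst nq nc T)[5 + (i : ℕ)]? = some (jobT nq nc (T.get i)) := by
  unfold inst
  have h5 : (specials nq nc).length = 5 := rfl
  rw [List.getElem?_append_right (by omega), h5, Nat.add_sub_cancel_left,
    List.getElem?_append_left (by rw [List.length_map]; exact i.2), List.getElem?_map,
    List.getElem?_eq_getElem i.2]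
  rfl

theorem get_kj (a : ℕ) : (inst nq nc T)[5 + T.length + a]? = ((kjs nc T)[a]?).map (kjob nq nc) := by
  unfold inst
  have h5 : (specials nq nc).length = 5 := rfl
  rw [List.getElem?_append_right (by omega), h5,
    List.getElem?_append_right (by rw [List.length_map]; omega), List.length_map,
    List.getElem?_map]
  congr 2
  omega

theorem op_tr (i : Fin T.length) (m : ℕ) :
    opOf (inst nq nc T) (5 + (i : ℕ)) m = (jobT nq nc (T.get i))[m]? := by
  unfold opOf
  rw [get_tr]
  rfl

theorem op_kj (a m : ℕ) (k : KJ) (hk : (kjs nc T)[a]? = some k) :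
    opOf (inst nq nc T) (5 + T.length + a) m = (kjob nq nc k)[m]? := by
  unfold opOf
  rw [get_kj, hk]
  rfl

theorem op_sp (j : ℕ) (hj : j < 5) (m : ℕ) :
    opOf (inst nq nc T) j m = ((specials nq nc)[j]?).bind (fun b => b[m]?) := by
  unfold opOf
  rw [get_sp nq nc T j hj]

/-- the operation of an index pair -/
theorem op_idx (o : O1 T.length (KOt nc T)) : opOf (inst nq nc T) (idx o).1 (idx o).2 =
    some (0, len1 nq nc T (fun p => codeF (kj p) p.1.2) o) := by
  cases o with
  | al i => simp only [idx]; rw [op_tr]; rfl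
  | alE => simp only [idx]; rw [op_sp _ _ _ _ (by norm_num)]; rfl
  | rho i => simp only [idx]; rw [op_tr]; rfl
  | rhoS => simp only [idx]; rw [op_sp _ _ _ _ (by norm_num)]; rfl
  | rhoS' => simp only [idx]; rw [op_sp _ _ _ _ (by norm_num)]; rfl
  | fil => simp only [idx]; rw [op_sp _ _ _ _ (by norm_num)]; rfl
  | ka p =>
    simp only [idx]
    rw [op_kj nq nc T _ _ _ (kj_spec p)]
    by_cases hp : p.1.2 = true
    · obtain ⟨j, hj⟩ := kj_full p hp
      rw [if_pos hp]
      show (kjob nq nc (kj p))[2]? = some (0, cKa nq nc (codeF (kj p) p.1.2))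
      rw [hj, hp]
      rfl
    · have hp' : p.1.2 = false := by simpa using hp
      rw [if_neg hp]
      show (kjob nq nc (kj p))[0]? = some (0, cKa nq nc (codeF (kj p) p.1.2))
      rw [hp']
      cases kj p <;> rfl

theorem op_idx3 (o : O3 T.length) : opOf (inst nq nc T) (idx3 o).1 (idx3 o).2 =
    some (2, len3 nq nc T o) := by
  cases o with
  | tr i => simp only [idx3]; rw [op_tr]; rfl
  | S => simp only [idx3]; rw [op_sp _ _ _ _ (by norm_num)]; rfl
  | E => simp only [idx3]; rw [op_sp _ _ _ _ (by norm_num)]; rfl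

/-- the operation after an operation on machine `0`, if it is on machine `1` -/
theorem op_next (o : O1 T.length (KOt nc T)) (l : ℕ)
    (h : opOf (inst nq nc T) (idx o).1 ((idx o).2 + 1) = some (1, l)) : w1 nq nc T o = l := by
  cases o with
  | al i =>
    simp only [idx] at h
    rw [op_tr] at h
    simp [jobT] at h
  | alE =>
    simp only [idx] at h
    rw [op_sp _ _ _ _ (by norm_num)] at h
    simp [specials] at h
  | rho i =>
    simp only [idx] at h
    rw [op_tr] at h
    simp [jobT] at h
    exact h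
  | rhoS =>
    simp only [idx] at h
    rw [op_sp _ _ _ _ (by norm_num)] at h
    simp [specials] at h
    exact h
  | rhoS' =>
    simp only [idx] at h
    rw [op_sp _ _ _ _ (by norm_num)] at h
    simp [specials] at h
    exact h
  | fil =>
    simp only [idx] at h
    rw [op_sp _ _ _ _ (by norm_num)] at h
    simp [specials] at h
  | ka p =>
    simp only [idx] at h
    rw [op_kj nq nc T _ _ _ (kj_spec p)] at h
    by_cases hp : p.1.2 = true
    · obtain ⟨j, hj⟩ := kj_full p hp
      rw [if_pos hp, hj] at h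
      simp [kjob] at h
      exact h
    · rw [if_neg hp] at h
      revert h
      cases kj p <;> intro h <;> simp [kjob] at h <;> exact h

/-- all the operations -/
theorem cases (j i : ℕ) (o : ℕ × ℕ) (h : opOf (inst nq nc T) j i = some o) :
    (o.1 = 0 ∧ ∃ a : O1 T.length (KOt nc T), idx a = (j, i)) ∨
    (o.1 = 2 ∧ ∃ a : O3 T.length, idx3 a = (j, i)) ∨
    (o.1 = 1 ∧ ((j, i) = (2, 0) ∨
      ∃ a : O1 T.length (KOt nc T), ((idx a).1, (idx a).2 + 1) = (j, i))) := by
  rcases Nat.lt_or_ge j 5 with hj | hj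
  · rw [op_sp nq nc T j hj] at h
    have hj' : j = 0 ∨ j = 1 ∨ j = 2 ∨ j = 3 ∨ j = 4 := by omega
    rcases hj' with rfl | rfl | rfl | rfl | rfl
    · rcases i with _ | _ | _ | i
      · simp [specials] at h
        subst h
        exact Or.inr (Or.inl ⟨rfl, O3.S, rfl⟩)
      · simp [specials] at h
        subst h
        exact Or.inl ⟨rfl, O1.rhoS, rfl⟩
      · simp [specials] at h
        subst h
        exact Or.inr (Or.inr ⟨rfl, Or.inr ⟨O1.rhoS, rfl⟩⟩)
      · simp [specials] at h
    · rcases i with _ | _ | i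
      · simp [specials] at h
        subst h
        exact Or.inl ⟨rfl, O1.rhoS', rfl⟩
      · simp [specials] at h
        subst h
        exact Or.inr (Or.inr ⟨rfl, Or.inr ⟨O1.rhoS', rfl⟩⟩)
      · simp [specials] at h
    · rcases i with _ | i
      · simp [specials] at h
        subst h
        exact Or.inr (Or.inr ⟨rfl, Or.inl rfl⟩)
      · simp [specials] at h
    · rcases i with _ | _ | i
      · simp [specials] at h
        subst h
        exact Or.inl ⟨rfl, O1.alE, rfl⟩
      · simp [specials] at h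
        subst h
        exact Or.inr (Or.inl ⟨rfl, O3.E, rfl⟩)
      · simp [specials] at h
    · rcases i with _ | i
      · simp [specials] at h
        subst h
        exact Or.inl ⟨rfl, O1.fil, rfl⟩
      · simp [specials] at h
  rcases Nat.lt_or_ge j (5 + T.length) with hj2 | hj2
  · obtain ⟨t, ht⟩ : ∃ t : Fin T.length, j = 5 + (t : ℕ) :=
      ⟨⟨j - 5, by omega⟩, by simp; omega⟩
    subst ht
    rw [op_tr] at h
    rcases i with _ | _ | _ | _ | i
    · simp [jobT] at h
      subst h
      exact Or.inl ⟨rfl, O1.al t, rfl⟩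
    · simp [jobT] at h
      subst h
      exact Or.inr (Or.inl ⟨rfl, O3.tr t, rfl⟩)
    · simp [jobT] at h
      subst h
      exact Or.inl ⟨rfl, O1.rho t, rfl⟩
    · simp [jobT] at h
      subst h
      exact Or.inr (Or.inr ⟨rfl, Or.inr ⟨O1.rho t, rfl⟩⟩)
    · simp [jobT] at h
  · obtain ⟨a, ha⟩ : ∃ a : ℕ, j = 5 + T.length + a := ⟨j - (5 + T.length), by omega⟩
    subst ha
    have hk : ∃ k, (kjs nc T)[a]? = some k := by
      unfold opOf at h
      rw [get_kj] at h
      cases hk : (kjs nc T)[a]? with
      | none => rw [hk] at h; simp at h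
      | some k => exact ⟨k, rfl⟩
    obtain ⟨k, hk⟩ := hk
    rw [op_kj nq nc T a i k hk] at h
    have p0 : KOt nc T := ⟨(a, false), k, hk, by simp⟩
    rcases k with j | j | _
    · rcases i with _ | _ | _ | _ | i
      · simp [kjob] at h
        subst h
        exact Or.inl ⟨rfl, O1.ka ⟨(a, false), _, hk, by simp⟩, by simp [idx]⟩
      · simp [kjob] at h
        subst h
        exact Or.inr (Or.inr ⟨rfl, Or.inr ⟨O1.ka ⟨(a, false), _, hk, by simp⟩, by simp [idx]⟩⟩)
      · simp [kjob] at h
        subst h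
        exact Or.inl ⟨rfl, O1.ka ⟨(a, true), _, hk, fun _ => ⟨j, rfl⟩⟩, by simp [idx]⟩
      · simp [kjob] at h
        subst h
        exact Or.inr (Or.inr ⟨rfl, Or.inr ⟨O1.ka ⟨(a, true), _, hk, fun _ => ⟨j, rfl⟩⟩,
          by simp [idx]⟩⟩)
      · simp [kjob] at h
    · rcases i with _ | _ | i
      · simp [kjob] at h
        subst h
        exact Or.inl ⟨rfl, O1.ka ⟨(a, false), _, hk, by simp⟩, by simp [idx]⟩
      · simp [kjob] at h
        subst h
        exact Or.inr (Or.inr ⟨rfl, Or.inr ⟨O1.ka ⟨(a, false), _, hk, by simp⟩, by simp [idx]⟩⟩)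
      · simp [kjob] at h
    · rcases i with _ | _ | i
      · simp [kjob] at h
        subst h
        exact Or.inl ⟨rfl, O1.ka ⟨(a, false), _, hk, by simp⟩, by simp [idx]⟩
      · simp [kjob] at h
        subst h
        exact Or.inr (Or.inr ⟨rfl, Or.inr ⟨O1.ka ⟨(a, false), _, hk, by simp⟩, by simp [idx]⟩⟩)
      · simp [kjob] at h

end ops

/-- the counters of the action jobs -/
theorem kjs_lt (nc : ℕ) (T : List Tr) (k : KJ) (hk : k ∈ kjs nc T) (j : ℕ)
    (h : k = KJ.full j ∨ k = KJ.inc j) : j < nc := by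
  unfold kjs at hk
  rw [List.mem_append, List.mem_flatMap] at hk
  rcases hk with ⟨j', hj', hk⟩ | hk
  · rw [List.mem_append] at hk
    have hjn := List.mem_range.1 hj'
    rcases hk with hk | hk
    · have := List.eq_of_mem_replicate hk
      rcases h with h | h
      · rw [h] at this
        injection this with this
        omega
      · rw [h] at this
        cases this
    · have := List.eq_of_mem_replicate hk
      rcases h with h | h
      · rw [h] at this
        cases this
      · rw [h] at this
        injection this with this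
        omega
  · have := List.eq_of_mem_replicate hk
    rcases h with h | h
    · rw [h] at this
      cases this
    · rw [h] at this
      cases this

theorem sum_ins (s : Finset (ℕ × ℕ)) (a : ℕ × ℕ) (f : ℕ × ℕ → ℕ) :
    ∑ p ∈ insert a s, f p ≤ f a + ∑ p ∈ s, f p := by
  by_cases h : a ∈ s
  · rw [Finset.insert_eq_of_mem h]
    exact Nat.le_add_left _ _
  · rw [Finset.sum_insert h]

/-- the partner -/
def part {nc : ℕ} {T : List Tr} (p : KOt nc T) : KOt nc T :=
  ⟨(p.1.1, false), kj p, kj_spec p, by simp⟩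

theorem kj_part {nc : ℕ} {T : List Tr} (p : KOt nc T) : kj (part p) = kj p := rfl

theorem code_false {nc : ℕ} {T : List Tr} (p : KOt nc T) (j : ℕ)
    (h : codeF (kj p) p.1.2 = some (j, false)) : p.1.2 = true ∧ kj p = KJ.full j := by
  cases hk : kj p with
  | full j' =>
    rw [hk] at h
    cases he : p.1.2 with
    | false => rw [he] at h; simp [codeF] at h
    | true =>
      rw [he] at h
      simp [codeF] at h
      exact ⟨rfl, by rw [h]⟩
  | inc j' => rw [hk] at h; simp [codeF] at h
  | dum => rw [hk] at h; simp [codeF] at h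

end EXT

open EXT in
theorem EXT_holds (h1 : S_LOAD) (h2 : S_ZIJ) (h3 : S_JOK) : S_EXT := by
  classical
  intro nq nc T S hG hS
  have hpos : ∀ B ∈ inst nq nc T, ∀ o ∈ B, 0 < o.2 := fun B hB o ho =>
    ((h3 nq nc T hG B hB).1 o ho).2
  obtain ⟨z01, z02⟩ := h2 _ _ S 0 hpos hS (h1 nq nc T hG 0 (by norm_num))
  obtain ⟨z21, z22⟩ := h2 _ _ S 2 hpos hS (h1 nq nc T hG 2 (by norm_num))
  obtain ⟨z11, z12⟩ := h2 _ _ S 1 hpos hS (h1 nq nc T hG 1 (by norm_num))
  have hB0 : 0 < cB nq nc := by unfold cB; omega
  refine ⟨{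
    KO := KOt nc T
    dec := inferInstance
    code := fun p => codeF (kj p) p.1.2
    code_lt := ?_
    s1 := fun o => S (idx o).1 (idx o).2
    s3 := fun o => S (idx3 o).1 (idx3 o).2
    end1 := fun o => hS.le _ _ _ (op_idx nq nc T o)
    end3 := fun o => hS.le _ _ _ (op_idx3 nq nc T o)
    dis1 := ?_
    dis3 := ?_
    next1 := ?_
    next3 := ?_
    prec_al := ?_
    prec_alE := ?_
    prec_rho := ?_
    prec_rhoS := ?_
    work := ?_
    partner := part
    partner_code := ?_
    partner_lt := ?_
    partner_inj := ?_ }⟩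
  · intro p j b hp
    have hk := List.mem_of_getElem? (kj_spec p)
    refine kjs_lt nc T _ hk j ?_
    cases hkj : kj p with
    | full j' =>
      left
      rw [hkj] at hp
      cases he : p.1.2 with
      | false => rw [he] at hp; simp [codeF] at hp; rw [hp.1]
      | true => rw [he] at hp; simp [codeF] at hp; rw [hp.1]
    | inc j' =>
      right
      rw [hkj] at hp
      simp [codeF] at hp
      rw [hp.1]
    | dum => rw [hkj] at hp; simp [codeF] at hp
  · intro a b hab
    refine hS.disj _ _ _ _ _ _ (op_idx nq nc T a) (op_idx nq nc T b) rfl ?_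
    intro h
    exact hab (idx_inj a b h)
  · intro a b hab
    refine hS.disj _ _ _ _ _ _ (op_idx3 nq nc T a) (op_idx3 nq nc T b) rfl ?_
    intro h
    exact hab (idx3_inj a b h)
  · intro x hx hx2
    obtain ⟨j, i, o, ho, ho1, hox⟩ := z01 x hx (by
      rcases hx2 with h | ⟨o, ho⟩
      · exact Or.inl h
      · exact Or.inr ⟨_, _, _, op_idx nq nc T o, rfl, ho⟩)
    rcases cases nq nc T j i o ho with ⟨_, a, ha⟩ | ⟨h, _⟩ | ⟨h, _⟩
    · refine ⟨a, ?_⟩
      show S (idx a).1 (idx a).2 = x
      rw [ha]
      exact hox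
    · omega
    · omega
  · intro x hx hx2
    obtain ⟨j, i, o, ho, ho1, hox⟩ := z21 x hx (by
      rcases hx2 with h | ⟨o, ho⟩
      · exact Or.inl h
      · exact Or.inr ⟨_, _, _, op_idx3 nq nc T o, rfl, ho⟩)
    rcases cases nq nc T j i o ho with ⟨h, _⟩ | ⟨_, a, ha⟩ | ⟨h, _⟩
    · omega
    · refine ⟨a, ?_⟩
      show S (idx3 a).1 (idx3 a).2 = x
      rw [ha]
      exact hox
    · omega
  · intro i
    exact hS.order _ _ _ _ (op_idx nq nc T (O1.al i)) (op_idx3 nq nc T (O3.tr i))
  · exact hS.order _ _ _ _ (op_idx nq nc T (O1.alE)) (op_idx3 nq nc T O3.E)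
  · intro i
    exact hS.order _ _ _ _ (op_idx3 nq nc T (O3.tr i)) (op_idx nq nc T (O1.rho i))
  · exact hS.order _ _ _ _ (op_idx3 nq nc T O3.S) (op_idx nq nc T (O1.rhoS))
  · intro x hx F hF
    obtain ⟨F', hF'⟩ : ∃ F' : Finset (O1 T.length (KOt nc T)), F' = F.filter (fun o => ∃ l,
      opOf (inst nq nc T) (idx o).1 ((idx o).2 + 1) = some (1, l)) := ⟨_, rfl⟩
    have hz := z12 x hx (insert (2, 0) (F'.image (fun o => ((idx o).1, (idx o).2 + 1)))) (by
      intro j i o ho ho1 hle
      rcases cases nq nc T j i o ho with ⟨h, _⟩ | ⟨h, _⟩ | ⟨_, h | ⟨a, ha⟩⟩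
      · omega
      · omega
      · rw [h]
        exact Finset.mem_insert_self _ _
      · rw [Finset.mem_insert]
        right
        rw [Finset.mem_image]
        refine ⟨a, ?_, ha⟩
        have e1 : (idx a).1 = j := congrArg Prod.fst ha
        have e2 : (idx a).2 + 1 = i := congrArg Prod.snd ha
        have hop : opOf (inst nq nc T) (idx a).1 ((idx a).2 + 1) = some (1, o.2) := by
          rw [e1, e2, ho]
          congr 1
          exact Prod.ext ho1 rfl
        rw [hF', Finset.mem_filter]
        refine ⟨hF a ?_, o.2, hop⟩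
        have := hS.order _ _ _ _ (op_idx nq nc T a) hop
        show S (idx a).1 (idx a).2 + len1 nq nc T (fun p => codeF (kj p) p.1.2) a ≤ x
        rw [e1, e2] at this
        rw [e1]
        exact le_trans this hle)
    refine hz.trans ?_
    refine (sum_ins _ _ _).trans ?_
    have e0 : opLen (inst nq nc T) (2, 0) = 1 := by
      unfold opLen
      rw [op_sp _ _ _ _ (by norm_num)]
      rfl
    rw [e0]
    apply Nat.add_le_add_left
    refine (Finset.sum_image_le_of_nonneg (by simp)).trans ?_
    calc ∑ o ∈ F', opLen (inst nq nc T) ((idx o).1, (idx o).2 + 1) =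
        ∑ o ∈ F', w1 nq nc T o := by
          refine Finset.sum_congr rfl fun o ho => ?_
          rw [hF', Finset.mem_filter] at ho
          obtain ⟨_, l, hl⟩ := ho
          rw [op_next nq nc T o l hl]
          unfold opLen
          rw [hl]
          rfl
      _ ≤ ∑ o ∈ F, w1 nq nc T o := by
          rw [hF']
          exact Finset.sum_le_sum_of_subset (Finset.filter_subset _ _)
  · intro p j hp
    obtain ⟨_, h2⟩ := code_false p j hp
    show codeF (kj (part p)) false = some (j, true)
    rw [kj_part, h2]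
    rfl
  · intro p j hp
    obtain ⟨h1, h2⟩ := code_false p j hp
    have hk := kj_spec p
    rw [h2] at hk
    have o0 : opOf (inst nq nc T) (5 + T.length + p.1.1) 0 =
        some (0, cKa nq nc (some (j, true))) := by rw [op_kj nq nc T _ _ _ hk]; rfl
    have o1 : opOf (inst nq nc T) (5 + T.length + p.1.1) (0 + 1) = some (1, cMu nq nc) := by
      rw [op_kj nq nc T _ _ _ hk]; rfl
    have o2 : opOf (inst nq nc T) (5 + T.length + p.1.1) (1 + 1) =
        some (0, cKa nq nc (some (j, false))) := by rw [op_kj nq nc T _ _ _ hk]; rfl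
    have q1 := hS.order _ _ _ _ o0 o1
    have q2 := hS.order _ _ _ _ o1 o2
    show S (5 + T.length + p.1.1) (if false = true then 2 else 0) <
      S (5 + T.length + p.1.1) (if p.1.2 = true then 2 else 0)
    rw [if_pos h1, if_neg (by simp)]
    have q3 : 0 < cKa nq nc (some (j, true)) := by
      show 0 < cB nq nc + 1 + 2 * j
      omega
    have q1' : S (5 + T.length + p.1.1) 0 + cKa nq nc (some (j, true)) ≤
      S (5 + T.length + p.1.1) 1 := q1
    have q2' : S (5 + T.length + p.1.1) 1 + cMu nq nc ≤ S (5 + T.length + p.1.1) 2 := q2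
    omega
  · intro p p' j j' hp hp' he
    obtain ⟨h1, _⟩ := code_false p j hp
    obtain ⟨h1', _⟩ := code_false p' j' hp'
    have e := congrArg (fun q : KOt nc T => q.1.1) he
    have e' : p.1.1 = p'.1.1 := e
    exact Subtype.ext (Prod.ext e' (h1.trans h1'.symm))

end Pool.Agent.H453R2.JS
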