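import Pool.Agent.H453R2.JS.Spec

namespace Pool.Agent.H453R2.JS

namespace FLR

theorem floor_add_le {x y : ℝ} {p : ℕ} (hx : 0 ≤ x) (h : x + p ≤ y) :
    Nat.floor x + p ≤ Nat.floor y := by
  rw [← Nat.floor_add_natCast hx]
  exact Nat.floor_mono h

end FLR

theorem FLR_holds : S_FLR := by
  intro J L S hS hL
  refine ⟨fun j i => Nat.floor (S j i), ?_⟩
  constructor
  · intro j i o o' h1 h2
    exact FLR.floor_add_le (hS.nonneg j i o h1) (hS.order j i o o' h1 h2)
  · intro j i j' i' o o' h1 h2 h3 h4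
    rcases hS.disj j i j' i' o o' h1 h2 h3 h4 with h | h
    · left
      exact FLR.floor_add_le (hS.nonneg j i o h1) h
    · right
      exact FLR.floor_add_le (hS.nonneg j' i' o' h2) h
  · intro j i o h1
    have h := FLR.floor_add_le (hS.nonneg j i o h1) (hL j i o h1)
    rwa [Nat.floor_natCast] at h

end Pool.Agent.H453R2.JS
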