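import Pool.Agent.H453R2.JS.Spec

namespace Pool.Agent.H453R2.JS

namespace FLU

/-- shifted words -/
def sh (a : ℕ) (u : List ℕ) : List ℕ := u.map (· + a)

theorem rl_left (A B : List Rule) {i : ℕ} (h : i < A.length) : rl (A ++ B) i = rl A i := by
  unfold rl
  rw [List.getD_append _ _ _ _ h]

theorem rl_right (A B : List Rule) (i : ℕ) : rl (A ++ B) (i + A.length) = rl B i := by
  unfold rl
  rw [List.getD_append_right _ _ _ _ (by omega)]
  congr 1
  omega

theorem rl_out (A : List Rule) {i : ℕ} (h : A.length ≤ i) : rl A i = ([], [], 0) := by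
  unfold rl
  rw [List.getD_eq_default _ _ h]

theorem run_left (A B : List Rule) : ∀ (u : List ℕ) (m m' : ℕ → ℕ), RRun A u m m' →
    RRun (A ++ B) u m m'
  | [], _, _, h => h
  | i :: u, m, m', h => by
    obtain ⟨h1, h2, h3⟩ := h
    refine ⟨by rw [List.length_append]; omega, ?_, ?_⟩
    · rw [rl_left A B h1]; exact h2
    · rw [rl_left A B h1]; exact run_left A B u _ _ h3

theorem run_right (A B : List Rule) : ∀ (u : List ℕ) (m m' : ℕ → ℕ), RRun B u m m' →
    RRun (A ++ B) (sh A.length u) m m'
  | [], _, _, h => h
  | i :: u, m, m', h => by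
    obtain ⟨h1, h2, h3⟩ := h
    refine ⟨by show i + A.length < _; rw [List.length_append]; omega, ?_, ?_⟩
    · rw [rl_right A B]; exact h2
    · rw [rl_right A B]; exact run_right A B u _ _ h3

theorem run_append (R : List Rule) : ∀ (u v : List ℕ) (m m1 m' : ℕ → ℕ), RRun R u m m1 →
    RRun R v m1 m' → RRun R (u ++ v) m m'
  | [], v, m, m1, m', h, h' => by
    have : m = m1 := h
    subst this
    exact h'
  | i :: u, v, m, m1, m', h, h' => ⟨h.1, h.2.1, run_append R u v _ _ _ h.2.2 h'⟩

/-- the word uses every rule as often as prescribed -/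
def Cnts (R : List Rule) (w : List ℕ) : Prop := ∀ i, w.count i = (rl R i).2.2

theorem count_sh (a : ℕ) (u : List ℕ) (i : ℕ) :
    (sh a u).count i = if a ≤ i then u.count (i - a) else 0 := by
  unfold sh
  induction u with
  | nil => simp
  | cons x u ih =>
    rw [List.map_cons, List.count_cons, List.count_cons, ih]
    by_cases h : a ≤ i
    · rw [if_pos h, if_pos h]
      congr 1
      by_cases h2 : x = i - a
      · subst h2
        simp [Nat.sub_add_cancel h]
      · have h3 : x + a ≠ i := by omega
        simp [h2, h3]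
    · rw [if_neg h, if_neg h]
      have h3 : x + a ≠ i := by omega
      simp [h3]

theorem Cnts.append {A B : List Rule} {wA wB : List ℕ} (hA : Cnts A wA) (hB : Cnts B wB) :
    Cnts (A ++ B) (wA ++ sh A.length wB) := by
  intro i
  rw [List.count_append, count_sh]
  by_cases h : A.length ≤ i
  · obtain ⟨j, rfl⟩ : ∃ j, i = j + A.length := ⟨i - A.length, by omega⟩
    rw [if_pos h, rl_right, hA, rl_out A h, Nat.add_sub_cancel, hB]
    simp
  · rw [if_neg h, rl_left A B (by omega), hA, add_zero]

theorem Cnts.perm {R : List Rule} {w w' : List ℕ} (h : Cnts R w) (hp : w.Perm w') : Cnts R w' :=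
  fun i => by rw [← hp.count_eq]; exact h i

theorem Cnts.single (r : Rule) : Cnts [r] (List.replicate r.2.2 0) := by
  intro i
  rcases i with _ | i
  · rw [List.count_replicate_self]
    rfl
  · rw [List.count_replicate, rl_out _ (by simp)]
    simp

/-- a run using every rule as often as prescribed -/
def Full (R : List Rule) (w : List ℕ) (m m' : ℕ → ℕ) : Prop := RRun R w m m' ∧ Cnts R w

theorem Full.append {A B : List Rule} {wA wB : List ℕ} {m m1 m2 : ℕ → ℕ} (hA : Full A wA m m1)
    (hB : Full B wB m1 m2) : Full (A ++ B) (wA ++ sh A.length wB) m m2 :=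
  ⟨run_append _ _ _ _ _ _ (run_left A B _ _ _ hA.1) (run_right A B _ _ _ hB.1),
    hA.2.append hB.2⟩

/-- one use of one rule -/
theorem full_one (a b : List ℕ) (m : ℕ → ℕ) (h : ∀ p, a.count p ≤ m p) :
    Full [(a, b, 1)] [0] m (useR (a, b, 1) m) :=
  ⟨⟨by simp, h, rfl⟩, Cnts.single (a, b, 1)⟩

theorem run_fill (c x N : ℕ) : ∀ (n : ℕ) (m : ℕ → ℕ), 1 ≤ m c →
    RRun [([c], [c, x], N)] (List.replicate n 0) m (fun p => m p + n * [x].count p)
  | 0, m, _ => by
    change m = _
    funext p
    simp
  | n + 1, m, hm => by
    have e : useR ([c], [c, x], N) m = fun p => m p + [x].count p := by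
      funext p
      unfold useR
      simp only
      by_cases h : p = c
      · subst h
        rw [List.count_cons_self (a := p) (l := [x])]
        simp only [List.count_singleton_self]
        omega
      · have h1 : [c].count p = 0 := List.count_eq_zero.2 (by simpa using h)
        have h2 : [c, x].count p = [x].count p := List.count_cons_of_ne (Ne.symm h)
        rw [h1, h2]
        omega
    refine ⟨by simp, ?_, ?_⟩
    · intro p
      change [c].count p ≤ m p
      by_cases h : p = c
      · subst h
        rw [List.count_singleton_self]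
        exact hm
      · have h1 : [c].count p = 0 := List.count_eq_zero.2 (by simpa using h)
        omega
    · change RRun _ (List.replicate n 0) (useR ([c], [c, x], N) m) _
      rw [e]
      have h2 := run_fill c x N n (fun p => m p + [x].count p) (Nat.le_add_right_of_le hm)
      have e3 : (fun p => m p + (n + 1) * [x].count p)
          = fun p => m p + [x].count p + n * [x].count p := by
        funext p
        ring
      rw [e3]
      exact h2

/-- filling rules -/
def fillR (c : ℕ) (L : List (ℕ × ℕ)) : List Rule := L.map (fun xk => ([c], [c, xk.1], xk.2))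

/-- the tokens produced by filling rules -/
def prod (L : List (ℕ × ℕ)) (p : ℕ) : ℕ := (L.map (fun xk => xk.2 * [xk.1].count p)).sum

theorem full_fill (c : ℕ) : ∀ (L : List (ℕ × ℕ)) (m : ℕ → ℕ), 1 ≤ m c →
    ∃ w, Full (fillR c L) w m (fun p => m p + prod L p)
  | [], m, _ => by
    refine ⟨[], ?_, ?_⟩
    · change m = _
      funext p
      simp [prod]
    · intro i
      rw [rl_out _ (by simp [fillR])]
      rfl
  | (x, k) :: L, m, hm => by
    obtain ⟨w, hw⟩ := full_fill c L (fun p => m p + k * [x].count p) (Nat.le_add_right_of_le hm)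
    have h1 : Full [([c], [c, x], k)] (List.replicate k 0) m (fun p => m p + k * [x].count p) :=
      ⟨run_fill c x k k m hm, Cnts.single ([c], [c, x], k)⟩
    have h2 := h1.append hw
    have e : (fun p => m p + prod ((x, k) :: L) p)
        = fun p => m p + k * [x].count p + prod L p := by
      funext p
      simp only [prod, List.map_cons, List.sum_cons]
      ring
    rw [e]
    exact ⟨_, h2⟩

theorem full_gate (c y N : ℕ) (hy : y ≠ c) : ∀ (n : ℕ) (m : ℕ → ℕ), 1 ≤ m c → n ≤ m y →
    ∃ m', RRun [([c, y], [c], N)] (List.replicate n 0) m m' ∧ ∀ p, p ≠ y → m' p = m p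
  | 0, m, _, _ => ⟨m, rfl, fun _ _ => rfl⟩
  | n + 1, m, hc, hn => by
    have hyc : (y == c) = false := by simpa using hy
    have e1 : ∀ p, p ≠ y → useR ([c, y], [c], N) m p = m p := by
      intro p hp
      unfold useR
      simp only
      by_cases h : p = c
      · subst h
        have h1 : [p, y].count p = 1 := by
          rw [List.count_cons_self, List.count_eq_zero.2 (by simpa using (Ne.symm hy))]
        rw [h1, List.count_singleton_self]
        omega
      · have h1 : [c, y].count p = 0 := List.count_eq_zero.2 (by simp [h, hp])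
        have h2 : [c].count p = 0 := List.count_eq_zero.2 (by simpa using h)
        rw [h1, h2]
        omega
    have e2 : useR ([c, y], [c], N) m y = m y - 1 := by
      unfold useR
      simp only
      have h1 : [c, y].count y = 1 := by
        rw [List.count_cons_of_ne (Ne.symm hy), List.count_singleton_self]
      have h2 : [c].count y = 0 := List.count_eq_zero.2 (by simpa using hy)
      rw [h1, h2]
      omega
    obtain ⟨m', hm', hp⟩ := full_gate c y N hy n (useR ([c, y], [c], N) m)
      (by rw [e1 c (Ne.symm hy)]; exact hc) (by rw [e2]; omega)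
    refine ⟨m', ⟨by simp, ?_, hm'⟩, fun p hpy => (hp p hpy).trans (e1 p hpy)⟩
    intro p
    change [c, y].count p ≤ m p
    by_cases h : p = c
    · subst h
      rw [List.count_cons_self, List.count_eq_zero.2 (by simpa using (Ne.symm hy))]
      exact hc
    · by_cases h' : p = y
      · subst h'
        rw [List.count_cons_of_ne (Ne.symm hy), List.count_singleton_self]
        omega
      · have h1 : [c, y].count p = 0 := List.count_eq_zero.2 (by simp [h, h'])
        omega

theorem run_any (R : List Rule) : ∀ (W : List ℕ) (m : ℕ → ℕ), (∀ i ∈ W, i < R.length) →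
    (∀ p, preC R W p ≤ m p) → ∃ m', RRun R W m m'
  | [], m, _, _ => ⟨m, rfl⟩
  | i :: W, m, hi, hp => by
    have h1 : ∀ p, (rl R i).1.count p + preC R W p ≤ m p := by
      intro p
      have := hp p
      simpa only [preC, List.map_cons, List.sum_cons] using this
    obtain ⟨m', hm'⟩ := run_any R W (useR (rl R i) m) (fun j hj => hi j (List.mem_cons_of_mem _ hj))
      (fun p => by
        have := h1 p
        unfold useR
        omega)
    exact ⟨m', hi i List.mem_cons_self, fun p => by have := h1 p; omega, hm'⟩

/-- the word using the rule `i` `μ i` times, `i < n` -/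
def wrd (μ : ℕ → ℕ) (n : ℕ) : List ℕ := (List.range n).flatMap (fun i => List.replicate (μ i) i)

theorem wrd_succ (μ : ℕ → ℕ) (n : ℕ) : wrd μ (n + 1) = wrd μ n ++ List.replicate (μ n) n := by
  unfold wrd
  rw [List.range_succ, List.flatMap_append]
  simp

theorem wrd_count (μ : ℕ → ℕ) (n i : ℕ) : (wrd μ n).count i = if i < n then μ i else 0 := by
  induction n with
  | zero => simp [wrd]
  | succ n ih =>
    rw [wrd_succ, List.count_append, ih, List.count_replicate]
    by_cases h : i < n
    · have h1 : (n == i) = false := by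
        rw [beq_eq_false_iff_ne]; omega
      have h3 : i < n + 1 := by omega
      simp [h, h1, h3]
    · by_cases h2 : n = i
      · subst h2
        simp
      · have h1 : (n == i) = false := by
          rw [beq_eq_false_iff_ne]; omega
        have h3 : ¬ i < n + 1 := by omega
        simp only [h, h1, h3, if_false]
        simp

theorem wrd_mem (μ : ℕ → ℕ) (n i : ℕ) (h : i ∈ wrd μ n) : i < n := by
  unfold wrd at h
  rw [List.mem_flatMap] at h
  obtain ⟨j, hj, hi⟩ := h
  have := List.eq_of_mem_replicate hi
  subst this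
  exact List.mem_range.1 hj

theorem wrd_pre (R : List Rule) (μ : ℕ → ℕ) (n p : ℕ) :
    preC R (wrd μ n) p = ∑ i ∈ Finset.range n, μ i * (rl R i).1.count p := by
  induction n with
  | zero => simp [wrd, preC]
  | succ n ih =>
    rw [wrd_succ, Finset.sum_range_succ, ← ih]
    unfold preC
    rw [List.map_append, List.sum_append, List.map_replicate, List.sum_replicate, smul_eq_mul]

theorem sum_rl (f : Rule → ℕ) : ∀ R : List Rule,
    ∑ i ∈ Finset.range R.length, f (rl R i) = (R.map f).sum
  | [] => by simp
  | r :: R => by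
    rw [List.length_cons, Finset.sum_range_succ', List.map_cons, List.sum_cons, ← sum_rl f R,
      add_comm]
    rfl

theorem sims_mult (N : ℕ) (D : List CRule) : ∀ r ∈ sims N D, r.2.2 = N := by
  intro r hr
  unfold sims at hr
  rw [List.mem_flatMap] at hr
  obtain ⟨⟨⟨a, ins, b⟩, i⟩, -, h2⟩ := hr
  unfold simRules at h2
  rcases ins with ⟨pre, post⟩ | j
  · simp only [List.mem_singleton] at h2
    rw [h2]
  · simp only [List.mem_cons, List.not_mem_nil, or_false] at h2
    rcases h2 with h | h | h | h | h <;> rw [h]

theorem sims_places (ns nc N : ℕ) (D : List CRule) (hD : GoodC ns nc D) :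
    ∀ r ∈ sims N D, ∀ p ∈ r.1, p ∈ simPlaces ns nc D.length := by
  intro r hr p hp
  unfold sims at hr
  rw [List.mem_flatMap] at hr
  obtain ⟨⟨⟨a, ins, b⟩, i⟩, h1, h2⟩ := hr
  have hmem : (a, ins, b) ∈ D := List.fst_mem_of_mem_zipIdx h1
  have hi : i < D.length := by
    have := List.snd_lt_of_mem_zipIdx h1
    simpa using this
  obtain ⟨ha, hb, hins⟩ := hD _ hmem
  unfold simPlaces
  simp only [List.mem_append, List.mem_map, List.mem_range, List.mem_cons, List.not_mem_nil,
    or_false]
  unfold simRules at h2
  rcases ins with ⟨pre, post⟩ | j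
  · simp only [List.mem_singleton] at h2
    subst h2
    simp only [List.mem_cons, List.mem_append, List.mem_map] at hp
    simp only at hins
    rcases hp with h | ⟨j, hj, h⟩ | ⟨j, hj, h⟩
    · left
      exact ⟨a, ha, h.symm⟩
    · right; right; right; left
      exact ⟨j, (hins.1 j hj).1, h⟩
    · right; right; right; right; left
      exact ⟨j, hins.2.1 j hj, h⟩
  · simp only [List.mem_cons, List.not_mem_nil, or_false] at h2
    simp only at hins
    rcases h2 with h | h | h | h | h <;> subst h <;>
      simp only [List.mem_cons, List.not_mem_nil, or_false] at hp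
    · rcases hp with h | h
      · left; exact ⟨a, ha, h.symm⟩
      · right; right; right; right; right; right; left; exact h
    · rcases hp with h | h
      · right; left; exact ⟨i, hi, h.symm⟩
      · right; right; right; right; left; exact ⟨j, hins, h.symm⟩
    · right; left; exact ⟨i, hi, hp.symm⟩
    · rcases hp with h | h
      · right; right; left; exact ⟨i, hi, h.symm⟩
      · right; right; right; right; right; left; exact ⟨j, hins, h.symm⟩
    · right; right; left; exact ⟨i, hi, hp.symm⟩

theorem rl_mem {R : List Rule} {i : ℕ} (h : i < R.length) : rl R i ∈ R := by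
  unfold rl
  rw [List.getD_eq_getElem _ _ h]
  exact List.getElem_mem h

theorem prod_ge (F : ℕ) (X : List ℕ) (p : ℕ) (h : p ∈ X) : F ≤ prod (X.map (fun x => (x, F))) p := by
  induction X with
  | nil => simp at h
  | cons x X ih =>
    simp only [prod, List.map_cons, List.sum_cons]
    rcases List.mem_cons.1 h with h1 | h1
    · subst h1
      rw [List.count_singleton_self]
      omega
    · have := ih h1
      unfold prod at this
      omega

theorem prod_range (t : ℕ) (ht : t < 12) (k : ℕ → ℕ) (n p : ℕ) :
    prod ((List.range n).map (fun j => (pl t j, k j))) p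
      = if p % 12 = t ∧ p / 12 < n then k (p / 12) else 0 := by
  induction n with
  | zero => simp [prod]
  | succ n ih =>
    unfold prod at ih ⊢
    rw [List.range_succ, List.map_append, List.map_append, List.sum_append, ih]
    simp only [List.map_cons, List.map_nil, List.sum_cons, List.sum_nil, add_zero]
    by_cases h : p = pl t n
    · subst h
      have h1 : pl t n % 12 = t := by unfold pl; omega
      have h2 : pl t n / 12 = n := by unfold pl; omega
      rw [List.count_singleton_self, if_neg (by omega), if_pos (by omega), h2]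
      omega
    · have h1 : [pl t n].count p = 0 := List.count_eq_zero.2 (by simpa using h)
      rw [h1, mul_zero, add_zero]
      have h2 : ¬ (p % 12 = t ∧ p / 12 = n) := by
        rintro ⟨e1, e2⟩
        apply h
        unfold pl
        omega
      by_cases h3 : p % 12 = t ∧ p / 12 < n
      · rw [if_pos h3, if_pos (by omega)]
      · rw [if_neg h3, if_neg (by omega)]

end FLU

open FLU in
theorem FLU_holds (hLEG : S_LEG) : S_FLU := by
  intro ns nc D v0 C Z N F u m1 hD hns hv0 hvC hF hu huN h1 h10 h11
  -- the last phases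
  have hacc : Full [([pl 0 1], [pl 7 0], 1)] [0] m1 (useR ([pl 0 1], [pl 7 0], 1) m1) := by
    apply full_one
    intro p
    by_cases h : p = pl 0 1
    · subst h
      rw [List.count_singleton_self]
      exact h1
    · rw [List.count_eq_zero.2 (by simpa using h)]
      omega
  set m2 := useR ([pl 0 1], [pl 7 0], 1) m1 with hm2
  have m2_7 : 1 ≤ m2 (pl 7 0) := by
    rw [hm2]
    unfold useR
    simp only [List.count_singleton_self]
    omega
  have m2_o : ∀ p, p ≠ pl 0 1 → p ≠ pl 7 0 → m2 p = m1 p := by
    intro p e1 e2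
    rw [hm2]
    unfold useR
    simp only
    rw [List.count_eq_zero.2 (by simpa using e1), List.count_eq_zero.2 (by simpa using e2)]
    omega
  have m2_10 : m2 (pl 10 0) = Z := by rw [m2_o _ (by decide) (by decide)]; exact h10
  have m2_11 : m2 (pl 11 0) = Z * C := by rw [m2_o _ (by decide) (by decide)]; exact h11
  obtain ⟨m3, hr3, h3⟩ := full_gate (pl 7 0) (pl 10 0) Z (by decide) Z m2 m2_7 m2_10.ge
  have hg10 : Full [([pl 7 0, pl 10 0], [pl 7 0], Z)] (List.replicate Z 0) m2 m3 :=
    ⟨hr3, Cnts.single ([pl 7 0, pl 10 0], [pl 7 0], Z)⟩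
  have m3_7 : 1 ≤ m3 (pl 7 0) := by rw [h3 _ (by decide)]; exact m2_7
  have m3_11 : m3 (pl 11 0) = Z * C := by rw [h3 _ (by decide)]; exact m2_11
  obtain ⟨m4, hr4, h4⟩ := full_gate (pl 7 0) (pl 11 0) (Z * C) (by decide) (Z * C) m3 m3_7 m3_11.ge
  have hg11 : Full [([pl 7 0, pl 11 0], [pl 7 0], Z * C)] (List.replicate (Z * C) 0) m3 m4 :=
    ⟨hr4, Cnts.single ([pl 7 0, pl 11 0], [pl 7 0], Z * C)⟩
  have m4_7 : 1 ≤ m4 (pl 7 0) := by rw [h4 _ (by decide)]; exact m3_7
  have h78 : Full [([pl 7 0], [pl 8 0], 1)] [0] m4 (useR ([pl 7 0], [pl 8 0], 1) m4) := by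
    apply full_one
    intro p
    by_cases h : p = pl 7 0
    · subst h
      rw [List.count_singleton_self]
      exact m4_7
    · rw [List.count_eq_zero.2 (by simpa using h)]
      omega
  have m5_8 : 1 ≤ useR ([pl 7 0], [pl 8 0], 1) m4 (pl 8 0) := by
    unfold useR
    simp only [List.count_singleton_self]
    omega
  obtain ⟨wF, hwF⟩ := full_fill (pl 8 0) ((simPlaces ns nc D.length).map (fun x => (x, F))) _ m5_8
  set m5 := useR ([pl 7 0], [pl 8 0], 1) m4 with hm5
  set m9 : ℕ → ℕ := fun p => m5 p + prod ((simPlaces ns nc D.length).map (fun x => (x, F))) p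
    with hm9
  have hT6 := hacc.append (hg10.append (hg11.append (h78.append hwF)))
  set W6 := [0] ++ sh [(([pl 0 1], [pl 7 0], 1) : Rule)].length (List.replicate Z 0 ++
    sh [(([pl 7 0, pl 10 0], [pl 7 0], Z) : Rule)].length (List.replicate (Z * C) 0 ++
    sh [(([pl 7 0, pl 11 0], [pl 7 0], Z * C) : Rule)].length ([0] ++
    sh [(([pl 7 0], [pl 8 0], 1) : Rule)].length wF))) with hW6
  set T6 : List Rule := [([pl 0 1], [pl 7 0], 1)] ++ ([([pl 7 0, pl 10 0], [pl 7 0], Z)] ++
    ([([pl 7 0, pl 11 0], [pl 7 0], Z * C)] ++ ([([pl 7 0], [pl 8 0], 1)] ++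
    fillR (pl 8 0) ((simPlaces ns nc D.length).map (fun x => (x, F)))))) with hT6d
  -- the remaining uses of the simulation rules
  set u' := wrd (fun i => N - u.count i) (sims N D).length with hu'
  have hult := (hLEG.2.2 (sims N D) u _ _ hu).1
  obtain ⟨m10, hm10⟩ := run_any (sims N D) u' m9 (fun i hi => wrd_mem _ _ _ hi) (by
    intro p
    rw [hu', wrd_pre]
    by_cases hp : p ∈ simPlaces ns nc D.length
    · have e1 : ∑ i ∈ Finset.range (sims N D).length, (N - u.count i) * (rl (sims N D) i).1.count p
          ≤ ∑ i ∈ Finset.range (sims N D).length, N * (rl (sims N D) i).1.length := by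
        refine Finset.sum_le_sum fun i _ => ?_
        exact Nat.mul_le_mul (Nat.sub_le _ _) List.count_le_length
      rw [sum_rl (fun r => N * r.1.length) (sims N D)] at e1
      have e2 : ((sims N D).map (fun r => N * r.1.length)).sum ≤ F := by
        unfold fillF at hF
        omega
      have e3 := prod_ge F (simPlaces ns nc D.length) p hp
      have e4 : F ≤ m9 p := by
        rw [hm9]
        simp only
        omega
      omega
    · rw [Finset.sum_eq_zero]
      · omega
      · intro i hi
        have hc : (rl (sims N D) i).1.count p = 0 := by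
          rw [List.count_eq_zero]
          intro hmem
          exact hp (sims_places ns nc N D hD _ (rl_mem (Finset.mem_range.1 hi)) p hmem)
        rw [hc, mul_zero])
  have hcS : Cnts (sims N D) (u ++ u') := by
    intro i
    rw [List.count_append, hu', wrd_count]
    by_cases hi : i < (sims N D).length
    · rw [if_pos hi, sims_mult N D _ (rl_mem hi)]
      have := huN i
      omega
    · rw [if_neg hi, rl_out _ (by omega), List.count_eq_zero.2 (fun hm => hi (hult i hm))]
  have hT5 : Full (sims N D ++ T6) (u ++ (sh (sims N D).length W6 ++ u')) (mk0 nc v0 C Z) m10 := by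
    refine ⟨run_append _ _ _ _ _ _ (run_left _ _ _ _ _ hu)
      (run_append _ _ _ _ _ _ (run_right _ _ _ _ _ hT6.1) (run_left _ _ _ _ _ hm10)), ?_⟩
    have := hcS.append hT6.2
    refine this.perm ?_
    rw [List.append_assoc]
    exact List.Perm.append_left _ List.perm_append_comm
  -- the first phases
  have hst : Full [([], [pl 6 0], 1)] [0] (fun _ => 0) (useR ([], [pl 6 0], 1) (fun _ => 0)) :=
    full_one _ _ _ (fun p => by simp)
  set n0 := useR ([], [pl 6 0], 1) (fun _ => 0) with hn0
  have n0_6 : 1 ≤ n0 (pl 6 0) := by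
    rw [hn0]; unfold useR; simp
  obtain ⟨wa, hwa⟩ := full_fill (pl 6 0)
    ((List.range nc).map (fun j => (pl 3 j, min (v0.getD j 0) C))) n0 n0_6
  set n1 : ℕ → ℕ := fun p => n0 p + prod ((List.range nc).map (fun j => (pl 3 j, min (v0.getD j 0) C))) p
    with hn1
  have n1_6 : 1 ≤ n1 (pl 6 0) := by rw [hn1]; simp only; omega
  obtain ⟨wb, hwb⟩ := full_fill (pl 6 0)
    ((List.range nc).map (fun j => (pl 4 j, C - v0.getD j 0))) n1 n1_6
  set n2 : ℕ → ℕ := fun p => n1 p + prod ((List.range nc).map (fun j => (pl 4 j, C - v0.getD j 0))) p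
    with hn2
  have n2_6 : 1 ≤ n2 (pl 6 0) := by rw [hn2]; simp only; omega
  have hwc : Full [([pl 6 0], [pl 6 0, pl 9 0], Z)] (List.replicate Z 0) n2
      (fun p => n2 p + Z * [pl 9 0].count p) :=
    ⟨run_fill (pl 6 0) (pl 9 0) Z Z n2 n2_6, Cnts.single ([pl 6 0], [pl 6 0, pl 9 0], Z)⟩
  set n3 : ℕ → ℕ := fun p => n2 p + Z * [pl 9 0].count p with hn3
  have n3_6 : 1 ≤ n3 (pl 6 0) := by rw [hn3]; simp only; omega
  have hwd : Full [([pl 6 0], [pl 0 0], 1)] [0] n3 (useR ([pl 6 0], [pl 0 0], 1) n3) := by
    apply full_one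
    intro p
    by_cases h : p = pl 6 0
    · subst h
      rw [List.count_singleton_self]
      exact n3_6
    · rw [List.count_eq_zero.2 (by simpa using h)]
      omega
  have hmk : useR ([pl 6 0], [pl 0 0], 1) n3 = mk0 nc v0 C Z := by
    funext p
    have e0 : n0 p = if p = pl 6 0 then 1 else 0 := by
      rw [hn0]
      unfold useR
      simp only [List.count_nil]
      by_cases h : p = pl 6 0
      · subst h; simp
      · rw [if_neg h, List.count_eq_zero.2 (by simpa using h)]
    have e3 : n3 p = (if p = pl 6 0 then 1 else 0) +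
        (if p % 12 = 3 ∧ p / 12 < nc then min (v0.getD (p / 12) 0) C else 0) +
        (if p % 12 = 4 ∧ p / 12 < nc then C - v0.getD (p / 12) 0 else 0) +
        Z * [pl 9 0].count p := by
      rw [hn3, hn2, hn1]
      simp only
      rw [prod_range 3 (by norm_num) (fun j => min (v0.getD j 0) C) nc p,
        prod_range 4 (by norm_num) (fun j => C - v0.getD j 0) nc p, e0]
    unfold useR
    simp only
    rw [e3, min_eq_left (hvC (p / 12))]
    unfold mk0
    have c6 : pl 6 0 = 6 := rfl
    have c0 : pl 0 0 = 0 := rfl
    have c9 : pl 9 0 = 9 := rfl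
    rw [c6, c0, c9]
    by_cases q6 : p = 6
    · subst q6
      simp
    by_cases q0 : p = 0
    · subst q0
      simp
    by_cases q9 : p = 9
    · subst q9
      simp
    have k6 : [6].count p = 0 := List.count_eq_zero.2 (by simpa using q6)
    have k0 : [0].count p = 0 := List.count_eq_zero.2 (by simpa using q0)
    have k9 : [9].count p = 0 := List.count_eq_zero.2 (by simpa using q9)
    rw [if_neg q6, if_neg q0, if_neg q9, k6, k0, k9]
    by_cases q3 : p % 12 = 3 ∧ p / 12 < nc
    · rw [if_pos q3, if_neg (by omega), if_pos q3]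
      omega
    · rw [if_neg q3, if_neg q3]
      by_cases q4 : p % 12 = 4 ∧ p / 12 < nc
      · rw [if_pos q4]
        omega
      · rw [if_neg q4]
        simp
  rw [hmk] at hwd
  have hT0 := hst.append (hwa.append (hwb.append (hwc.append (hwd.append hT5))))
  have hR : [(([], [pl 6 0], 1) : Rule)] ++
      (fillR (pl 6 0) ((List.range nc).map (fun j => (pl 3 j, min (v0.getD j 0) C))) ++
      (fillR (pl 6 0) ((List.range nc).map (fun j => (pl 4 j, C - v0.getD j 0))) ++
      ([(([pl 6 0], [pl 6 0, pl 9 0], Z) : Rule)] ++ ([(([pl 6 0], [pl 0 0], 1) : Rule)] ++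
      (sims N D ++ T6))))) = toR ns nc D v0 C Z N F := by
    unfold toR fillR
    rw [hT6d]
    simp only [fillR, List.map_map, Function.comp_def, List.cons_append, List.nil_append]
  rw [hR] at hT0
  exact ⟨_, hT0.2, (hLEG.1 _ _ ((hLEG.2.2 _ _ _ _ hT0.1).1)).2 ⟨_, hT0.1⟩⟩

end Pool.Agent.H453R2.JS
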