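import Pool.Agent.H453R2.JS.Spec2

namespace Pool.Agent.H453R2.JS

/-- The stack of the instruction is below `K`. -/
def GM.insOk (K : ℕ) : Ins → Prop
  | Ins.push i _ => i < K
  | Ins.pop i _ => i < K
  | Ins.empty i => i < K

theorem GM.insOk_mono {K K' : ℕ} (h : K ≤ K') (a : Ins) (ha : GM.insOk K a) : GM.insOk K' a := by
  cases a <;> exact lt_of_lt_of_le ha h

theorem GM.insOk_ex (a : Ins) : ∃ K, GM.insOk K a := by
  cases a with
  | push i b => exact ⟨i + 1, Nat.lt_succ_self i⟩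
  | pop i b => exact ⟨i + 1, Nat.lt_succ_self i⟩
  | empty i => exact ⟨i + 1, Nat.lt_succ_self i⟩

theorem GM.iff (nm K : ℕ) (M : Mach) :
    GoodM nm K M ↔ ∀ r ∈ M, r.1 < nm ∧ r.2.2 < nm ∧ GM.insOk K r.2.1 := by
  unfold GoodM
  refine forall_congr' fun r => forall_congr' fun _ => ?_
  obtain ⟨p, a, q⟩ := r
  cases a <;> exact Iff.rfl

theorem GM_holds : S_GM := by
  intro M
  induction M with
  | nil => exact ⟨2, 1, fun r hr => absurd hr (List.not_mem_nil), le_rfl, le_rfl⟩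
  | cons r M ih =>
    obtain ⟨nm, K, h, h2, h1⟩ := ih
    obtain ⟨K', hK'⟩ := GM.insOk_ex r.2.1
    refine ⟨nm + r.1 + r.2.2 + 1, K + K', ?_, by omega, by omega⟩
    rw [GM.iff] at h ⊢
    intro r' hr'
    rcases List.mem_cons.1 hr' with rfl | hr'
    · exact ⟨by omega, by omega, GM.insOk_mono (Nat.le_add_left _ _) _ hK'⟩
    · obtain ⟨a1, a2, a3⟩ := h r' hr'
      exact ⟨by omega, by omega, GM.insOk_mono (Nat.le_add_right _ _) _ a3⟩

end Pool.Agent.H453R2.JS
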