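import Pool.Agent.H453R2.JS.Spec

namespace Pool.Agent.H453R2.JS

theorem JOK.ka_ge (nq nc : ℕ) (a : Act) : cB nq nc ≤ cKa nq nc a := by
  rcases a with _ | ⟨j, _ | _⟩ <;> simp only [cKa] <;> omega

theorem JOK.al_ge (nq nc q : ℕ) : cB nq nc ≤ cAl nq nc q := by
  unfold cAl
  exact Nat.le_add_right _ _

theorem JOK.B_gt (nq nc : ℕ) : cMu nq nc < cB nq nc := by
  unfold cMu cB
  omega

theorem JOK.Be_gt (nq nc : ℕ) (t : Tr) : cMu nq nc < cBe nq nc t := by
  have h1 := JOK.ka_ge nq nc t.2.1
  have h3 := JOK.B_gt nq nc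
  unfold cBe
  omega

theorem JOK.Bs_gt (nq nc : ℕ) : cMu nq nc < cBs nq nc := by
  have h3 := JOK.B_gt nq nc
  unfold cBs
  omega

theorem JOK.Max_gt (nq nc : ℕ) : cMu nq nc < cMax nq nc := by
  have h3 := JOK.B_gt nq nc
  unfold cMax
  omega

theorem JOK.End_pos (nq nc : ℕ) : 0 < cEnd nq nc := by
  have h3 := JOK.Max_gt nq nc
  unfold cEnd
  omega

theorem JOK.Mu_pos (nq nc : ℕ) : 0 < cMu nq nc := by
  unfold cMu
  omega

theorem JOK.ka_pos (nq nc : ℕ) (a : Act) : 0 < cKa nq nc a :=
  lt_of_lt_of_le (lt_of_le_of_lt (Nat.zero_le _) (JOK.B_gt nq nc)) (JOK.ka_ge nq nc a)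

theorem JOK.al_pos (nq nc q : ℕ) : 0 < cAl nq nc q :=
  lt_of_lt_of_le (lt_of_le_of_lt (Nat.zero_le _) (JOK.B_gt nq nc)) (JOK.al_ge nq nc q)

theorem JOK.ok_jobT (nq nc : ℕ) (t : Tr) : JobOk (jobT nq nc t) := by
  have h1 := JOK.Be_gt nq nc t
  have h2 := JOK.al_pos nq nc t.1
  constructor
  · intro o ho
    simp only [jobT, List.mem_cons, List.not_mem_nil, or_false] at ho
    rcases ho with rfl | rfl | rfl | rfl
    · exact ⟨by norm_num, h2⟩
    · exact ⟨by norm_num, by show 0 < cBe nq nc t; omega⟩
    · exact ⟨by norm_num, by norm_num⟩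
    · exact ⟨by norm_num, by show 0 < cBe nq nc t - cMu nq nc; omega⟩
  · simp [jobT]

theorem JOK.ok_kjob (nq nc : ℕ) (k : KJ) : JobOk (kjob nq nc k) := by
  have h1 := JOK.Mu_pos nq nc
  have h2 := JOK.ka_pos nq nc
  cases k with
  | full j =>
    constructor
    · intro o ho
      simp only [kjob, List.mem_cons, List.not_mem_nil, or_false] at ho
      rcases ho with rfl | rfl | rfl | rfl
      · exact ⟨by norm_num, h2 (some (j, true))⟩
      · exact ⟨by norm_num, h1⟩
      · exact ⟨by norm_num, h2 (some (j, false))⟩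
      · exact ⟨by norm_num, h1⟩
    · simp [kjob]
  | inc j =>
    constructor
    · intro o ho
      simp only [kjob, List.mem_cons, List.not_mem_nil, or_false] at ho
      rcases ho with rfl | rfl
      · exact ⟨by norm_num, h2 (some (j, true))⟩
      · exact ⟨by norm_num, h1⟩
    · simp [kjob]
  | dum =>
    constructor
    · intro o ho
      simp only [kjob, List.mem_cons, List.not_mem_nil, or_false] at ho
      rcases ho with rfl | rfl
      · exact ⟨by norm_num, h2 none⟩
      · exact ⟨by norm_num, h1⟩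
    · simp [kjob]

theorem JOK.ok_specials (nq nc : ℕ) : ∀ B ∈ specials nq nc, JobOk B := by
  have h1 := JOK.Bs_gt nq nc
  have h2 := JOK.Max_gt nq nc
  have h3 := JOK.End_pos nq nc
  have h4 := JOK.al_pos nq nc 0
  intro B hB
  simp only [specials, List.mem_cons, List.not_mem_nil, or_false] at hB
  rcases hB with rfl | rfl | rfl | rfl | rfl
  · constructor
    · intro o ho
      simp only [List.mem_cons, List.not_mem_nil, or_false] at ho
      rcases ho with rfl | rfl | rfl
      · exact ⟨by norm_num, by show 0 < cBs nq nc; omega⟩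
      · exact ⟨by norm_num, by norm_num⟩
      · exact ⟨by norm_num, by show 0 < cBs nq nc - cMu nq nc; omega⟩
    · simp
  · constructor
    · intro o ho
      simp only [List.mem_cons, List.not_mem_nil, or_false] at ho
      rcases ho with rfl | rfl
      · exact ⟨by norm_num, by norm_num⟩
      · exact ⟨by norm_num, by show 0 < cMax nq nc - cMu nq nc; omega⟩
    · simp
  · constructor
    · intro o ho
      simp only [List.mem_cons, List.not_mem_nil, or_false] at ho
      rcases ho with rfl
      exact ⟨by norm_num, by norm_num⟩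
    · simp
  · constructor
    · intro o ho
      simp only [List.mem_cons, List.not_mem_nil, or_false] at ho
      rcases ho with rfl | rfl
      · exact ⟨by norm_num, h4⟩
      · exact ⟨by norm_num, h3⟩
    · simp
  · constructor
    · intro o ho
      simp only [List.mem_cons, List.not_mem_nil, or_false] at ho
      rcases ho with rfl
      exact ⟨by norm_num, by show 0 < cMax nq nc - cMu nq nc; omega⟩
    · simp

theorem JOK_holds : S_JOK := by
  intro nq nc T _ B hB
  unfold inst at hB
  rw [List.mem_append, List.mem_append, List.mem_map, List.mem_map] at hB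
  rcases hB with h | ⟨t, _, rfl⟩ | ⟨k, _, rfl⟩
  · exact JOK.ok_specials nq nc B h
  · exact JOK.ok_jobT nq nc t
  · exact JOK.ok_kjob nq nc k

end Pool.Agent.H453R2.JS
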