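import Pool.Agent.H453R2.JS.Spec

/-!
# Task LOAD: all three machines have load `bound`
-/

namespace Pool.Agent.H453R2.JS

namespace LOAD

/-- load of one job -/
def jl (B : Job) (m : ℕ) : ℕ := ((B.filter (fun o => o.1 = m)).map Prod.snd).sum

theorem load_append (J K : List Job) (m : ℕ) : load (J ++ K) m = load J m + load K m := by
  simp [load]

theorem load_eq (J : List Job) (m : ℕ) : load J m = (J.map (fun B => jl B m)).sum := by
  induction J with
  | nil => simp [load]
  | cons B J ih =>
    have : load (B :: J) m = jl B m + load J m := by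
      simp [load, jl]
    rw [this, ih]; simp

/-- sums over a finite range as list sums -/
theorem sum_list_range (n : ℕ) (f : ℕ → ℕ) :
    ((List.range n).map f).sum = ∑ j ∈ Finset.range n, f j := rfl

theorem nact_cons (a : Act) (t : Tr) (T : List Tr) :
    nact a (t :: T) = nact a T + if t.2.1 = a then 1 else 0 := by
  simp [nact, List.countP_cons]

/-- weights of actions -/
theorem act_sum (nc : ℕ) (h : Act → ℕ) (T : List Tr)
    (hT : ∀ t ∈ T, ∀ j b, t.2.1 = some (j, b) → j < nc) :
    (T.map (fun t => h t.2.1)).sum =
      ∑ j ∈ Finset.range nc, (nact (some (j, true)) T * h (some (j, true)) +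
        nact (some (j, false)) T * h (some (j, false))) + nact none T * h none := by
  induction T with
  | nil => simp [nact]
  | cons t T ih =>
    have ih' := ih (fun t ht => hT t (List.mem_cons_of_mem _ ht))
    rw [List.map_cons, List.sum_cons, ih']
    have ht := hT t List.mem_cons_self
    obtain ⟨s, a, q⟩ := t
    simp only [nact_cons]
    rcases a with _ | ⟨j, b⟩
    · simp
      ring
    · have hj : j < nc := ht j b rfl
      have key : ∑ i ∈ Finset.range nc, ((nact (some (i, true)) T +
            if (some (j, b) : Act) = some (i, true) then 1 else 0) * h (some (i, true)) +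
          (nact (some (i, false)) T +
            if (some (j, b) : Act) = some (i, false) then 1 else 0) * h (some (i, false))) =
          ∑ i ∈ Finset.range nc, (nact (some (i, true)) T * h (some (i, true)) +
            nact (some (i, false)) T * h (some (i, false))) +
          ∑ i ∈ Finset.range nc, (if i = j then h (some (j, b)) else 0) := by
        rw [← Finset.sum_add_distrib]
        refine Finset.sum_congr rfl fun i _ => ?_
        by_cases hi : i = j
        · subst hi
          cases b <;> simp <;> ring
        · have : ¬ j = i := fun h => hi h.symm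
          simp [hi, this]
      rw [key, Finset.sum_ite_eq' ]
      simp [hj]
      ring

/-- sums over the action jobs -/
theorem kjs_sum (nc : ℕ) (g : KJ → ℕ) (T : List Tr) :
    ((kjs nc T).map g).sum = ∑ j ∈ Finset.range nc,
      (nact (some (j, false)) T * g (KJ.full j) +
        (nact (some (j, true)) T - nact (some (j, false)) T) * g (KJ.inc j)) +
      (nact none T + 1) * g KJ.dum := by
  unfold kjs
  rw [List.map_append, List.sum_append, List.map_replicate, List.sum_replicate, smul_eq_mul]
  congr 1
  rw [← sum_list_range]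
  generalize List.range nc = R
  induction R with
  | nil => simp
  | cons j R ih =>
    rw [List.flatMap_cons, List.map_append, List.sum_append, ih, List.map_cons, List.sum_cons]
    congr 1
    simp

theorem jobT0 (nq nc : ℕ) (t : Tr) : jl (jobT nq nc t) 0 = cAl nq nc t.1 + 1 := by
  simp [jl, jobT]

theorem jobT1 (nq nc : ℕ) (t : Tr) : jl (jobT nq nc t) 1 = cBe nq nc t - cMu nq nc := by
  simp [jl, jobT]

theorem jobT2 (nq nc : ℕ) (t : Tr) : jl (jobT nq nc t) 2 = cBe nq nc t := by
  simp [jl, jobT]

theorem LOAD_aux (nq nc : ℕ) (T : List Tr) (hG : Good nq nc T) :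
    load (inst nq nc T) 0 = bound nq nc T ∧ load (inst nq nc T) 1 = bound nq nc T ∧
    load (inst nq nc T) 2 = bound nq nc T := by
  have hB : cB nq nc = 4 * cE nq nc + 4 := rfl
  have hMu : cMu nq nc = 1 + 3 * cE nq nc := rfl
  have hMax : cMax nq nc = 1 + 2 * cB nq nc + 2 * cE nq nc := rfl
  have hEnd : cEnd nq nc = cMax nq nc + 1 - cMu nq nc := rfl
  have hBs : cBs nq nc = 1 + cB nq nc + cAl nq nc 0 := rfl
  have hAl0 : cAl nq nc 0 = cB nq nc := by simp [cAl]
  have hKa : ∀ a, cB nq nc ≤ cKa nq nc a := by
    intro a
    rcases a with _ | ⟨j, b⟩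
    · exact le_rfl
    · cases b <;> simp [cKa] <;> omega
  have hBe : ∀ t, cMu nq nc ≤ cBe nq nc t := by
    intro t
    have h1 := hKa t.2.1
    have h2 : cB nq nc ≤ cAl nq nc t.2.2 := by simp [cAl]
    have h3 : cBe nq nc t = 1 + cKa nq nc t.2.1 + cAl nq nc t.2.2 := rfl
    omega
  have e0 : ∀ m, load (inst nq nc T) m = load (specials nq nc) m +
      ((T.map (fun t => jl (jobT nq nc t) m)).sum +
        ((kjs nc T).map (fun k => jl (kjob nq nc k) m)).sum) := by
    intro m
    unfold inst
    rw [load_append, load_append, load_eq (T.map _), load_eq ((kjs nc T).map _), List.map_map,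
      List.map_map]
    rfl
  have hbound : bound nq nc T = (T.map (cBe nq nc)).sum + cBs nq nc + cEnd nq nc := rfl
  -- the number of transitions
  have hlen := act_sum nc (fun _ => 1) T hG.cnt
  simp only [mul_one, List.map_const', List.sum_replicate, smul_eq_mul] at hlen
  refine ⟨?_, ?_, ?_⟩
  · -- machine 0
    rw [e0, kjs_sum]
    have s0 : load (specials nq nc) 0 = 1 + 1 + cAl nq nc 0 + (cMax nq nc - cMu nq nc) := by
      simp [load, specials]; ring
    have k1 : ∑ j ∈ Finset.range nc,
      (nact (some (j, false)) T * jl (kjob nq nc (KJ.full j)) 0 +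
        (nact (some (j, true)) T - nact (some (j, false)) T) * jl (kjob nq nc (KJ.inc j)) 0) =
        ∑ j ∈ Finset.range nc, (nact (some (j, true)) T * cKa nq nc (some (j, true)) +
        nact (some (j, false)) T * cKa nq nc (some (j, false))) := by
      refine Finset.sum_congr rfl fun j _ => ?_
      have h1 : jl (kjob nq nc (KJ.full j)) 0 = cKa nq nc (some (j, true)) +
        cKa nq nc (some (j, false)) := by simp [jl, kjob]
      have h2 : jl (kjob nq nc (KJ.inc j)) 0 = cKa nq nc (some (j, true)) := by simp [jl, kjob]
      rw [h1, h2]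
      obtain ⟨d, hd⟩ := Nat.exists_eq_add_of_le (hG.bal j)
      rw [hd, Nat.add_sub_cancel_left]
      ring
    have k2 : jl (kjob nq nc KJ.dum) 0 = cKa nq nc none := by simp [jl, kjob]
    have hact := act_sum nc (cKa nq nc) T hG.cnt
    rw [k1, k2, s0, hbound]
    have hT1 : (T.map (fun t => jl (jobT nq nc t) 0)).sum =
        (T.map (fun t => cAl nq nc t.1)).sum + T.length := by
      simp only [jobT0]
      rw [List.sum_map_add]; simp
    have hT2 : (T.map (cBe nq nc)).sum = T.length + (T.map (fun t => cKa nq nc t.2.1)).sum +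
        (T.map (fun t => cAl nq nc t.2.2)).sum := by
      have : cBe nq nc = fun t : Tr => 1 + cKa nq nc t.2.1 + cAl nq nc t.2.2 := rfl
      rw [this, List.sum_map_add, List.sum_map_add]; simp
    have hT3 : (T.map (fun t => cAl nq nc t.1)).sum = (T.map (fun t => cAl nq nc t.2.2)).sum := by
      simp only [cAl]
      rw [List.sum_map_add, List.sum_map_add, List.sum_map_mul_left, List.sum_map_mul_left, hG.sum]
    have hKn : cKa nq nc none = cB nq nc := rfl
    rw [hT1, hT2, hT3, hact, add_mul]
    omega
  · -- machine 1
    rw [e0, kjs_sum]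
    have s0 : load (specials nq nc) 1 = (cBs nq nc - cMu nq nc) + (cMax nq nc - cMu nq nc) + 1 := by
      simp [load, specials]; ring
    have k1 : ∑ j ∈ Finset.range nc,
      (nact (some (j, false)) T * jl (kjob nq nc (KJ.full j)) 1 +
        (nact (some (j, true)) T - nact (some (j, false)) T) * jl (kjob nq nc (KJ.inc j)) 1) =
        (∑ j ∈ Finset.range nc, (nact (some (j, true)) T +
        nact (some (j, false)) T)) * cMu nq nc := by
      rw [Finset.sum_mul]
      refine Finset.sum_congr rfl fun j _ => ?_
      have h1 : jl (kjob nq nc (KJ.full j)) 1 = cMu nq nc + cMu nq nc := by simp [jl, kjob]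
      have h2 : jl (kjob nq nc (KJ.inc j)) 1 = cMu nq nc := by simp [jl, kjob]
      rw [h1, h2]
      obtain ⟨d, hd⟩ := Nat.exists_eq_add_of_le (hG.bal j)
      rw [hd, Nat.add_sub_cancel_left]
      ring
    have k2 : jl (kjob nq nc KJ.dum) 1 = cMu nq nc := by simp [jl, kjob]
    rw [k1, k2, s0, hbound]
    have hT1 : (T.map (fun t => jl (jobT nq nc t) 1)).sum + T.length * cMu nq nc =
        (T.map (cBe nq nc)).sum := by
      clear hlen k1 e0 hbound
      clear hG
      induction T with
      | nil => simp
      | cons t T ih =>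
        simp only [List.map_cons, List.sum_cons, List.length_cons, jobT1] at ih ⊢
        have := hBe t
        rw [← ih]
        rw [Nat.succ_mul]
        omega
    have hN : (∑ j ∈ Finset.range nc, (nact (some (j, true)) T + nact (some (j, false)) T)) *
        cMu nq nc + (nact none T + 1) * cMu nq nc = T.length * cMu nq nc + cMu nq nc := by
      rw [hlen]; ring
    have h1 : cMu nq nc ≤ cBs nq nc := by omega
    have h2 : cMu nq nc ≤ cMax nq nc := by omega
    omega
  · -- machine 2
    rw [e0, kjs_sum]
    have s0 : load (specials nq nc) 2 = cBs nq nc + cEnd nq nc := by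
      simp [load, specials]
    have k1 : ∑ j ∈ Finset.range nc,
      (nact (some (j, false)) T * jl (kjob nq nc (KJ.full j)) 2 +
        (nact (some (j, true)) T - nact (some (j, false)) T) * jl (kjob nq nc (KJ.inc j)) 2) =
        0 := by
      refine Finset.sum_eq_zero fun j _ => ?_
      have h1 : jl (kjob nq nc (KJ.full j)) 2 = 0 := by simp [jl, kjob]
      have h2 : jl (kjob nq nc (KJ.inc j)) 2 = 0 := by simp [jl, kjob]
      rw [h1, h2]; simp
    have k2 : jl (kjob nq nc KJ.dum) 2 = 0 := by simp [jl, kjob]
    rw [k1, k2, s0, hbound]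
    simp only [jobT2]
    ring_nf

end LOAD

theorem LOAD_holds : S_LOAD := by
  intro nq nc T hG m hm
  obtain ⟨h0, h1, h2⟩ := LOAD.LOAD_aux nq nc T hG
  interval_cases m
  · exact h0
  · exact h1
  · exact h2

end Pool.Agent.H453R2.JS
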