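import Pool.Agent.H453R2.JS.Spec

/-!
# Task MCC: completeness of the counter machine
-/

namespace Pool.Agent.H453R2.JS

namespace MCC

theorem crun_trans {D : List CRule} {C n z : ℕ} {c c' : CCfg} (h : CRun D C n z c c') :
    ∀ {n' z' : ℕ} {c'' : CCfg}, CRun D C n' z' c' c'' → CRun D C (n + n') (z + z') c c'' := by
  induction h with
  | refl c h => intro n' z' c'' h2; simpa using h2
  | @add n z c c' c'' r pre post hr h1 h2 hi he h hrun ih =>
    intro n' z' d hd
    have := CRun.add r pre post hr h1 h2 hi he h (ih hd)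
    have e : n + 1 + n' = n + n' + 1 := by omega
    rw [e]; exact this
  | @zero n z c c' c'' r j hr h1 h2 hi he h hrun ih =>
    intro n' z' d hd
    have := CRun.zero r j hr h1 h2 hi he h (ih hd)
    have e : n + 1 + n' = n + n' + 1 := by omega
    have e2 : z + 1 + z' = z + z' + 1 := by omega
    rw [e, e2]; exact this

theorem val_lt (l : List Bool) : val l + 2 ≤ 2 ^ (l.length + 1) := by
  induction l with
  | nil => simp [val]
  | cons c l ih =>
    have hc : c.toNat ≤ 1 := by cases c <;> simp
    simp only [val, List.length_cons]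
    rw [pow_succ]
    omega

theorem blk_len (w : ℕ) (s : List Bool) (h : ℕ) : (blk w s h).length ≤ w := by
  unfold blk
  rw [List.length_reverse]
  exact List.length_take_le _ _

theorem rep_le (K w b C : ℕ) (hw : 1 ≤ w) (hC : 2 ^ (w + 1) ≤ C) (s : ℕ → List Bool) (j : ℕ) :
    rep K w b s j ≤ C := by
  have h4 : 2 ^ 2 ≤ 2 ^ (w + 1) := Nat.pow_le_pow_right (by norm_num) (by omega)
  unfold rep
  split_ifs
  · omega
  · have h1 := val_lt (blk w (s ((j - 1) / 2 / b)) ((j - 1) / 2 % b))
    have h2 := blk_len w (s ((j - 1) / 2 / b)) ((j - 1) / 2 % b)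
    have h3 : 2 ^ ((blk w (s ((j - 1) / 2 / b)) ((j - 1) / 2 % b)).length + 1) ≤ 2 ^ (w + 1) :=
      Nat.pow_le_pow_right (by norm_num) (by omega)
    omega
  · omega
  · omega

theorem getD_pairs (f g : ℕ → ℕ) (N j : ℕ) :
    ((List.range N).flatMap (fun t => [f t, g t])).getD j 0 =
      if j < 2 * N then (if j % 2 = 0 then f (j / 2) else g (j / 2)) else 0 := by
  induction N with
  | zero => simp
  | succ N ih =>
    rw [List.range_succ, List.flatMap_append]
    have hlen : ((List.range N).flatMap (fun t => [f t, g t])).length = 2 * N := by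
      rw [List.length_flatMap]
      simp
      omega
    by_cases h : j < 2 * N
    · rw [List.getD_append _ _ _ _ (by rw [hlen]; exact h), ih, if_pos h,
        if_pos (by omega : j < 2 * (N + 1))]
    · rw [List.getD_append_right _ _ _ _ (by rw [hlen]; omega), hlen]
      simp only [List.flatMap_cons, List.flatMap_nil, List.append_nil]
      by_cases h2 : j < 2 * (N + 1)
      · rw [if_pos h2]
        rcases (by omega : j = 2 * N ∨ j = 2 * N + 1) with h3 | h3
        · subst h3
          simp
        · subst h3
          have e1 : 2 * N + 1 - 2 * N = 1 := by omega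
          have e2 : ¬ (2 * N + 1) % 2 = 0 := by omega
          have e3 : (2 * N + 1) / 2 = N := by omega
          rw [e1, if_neg e2, e3]
          rfl
      · rw [if_neg h2]
        obtain ⟨k, hk⟩ : ∃ k, j - 2 * N = k + 2 := ⟨j - 2 * N - 2, by omega⟩
        rw [hk]
        simp

theorem v0_rep (K w b : ℕ) (hb : 1 ≤ b) (x : List Bool) :
    cfg0 0 (v0Of K w b x) = (0, rep K w b (minit x).2) := by
  unfold cfg0
  congr 1
  funext j
  have hv : v0Of K w b x = 0 :: (List.range (K * b)).flatMap (fun t =>
      [(if t < b then val (blk w x t) else 0),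
       (if t < b then (if t = top w x then 1 else 0) else (if t % b = 0 then 1 else 0))]) := by
    unfold v0Of
    congr 1
    congr 1
    funext t
    by_cases h : t < b
    · simp only [if_pos h]
    · simp only [if_neg h]
  rw [hv]
  rcases j with _ | j
  · simp [rep]
  · rw [List.getD_cons_succ, getD_pairs]
    unfold rep
    simp only [Nat.add_sub_cancel]
    by_cases h1 : j < 2 * (K * b)
    · have h2 : ¬ (j + 1 = 0 ∨ K * b ≤ j / 2) := by omega
      rw [if_pos h1, if_neg h2]
      set t := j / 2 with ht
      by_cases hev : j % 2 = 0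
      · rw [if_pos hev, if_pos (by omega : (j + 1) % 2 = 1)]
        by_cases htb : t < b
        · rw [if_pos htb, Nat.div_eq_of_lt htb, Nat.mod_eq_of_lt htb]
          simp [minit]
        · rw [if_neg htb]
          have h3 : t / b ≠ 0 := by
            have := Nat.div_pos (not_lt.1 htb) hb
            omega
          have h4 : (minit x).2 (t / b) = [] := by
            show Function.update (fun _ => ([] : List Bool)) 0 x (t / b) = []
            rw [Function.update_of_ne h3]
          rw [h4]
          simp [blk, val]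
      · rw [if_neg hev, if_neg (by omega : ¬ (j + 1) % 2 = 1)]
        by_cases htb : t < b
        · rw [if_pos htb, Nat.div_eq_of_lt htb, Nat.mod_eq_of_lt htb]
          simp [minit]
        · rw [if_neg htb]
          have h3 : t / b ≠ 0 := by
            have := Nat.div_pos (not_lt.1 htb) hb
            omega
          have h4 : (minit x).2 (t / b) = [] := by
            show Function.update (fun _ => ([] : List Bool)) 0 x (t / b) = []
            rw [Function.update_of_ne h3]
          rw [h4]
          simp [top]
    · have h2 : (j + 1 = 0 ∨ K * b ≤ j / 2) := by omega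
      rw [if_neg h1, if_pos h2]

theorem mrun_first {M : Mach} {S t : ℕ} {c c' : MCfg} (h : MRun M S t c c') :
    ∀ i, (c.2 i).length ≤ S := by
  cases h with
  | refl c h => exact h
  | step h _ _ => exact h

theorem pad (nm K b w : ℕ) (M : Mach) (C : ℕ) (hw : 1 ≤ w) (hC : 2 ^ (w + 1) ≤ C)
    (s : ℕ → List Bool) (k : ℕ) :
    CRun (toC nm b M) C k k (1, rep K w b s) (1, rep K w b s) := by
  induction k with
  | zero => exact CRun.refl _ (fun j => rep_le K w b C hw hC s j)
  | succ k ih =>
    refine CRun.zero (1, Sum.inr 0, 1) 0 ?_ rfl rfl rfl ?_ (fun j => rep_le K w b C hw hC s j) ih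
    · unfold toC; exact List.mem_cons_self
    · refine ⟨?_, rfl⟩
      simp [rep]

end MCC

open MCC in
theorem MCC_holds (hP : S_MCCP) (hQ : S_MCCQ) (hE : S_MCCE) : S_MCC := by
  intro nm K b w M x C t Z hM hnm _hK hb hw _hx hC hZ hacc
  obtain ⟨t', ht', c, hrun, hc⟩ := hacc
  have key : ∀ (t : ℕ) (c c' : MCfg), MRun M (b * w) t c c' →
      ∃ n z, CRun (toC nm b M) C n z (c.1, rep K w b c.2) (c'.1, rep K w b c'.2) ∧
        n ≤ t * (2 * C + 8) ∧ z ≤ 3 * t := by
    intro t c c' h
    induction h with
    | refl c h =>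
      exact ⟨0, 0, CRun.refl _ (fun j => rep_le K w b C hw hC c.2 j), by omega, by omega⟩
    | @step t c c' c'' h hs hr ih =>
      obtain ⟨n1, z1, hr1, hn1, hz1⟩ := ih
      have hlen' := mrun_first hr
      obtain ⟨r, hrM, e1, e2, heff⟩ := hs
      have hone : ∃ n z, CRun (toC nm b M) C n z (c.1, rep K w b c.2) (c'.1, rep K w b c'.2) ∧
          n ≤ 2 * C + 8 ∧ z ≤ 3 := by
        rcases hr21 : r.2.1 with ⟨i, β⟩ | ⟨i, β⟩ | ⟨i⟩
        · rw [hr21] at heff
          have heff' : c'.2 = Function.update c.2 i (β :: c.2 i) := heff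
          have hl : (c.2 i).length + 1 ≤ b * w := by
            have := hlen' i
            rw [heff'] at this
            simpa using this
          have := hP nm K b w M C c.2 i β r hM hnm hb hw hC hrM hr21 hl h
          rw [e1, e2, ← heff'] at this
          exact this
        · rw [hr21] at heff
          obtain ⟨l, hl, heff'⟩ := (heff : ∃ l, c.2 i = β :: l ∧ c'.2 = Function.update c.2 i l)
          have := hQ nm K b w M C c.2 i β r l hM hnm hb hw hC hrM hr21 hl h
          rw [e1, e2, ← heff'] at this
          exact this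
        · rw [hr21] at heff
          obtain ⟨hl, heff'⟩ := (heff : c.2 i = [] ∧ c'.2 = c.2)
          have := hE nm K b w M C c.2 i r hM hnm hb hw hC hrM hr21 hl h
          rw [e1, e2] at this
          rw [heff']
          exact this
      obtain ⟨n2, z2, hr2, hn2, hz2⟩ := hone
      refine ⟨n2 + n1, z2 + z1, crun_trans hr2 hr1, ?_, by omega⟩
      have : (t + 1) * (2 * C + 8) = t * (2 * C + 8) + (2 * C + 8) := by ring
      omega
  obtain ⟨n, z, hr, hn, hz⟩ := key t' _ _ hrun
  have hzZ : z ≤ Z := by omega
  have hp := pad nm K b w M C hw hC c.2 (Z - z)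
  have hfull : CRun (toC nm b M) C (n + (Z - z)) (z + (Z - z)) ((minit x).1, rep K w b (minit x).2)
      (1, rep K w b c.2) := by
    refine crun_trans ?_ hp
    rw [← hc]; exact hr
  rw [Nat.add_sub_cancel' hzZ] at hfull
  refine ⟨n + (Z - z), (1, rep K w b c.2), ?_, rfl, ?_⟩
  · rw [v0_rep K w b hb x]; exact hfull
  · have h1 : t' * (2 * C + 8) ≤ t * (2 * C + 8) := Nat.mul_le_mul_right _ ht'
    omega

end Pool.Agent.H453R2.JS
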