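import Pool.Agent.H453R2.JS.Spec

namespace Pool.Agent.H453R2.JS

namespace MCCE

theorem val_le (l : List Bool) : val l + 2 ≤ 2 ^ (l.length + 1) := by
  induction l with
  | nil => simp [val]
  | cons β l ih =>
    have h1 : val (β :: l) = 2 * val l + 1 + β.toNat := rfl
    have h2 : β.toNat ≤ 1 := Bool.toNat_le β
    rw [h1, List.length_cons, pow_succ]
    omega

theorem rep_le {K w b C : ℕ} (s : ℕ → List Bool) (hC : 2 ^ (w + 1) ≤ C) (j : ℕ) :
    rep K w b s j ≤ C := by
  have h0 : 0 < 2 ^ (w + 1) := by positivity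
  unfold rep
  split_ifs
  · omega
  · have h1 := val_le (blk w (s ((j - 1) / 2 / b)) ((j - 1) / 2 % b))
    have h2 : (blk w (s ((j - 1) / 2 / b)) ((j - 1) / 2 % b)).length ≤ w := by
      unfold blk
      rw [List.length_reverse]
      exact List.length_take_le _ _
    have h3 : 2 ^ ((blk w (s ((j - 1) / 2 / b)) ((j - 1) / 2 % b)).length + 1) ≤ 2 ^ (w + 1) :=
      Nat.pow_le_pow_right (by norm_num) (by omega)
    omega
  · omega
  · omega

end MCCE

open MCCE in
theorem MCCE_holds : S_MCCE := by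
  intro nm K b w M C s i r hM hnm hb hw hC hr hri hsi hlen
  have hiK : i < K := by
    have := (hM r hr).2.2
    rw [hri] at this
    exact this
  have hiKb : i * b < K * b := Nat.mul_lt_mul_of_pos_right hiK hb
  obtain ⟨τ, hτ⟩ := List.mem_iff_getElem?.1 hr
  have hz : (r, τ) ∈ M.zipIdx := List.mk_mem_zipIdx_iff_getElem?.2 hτ
  have hin : ∀ ρ ∈ gad nm b τ r 0, ρ ∈ toC nm b M := by
    intro ρ hρ
    unfold toC
    refine List.mem_cons_of_mem _ ?_
    rw [List.mem_flatMap]
    refine ⟨(r, τ), hz, ?_⟩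
    rw [List.mem_flatMap]
    exact ⟨0, List.mem_range.2 hb, hρ⟩
  have hg : gad nm b τ r 0 = [(r.1, Sum.inl ([ct b i 0], []), aux nm b τ 0 0),
     (aux nm b τ 0 0, Sum.inr (cv b i 0), aux nm b τ 0 1),
     (aux nm b τ 0 1, Sum.inl ([], [ct b i 0]), r.2.2)] := by
    unfold gad
    rw [hri]
  rw [hg] at hin
  have e1 : (cv b i 0 - 1) / 2 = i * b := by unfold cv; omega
  have e2 : (ct b i 0 - 1) / 2 = i * b := by unfold ct; omega
  have e3 : i * b / b = i := Nat.mul_div_cancel _ hb
  have e4 : i * b % b = 0 := Nat.mul_mod_left _ _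
  have hcv : rep K w b s (cv b i 0) = 0 := by
    unfold rep
    rw [e1, e3, e4, hsi]
    rw [if_neg (by unfold cv; omega), if_pos (by unfold cv; omega)]
    simp [blk, val]
  have hct : rep K w b s (ct b i 0) = 1 := by
    unfold rep
    rw [e2, e3, e4, hsi]
    rw [if_neg (by unfold ct; omega), if_neg (by unfold ct; omega), if_pos (by simp [top])]
  have hne : cv b i 0 ≠ ct b i 0 := by unfold cv ct; omega
  obtain ⟨v1, hv1⟩ : ∃ v1 : ℕ → ℕ, v1 = fun j => rep K w b s j - [ct b i 0].count j +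
    ([] : List ℕ).count j := ⟨_, rfl⟩
  have hle : ∀ j, v1 j ≤ C := by
    intro j
    have := rep_le (K := K) (b := b) s hC j
    rw [hv1]
    simp only [List.count_nil, add_zero]
    omega
  have hback : rep K w b s = fun j => v1 j - ([] : List ℕ).count j + [ct b i 0].count j := by
    funext j
    rw [hv1]
    simp only [List.count_nil, add_zero, Nat.sub_zero]
    by_cases hj : j = ct b i 0
    · subst hj
      rw [hct]
      simp
    · have : [ct b i 0].count j = 0 := List.count_eq_zero_of_not_mem (by simpa using hj)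
      rw [this]
      rfl
  have hcnt : ∀ j, [ct b i 0].count j ≤ rep K w b s j := by
    intro j
    by_cases hj : j = ct b i 0
    · subst hj
      rw [hct]
      simp
    · have : [ct b i 0].count j = 0 := List.count_eq_zero_of_not_mem (by simpa using hj)
      omega
  refine ⟨3, 1, ?_, by omega, by omega⟩
  refine CRun.add (c' := (aux nm b τ 0 0, v1)) (r.1, Sum.inl ([ct b i 0], []), aux nm b τ 0 0)
    [ct b i 0] [] (hin _ (by simp)) rfl rfl rfl ⟨hcnt, hv1⟩ (rep_le s hC) ?_
  refine CRun.zero (c' := (aux nm b τ 0 1, v1)) (aux nm b τ 0 0, Sum.inr (cv b i 0), aux nm b τ 0 1)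
    (cv b i 0) (hin _ (by simp)) rfl rfl rfl ⟨?_, rfl⟩ hle ?_
  · show v1 (cv b i 0) = 0
    rw [hv1]
    simp [hcv]
  refine CRun.add (c' := (r.2.2, rep K w b s)) (aux nm b τ 0 1, Sum.inl ([], [ct b i 0]), r.2.2)
    [] [ct b i 0] (hin _ (by simp)) rfl rfl rfl ⟨by simp, hback⟩ hle ?_
  exact CRun.refl _ (rep_le s hC)

end Pool.Agent.H453R2.JS
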