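import Pool.Agent.H453R2.JS.Spec

/-!
# Task MCCP: completeness of the counter machine, instruction push
-/

namespace Pool.Agent.H453R2.JS

namespace MCCP

theorem crun_trans {D : List CRule} {C n z : ℕ} {c c' : CCfg} (h : CRun D C n z c c') :
    ∀ {n' z' : ℕ} {c'' : CCfg}, CRun D C n' z' c' c'' → CRun D C (n + n') (z + z') c c'' := by
  induction h with
  | refl c h => intro n' z' c'' h2; simpa using h2
  | @add n z c c' c'' r pre post hr h1 h2 hi he h hrun ih =>
    intro n' z' d hd
    have := CRun.add r pre post hr h1 h2 hi he h (ih hd)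
    have e : n + 1 + n' = n + n' + 1 := by omega
    rw [e]; exact this
  | @zero n z c c' c'' r j hr h1 h2 hi he h hrun ih =>
    intro n' z' d hd
    have := CRun.zero r j hr h1 h2 hi he h (ih hd)
    have e : n + 1 + n' = n + n' + 1 := by omega
    have e2 : z + 1 + z' = z + z' + 1 := by omega
    rw [e, e2]; exact this

theorem val_lt (l : List Bool) : val l + 2 ≤ 2 ^ (l.length + 1) := by
  induction l with
  | nil => simp [val]
  | cons c l ih =>
    have hc : c.toNat ≤ 1 := by cases c <;> simp
    simp only [val, List.length_cons]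
    rw [pow_succ]
    omega

theorem blk_len (w : ℕ) (s : List Bool) (h : ℕ) : (blk w s h).length ≤ w := by
  unfold blk
  rw [List.length_reverse]
  exact List.length_take_le _ _

theorem rep_le (K w b C : ℕ) (hw : 1 ≤ w) (hC : 2 ^ (w + 1) ≤ C) (s : ℕ → List Bool) (j : ℕ) :
    rep K w b s j ≤ C := by
  have h4 : 2 ^ 2 ≤ 2 ^ (w + 1) := Nat.pow_le_pow_right (by norm_num) (by omega)
  unfold rep
  split_ifs
  · omega
  · have h1 := val_lt (blk w (s ((j - 1) / 2 / b)) ((j - 1) / 2 % b))
    have h2 := blk_len w (s ((j - 1) / 2 / b)) ((j - 1) / 2 % b)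
    have h3 : 2 ^ ((blk w (s ((j - 1) / 2 / b)) ((j - 1) / 2 % b)).length + 1) ≤ 2 ^ (w + 1) :=
      Nat.pow_le_pow_right (by norm_num) (by omega)
    omega
  · omega
  · omega

theorem rep_zero (K w b : ℕ) (s : ℕ → List Bool) : rep K w b s 0 = 0 := by
  simp [rep]

theorem rep_odd (K w b : ℕ) (s : ℕ → List Bool) (t : ℕ) :
    rep K w b s (1 + 2 * t) = if K * b ≤ t then 0 else val (blk w (s (t / b)) (t % b)) := by
  unfold rep
  have e1 : (1 + 2 * t - 1) / 2 = t := by omega
  have e2 : (1 + 2 * t) % 2 = 1 := by omega
  rw [e1]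
  by_cases h : K * b ≤ t
  · rw [if_pos (Or.inr h), if_pos h]
  · rw [if_neg (by omega), if_pos e2, if_neg h]

theorem rep_even (K w b : ℕ) (s : ℕ → List Bool) (t : ℕ) :
    rep K w b s (2 + 2 * t) = if K * b ≤ t then 0 else
      if t % b = top w (s (t / b)) then 1 else 0 := by
  unfold rep
  have e1 : (2 + 2 * t - 1) / 2 = t := by omega
  have e2 : ¬ (2 + 2 * t) % 2 = 1 := by omega
  rw [e1]
  by_cases h : K * b ≤ t
  · rw [if_pos (Or.inr h), if_pos h]
  · rw [if_neg (by omega), if_neg e2, if_neg h]

theorem idx_div {b i h : ℕ} (hh : h < b) : (i * b + h) / b = i ∧ (i * b + h) % b = h := by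
  constructor
  · rw [Nat.mul_comm, Nat.mul_add_div (by omega), Nat.div_eq_of_lt hh, Nat.add_zero]
  · rw [Nat.mul_comm, Nat.mul_add_mod, Nat.mod_eq_of_lt hh]

theorem idx_lt {K b i h : ℕ} (hi : i < K) (hh : h < b) : ¬ K * b ≤ i * b + h := by
  have : (i + 1) * b ≤ K * b := Nat.mul_le_mul_right _ hi
  have e : (i + 1) * b = i * b + b := by ring
  omega

theorem rep_cv {K w b i h : ℕ} (s : ℕ → List Bool) (hi : i < K) (hh : h < b) :
    rep K w b s (cv b i h) = val (blk w (s i) h) := by
  unfold cv
  rw [rep_odd, if_neg (idx_lt hi hh), (idx_div hh).1, (idx_div hh).2]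

theorem rep_ct {K w b i h : ℕ} (s : ℕ → List Bool) (hi : i < K) (hh : h < b) :
    rep K w b s (ct b i h) = if h = top w (s i) then 1 else 0 := by
  unfold ct
  rw [rep_even, if_neg (idx_lt hi hh), (idx_div hh).1, (idx_div hh).2]

theorem blk_cons_top {w : ℕ} (hw : 1 ≤ w) (β : Bool) (l : List Bool) :
    blk w (β :: l) (l.length / w) = β :: blk w l (l.length / w) := by
  unfold blk
  have h1 : l.length / w * w ≤ l.length := Nat.div_mul_le_self _ _
  have h2 : l.length < (l.length / w + 1) * w := by
    rw [Nat.add_mul, Nat.one_mul]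
    have := Nat.div_add_mod' l.length w
    have := Nat.mod_lt l.length hw
    omega
  rw [Nat.add_mul, Nat.one_mul] at h2
  rw [List.reverse_cons, List.drop_append_of_le_length (by rw [List.length_reverse]; exact h1),
    List.take_of_length_le, List.take_of_length_le, List.reverse_append]
  · rfl
  · rw [List.length_drop, List.length_reverse]; omega
  · rw [List.length_append, List.length_drop, List.length_reverse]; simp; omega

theorem blk_cons_ne {w : ℕ} (hw : 1 ≤ w) (β : Bool) (l : List Bool) (h : ℕ)
    (hh : h ≠ l.length / w) : blk w (β :: l) h = blk w l h := by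
  unfold blk
  have h1 : l.length / w * w ≤ l.length := Nat.div_mul_le_self _ _
  have h2 : l.length < (l.length / w + 1) * w := by
    rw [Nat.add_mul, Nat.one_mul]
    have := Nat.div_add_mod' l.length w
    have := Nat.mod_lt l.length hw
    omega
  rcases Nat.lt_or_gt_of_ne hh with h3 | h3
  · have h4 : (h + 1) * w ≤ l.length / w * w := Nat.mul_le_mul_right _ h3
    rw [Nat.add_mul, Nat.one_mul] at h4
    rw [List.reverse_cons, List.drop_append_of_le_length (by rw [List.length_reverse]; omega),
      List.take_append_of_le_length]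
    rw [List.length_drop, List.length_reverse]; omega
  · have h4 : (l.length / w + 1) * w ≤ h * w := Nat.mul_le_mul_right _ h3
    rw [List.drop_of_length_le, List.drop_of_length_le]
    · rw [List.length_reverse]; omega
    · rw [List.length_reverse, List.length_cons]; omega

/-- The counter values during the processing of a block. -/
def G (u : ℕ → ℕ) (A c a : ℕ) : ℕ → ℕ := Function.update (Function.update u A c) 0 a

theorem G_zero (u : ℕ → ℕ) (A c a : ℕ) : G u A c a 0 = a := by simp [G]

theorem G_A (u : ℕ → ℕ) {A : ℕ} (hA : A ≠ 0) (c a : ℕ) : G u A c a A = c := by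
  simp [G, Function.update_of_ne hA]

theorem G_ne (u : ℕ → ℕ) {A j : ℕ} (hA : j ≠ A) (h0 : j ≠ 0) (c a : ℕ) : G u A c a j = u j := by
  simp [G, Function.update_of_ne hA, Function.update_of_ne h0]

theorem loop1 {D : List CRule} {C A q : ℕ} {u : ℕ → ℕ} (hA : A ≠ 0)
    (hr : (q, Sum.inl ([A], [0]), q) ∈ D) (hu : ∀ j, u j ≤ C) :
    ∀ (n a : ℕ), n + a ≤ C → CRun D C n 0 (q, G u A n a) (q, G u A 0 (n + a)) := by
  have hb : ∀ c a, c ≤ C → a ≤ C → ∀ j, G u A c a j ≤ C := by
    intro c a hc ha j
    by_cases h0 : j = 0
    · subst h0; rw [G_zero]; exact ha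
    · by_cases h1 : j = A
      · subst h1; rw [G_A u hA]; exact hc
      · rw [G_ne u h1 h0]; exact hu j
  intro n
  induction n with
  | zero =>
    intro a ha
    rw [Nat.zero_add]
    exact CRun.refl _ (hb 0 a (by omega) (by omega))
  | succ n ih =>
    intro a ha
    have e : n + 1 + a = n + (a + 1) := by omega
    rw [e]
    refine CRun.add (q, Sum.inl ([A], [0]), q) [A] [0] hr rfl rfl rfl ?_ (hb (n + 1) a (by omega)
      (by omega)) (ih (a + 1) (by omega))
    refine ⟨?_, ?_⟩
    · intro j
      show [A].count j ≤ G u A (n + 1) a j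
      by_cases h1 : j = A
      · subst h1; rw [G_A u hA]; simp
      · rw [List.count_eq_zero_of_not_mem (by simpa using h1)]; exact Nat.zero_le _
    · show G u A n (a + 1) = fun j => G u A (n + 1) a j - [A].count j + [0].count j
      funext j
      by_cases h0 : j = 0
      · subst h0
        rw [G_zero, G_zero, List.count_eq_zero_of_not_mem (by simpa using Ne.symm hA)]
        simp
      · by_cases h1 : j = A
        · subst h1
          rw [G_A u hA, G_A u hA, List.count_eq_zero_of_not_mem (l := [0]) (by simpa using h0)]
          simp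
        · rw [G_ne u h1 h0, G_ne u h1 h0, List.count_eq_zero_of_not_mem (by simpa using h1),
            List.count_eq_zero_of_not_mem (by simpa using h0)]
          simp

theorem loop2 {D : List CRule} {C A q : ℕ} {u : ℕ → ℕ} (hA : A ≠ 0)
    (hr : (q, Sum.inl ([0], [A, A]), q) ∈ D) (hu : ∀ j, u j ≤ C) :
    ∀ (n c : ℕ), c + 2 * n ≤ C → CRun D C n 0 (q, G u A c n) (q, G u A (c + 2 * n) 0) := by
  have hb : ∀ c a, c ≤ C → a ≤ C → ∀ j, G u A c a j ≤ C := by
    intro c a hc ha j
    by_cases h0 : j = 0
    · subst h0; rw [G_zero]; exact ha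
    · by_cases h1 : j = A
      · subst h1; rw [G_A u hA]; exact hc
      · rw [G_ne u h1 h0]; exact hu j
  intro n
  induction n with
  | zero =>
    intro c hc
    rw [Nat.mul_zero, Nat.add_zero]
    exact CRun.refl _ (hb c 0 (by omega) (by omega))
  | succ n ih =>
    intro c hc
    have e : c + 2 * (n + 1) = (c + 2) + 2 * n := by omega
    rw [e]
    refine CRun.add (q, Sum.inl ([0], [A, A]), q) [0] [A, A] hr rfl rfl rfl ?_ (hb c (n + 1)
      (by omega) (by omega)) (ih (c + 2) (by omega))
    refine ⟨?_, ?_⟩
    · intro j
      show [0].count j ≤ G u A c (n + 1) j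
      by_cases h1 : j = 0
      · subst h1; rw [G_zero]; simp
      · rw [List.count_eq_zero_of_not_mem (by simpa using h1)]; exact Nat.zero_le _
    · show G u A (c + 2) n = fun j => G u A c (n + 1) j - [0].count j + [A, A].count j
      funext j
      by_cases h0 : j = 0
      · subst h0
        rw [G_zero, G_zero, List.count_eq_zero_of_not_mem (l := [A, A]) (by simpa using Ne.symm hA)]
        simp
      · by_cases h1 : j = A
        · subst h1
          rw [G_A u hA, G_A u hA, List.count_eq_zero_of_not_mem (l := [0]) (by simpa using h0)]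
          simp
        · rw [G_ne u h1 h0, G_ne u h1 h0, List.count_eq_zero_of_not_mem (by simpa using h0),
            List.count_eq_zero_of_not_mem (by simpa using h1)]
          simp

end MCCP

open MCCP in
theorem MCCP_holds : S_MCCP := by
  intro nm K b w M C s i β r hM hnm hb hw hC hr hri hl hlen
  have hiK : i < K := by
    have := (hM r hr).2.2
    rw [hri] at this
    exact this
  obtain ⟨τ, hτ⟩ : ∃ τ, (r, τ) ∈ M.zipIdx := by
    obtain ⟨τ, hτ, e⟩ := List.mem_iff_getElem.1 hr
    refine ⟨τ, ?_⟩
    rw [List.mem_zipIdx_iff_getElem?]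
    simp [hτ, e]
  set h := (s i).length / w with hh
  have hhb : h < b := by
    rw [hh, Nat.div_lt_iff_lt_mul (by omega)]
    omega
  have hgad : ∀ q ∈ gad nm b τ r h, q ∈ toC nm b M := by
    intro q hq
    unfold toC
    refine List.mem_cons_of_mem _ ?_
    rw [List.mem_flatMap]
    refine ⟨(r, τ), hτ, ?_⟩
    rw [List.mem_flatMap]
    exact ⟨h, List.mem_range.2 hhb, hq⟩
  have hgadeq : gad nm b τ r h =
    [(r.1, Sum.inl ([ct b i h], []), aux nm b τ h 0),
     (r.1, Sum.inl ([ct b i (h - 1)], []), aux nm b τ h 0),
     (aux nm b τ h 0, Sum.inl ([cv b i h], [0]), aux nm b τ h 0),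
     (aux nm b τ h 0, Sum.inr (cv b i h), aux nm b τ h 1),
     (aux nm b τ h 1, Sum.inl ([0], [cv b i h, cv b i h]), aux nm b τ h 1),
     (aux nm b τ h 1, Sum.inr 0, aux nm b τ h 2),
     (aux nm b τ h 2, Sum.inl ([], ct b i h :: List.replicate (1 + β.toNat) (cv b i h)), r.2.2)]
     := by
    unfold gad
    rw [hri]
  rw [hgadeq] at hgad
  -- the top block
  set tp := top w (s i) with htp
  have htp2 : tp = h ∨ (tp = h - 1 ∧ 1 ≤ h) := by
    rw [htp, hh]
    unfold top
    rcases Nat.eq_zero_or_pos (s i).length with h0 | h0
    · left; rw [h0]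
    · obtain ⟨m, hm⟩ : ∃ m, (s i).length = m + 1 := ⟨(s i).length - 1, by omega⟩
      rw [hm, Nat.add_sub_cancel, Nat.succ_div]
      by_cases hd : w ∣ m + 1
      · right; rw [if_pos hd]; exact ⟨(Nat.add_sub_cancel _ _).symm, Nat.le_add_left _ _⟩
      · left; rw [if_neg hd]; rfl
  have htpb : tp < b := by omega
  set A := cv b i h with hA
  have hA0 : A ≠ 0 := by rw [hA]; unfold cv; omega
  set V := val (blk w (s i) h) with hV
  set u : ℕ → ℕ := Function.update (rep K w b s) (ct b i tp) 0 with hu
  have hup : ∀ j, u j ≤ C := by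
    intro j
    rw [hu]
    by_cases hj : j = ct b i tp
    · rw [hj, Function.update_self]; omega
    · rw [Function.update_of_ne hj]; exact rep_le K w b C hw hC s j
  have hct0 : ∀ t, ct b i t ≠ 0 := by intro t; unfold ct; omega
  have hctA : ∀ t, ct b i t ≠ A := by intro t; rw [hA]; unfold ct cv; omega
  have hVC : 2 * V + 4 ≤ C + 2 := by
    have h1 := val_lt (blk w (s i) h)
    have h2 : (blk w (s i) h).length + 1 ≤ w := by
      unfold blk
      rw [List.length_reverse, List.length_take, List.length_drop, List.length_reverse]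
      have h3 := Nat.div_add_mod' (s i).length w
      have h4 := Nat.mod_lt (s i).length (show w > 0 by omega)
      rw [← hh] at h3
      omega
    have h3 : 2 ^ ((blk w (s i) h).length + 1) ≤ 2 ^ w :=
      Nat.pow_le_pow_right (by norm_num) (by omega)
    rw [pow_succ] at hC
    omega
  have hC4 : 4 ≤ C := by
    have h4 : 2 ^ 2 ≤ 2 ^ (w + 1) := Nat.pow_le_pow_right (by norm_num) (by omega)
    omega
  have hub : ∀ c a, c ≤ C → a ≤ C → ∀ j, G u A c a j ≤ C := by
    intro c a hc ha j
    by_cases h0 : j = 0
    · subst h0; rw [G_zero]; exact ha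
    · by_cases h1 : j = A
      · subst h1; rw [G_A u hA0]; exact hc
      · rw [G_ne u h1 h0]; exact hup j
  have huG : u = G u A V 0 := by
    funext j
    by_cases h0 : j = 0
    · subst h0; rw [G_zero, hu, Function.update_of_ne (Ne.symm (hct0 tp)), rep_zero]
    · by_cases h1 : j = A
      · rw [h1, G_A u hA0, hu, Function.update_of_ne (Ne.symm (hctA tp)), hA, rep_cv s hiK hhb]
      · rw [G_ne u h1 h0]
  have hentryEff : CEff (Sum.inl ([ct b i tp], [])) (rep K w b s) u := by
    refine ⟨?_, ?_⟩
    · intro j
      by_cases hj : j = ct b i tp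
      · subst hj
        rw [rep_ct s hiK htpb, if_pos htp]
        simp
      · rw [List.count_eq_zero_of_not_mem (by simpa using hj)]; exact Nat.zero_le _
    · funext j
      by_cases hj : j = ct b i tp
      · rw [hj, hu, Function.update_self, rep_ct s hiK htpb, if_pos htp]
        simp
      · rw [hu, Function.update_of_ne hj,
          List.count_eq_zero_of_not_mem (by simpa using hj)]
        simp
  have hentry : CRun (toC nm b M) C 1 0 (r.1, rep K w b s) (aux nm b τ h 0, u) := by
    have hrule : (r.1, Sum.inl ([ct b i tp], []), aux nm b τ h 0) ∈ toC nm b M := by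
      rcases htp2 with h1 | ⟨h1, -⟩
      · rw [h1]; exact hgad _ (by simp)
      · rw [h1]; exact hgad _ (by simp)
    exact CRun.add _ [ct b i tp] [] hrule rfl rfl rfl hentryEff
      (fun j => rep_le K w b C hw hC s j) (CRun.refl _ hup)
  have hl1 : CRun (toC nm b M) C V 0 (aux nm b τ h 0, u) (aux nm b τ h 0, G u A 0 V) := by
    have := loop1 (D := toC nm b M) (C := C) (A := A) (q := aux nm b τ h 0) (u := u) hA0
      (hgad _ (by simp)) hup V 0 (by omega)
    rw [Nat.add_zero, ← huG] at this
    exact this
  have hz1 : CRun (toC nm b M) C 1 1 (aux nm b τ h 0, G u A 0 V) (aux nm b τ h 1, G u A 0 V) :=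
    CRun.zero (c' := (aux nm b τ h 1, G u A 0 V)) (aux nm b τ h 0, Sum.inr A, aux nm b τ h 1) A
      (hgad _ (by simp)) rfl rfl rfl
      ⟨G_A u hA0 0 V, rfl⟩ (hub 0 V (by omega) (by omega)) (CRun.refl _ (hub 0 V (by omega)
      (by omega)))
  have hl2 : CRun (toC nm b M) C V 0 (aux nm b τ h 1, G u A 0 V)
      (aux nm b τ h 1, G u A (2 * V) 0) := by
    have := loop2 (D := toC nm b M) (C := C) (A := A) (q := aux nm b τ h 1) (u := u) hA0
      (hgad _ (by simp)) hup V 0 (by omega)
    rw [Nat.zero_add] at this
    exact this
  have hz2 : CRun (toC nm b M) C 1 1 (aux nm b τ h 1, G u A (2 * V) 0)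
      (aux nm b τ h 2, G u A (2 * V) 0) :=
    CRun.zero (c' := (aux nm b τ h 2, G u A (2 * V) 0)) (aux nm b τ h 1, Sum.inr 0, aux nm b τ h 2)
      0 (hgad _ (by simp)) rfl rfl rfl
      ⟨G_zero u A (2 * V) 0, rfl⟩ (hub (2 * V) 0 (by omega) (by omega))
      (CRun.refl _ (hub (2 * V) 0 (by omega) (by omega)))
  have hexitEff : CEff (Sum.inl ([], ct b i h :: List.replicate (1 + β.toNat) A))
      (G u A (2 * V) 0) (rep K w b (Function.update s i (β :: s i))) := by
    refine ⟨by intro j; simp, ?_⟩
    funext j
    have hcount : (ct b i h :: List.replicate (1 + β.toNat) A).count j =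
        (if j = A then 1 + β.toNat else 0) + (if j = ct b i h then 1 else 0) := by
      rw [List.count_cons, List.count_replicate]
      simp only [beq_iff_eq, eq_comm (a := j)]
    rw [hcount, List.count_nil, Nat.sub_zero]
    rcases j with _ | j
    · rw [G_zero, rep_zero, if_neg (Ne.symm hA0), if_neg (Ne.symm (hct0 h))]
    · obtain ⟨t, ht⟩ : ∃ t, j + 1 = 1 + 2 * t ∨ j + 1 = 2 + 2 * t := ⟨j / 2, by omega⟩
      rcases ht with ht | ht
      · rw [ht, rep_odd]
        have n1 : ∀ t', 1 + 2 * t ≠ ct b i t' := by intro t'; unfold ct; omega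
        rw [if_neg (n1 h)]
        by_cases h1 : K * b ≤ t
        · have h2 : 1 + 2 * t ≠ A := by
            have := idx_lt hiK hhb
            rw [hA]; unfold cv; omega
          rw [if_pos h1, if_neg h2, G_ne u h2 (by omega), hu, Function.update_of_ne (n1 tp),
            rep_odd, if_pos h1]
        · rw [if_neg h1]
          have hb0 : 0 < b := by omega
          have hdm := Nat.div_add_mod' t b
          have hmlt := Nat.mod_lt t hb0
          by_cases h2 : 1 + 2 * t = A
          · have h3 : t = i * b + h := by rw [hA] at h2; unfold cv at h2; omega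
            rw [if_pos h2, h2, G_A u hA0, h3, (idx_div hhb).1, (idx_div hhb).2,
              Function.update_self, hh, blk_cons_top hw, ← hh]
            simp only [val]
            omega
          · rw [if_neg h2, G_ne u h2 (by omega), hu, Function.update_of_ne (n1 tp), rep_odd,
              if_neg h1]
            by_cases h4 : t / b = i
            · rw [h4, Function.update_self, blk_cons_ne hw]
              · simp
              · intro h5
                apply h2
                rw [hA]; unfold cv
                rw [← hh] at h5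
                rw [h4, h5] at hdm
                omega
            · rw [Function.update_of_ne h4]
              simp
      · rw [ht, rep_even]
        have n1 : 2 + 2 * t ≠ A := by rw [hA]; unfold cv; omega
        rw [if_neg n1, G_ne u n1 (by omega)]
        by_cases h1 : K * b ≤ t
        · have h2 : ∀ t' < b, 2 + 2 * t ≠ ct b i t' := by
            intro t' ht'
            have := idx_lt hiK ht'
            unfold ct; omega
          rw [if_pos h1, if_neg (h2 h hhb), hu, Function.update_of_ne (h2 tp htpb), rep_even,
            if_pos h1]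
        · rw [if_neg h1]
          have hb0 : 0 < b := by omega
          have hdm := Nat.div_add_mod' t b
          have hmlt := Nat.mod_lt t hb0
          by_cases h4 : t / b = i
          · rw [h4, Function.update_self]
            have htop : top w (β :: s i) = h := by
              unfold top; rw [List.length_cons, Nat.add_sub_cancel]
            rw [htop]
            have hut : u (2 + 2 * t) = 0 := by
              by_cases h5 : 2 + 2 * t = ct b i tp
              · rw [h5, hu, Function.update_self]
              · rw [hu, Function.update_of_ne h5, rep_even, if_neg h1, h4, if_neg]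
                intro h6
                apply h5
                unfold ct
                rw [← htp] at h6
                rw [h4, h6] at hdm
                omega
            rw [hut]
            by_cases h7 : t % b = h
            · rw [if_pos h7, if_pos]
              unfold ct
              rw [h4, h7] at hdm
              omega
            · rw [if_neg h7, if_neg]
              intro h8
              apply h7
              have h9 : t = i * b + h := by unfold ct at h8; omega
              rw [h9, (idx_div hhb).2]
          · rw [Function.update_of_ne h4]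
            have h5 : ∀ t' < b, 2 + 2 * t ≠ ct b i t' := by
              intro t' ht' h6
              apply h4
              have h9 : t = i * b + t' := by unfold ct at h6; omega
              rw [h9, (idx_div ht').1]
            rw [if_neg (h5 h hhb), hu, Function.update_of_ne (h5 tp htpb), rep_even, if_neg h1]
            simp
  have hexit : CRun (toC nm b M) C 1 0 (aux nm b τ h 2, G u A (2 * V) 0)
      (r.2.2, rep K w b (Function.update s i (β :: s i))) :=
    CRun.add (aux nm b τ h 2, Sum.inl ([], ct b i h :: List.replicate (1 + β.toNat) A), r.2.2)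
      [] (ct b i h :: List.replicate (1 + β.toNat) A) (hgad _ (by simp)) rfl rfl rfl hexitEff
      (hub (2 * V) 0 (by omega) (by omega)) (CRun.refl _ (fun j => rep_le K w b C hw hC _ j))
  have hall := crun_trans hentry (crun_trans hl1 (crun_trans hz1 (crun_trans hl2
    (crun_trans hz2 hexit))))
  exact ⟨_, _, hall, by omega, by omega⟩

end Pool.Agent.H453R2.JS
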