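import Pool.Agent.H453R2.JS.Spec
import Pool.Agent.H453R2.JS.T_MCCP

/-!
# Task MCCQ: completeness of the counter machine, instruction pop
-/

namespace Pool.Agent.H453R2.JS

namespace MCCQ

open MCCP

theorem loop1 {D : List CRule} {C A q : ℕ} {u : ℕ → ℕ} (hA : A ≠ 0)
    (hr : (q, Sum.inl ([A, A], [0]), q) ∈ D) (hu : ∀ j, u j ≤ C) :
    ∀ (n a : ℕ), 2 * n ≤ C → n + a ≤ C →
      CRun D C n 0 (q, G u A (2 * n) a) (q, G u A 0 (n + a)) := by
  have hb : ∀ c a, c ≤ C → a ≤ C → ∀ j, G u A c a j ≤ C := by
    intro c a hc ha j
    by_cases h0 : j = 0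
    · subst h0; rw [G_zero]; exact ha
    · by_cases h1 : j = A
      · subst h1; rw [G_A u hA]; exact hc
      · rw [G_ne u h1 h0]; exact hu j
  intro n
  induction n with
  | zero =>
    intro a _ ha
    rw [Nat.zero_add, Nat.mul_zero]
    exact CRun.refl _ (hb 0 a (by omega) (by omega))
  | succ n ih =>
    intro a hn ha
    have e : n + 1 + a = n + (a + 1) := by omega
    rw [e]
    refine CRun.add (q, Sum.inl ([A, A], [0]), q) [A, A] [0] hr rfl rfl rfl ?_
      (hb (2 * (n + 1)) a (by omega) (by omega)) (ih (a + 1) (by omega) (by omega))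
    refine ⟨?_, ?_⟩
    · intro j
      show [A, A].count j ≤ G u A (2 * (n + 1)) a j
      by_cases h1 : j = A
      · subst h1; rw [G_A u hA]; simp
      · rw [List.count_eq_zero_of_not_mem (by simpa using h1)]; exact Nat.zero_le _
    · show G u A (2 * n) (a + 1) = fun j => G u A (2 * (n + 1)) a j - [A, A].count j + [0].count j
      funext j
      by_cases h0 : j = 0
      · subst h0
        rw [G_zero, G_zero, List.count_eq_zero_of_not_mem (by simpa using Ne.symm hA)]
        simp
      · by_cases h1 : j = A
        · subst h1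
          rw [G_A u hA, G_A u hA, List.count_eq_zero_of_not_mem (l := [0]) (by simpa using h0)]
          simp
          omega
        · rw [G_ne u h1 h0, G_ne u h1 h0, List.count_eq_zero_of_not_mem (by simpa using h1),
            List.count_eq_zero_of_not_mem (by simpa using h0)]
          simp

theorem loop2 {D : List CRule} {C A q : ℕ} {u : ℕ → ℕ} (hA : A ≠ 0)
    (hr : (q, Sum.inl ([0], [A]), q) ∈ D) (hu : ∀ j, u j ≤ C) :
    ∀ (n c : ℕ), c + n ≤ C → CRun D C n 0 (q, G u A c n) (q, G u A (c + n) 0) := by
  have hb : ∀ c a, c ≤ C → a ≤ C → ∀ j, G u A c a j ≤ C := by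
    intro c a hc ha j
    by_cases h0 : j = 0
    · subst h0; rw [G_zero]; exact ha
    · by_cases h1 : j = A
      · subst h1; rw [G_A u hA]; exact hc
      · rw [G_ne u h1 h0]; exact hu j
  intro n
  induction n with
  | zero =>
    intro c hc
    rw [Nat.add_zero]
    exact CRun.refl _ (hb c 0 (by omega) (by omega))
  | succ n ih =>
    intro c hc
    have e : c + (n + 1) = (c + 1) + n := by omega
    rw [e]
    refine CRun.add (q, Sum.inl ([0], [A]), q) [0] [A] hr rfl rfl rfl ?_ (hb c (n + 1)
      (by omega) (by omega)) (ih (c + 1) (by omega))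
    refine ⟨?_, ?_⟩
    · intro j
      show [0].count j ≤ G u A c (n + 1) j
      by_cases h1 : j = 0
      · subst h1; rw [G_zero]; simp
      · rw [List.count_eq_zero_of_not_mem (by simpa using h1)]; exact Nat.zero_le _
    · show G u A (c + 1) n = fun j => G u A c (n + 1) j - [0].count j + [A].count j
      funext j
      by_cases h0 : j = 0
      · subst h0
        rw [G_zero, G_zero, List.count_eq_zero_of_not_mem (l := [A]) (by simpa using Ne.symm hA)]
        simp
      · by_cases h1 : j = A
        · subst h1
          rw [G_A u hA, G_A u hA, List.count_eq_zero_of_not_mem (l := [0]) (by simpa using h0)]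
          simp
        · rw [G_ne u h1 h0, G_ne u h1 h0, List.count_eq_zero_of_not_mem (by simpa using h0),
            List.count_eq_zero_of_not_mem (by simpa using h1)]
          simp

end MCCQ

open MCCP MCCQ in
theorem MCCQ_holds : S_MCCQ := by
  intro nm K b w M C s i β r l hM hnm hb hw hC hr hri hsi hlen
  have hiK : i < K := by
    have := (hM r hr).2.2
    rw [hri] at this
    exact this
  obtain ⟨τ, hτ⟩ : ∃ τ, (r, τ) ∈ M.zipIdx := by
    obtain ⟨τ, hτ, e⟩ := List.mem_iff_getElem.1 hr
    refine ⟨τ, ?_⟩
    rw [List.mem_zipIdx_iff_getElem?]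
    simp [hτ, e]
  have hll : l.length + 1 ≤ b * w := by
    have := hlen i
    rw [hsi, List.length_cons] at this
    exact this
  set h := l.length / w with hh
  have hhb : h < b := by
    rw [hh, Nat.div_lt_iff_lt_mul (by omega)]
    omega
  have hgad : ∀ q ∈ gad nm b τ r h, q ∈ toC nm b M := by
    intro q hq
    unfold toC
    refine List.mem_cons_of_mem _ ?_
    rw [List.mem_flatMap]
    refine ⟨(r, τ), hτ, ?_⟩
    rw [List.mem_flatMap]
    exact ⟨h, List.mem_range.2 hhb, hq⟩
  have hgadeq : gad nm b τ r h =
    [(r.1, Sum.inl (ct b i h :: List.replicate (1 + β.toNat) (cv b i h), []), aux nm b τ h 0),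
     (aux nm b τ h 0, Sum.inl ([cv b i h, cv b i h], [0]), aux nm b τ h 0),
     (aux nm b τ h 0, Sum.inr (cv b i h), aux nm b τ h 1),
     (aux nm b τ h 1, Sum.inl ([0], [cv b i h]), aux nm b τ h 1),
     (aux nm b τ h 1, Sum.inr 0, aux nm b τ h 2),
     (aux nm b τ h 2, Sum.inl ([], [ct b i h]), r.2.2),
     (aux nm b τ h 2, Sum.inr (cv b i h), aux nm b τ h 3),
     (aux nm b τ h 3, Sum.inl ([], [ct b i (h - 1)]), r.2.2)] := by
    unfold gad
    rw [hri]
  rw [hgadeq] at hgad
  have htops : top w (s i) = h := by
    rw [hsi]; unfold top; rw [List.length_cons, Nat.add_sub_cancel]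
  -- the new top block
  set tp := top w l with htp
  have htp2 : tp = h ∨ (tp = h - 1 ∧ 1 ≤ h ∧ h * w = l.length) := by
    rw [htp, hh]
    unfold top
    rcases Nat.eq_zero_or_pos l.length with h0 | h0
    · left; rw [h0]
    · obtain ⟨m, hm⟩ : ∃ m, l.length = m + 1 := ⟨l.length - 1, by omega⟩
      rw [hm, Nat.add_sub_cancel, Nat.succ_div]
      by_cases hd : w ∣ m + 1
      · right; rw [if_pos hd]
        refine ⟨(Nat.add_sub_cancel _ _).symm, Nat.le_add_left _ _, ?_⟩
        have h1 : m / w + 1 = (m + 1) / w := by rw [Nat.succ_div, if_pos hd]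
        rw [h1]
        exact Nat.div_mul_cancel hd
      · left; rw [if_neg hd]; rfl
  have htpb : tp < b := by omega
  set A := cv b i h with hA
  have hA0 : A ≠ 0 := by rw [hA]; unfold cv; omega
  set V := val (blk w l h) with hV
  have hblk : blk w (β :: l) h = β :: blk w l h := blk_cons_top hw β l
  have hrepA : rep K w b s A = 2 * V + 1 + β.toNat := by
    rw [hA, rep_cv s hiK hhb, hsi, hblk]
    rfl
  set u : ℕ → ℕ := Function.update (rep K w b s) (ct b i h) 0 with hu
  have hup : ∀ j, u j ≤ C := by
    intro j
    rw [hu]
    by_cases hj : j = ct b i h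
    · rw [hj, Function.update_self]; omega
    · rw [Function.update_of_ne hj]; exact rep_le K w b C hw hC s j
  have hct0 : ∀ t, ct b i t ≠ 0 := by intro t; unfold ct; omega
  have hctA : ∀ t, ct b i t ≠ A := by intro t; rw [hA]; unfold ct cv; omega
  have hVC : 2 * V + 1 + β.toNat ≤ C := by
    have := rep_le K w b C hw hC s A
    omega
  have hub : ∀ c a, c ≤ C → a ≤ C → ∀ j, G u A c a j ≤ C := by
    intro c a hc ha j
    by_cases h0 : j = 0
    · subst h0; rw [G_zero]; exact ha
    · by_cases h1 : j = A
      · subst h1; rw [G_A u hA0]; exact hc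
      · rw [G_ne u h1 h0]; exact hup j
  have hcount : ∀ j, (ct b i h :: List.replicate (1 + β.toNat) A).count j =
      (if j = A then 1 + β.toNat else 0) + (if j = ct b i h then 1 else 0) := by
    intro j
    rw [List.count_cons, List.count_replicate]
    simp only [beq_iff_eq, eq_comm (a := j)]
  have hentryEff : CEff (Sum.inl (ct b i h :: List.replicate (1 + β.toNat) A, []))
      (rep K w b s) (G u A (2 * V) 0) := by
    refine ⟨?_, ?_⟩
    · intro j
      rw [hcount]
      by_cases hj : j = A
      · rw [if_pos hj, if_neg (by rw [hj]; exact Ne.symm (hctA h)), hj, hrepA]; omega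
      · rw [if_neg hj]
        by_cases hj2 : j = ct b i h
        · rw [if_pos hj2, hj2, rep_ct s hiK hhb, if_pos htops.symm]
        · rw [if_neg hj2]; exact Nat.zero_le _
    · funext j
      rw [hcount, List.count_nil, Nat.add_zero]
      by_cases hj : j = A
      · rw [if_pos hj, if_neg (by rw [hj]; exact Ne.symm (hctA h)), hj, hrepA, G_A u hA0]; omega
      · rw [if_neg hj]
        by_cases hj0 : j = 0
        · rw [hj0, G_zero, rep_zero]; simp
        · rw [G_ne u hj hj0, hu]
          by_cases hj2 : j = ct b i h
          · rw [if_pos hj2, hj2, Function.update_self, rep_ct s hiK hhb, if_pos htops.symm]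
          · rw [if_neg hj2, Function.update_of_ne hj2]; simp
  have hentry : CRun (toC nm b M) C 1 0 (r.1, rep K w b s) (aux nm b τ h 0, G u A (2 * V) 0) :=
    CRun.add (r.1, Sum.inl (ct b i h :: List.replicate (1 + β.toNat) A, []), aux nm b τ h 0)
      (ct b i h :: List.replicate (1 + β.toNat) A) [] (hgad _ (by simp)) rfl rfl rfl hentryEff
      (fun j => rep_le K w b C hw hC s j) (CRun.refl _ (hub (2 * V) 0 (by omega) (by omega)))
  have hl1 : CRun (toC nm b M) C V 0 (aux nm b τ h 0, G u A (2 * V) 0)
      (aux nm b τ h 0, G u A 0 V) := by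
    have := MCCQ.loop1 (D := toC nm b M) (C := C) (A := A) (q := aux nm b τ h 0) (u := u) hA0
      (hgad _ (by simp)) hup V 0 (by omega) (by omega)
    rw [Nat.add_zero] at this
    exact this
  have hz1 : CRun (toC nm b M) C 1 1 (aux nm b τ h 0, G u A 0 V) (aux nm b τ h 1, G u A 0 V) :=
    CRun.zero (c' := (aux nm b τ h 1, G u A 0 V)) (aux nm b τ h 0, Sum.inr A, aux nm b τ h 1) A
      (hgad _ (by simp)) rfl rfl rfl
      ⟨G_A u hA0 0 V, rfl⟩ (hub 0 V (by omega) (by omega)) (CRun.refl _ (hub 0 V (by omega)
      (by omega)))
  have hl2 : CRun (toC nm b M) C V 0 (aux nm b τ h 1, G u A 0 V)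
      (aux nm b τ h 1, G u A V 0) := by
    have := MCCQ.loop2 (D := toC nm b M) (C := C) (A := A) (q := aux nm b τ h 1) (u := u) hA0
      (hgad _ (by simp)) hup V 0 (by omega)
    rw [Nat.zero_add] at this
    exact this
  have hz2 : CRun (toC nm b M) C 1 1 (aux nm b τ h 1, G u A V 0)
      (aux nm b τ h 2, G u A V 0) :=
    CRun.zero (c' := (aux nm b τ h 2, G u A V 0)) (aux nm b τ h 1, Sum.inr 0, aux nm b τ h 2)
      0 (hgad _ (by simp)) rfl rfl rfl
      ⟨G_zero u A V 0, rfl⟩ (hub V 0 (by omega) (by omega))
      (CRun.refl _ (hub V 0 (by omega) (by omega)))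
  -- the effect of the exit
  have hexitEff : CEff (Sum.inl ([], [ct b i tp])) (G u A V 0)
      (rep K w b (Function.update s i l)) := by
    refine ⟨by intro j; simp, ?_⟩
    funext j
    have hc1 : [ct b i tp].count j = if j = ct b i tp then 1 else 0 := by
      rw [List.count_singleton]
      simp only [beq_iff_eq, eq_comm (a := j)]
    rw [hc1, List.count_nil, Nat.sub_zero]
    rcases j with _ | j
    · rw [G_zero, rep_zero, if_neg (Ne.symm (hct0 tp))]
    · obtain ⟨t, ht⟩ : ∃ t, j + 1 = 1 + 2 * t ∨ j + 1 = 2 + 2 * t := ⟨j / 2, by omega⟩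
      rcases ht with ht | ht
      · rw [ht, rep_odd]
        have n1 : ∀ t', 1 + 2 * t ≠ ct b i t' := by intro t'; unfold ct; omega
        rw [if_neg (n1 tp), Nat.add_zero]
        by_cases h1 : K * b ≤ t
        · have h2 : 1 + 2 * t ≠ A := by
            have := idx_lt hiK hhb
            rw [hA]; unfold cv; omega
          rw [if_pos h1, G_ne u h2 (by omega), hu, Function.update_of_ne (n1 h),
            rep_odd, if_pos h1]
        · rw [if_neg h1]
          have hb0 : 0 < b := by omega
          have hdm := Nat.div_add_mod' t b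
          have hmlt := Nat.mod_lt t hb0
          by_cases h2 : 1 + 2 * t = A
          · have h3 : t = i * b + h := by rw [hA] at h2; unfold cv at h2; omega
            rw [h2, G_A u hA0, h3, (idx_div hhb).1, (idx_div hhb).2, Function.update_self]
          · rw [G_ne u h2 (by omega), hu, Function.update_of_ne (n1 h), rep_odd,
              if_neg h1]
            by_cases h4 : t / b = i
            · rw [h4, Function.update_self, hsi, blk_cons_ne hw]
              intro h5
              apply h2
              rw [hA]; unfold cv
              rw [← hh] at h5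
              rw [h4, h5] at hdm
              omega
            · rw [Function.update_of_ne h4]
      · rw [ht, rep_even]
        have n1 : 2 + 2 * t ≠ A := by rw [hA]; unfold cv; omega
        rw [G_ne u n1 (by omega)]
        by_cases h1 : K * b ≤ t
        · have h2 : ∀ t' < b, 2 + 2 * t ≠ ct b i t' := by
            intro t' ht'
            have := idx_lt hiK ht'
            unfold ct; omega
          rw [if_pos h1, if_neg (h2 tp htpb), hu, Function.update_of_ne (h2 h hhb), rep_even,
            if_pos h1]
        · rw [if_neg h1]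
          have hb0 : 0 < b := by omega
          have hdm := Nat.div_add_mod' t b
          have hmlt := Nat.mod_lt t hb0
          by_cases h4 : t / b = i
          · rw [h4, Function.update_self, ← htp]
            have hut : u (2 + 2 * t) = 0 := by
              by_cases h5 : 2 + 2 * t = ct b i h
              · rw [h5, hu, Function.update_self]
              · rw [hu, Function.update_of_ne h5, rep_even, if_neg h1, h4, if_neg]
                intro h6
                apply h5
                unfold ct
                rw [htops] at h6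
                rw [h4, h6] at hdm
                omega
            rw [hut, Nat.zero_add]
            by_cases h7 : t % b = tp
            · rw [if_pos h7, if_pos]
              unfold ct
              rw [h4, h7] at hdm
              omega
            · rw [if_neg h7, if_neg]
              intro h8
              apply h7
              have h9 : t = i * b + tp := by unfold ct at h8; omega
              rw [h9, (idx_div htpb).2]
          · rw [Function.update_of_ne h4]
            have h5 : ∀ t' < b, 2 + 2 * t ≠ ct b i t' := by
              intro t' ht' h6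
              apply h4
              have h9 : t = i * b + t' := by unfold ct at h6; omega
              rw [h9, (idx_div ht').1]
            rw [if_neg (h5 tp htpb), hu, Function.update_of_ne (h5 h hhb), rep_even, if_neg h1]
            simp
  have hfinb : ∀ j, rep K w b (Function.update s i l) j ≤ C := fun j => rep_le K w b C hw hC _ j
  have hpre := crun_trans hentry (crun_trans hl1 (crun_trans hz1 (crun_trans hl2 hz2)))
  rcases htp2 with h1 | ⟨h1, h2, h3⟩
  · have hexit : CRun (toC nm b M) C 1 0 (aux nm b τ h 2, G u A V 0)
        (r.2.2, rep K w b (Function.update s i l)) :=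
      CRun.add (aux nm b τ h 2, Sum.inl ([], [ct b i tp]), r.2.2) [] [ct b i tp]
        (by rw [h1]; exact hgad _ (by simp)) rfl rfl rfl hexitEff
        (hub V 0 (by omega) (by omega)) (CRun.refl _ hfinb)
    exact ⟨_, _, crun_trans hpre hexit, by omega, by omega⟩
  · have hV0 : V = 0 := by
      rw [hV]
      have : blk w l h = [] := by
        unfold blk
        rw [List.drop_of_length_le (by rw [List.length_reverse]; omega)]
        simp
      rw [this]; rfl
    have hz3 : CRun (toC nm b M) C 1 1 (aux nm b τ h 2, G u A V 0)
        (aux nm b τ h 3, G u A V 0) :=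
      CRun.zero (c' := (aux nm b τ h 3, G u A V 0)) (aux nm b τ h 2, Sum.inr A, aux nm b τ h 3)
        A (hgad _ (by simp)) rfl rfl rfl
        ⟨(G_A u hA0 V 0).trans hV0, rfl⟩ (hub V 0 (by omega) (by omega))
        (CRun.refl _ (hub V 0 (by omega) (by omega)))
    have hexit : CRun (toC nm b M) C 1 0 (aux nm b τ h 3, G u A V 0)
        (r.2.2, rep K w b (Function.update s i l)) :=
      CRun.add (aux nm b τ h 3, Sum.inl ([], [ct b i tp]), r.2.2) [] [ct b i tp]
        (by rw [h1]; exact hgad _ (by simp)) rfl rfl rfl hexitEff
        (hub V 0 (by omega) (by omega)) (CRun.refl _ hfinb)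
    exact ⟨_, _, crun_trans hpre (crun_trans hz3 hexit), by omega, by omega⟩

end Pool.Agent.H453R2.JS
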