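import Pool.Agent.H453R2.JS.Spec

/-!
# Task MCS: soundness of the counter machine
-/

namespace Pool.Agent.H453R2.JS

namespace MCS

theorem getD_pairs (f g : ℕ → ℕ) (N j : ℕ) :
    ((List.range N).flatMap (fun t => [f t, g t])).getD j 0 =
      if j < 2 * N then (if j % 2 = 0 then f (j / 2) else g (j / 2)) else 0 := by
  induction N with
  | zero => simp
  | succ N ih =>
    rw [List.range_succ, List.flatMap_append]
    have hlen : ((List.range N).flatMap (fun t => [f t, g t])).length = 2 * N := by
      rw [List.length_flatMap]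
      simp
      omega
    by_cases h : j < 2 * N
    · rw [List.getD_append _ _ _ _ (by rw [hlen]; exact h), ih, if_pos h,
        if_pos (by omega : j < 2 * (N + 1))]
    · rw [List.getD_append_right _ _ _ _ (by rw [hlen]; omega), hlen]
      simp only [List.flatMap_cons, List.flatMap_nil, List.append_nil]
      by_cases h2 : j < 2 * (N + 1)
      · rw [if_pos h2]
        rcases (by omega : j = 2 * N ∨ j = 2 * N + 1) with h3 | h3
        · subst h3
          simp
        · subst h3
          have e1 : 2 * N + 1 - 2 * N = 1 := by omega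
          have e2 : ¬ (2 * N + 1) % 2 = 0 := by omega
          have e3 : (2 * N + 1) / 2 = N := by omega
          rw [e1, if_neg e2, e3]
          rfl
      · rw [if_neg h2]
        obtain ⟨k, hk⟩ : ∃ k, j - 2 * N = k + 2 := ⟨j - 2 * N - 2, by omega⟩
        rw [hk]
        simp

theorem v0_cons (K w b : ℕ) (x : List Bool) :
    v0Of K w b x = 0 :: (List.range (K * b)).flatMap (fun t =>
      [(if t < b then val (blk w x t) else 0),
       (if t < b then (if t = top w x then 1 else 0) else (if t % b = 0 then 1 else 0))]) := by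
  unfold v0Of
  congr 1
  congr 1
  funext t
  by_cases h : t < b
  · simp only [if_pos h]
  · simp only [if_neg h]

theorem idx_div {b i h : ℕ} (hh : h < b) : (i * b + h) / b = i ∧ (i * b + h) % b = h := by
  constructor
  · rw [Nat.mul_comm, Nat.mul_add_div (by omega), Nat.div_eq_of_lt hh, Nat.add_zero]
  · rw [Nat.mul_comm, Nat.mul_add_mod, Nat.mod_eq_of_lt hh]

theorem idx_lt {K b i h : ℕ} (hi : i < K) (hh : h < b) : i * b + h < K * b := by
  have : (i + 1) * b ≤ K * b := Nat.mul_le_mul_right _ hi
  have e : (i + 1) * b = i * b + b := by ring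
  omega

theorem v0_cv (K w b i h : ℕ) (x : List Bool) (hi : i < K) (hh : h < b) :
    (v0Of K w b x).getD (cv b i h) 0 = if i = 0 then val (blk w x h) else 0 := by
  have h1 := idx_lt hi hh
  have e : cv b i h = 2 * (i * b + h) + 1 := by unfold cv; omega
  rw [v0_cons, e, List.getD_cons_succ, getD_pairs, if_pos (by omega), if_pos (by omega)]
  have e2 : 2 * (i * b + h) / 2 = i * b + h := by omega
  rw [e2]
  by_cases h0 : i = 0
  · subst h0
    rw [if_pos (by simpa using hh)]
    simp
  · rw [if_neg, if_neg h0]
    have : 1 * b ≤ i * b := Nat.mul_le_mul_right _ (by omega)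
    omega

theorem v0_ct (K w b i h : ℕ) (x : List Bool) (hi : i < K) (hh : h < b) :
    (v0Of K w b x).getD (ct b i h) 0 =
      if i = 0 then (if h = top w x then 1 else 0) else (if h = 0 then 1 else 0) := by
  have h1 := idx_lt hi hh
  have e : ct b i h = (2 * (i * b + h) + 1) + 1 := by unfold ct; omega
  rw [v0_cons, e, List.getD_cons_succ, getD_pairs, if_pos (by omega), if_neg (by omega)]
  have e2 : (2 * (i * b + h) + 1) / 2 = i * b + h := by omega
  rw [e2]
  by_cases h0 : i = 0
  · subst h0
    rw [if_pos (by simpa using hh)]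
    simp
  · rw [if_neg, if_neg h0, (idx_div hh).2]
    have : 1 * b ≤ i * b := Nat.mul_le_mul_right _ (by omega)
    omega

theorem stk_blk (w : ℕ) (x : List Bool) (n : ℕ) :
    stk (blk w x) n = (x.reverse.take ((n + 1) * w)).reverse := by
  induction n with
  | zero =>
    unfold stk blk
    simp
  | succ n ih =>
    have e : stk (blk w x) (n + 1) = blk w x (n + 1) ++ stk (blk w x) n := by
      unfold stk
      rw [List.range_succ (n := n + 1), List.reverse_append]
      simp
    rw [e, ih]
    unfold blk
    rw [← List.reverse_append]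
    congr 1
    have e2 : (n + 1 + 1) * w = (n + 1) * w + w := by ring
    rw [e2, List.take_add]

theorem stk_self {w : ℕ} (hw : 1 ≤ w) (x : List Bool) : stk (blk w x) (top w x) = x := by
  rw [stk_blk, List.take_of_length_le, List.reverse_reverse]
  rw [List.length_reverse]
  unfold top
  have h1 := Nat.div_add_mod' (x.length - 1) w
  have h2 := Nat.mod_lt (x.length - 1) (show w > 0 by omega)
  rw [Nat.add_mul, Nat.one_mul]
  omega

theorem blk_nil {w : ℕ} (x : List Bool) (h : ℕ) (hh : (x.length - 1) / w < h) (hw : 1 ≤ w) :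
    blk w x h = [] := by
  unfold blk
  rw [List.drop_of_length_le]
  · simp
  · rw [List.length_reverse]
    have h1 := Nat.div_add_mod' (x.length - 1) w
    have h2 := Nat.mod_lt (x.length - 1) (show w > 0 by omega)
    have h3 : ((x.length - 1) / w + 1) * w ≤ h * w := Nat.mul_le_mul_right _ hh
    rw [Nat.add_mul, Nat.one_mul] at h3
    omega

theorem top_lt {w b : ℕ} (hb : 1 ≤ b) (hw : 1 ≤ w) (x : List Bool) (hx : x.length ≤ b * w) :
    top w x < b := by
  unfold top
  rw [Nat.div_lt_iff_lt_mul (by omega)]
  have : 1 * 1 ≤ b * w := Nat.mul_le_mul hb hw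
  omega

end MCS

open MCS in
theorem MCS_holds (hA : S_MCSA) (hB : S_MCSB) (hC : S_MCSC) (hD : S_MCSD) : S_MCS := by
  intro nm K b w M x hM hnm hK hb hw hx hrun
  obtain ⟨v, hv⟩ := hrun
  have hinit : Inv nm K b M x (cfg0 0 (v0Of K w b x)) := by
    left
    refine ⟨by show 0 < nm; omega, ?_, (minit x).2, Relation.ReflTransGen.refl, ?_⟩
    · show (v0Of K w b x).getD 0 0 = 0
      rw [v0_cons]; rfl
    · intro i hi
      have htop := top_lt hb hw x hx
      by_cases h0 : i = 0
      · subst h0
        refine ⟨blk w x, top w x, ⟨htop, ?_, ?_⟩, ?_⟩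
        · intro h hh
          show (v0Of K w b x).getD (cv b 0 h) 0 = _
          rw [v0_cv K w b 0 h x hi hh, if_pos rfl]
          by_cases h1 : h ≤ top w x
          · rw [if_pos h1]
          · rw [if_neg h1, blk_nil x h (by unfold top at h1; omega) hw]
            rfl
        · intro h hh
          show (v0Of K w b x).getD (ct b 0 h) 0 = _
          rw [v0_ct K w b 0 h x hi hh, if_pos rfl]
        · show Function.update (fun _ => ([] : List Bool)) 0 x 0 = _
          rw [Function.update_self, stk_self hw]
      · refine ⟨fun _ => [], 0, ⟨by omega, ?_, ?_⟩, ?_⟩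
        · intro h hh
          show (v0Of K w b x).getD (cv b i h) 0 = _
          rw [v0_cv K w b i h x hi hh, if_neg h0]
          simp [val]
        · intro h hh
          show (v0Of K w b x).getD (ct b i h) 0 = _
          rw [v0_ct K w b i h x hi hh, if_neg h0]
        · show Function.update (fun _ => ([] : List Bool)) 0 x i = _
          rw [Function.update_of_ne h0]
          simp [stk]
  have hstep : ∀ c c', Inv nm K b M x c → CStep (toC nm b M) c c' → Inv nm K b M x c' := by
    intro c c' h hs
    rcases h with h | ⟨τ, r, h', e, h⟩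
    · exact hA nm K b M x c c' hM hnm hb h hs
    · rcases hr : r.2.1 with ⟨i, β⟩ | ⟨i, β⟩ | ⟨i⟩
      · exact hB nm K b M x c c' τ r h' e i β hM hnm hb hr h hs
      · exact hC nm K b M x c c' τ r h' e i β hM hnm hb hr h hs
      · exact hD nm K b M x c c' τ r h' e i hM hnm hb hr h hs
  have hfin : Inv nm K b M x (1, v) := by
    have : ∀ c, Relation.ReflTransGen (CStep (toC nm b M)) (cfg0 0 (v0Of K w b x)) c →
        Inv nm K b M x c := by
      intro c hc
      induction hc with
      | refl => exact hinit
      | tail _ h2 ih => exact hstep _ _ ih h2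
    exact this _ hv
  rcases hfin with ⟨-, -, s, hs, -⟩ | ⟨τ, r, h', e, -, -, -, h4, -⟩
  · exact ⟨(1, s), hs, rfl⟩
  · exfalso
    have h4' : 1 = aux nm b τ h' e := h4
    unfold aux at h4'
    omega

end Pool.Agent.H453R2.JS
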