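import Pool.Agent.H453R2.JS.Spec

/-! MCSA: steps from main states -/

namespace Pool.Agent.H453R2.JS

open Relation

namespace MCSA

theorem idx_inj {b i i' h h' : ℕ} (hh : h < b) (hh' : h' < b) (e : i * b + h = i' * b + h') :
    i = i' ∧ h = h' := by
  have hb : 0 < b := by omega
  have h1 : (i * b + h) / b = i := by
    rw [Nat.add_comm, Nat.add_mul_div_right _ _ hb, Nat.div_eq_of_lt hh, Nat.zero_add]
  have h2 : (i' * b + h') / b = i' := by
    rw [Nat.add_comm, Nat.add_mul_div_right _ _ hb, Nat.div_eq_of_lt hh', Nat.zero_add]
  have h3 : i = i' := by rw [← h1, ← h2, e]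
  subst h3
  exact ⟨rfl, by omega⟩

theorem cv_inj {b i i' h h' : ℕ} (hh : h < b) (hh' : h' < b) :
    cv b i h = cv b i' h' ↔ i = i' ∧ h = h' := by
  constructor
  · intro e
    apply idx_inj hh hh'
    unfold cv at e
    omega
  · rintro ⟨rfl, rfl⟩; rfl

theorem ct_inj {b i i' h h' : ℕ} (hh : h < b) (hh' : h' < b) :
    ct b i h = ct b i' h' ↔ i = i' ∧ h = h' := by
  constructor
  · intro e
    apply idx_inj hh hh'
    unfold ct at e
    omega
  · rintro ⟨rfl, rfl⟩; rfl

theorem cv_ne_ct (b i i' h h' : ℕ) : cv b i h ≠ ct b i' h' := by unfold cv ct; omega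
theorem ct_ne_cv (b i i' h h' : ℕ) : ct b i h ≠ cv b i' h' := by unfold cv ct; omega
theorem cv_ne_zero (b i h : ℕ) : cv b i h ≠ 0 := by unfold cv; omega
theorem ct_ne_zero (b i h : ℕ) : ct b i h ≠ 0 := by unfold ct; omega
theorem zero_ne_cv (b i h : ℕ) : 0 ≠ cv b i h := by unfold cv; omega
theorem zero_ne_ct (b i h : ℕ) : 0 ≠ ct b i h := by unfold ct; omega

theorem aux_ge (nm b τ h e : ℕ) : nm ≤ aux nm b τ h e := by unfold aux; omega

theorem aux_inj {nm b τ τ' h h' e e' : ℕ} (hh : h < b) (hh' : h' < b) (he : e < 4) (he' : e' < 4)
    (h0 : aux nm b τ h e = aux nm b τ' h' e') : τ = τ' ∧ h = h' ∧ e = e' := by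
  unfold aux at h0
  obtain ⟨h1, h2⟩ := idx_inj (i := τ) (i' := τ') hh hh' (by omega)
  exact ⟨h1, h2, by omega⟩

theorem mem_toC {nm b : ℕ} {M : Mach} {r : CRule} (h : r ∈ toC nm b M) :
    r = (1, Sum.inr 0, 1) ∨ ∃ τ m h, M[τ]? = some m ∧ h < b ∧ r ∈ gad nm b τ m h := by
  unfold toC at h
  rw [List.mem_cons] at h
  rcases h with h | h
  · exact Or.inl h
  · right
    rw [List.mem_flatMap] at h
    obtain ⟨⟨m, τ⟩, h1, h2⟩ := h
    rw [List.mem_flatMap] at h2
    obtain ⟨h', h3, h4⟩ := h2
    exact ⟨τ, m, h', List.mem_zipIdx_iff_getElem?.1 h1, List.mem_range.1 h3, h4⟩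

theorem RepI_congr {b i : ℕ} {v v' : ℕ → ℕ} {B : ℕ → List Bool} {tp : ℕ}
    (h : ∀ h < b, v' (cv b i h) = v (cv b i h) ∧ v' (ct b i h) = v (ct b i h))
    (hR : RepI b i v B tp) : RepI b i v' B tp := by
  obtain ⟨h1, h2, h3⟩ := hR
  exact ⟨h1, fun h' hh' => by rw [(h h' hh').1, h2 h' hh'],
    fun h' hh' => by rw [(h h' hh').2, h3 h' hh']⟩

theorem stk_eq (B : ℕ → List Bool) (h : ℕ) :
    stk B h = B h ++ ((List.range h).reverse.map B).flatten := by
  unfold stk
  rw [List.range_succ, List.reverse_append]
  simp

theorem stk_update (B : ℕ → List Bool) (h : ℕ) (l : List Bool) :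
    stk (Function.update B h l) h = l ++ ((List.range h).reverse.map B).flatten := by
  rw [stk_eq, Function.update_self]
  congr 2
  apply List.map_congr_left
  intro a ha
  rw [List.mem_reverse, List.mem_range] at ha
  rw [Function.update_of_ne (by omega)]

end MCSA

open MCSA

theorem MCSA_holds : S_MCSA := by
  rintro nm K b M x ⟨q, v⟩ ⟨q', v'⟩ hM hnm hb ⟨hq, h0, s, hs, hrep⟩ ⟨r, hr, hr1, hr2, heff⟩
  simp only at hq h0 hs hrep hr1 hr2 heff
  rcases mem_toC hr with h | ⟨τ, ⟨p, ins, p'⟩, h, hτ, hh, hg⟩
  · subst h
    left
    obtain ⟨-, rfl⟩ := heff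
    simp only at hr1 hr2
    subst hr1 hr2
    exact ⟨hq, h0, s, hs, hrep⟩
  · right
    have hmem : (p, ins, p') ∈ M := List.mem_of_getElem? hτ
    have hMg := hM _ hmem
    cases ins with
    | push i β =>
      simp only at hMg
      obtain ⟨-, -, hi⟩ := hMg
      obtain ⟨B, tp, ⟨htp, hB, hT⟩, hst⟩ := hrep i hi
      have main : ∀ g, g < b → (g = h ∨ g + 1 = h) →
          CEff (Sum.inl ([ct b i g], [])) v v' → r.1 = p → q' = aux nm b τ h 0 →
          ∃ τ r h e, InvA nm K b M x τ r h e (q', v') := by
        rintro g hgb hgh ⟨hpre, hv'⟩ hp hq'
        have htok : 1 ≤ v (ct b i g) := by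
          have := hpre (ct b i g)
          simpa using this
        have hgt : g = tp := by
          by_contra hne
          rw [hT g hgb, if_neg hne] at htok
          omega
        have v'cv : ∀ i' h', v' (cv b i' h') = v (cv b i' h') := by
          intro i' h'
          rw [hv']
          simp [ct_ne_cv]
        have v'ct : ∀ i' h', h' < b → v' (ct b i' h') =
            v (ct b i' h') - (if i' = i ∧ h' = g then 1 else 0) := by
          intro i' h' hh'
          rw [hv']
          simp only [List.count_cons, List.count_nil, Nat.zero_add, Nat.add_zero, beq_iff_eq]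
          congr 1
          by_cases hc : i' = i ∧ h' = g
          · rw [if_pos hc, if_pos]
            rw [hc.1, hc.2]
          · rw [if_neg hc, if_neg]
            intro he
            apply hc
            have := (ct_inj hgb hh').1 he
            exact ⟨this.1.symm, this.2.symm⟩
        have v'0 : v' 0 = 0 := by
          rw [hv']
          simp [h0]
        refine ⟨τ, (p, Ins.push i β, p'), h, 0, hτ, hh, by norm_num, hq', s, ?_, ?_, ?_⟩
        · rw [← hp, hr1]; exact hs
        · intro i' hi' hne
          obtain ⟨B1, tp1, hR, hst1⟩ := hrep i' hi'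
          refine ⟨B1, tp1, RepI_congr (fun h' hh' => ⟨v'cv i' h', ?_⟩) hR, hst1⟩
          change v' (ct b i' h') = _
          rw [v'ct i' h' hh', if_neg (fun hc => hne hc.1)]
          rfl
        · simp only [insI, insH]
          rcases hgh with hgh | hgh
          · subst hgh
            refine ⟨B, ⟨hh, ?_, ?_⟩, ?_, ?_⟩
            · intro h' hh' hne
              rw [v'cv, hB h' hh']
              by_cases hc : h' < g
              · rw [if_pos hc, if_pos (by omega)]
              · rw [if_neg hc, if_neg (by omega)]
            · intro h' hh'
              rw [v'ct i h' hh', hT h' hh']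
              by_cases hc : h' = g
              · rw [if_pos (by omega), if_pos ⟨rfl, hc⟩]
              · rw [if_neg (by omega), Nat.zero_sub]
            · rw [hst, hgt]
            · change v' (cv b i g) + v' 0 = val (B g)
              rw [v'cv, v'0, hB g hgb, if_pos (by omega), Nat.add_zero]
          · refine ⟨Function.update B h [], ⟨hh, ?_, ?_⟩, ?_, ?_⟩
            · intro h' hh' hne
              rw [v'cv, hB h' hh', Function.update_of_ne hne]
              by_cases hc : h' < h
              · rw [if_pos hc, if_pos (by omega)]
              · rw [if_neg hc, if_neg (by omega)]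
            · intro h' hh'
              rw [v'ct i h' hh', hT h' hh']
              by_cases hc : h' = g
              · rw [if_pos (by omega), if_pos ⟨rfl, hc⟩]
              · rw [if_neg (by omega), Nat.zero_sub]
            · rw [hst, stk_update, List.nil_append, ← hgt]
              unfold stk
              rw [hgh]
            · change v' (cv b i h) + v' 0 = val (Function.update B h [] h)
              rw [v'cv, v'0, hB h hh, if_neg (by omega), Function.update_self]
              rfl
      simp only [gad, List.mem_cons, List.not_mem_nil, or_false] at hg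
      rcases hg with hg | hg | hg | hg | hg | hg | hg
      · subst hg
        exact main h hh (Or.inl rfl) heff rfl hr2.symm
      · subst hg
        apply main (h - 1) (by omega) _ heff rfl hr2.symm
        rcases Nat.eq_zero_or_pos h with h3 | h3
        · left; omega
        · right; omega
      all_goals
        exfalso
        rw [hg] at hr1
        simp only at hr1
        have := aux_ge nm b τ h 0
        have := aux_ge nm b τ h 1
        have := aux_ge nm b τ h 2
        omega
    | pop i β =>
      simp only at hMg
      obtain ⟨-, -, hi⟩ := hMg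
      obtain ⟨B, tp, ⟨htp, hB, hT⟩, hst⟩ := hrep i hi
      simp only [gad, List.mem_cons, List.not_mem_nil, or_false] at hg
      rcases hg with hg | hg | hg | hg | hg | hg | hg | hg
      · subst hg
        obtain ⟨hpre, hv'⟩ := heff
        have htok : 1 ≤ v (ct b i h) := by
          have := hpre (ct b i h)
          rw [List.count_cons_self] at this
          omega
        have hgt : h = tp := by
          by_contra hne
          rw [hT h hh, if_neg hne] at htok
          omega
        have hval : 1 + β.toNat ≤ v (cv b i h) := by
          have := hpre (cv b i h)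
          rw [List.count_cons_of_ne (ct_ne_cv b i i h h), List.count_replicate_self] at this
          exact this
        have v'cv : ∀ i' h', h' < b → v' (cv b i' h') =
            v (cv b i' h') - (if i' = i ∧ h' = h then 1 + β.toNat else 0) := by
          intro i' h' hh'
          rw [hv']
          simp only [List.count_nil, Nat.add_zero]
          rw [List.count_cons_of_ne (ct_ne_cv b i i' h h'), List.count_replicate]
          congr 1
          by_cases hc : i' = i ∧ h' = h
          · rw [if_pos hc, if_pos]
            rw [hc.1, hc.2, beq_iff_eq]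
          · rw [if_neg hc, if_neg]
            rw [beq_iff_eq]
            intro he
            apply hc
            have := (cv_inj hh hh').1 he
            exact ⟨this.1.symm, this.2.symm⟩
        have v'ct : ∀ i' h', h' < b → v' (ct b i' h') =
            v (ct b i' h') - (if i' = i ∧ h' = h then 1 else 0) := by
          intro i' h' hh'
          rw [hv']
          simp only [List.count_nil, Nat.add_zero]
          rw [List.count_cons, List.count_replicate, if_neg, Nat.zero_add]
          · congr 1
            by_cases hc : i' = i ∧ h' = h
            · rw [if_pos hc, if_pos]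
              rw [hc.1, hc.2, beq_iff_eq]
            · rw [if_neg hc, if_neg]
              rw [beq_iff_eq]
              intro he
              apply hc
              have := (ct_inj hh hh').1 he
              exact ⟨this.1.symm, this.2.symm⟩
          · rw [beq_iff_eq]
            exact cv_ne_ct b i i' h h'
        have v'0 : v' 0 = 0 := by
          rw [hv']
          simp only [List.count_nil, Nat.add_zero, h0, Nat.zero_sub]
        refine ⟨τ, (p, Ins.pop i β, p'), h, 0, hτ, hh, by norm_num, hr2.symm, s, ?_, ?_, ?_⟩
        · simp only at hr1
          rw [hr1]; exact hs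
        · intro i' hi' hne
          obtain ⟨B1, tp1, hR, hst1⟩ := hrep i' hi'
          refine ⟨B1, tp1, RepI_congr (fun h' hh' => ⟨?_, ?_⟩) hR, hst1⟩
          · change v' (cv b i' h') = _
            rw [v'cv i' h' hh', if_neg (fun hc => hne hc.1)]
            rfl
          · change v' (ct b i' h') = _
            rw [v'ct i' h' hh', if_neg (fun hc => hne hc.1)]
            rfl
        · simp only [insI, insH]
          refine ⟨B, ⟨hh, ?_, ?_⟩, ?_, ?_⟩
          · intro h' hh' hne
            rw [v'cv i h' hh', if_neg (show ¬ (i = i ∧ h' = h) from fun hc => hne hc.2),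
              Nat.sub_zero, hB h' hh']
            by_cases hc : h' < h
            · rw [if_pos hc, if_pos (by omega)]
            · rw [if_neg hc, if_neg (by omega)]
          · intro h' hh'
            rw [v'ct i h' hh', hT h' hh']
            by_cases hc : h' = h
            · rw [if_pos (by omega), if_pos ⟨rfl, hc⟩]
            · rw [if_neg (by omega), Nat.zero_sub]
          · rw [hst, hgt]
          · change v' (cv b i h) + 2 * v' 0 + 1 + β.toNat = val (B h)
            have e1 : v (cv b i h) = val (B h) := by rw [hB h hh, if_pos (by omega)]
            rw [v'cv i h hh, v'0, if_pos ⟨rfl, rfl⟩]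
            omega
      all_goals
        exfalso
        rw [hg] at hr1
        simp only at hr1
        have := aux_ge nm b τ h 0
        have := aux_ge nm b τ h 1
        have := aux_ge nm b τ h 2
        have := aux_ge nm b τ h 3
        omega
    | empty i =>
      simp only at hMg
      obtain ⟨-, -, hi⟩ := hMg
      obtain ⟨B, tp, ⟨htp, hB, hT⟩, hst⟩ := hrep i hi
      have hb0 : 0 < b := by omega
      simp only [gad, List.mem_cons, List.not_mem_nil, or_false] at hg
      rcases hg with hg | hg | hg
      · subst hg
        obtain ⟨hpre, hv'⟩ := heff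
        have htok : 1 ≤ v (ct b i 0) := by
          have := hpre (ct b i 0)
          rw [List.count_cons_self] at this
          omega
        have hgt : 0 = tp := by
          by_contra hne
          rw [hT 0 hb0, if_neg hne] at htok
          omega
        have v'cv : ∀ i' h', v' (cv b i' h') = v (cv b i' h') := by
          intro i' h'
          rw [hv']
          simp [ct_ne_cv]
        have v'ct : ∀ i' h', h' < b → v' (ct b i' h') =
            v (ct b i' h') - (if i' = i ∧ h' = 0 then 1 else 0) := by
          intro i' h' hh'
          rw [hv']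
          simp only [List.count_cons, List.count_nil, Nat.zero_add, Nat.add_zero, beq_iff_eq]
          congr 1
          by_cases hc : i' = i ∧ h' = 0
          · rw [if_pos hc, if_pos]
            rw [hc.1, hc.2]
          · rw [if_neg hc, if_neg]
            intro he
            apply hc
            have := (ct_inj hb0 hh').1 he
            exact ⟨this.1.symm, this.2.symm⟩
        have v'0 : v' 0 = 0 := by
          rw [hv']
          simp [h0]
        refine ⟨τ, (p, Ins.empty i, p'), h, 0, hτ, hh, by norm_num, hr2.symm, s, ?_, ?_, ?_⟩
        · simp only at hr1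
          rw [hr1]; exact hs
        · intro i' hi' hne
          obtain ⟨B1, tp1, hR, hst1⟩ := hrep i' hi'
          refine ⟨B1, tp1, RepI_congr (fun h' hh' => ⟨v'cv i' h', ?_⟩) hR, hst1⟩
          change v' (ct b i' h') = _
          rw [v'ct i' h' hh', if_neg (fun hc => hne hc.1)]
          rfl
        · simp only [insI, insH]
          refine ⟨B, ⟨hb0, ?_, ?_⟩, ?_, ?_⟩
          · intro h' hh' hne
            rw [v'cv, hB h' hh', if_neg (by omega), if_neg (by omega)]
          · intro h' hh'
            rw [v'ct i h' hh', hT h' hh']
            by_cases hc : h' = 0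
            · rw [if_pos (by omega), if_pos ⟨rfl, hc⟩]
            · rw [if_neg (by omega), Nat.zero_sub]
          · rw [hst, hgt]
          · change v' (cv b i 0) = val (B 0) ∧ v' 0 = 0
            refine ⟨?_, v'0⟩
            rw [v'cv, hB 0 hb0, if_pos (by omega)]
      all_goals
        exfalso
        rw [hg] at hr1
        simp only at hr1
        have := aux_ge nm b τ h 0
        have := aux_ge nm b τ h 1
        omega

end Pool.Agent.H453R2.JS
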