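import Pool.Agent.H453R2.JS.Spec
import Pool.Agent.H453R2.JS.T_MCSA

/-! MCSB: steps from auxiliary states of a push instruction -/

namespace Pool.Agent.H453R2.JS

open Relation

open MCSA

namespace MCSB

/-- rules with a given auxiliary source -/
theorem rule_of_aux {nm K b : ℕ} {M : Mach} (hM : GoodM nm K M) (hnm : 2 ≤ nm) {r : CRule}
    (hr : r ∈ toC nm b M) {τ h e : ℕ} {m : ℕ × Ins × ℕ} (hτ : M[τ]? = some m) (hh : h < b)
    (he : e < 4) (hs : r.1 = aux nm b τ h e) :
    r ∈ gad nm b τ m h := by
  have hge := aux_ge nm b τ h e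
  rcases mem_toC hr with h1 | ⟨τ', m', h', hτ', hh', hg⟩
  · rw [h1] at hs
    simp only at hs
    omega
  · have hmem : m' ∈ M := List.mem_of_getElem? hτ'
    have hm' := (hM _ hmem).1
    have key : ∀ e', e' < 4 → r.1 = aux nm b τ' h' e' → r ∈ gad nm b τ m h := by
      intro e' he' h2
      obtain ⟨h3, h4, -⟩ := aux_inj hh hh' he he' (hs.symm.trans h2)
      subst h3 h4
      rw [hτ] at hτ'
      rw [Option.some.inj hτ']
      exact hg
    obtain ⟨p, ins, p'⟩ := m'
    simp only at hm'
    cases ins with
    | push i β =>
      have hg' := hg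
      simp only [gad, List.mem_cons, List.not_mem_nil, or_false] at hg
      rcases hg with hg | hg | hg | hg | hg | hg | hg
      · exfalso; rw [hg] at hs; simp only at hs; omega
      · exfalso; rw [hg] at hs; simp only at hs; omega
      · exact key 0 (by norm_num) (by rw [hg])
      · exact key 0 (by norm_num) (by rw [hg])
      · exact key 1 (by norm_num) (by rw [hg])
      · exact key 1 (by norm_num) (by rw [hg])
      · exact key 2 (by norm_num) (by rw [hg])
    | pop i β =>
      have hg' := hg
      simp only [gad, List.mem_cons, List.not_mem_nil, or_false] at hg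
      rcases hg with hg | hg | hg | hg | hg | hg | hg | hg
      · exfalso; rw [hg] at hs; simp only at hs; omega
      · exact key 0 (by norm_num) (by rw [hg])
      · exact key 0 (by norm_num) (by rw [hg])
      · exact key 1 (by norm_num) (by rw [hg])
      · exact key 1 (by norm_num) (by rw [hg])
      · exact key 2 (by norm_num) (by rw [hg])
      · exact key 2 (by norm_num) (by rw [hg])
      · exact key 3 (by norm_num) (by rw [hg])
    | empty i =>
      have hg' := hg
      simp only [gad, List.mem_cons, List.not_mem_nil, or_false] at hg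
      rcases hg with hg | hg | hg
      · exfalso; rw [hg] at hs; simp only at hs; omega
      · exact key 0 (by norm_num) (by rw [hg])
      · exact key 1 (by norm_num) (by rw [hg])

theorem aux_ne {nm b τ h e e' : ℕ} (_ : e < 4) (_ : e' < 4) (hne : e ≠ e') :
    aux nm b τ h e ≠ aux nm b τ h e' := by
  unfold aux
  omega

theorem RepJ_congr {b i h : ℕ} {v v' : ℕ → ℕ} {B : ℕ → List Bool}
    (hc : ∀ h' < b, (h' ≠ h → v' (cv b i h') = v (cv b i h')) ∧ v' (ct b i h') = v (ct b i h'))
    (hR : RepJ b i h v B) : RepJ b i h v' B := by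
  obtain ⟨h1, h2, h3⟩ := hR
  exact ⟨h1, fun h' hh' hne => by rw [(hc h' hh').1 hne, h2 h' hh' hne],
    fun h' hh' => by rw [(hc h' hh').2, h3 h' hh']⟩

end MCSB

open MCSB

theorem MCSB_holds : S_MCSB := by
  rintro nm K b M x ⟨q, v⟩ ⟨q', v'⟩ τ ⟨p, ins, p'⟩ h e i β hM hnm hb hins hA ⟨r, hr, hr1, hr2, heff⟩
  simp only at hins hr1 hr2 heff
  subst hins
  obtain ⟨hτ, hh, he, hq, s, hs, hoth, B, hJ, hst, hph⟩ := hA
  simp only [insI, insH] at hq hs hoth hJ hst hph
  have hg := rule_of_aux hM hnm hr hτ hh he (hr1.trans hq)
  have hmem : (p, Ins.push i β, p') ∈ M := List.mem_of_getElem? hτ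
  obtain ⟨-, hp', hi⟩ := hM _ hmem
  simp only at hp' hi
  have hge := aux_ge nm b τ h e
  have hpn := (hM _ hmem).1
  simp only at hpn
  have hsrc : r.1 = aux nm b τ h e := hr1.trans hq
  -- keeping the invariant when only `cv b i h` and `0` change
  have keep : ∀ e', e' < 4 → q' = aux nm b τ h e' →
      (∀ i' h', h' < b → (i' ≠ i ∨ h' ≠ h) → v' (cv b i' h') = v (cv b i' h')) →
      (∀ i' h', v' (ct b i' h') = v (ct b i' h')) →
      phase (Ins.push i β) e' (v' (cv b i h)) (v' 0) (val (B h)) →
      Inv nm K b M x (q', v') := by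
    intro e' he' hq' hcv hct hph'
    right
    refine ⟨τ, (p, Ins.push i β, p'), h, e', hτ, hh, he', hq', s, hs, ?_, B, ?_, hst, hph'⟩
    · intro i' hi' hne
      obtain ⟨B1, tp1, hR, hst1⟩ := hoth i' hi' hne
      exact ⟨B1, tp1, RepI_congr (fun h' hh' => ⟨hcv i' h' hh' (Or.inl hne), hct i' h'⟩) hR, hst1⟩
    · exact RepJ_congr (fun h' hh' => ⟨fun hne => hcv i h' hh' (Or.inr hne), hct i h'⟩) hJ
  have cvne : ∀ i' h', h' < b → (i' ≠ i ∨ h' ≠ h) → cv b i h ≠ cv b i' h' := by
    intro i' h' hh' hne he
    have := (cv_inj hh hh').1 he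
    rcases hne with hne | hne
    · exact hne this.1.symm
    · exact hne this.2.symm
  have hcases : e = 0 ∨ e = 1 ∨ e = 2 ∨ e = 3 := by omega
  simp only [gad, List.mem_cons, List.not_mem_nil, or_false] at hg
  rcases hcases with he0 | he0 | he0 | he0
  · subst he0
    have hph0 : v (cv b i h) + v 0 = val (B h) := hph
    rcases hg with hg | hg | hg | hg | hg | hg | hg
    · exfalso; rw [hg] at hsrc; simp only at hsrc; omega
    · exfalso; rw [hg] at hsrc; simp only at hsrc; omega
    · subst hg
      obtain ⟨hpre, hv'⟩ := heff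
      have htok : 1 ≤ v (cv b i h) := by
        have := hpre (cv b i h)
        simpa using this
      apply keep 0 (by norm_num) hr2.symm
      · intro i' h' hh' hne
        rw [hv']
        simp [cvne i' h' hh' hne, zero_ne_cv]
      · intro i' h'
        rw [hv']
        simp [cv_ne_ct, zero_ne_ct]
      · change v' (cv b i h) + v' 0 = val (B h)
        rw [hv']
        simp [cv_ne_zero, zero_ne_cv]
        omega
    · subst hg
      obtain ⟨hz, rfl⟩ := heff
      apply keep 1 (by norm_num) hr2.symm (fun _ _ _ _ => rfl) (fun _ _ => rfl)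
      change v' (cv b i h) + 2 * v' 0 = 2 * val (B h)
      omega
    · exact absurd (hsrc.symm.trans (by rw [hg])) (aux_ne (by norm_num) (by norm_num) (by norm_num) : aux nm b τ h 0 ≠ aux nm b τ h 1)
    · exact absurd (hsrc.symm.trans (by rw [hg])) (aux_ne (by norm_num) (by norm_num) (by norm_num) : aux nm b τ h 0 ≠ aux nm b τ h 1)
    · exact absurd (hsrc.symm.trans (by rw [hg])) (aux_ne (by norm_num) (by norm_num) (by norm_num) : aux nm b τ h 0 ≠ aux nm b τ h 2)
  · subst he0
    have hph0 : v (cv b i h) + 2 * v 0 = 2 * val (B h) := hph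
    rcases hg with hg | hg | hg | hg | hg | hg | hg
    · exfalso; rw [hg] at hsrc; simp only at hsrc; omega
    · exfalso; rw [hg] at hsrc; simp only at hsrc; omega
    · exact absurd (hsrc.symm.trans (by rw [hg])) (aux_ne (by norm_num) (by norm_num) (by norm_num) : aux nm b τ h 1 ≠ aux nm b τ h 0)
    · exact absurd (hsrc.symm.trans (by rw [hg])) (aux_ne (by norm_num) (by norm_num) (by norm_num) : aux nm b τ h 1 ≠ aux nm b τ h 0)
    · subst hg
      obtain ⟨hpre, hv'⟩ := heff
      have htok : 1 ≤ v 0 := by
        have := hpre 0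
        simpa using this
      apply keep 1 (by norm_num) hr2.symm
      · intro i' h' hh' hne
        rw [hv']
        simp [cvne i' h' hh' hne, zero_ne_cv]
      · intro i' h'
        rw [hv']
        simp [cv_ne_ct, zero_ne_ct]
      · change v' (cv b i h) + 2 * v' 0 = 2 * val (B h)
        rw [hv']
        simp [cv_ne_zero, zero_ne_cv]
        omega
    · subst hg
      obtain ⟨hz, rfl⟩ := heff
      apply keep 2 (by norm_num) hr2.symm (fun _ _ _ _ => rfl) (fun _ _ => rfl)
      change v' (cv b i h) = 2 * val (B h) ∧ v' 0 = 0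
      omega
    · exact absurd (hsrc.symm.trans (by rw [hg])) (aux_ne (by norm_num) (by norm_num) (by norm_num) : aux nm b τ h 1 ≠ aux nm b τ h 2)
  · subst he0
    have hph0 : v (cv b i h) = 2 * val (B h) ∧ v 0 = 0 := hph
    rcases hg with hg | hg | hg | hg | hg | hg | hg
    · exfalso; rw [hg] at hsrc; simp only at hsrc; omega
    · exfalso; rw [hg] at hsrc; simp only at hsrc; omega
    · exact absurd (hsrc.symm.trans (by rw [hg])) (aux_ne (by norm_num) (by norm_num) (by norm_num) : aux nm b τ h 2 ≠ aux nm b τ h 0)
    · exact absurd (hsrc.symm.trans (by rw [hg])) (aux_ne (by norm_num) (by norm_num) (by norm_num) : aux nm b τ h 2 ≠ aux nm b τ h 0)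
    · exact absurd (hsrc.symm.trans (by rw [hg])) (aux_ne (by norm_num) (by norm_num) (by norm_num) : aux nm b τ h 2 ≠ aux nm b τ h 1)
    · exact absurd (hsrc.symm.trans (by rw [hg])) (aux_ne (by norm_num) (by norm_num) (by norm_num) : aux nm b τ h 2 ≠ aux nm b τ h 1)
    · subst hg
      obtain ⟨-, hv'⟩ := heff
      simp only at hr2
      subst hr2
      have v'cv : ∀ i' h', h' < b → v' (cv b i' h') =
          v (cv b i' h') + (if i' = i ∧ h' = h then 1 + β.toNat else 0) := by
        intro i' h' hh'
        rw [hv']
        simp only [List.count_nil, Nat.sub_zero]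
        rw [List.count_cons_of_ne (ct_ne_cv b i i' h h'), List.count_replicate]
        congr 1
        by_cases hc : i' = i ∧ h' = h
        · rw [if_pos hc, if_pos]
          rw [hc.1, hc.2, beq_iff_eq]
        · rw [if_neg hc, if_neg]
          rw [beq_iff_eq]
          intro he
          apply hc
          have := (cv_inj hh hh').1 he
          exact ⟨this.1.symm, this.2.symm⟩
      have v'ct : ∀ i' h', h' < b → v' (ct b i' h') =
          v (ct b i' h') + (if i' = i ∧ h' = h then 1 else 0) := by
        intro i' h' hh'
        rw [hv']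
        simp only [List.count_nil, Nat.sub_zero]
        rw [List.count_cons, List.count_replicate, if_neg, Nat.zero_add]
        · congr 1
          by_cases hc : i' = i ∧ h' = h
          · rw [if_pos hc, if_pos]
            rw [hc.1, hc.2, beq_iff_eq]
          · rw [if_neg hc, if_neg]
            rw [beq_iff_eq]
            intro he
            apply hc
            have := (ct_inj hh hh').1 he
            exact ⟨this.1.symm, this.2.symm⟩
        · rw [beq_iff_eq]
          exact cv_ne_ct b i i' h h'
      have v'0 : v' 0 = 0 := by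
        rw [hv']
        simp only [List.count_nil, Nat.sub_zero]
        rw [List.count_cons_of_ne (ct_ne_zero b i h), List.count_replicate, if_neg, hph0.2]
        rw [beq_iff_eq]
        exact cv_ne_zero b i h
      left
      refine ⟨hp', v'0, Function.update s i (β :: s i), ?_, ?_⟩
      · exact hs.tail ⟨_, hmem, rfl, rfl, rfl⟩
      · intro i' hi'
        by_cases hne : i' = i
        · subst hne
          refine ⟨Function.update B h (β :: B h), h, ⟨hh, ?_, ?_⟩, ?_⟩
          · intro h' hh'
            change v' (cv b i' h') = _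
            rw [v'cv i' h' hh']
            by_cases hc : h' = h
            · subst hc
              rw [if_pos ⟨rfl, rfl⟩, if_pos le_rfl, Function.update_self, hph0.1]
              simp only [val]
              omega
            · rw [if_neg (fun hx => hc hx.2), hJ.2.1 h' hh' hc, Function.update_of_ne hc]
              by_cases hlt : h' < h
              · rw [if_pos hlt, if_pos hlt.le, Nat.add_zero]
              · rw [if_neg hlt, if_neg (by omega)]
          · intro h' hh'
            change v' (ct b i' h') = _
            rw [v'ct i' h' hh', hJ.2.2 h' hh', Nat.zero_add]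
            by_cases hc : h' = h
            · rw [if_pos ⟨rfl, hc⟩, if_pos hc]
            · rw [if_neg (fun hx => hc hx.2), if_neg hc]
          · rw [Function.update_self, stk_update, hst, stk_eq, List.cons_append]
        · obtain ⟨B1, tp1, hR, hst1⟩ := hoth i' hi' hne
          refine ⟨B1, tp1, RepI_congr (fun h' hh' => ⟨?_, ?_⟩) hR, ?_⟩
          · change v' (cv b i' h') = _
            rw [v'cv i' h' hh', if_neg (fun hx => hne hx.1), Nat.add_zero]
          · change v' (ct b i' h') = _
            rw [v'ct i' h' hh', if_neg (fun hx => hne hx.1), Nat.add_zero]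
          · rw [Function.update_of_ne hne, hst1]
  · subst he0
    exact hph.elim

end Pool.Agent.H453R2.JS
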