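import Pool.Agent.H453R2.JS.Spec

/-!
# The invariant of the counter machine: steps from auxiliary states of a pop instruction
-/

namespace Pool.Agent.H453R2.JS

namespace MCSC

open Relation

lemma idx_inj {b i h i' h' : ℕ} (hh : h < b) (hh' : h' < b) (he : i * b + h = i' * b + h') :
    i = i' ∧ h = h' := by
  have h1 : (i * b + h) / b = (i' * b + h') / b := by rw [he]
  have h2 : (i * b + h) % b = (i' * b + h') % b := by rw [he]
  have hb : 0 < b := by omega
  rw [mul_comm i b, mul_comm i' b] at h1 h2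
  rw [Nat.mul_add_div hb, Nat.mul_add_div hb, Nat.div_eq_of_lt hh, Nat.div_eq_of_lt hh'] at h1
  rw [Nat.mul_add_mod, Nat.mul_add_mod, Nat.mod_eq_of_lt hh, Nat.mod_eq_of_lt hh'] at h2
  omega

lemma cv_inj {b i h i' h' : ℕ} (hh : h < b) (hh' : h' < b) (he : cv b i h = cv b i' h') :
    i = i' ∧ h = h' := by
  unfold cv at he
  exact idx_inj hh hh' (by omega)

lemma ct_inj {b i h i' h' : ℕ} (hh : h < b) (hh' : h' < b) (he : ct b i h = ct b i' h') :
    i = i' ∧ h = h' := by
  unfold ct at he
  exact idx_inj hh hh' (by omega)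

lemma cv_ne_ct (b i h i' h' : ℕ) : cv b i h ≠ ct b i' h' := by
  unfold cv ct; omega

lemma cv_ne_zero (b i h : ℕ) : cv b i h ≠ 0 := by
  unfold cv; omega

lemma ct_ne_zero (b i h : ℕ) : ct b i h ≠ 0 := by
  unfold ct; omega

lemma aux_inj {nm b τ h e τ' h' e' : ℕ} (hh : h < b) (hh' : h' < b) (he : e < 4) (he' : e' < 4)
    (heq : aux nm b τ h e = aux nm b τ' h' e') : τ = τ' ∧ h = h' ∧ e = e' := by
  unfold aux at heq
  have h1 : τ * b + h = τ' * b + h' := by omega
  obtain ⟨h2, h3⟩ := idx_inj hh hh' h1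
  exact ⟨h2, h3, by omega⟩

/-- The source states of the rules of a gadget. -/
lemma gad_src {nm b τ h : ℕ} {r : ℕ × Ins × ℕ} {ρ : CRule} (hρ : ρ ∈ gad nm b τ r h) :
    ρ.1 = r.1 ∨ ∃ e < 4, ρ.1 = aux nm b τ h e := by
  obtain ⟨p, ins, q⟩ := r
  cases ins with
  | push i β =>
    simp only [gad, List.mem_cons, List.not_mem_nil, or_false] at hρ
    rcases hρ with rfl | rfl | rfl | rfl | rfl | rfl | rfl
    · exact Or.inl rfl
    · exact Or.inl rfl
    · exact Or.inr ⟨0, by norm_num, rfl⟩
    · exact Or.inr ⟨0, by norm_num, rfl⟩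
    · exact Or.inr ⟨1, by norm_num, rfl⟩
    · exact Or.inr ⟨1, by norm_num, rfl⟩
    · exact Or.inr ⟨2, by norm_num, rfl⟩
  | pop i β =>
    simp only [gad, List.mem_cons, List.not_mem_nil, or_false] at hρ
    rcases hρ with rfl | rfl | rfl | rfl | rfl | rfl | rfl | rfl
    · exact Or.inl rfl
    · exact Or.inr ⟨0, by norm_num, rfl⟩
    · exact Or.inr ⟨0, by norm_num, rfl⟩
    · exact Or.inr ⟨1, by norm_num, rfl⟩
    · exact Or.inr ⟨1, by norm_num, rfl⟩
    · exact Or.inr ⟨2, by norm_num, rfl⟩
    · exact Or.inr ⟨2, by norm_num, rfl⟩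
    · exact Or.inr ⟨3, by norm_num, rfl⟩
  | empty i =>
    simp only [gad, List.mem_cons, List.not_mem_nil, or_false] at hρ
    rcases hρ with rfl | rfl | rfl
    · exact Or.inl rfl
    · exact Or.inr ⟨0, by norm_num, rfl⟩
    · exact Or.inr ⟨1, by norm_num, rfl⟩

/-- A rule of `toC` starting in an auxiliary state belongs to the gadget of this state. -/
lemma rule_of_aux {nm K b : ℕ} {M : Mach} (hM : GoodM nm K M) (hnm : 2 ≤ nm) {τ h e : ℕ}
    {r : ℕ × Ins × ℕ} (hτ : M[τ]? = some r) (hh : h < b) (he : e < 4) {ρ : CRule}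
    (hρ : ρ ∈ toC nm b M) (hs : ρ.1 = aux nm b τ h e) : ρ ∈ gad nm b τ r h := by
  unfold toC at hρ
  rw [List.mem_cons] at hρ
  rcases hρ with rfl | hρ
  · exfalso
    unfold aux at hs
    simp only at hs
    omega
  · rw [List.mem_flatMap] at hρ
    obtain ⟨⟨r', τ'⟩, hmem, hρ⟩ := hρ
    rw [List.mem_flatMap] at hρ
    obtain ⟨h', hh', hρ⟩ := hρ
    rw [List.mem_range] at hh'
    simp only at hρ
    have hget : M[τ']? = some r' := by
      have := List.mem_zipIdx_iff_getElem?.1 hmem
      simpa using this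
    have hr'M : r' ∈ M := List.mem_of_getElem? hget
    rcases gad_src hρ with h1 | ⟨e', he', h1⟩
    · exfalso
      have h2 := (hM r' hr'M).1
      rw [h1] at hs
      unfold aux at hs
      omega
    · rw [h1] at hs
      obtain ⟨h2, h3, -⟩ := aux_inj hh' hh he' he hs
      subst h2
      subst h3
      have : r' = r := by
        rw [hget] at hτ
        exact Option.some.inj hτ
      subst this
      exact hρ

lemma eff_ne {pre post : List ℕ} {v v' : ℕ → ℕ} (h : CEff (Sum.inl (pre, post)) v v') {j : ℕ}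
    (h1 : j ∉ pre) (h2 : j ∉ post) : v' j = v j := by
  obtain ⟨-, h3⟩ := h
  rw [h3]
  simp only [List.count_eq_zero.2 h1, List.count_eq_zero.2 h2]
  omega

lemma eff_eq {pre post : List ℕ} {v v' : ℕ → ℕ} (h : CEff (Sum.inl (pre, post)) v v') (j : ℕ) :
    pre.count j ≤ v j ∧ v' j = v j - pre.count j + post.count j := by
  obtain ⟨h1, h3⟩ := h
  refine ⟨h1 j, ?_⟩
  rw [h3]

lemma repI_congr {b i : ℕ} {v v' : ℕ → ℕ} {B : ℕ → List Bool} {tp : ℕ}
    (h1 : ∀ h < b, v' (cv b i h) = v (cv b i h)) (h2 : ∀ h < b, v' (ct b i h) = v (ct b i h))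
    (h : RepI b i v B tp) : RepI b i v' B tp := by
  obtain ⟨h3, h4, h5⟩ := h
  refine ⟨h3, fun h hb => ?_, fun h hb => ?_⟩
  · rw [h1 h hb, h4 h hb]
  · rw [h2 h hb, h5 h hb]

lemma stk_zero (B : ℕ → List Bool) : stk B 0 = B 0 := by
  simp [stk]

lemma stk_succ (B : ℕ → List Bool) (t : ℕ) : stk B (t + 1) = B (t + 1) ++ stk B t := by
  unfold stk
  rw [List.range_succ]
  simp

lemma stk_congr {B B' : ℕ → List Bool} {t : ℕ} (h : ∀ k ≤ t, B k = B' k) : stk B t = stk B' t := by
  unfold stk
  congr 1
  apply List.map_congr_left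
  intro k hk
  rw [List.mem_reverse, List.mem_range] at hk
  exact h k (by omega)

lemma stk_update {B : ℕ → List Bool} {t : ℕ} {β : Bool} {l : List Bool} (h : B t = β :: l) :
    stk B t = β :: stk (Function.update B t l) t := by
  cases t with
  | zero =>
    rw [stk_zero, stk_zero, h]
    simp
  | succ t =>
    rw [stk_succ, stk_succ, h, Function.update_self]
    have : stk (Function.update B (t + 1) l) t = stk B t := by
      apply stk_congr
      intro k hk
      rw [Function.update_of_ne (by omega)]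
    rw [this]
    rfl

lemma val_eq_zero {l : List Bool} (h : val l = 0) : l = [] := by
  cases l with
  | nil => rfl
  | cons β l => simp only [val] at h; omega

end MCSC

open MCSC Relation in
theorem MCSC_holds (hV : S_VAL) : S_MCSC := by
  intro nm K b M x c c' τ r h e i β hM hnm hb hins hA hstep
  obtain ⟨p, ins, q⟩ := r
  simp only at hins
  subst hins
  obtain ⟨hτ, hh, he4, hc1, s, hreach, hoth, B, hJ, hsi, hph⟩ := hA
  simp only [insI, insH] at hoth hJ hsi hph
  obtain ⟨ρ, hρ, hρ1, hρ2, hρe⟩ := hstep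
  have hmem := rule_of_aux hM hnm hτ hh he4 hρ (hρ1.trans hc1)
  have hgood := hM _ (List.mem_of_getElem? hτ)
  simp only at hgood
  obtain ⟨hp, hq, hiK⟩ := hgood
  have hauxne : p ≠ aux nm b τ h e := by unfold aux; omega
  -- auxiliary targets
  have toA : ∀ e', e' < 4 → c'.1 = aux nm b τ h e' →
      (∀ i' < K, i' ≠ i → ∀ h' < b, c'.2 (cv b i' h') = c.2 (cv b i' h') ∧
        c'.2 (ct b i' h') = c.2 (ct b i' h')) →
      (∀ h' < b, h' ≠ h → c'.2 (cv b i h') = c.2 (cv b i h')) →
      (∀ h' < b, c'.2 (ct b i h') = c.2 (ct b i h')) →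
      phase (Ins.pop i β) e' (c'.2 (cv b i h)) (c'.2 0) (val (B h)) → Inv nm K b M x c' := by
    intro e' he' h1 h2 h3 h4 h5
    right
    refine ⟨τ, (p, Ins.pop i β, q), h, e', hτ, hh, he', h1, s, hreach, ?_, B, ?_, hsi, h5⟩
    · intro i' hi' hne
      simp only [insI] at hne
      obtain ⟨B', tp, hR, hs'⟩ := hoth i' hi' hne
      exact ⟨B', tp, repI_congr (fun h' hh' => (h2 i' hi' hne h' hh').1)
        (fun h' hh' => (h2 i' hi' hne h' hh').2) hR, hs'⟩
    · simp only [insI, insH]
      obtain ⟨h6, h7, h8⟩ := hJ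
      refine ⟨h6, fun h' hh' hne => ?_, fun h' hh' => ?_⟩
      · rw [h3 h' hh' hne, h7 h' hh' hne]
      · rw [h4 h' hh', h8 h' hh']
  -- main target
  have toM : ∀ l B' tp, s i = β :: l → l = stk B' tp → RepI b i c'.2 B' tp → c'.1 = q →
      (∀ i' < K, i' ≠ i → ∀ h' < b, c'.2 (cv b i' h') = c.2 (cv b i' h') ∧
        c'.2 (ct b i' h') = c.2 (ct b i' h')) → c'.2 0 = 0 → Inv nm K b M x c' := by
    intro l B' tp h1 h2 h3 h4 h5 h6
    left
    refine ⟨by rw [h4]; exact hq, h6, Function.update s i l, ?_, ?_⟩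
    · refine ReflTransGen.tail hreach ?_
      refine ⟨(p, Ins.pop i β, q), List.mem_of_getElem? hτ, rfl, h4.symm, ?_⟩
      exact ⟨l, h1, rfl⟩
    · intro i' hi'
      by_cases hne : i' = i
      · subst hne
        refine ⟨B', tp, h3, ?_⟩
        rw [Function.update_self, h2]
      · obtain ⟨B'', tp', hR, hs'⟩ := hoth i' hi' hne
        refine ⟨B'', tp', repI_congr (fun h' hh' => (h5 i' hi' hne h' hh').1)
          (fun h' hh' => (h5 i' hi' hne h' hh').2) hR, ?_⟩
        rw [Function.update_of_ne hne, hs']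
  obtain ⟨hJ1, hJ2, hJ3⟩ := hJ
  simp only [gad, List.mem_cons, List.not_mem_nil, or_false] at hmem
  rcases hmem with rfl | rfl | rfl | rfl | rfl | rfl | rfl | rfl
  · exact absurd (hρ1.trans hc1) hauxne
  · -- loop of phase 0
    simp only at hρ1 hρ2 hρe
    obtain ⟨-, -, rfl⟩ := aux_inj hh hh (by norm_num) he4 (hρ1.trans hc1)
    refine toA 0 (by norm_num) hρ2.symm ?_ ?_ ?_ ?_
    · intro i' hi' hne h' hh'
      constructor
      · apply eff_ne hρe
        · intro hmem
          simp only [List.mem_cons, List.not_mem_nil, or_false, or_self] at hmem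
          exact hne (cv_inj hh' hh hmem).1
        · simp [cv_ne_zero]
      · apply eff_ne hρe
        · simp [(cv_ne_ct b i h i' h').symm]
        · simp [ct_ne_zero]
    · intro h' hh' hne
      apply eff_ne hρe
      · intro hmem
        simp only [List.mem_cons, List.not_mem_nil, or_false, or_self] at hmem
        exact hne (cv_inj hh' hh hmem).2
      · simp [cv_ne_zero]
    · intro h' hh'
      apply eff_ne hρe
      · simp [(cv_ne_ct b i h i h').symm]
      · simp [ct_ne_zero]
    · have h1 := eff_eq hρe (cv b i h)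
      have h2 := eff_eq hρe 0
      have h3 := cv_ne_zero b i h
      simp only [List.count_cons, List.count_nil, beq_iff_eq, h3, h3.symm, if_true, if_false] at h1 h2
      simp only [phase] at hph ⊢
      omega
  · -- zero test of phase 0
    simp only at hρ1 hρ2 hρe
    obtain ⟨-, -, rfl⟩ := aux_inj hh hh (by norm_num) he4 (hρ1.trans hc1)
    obtain ⟨hz, hv⟩ := hρe
    refine toA 1 (by norm_num) hρ2.symm ?_ ?_ ?_ ?_
    · intro i' hi' hne h' hh'
      rw [hv]; exact ⟨rfl, rfl⟩
    · intro h' hh' hne
      rw [hv]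
    · intro h' hh'
      rw [hv]
    · rw [hv]
      simp only [phase] at hph ⊢
      omega
  · -- loop of phase 1
    simp only at hρ1 hρ2 hρe
    obtain ⟨-, -, rfl⟩ := aux_inj hh hh (by norm_num) he4 (hρ1.trans hc1)
    refine toA 1 (by norm_num) hρ2.symm ?_ ?_ ?_ ?_
    · intro i' hi' hne h' hh'
      constructor
      · apply eff_ne hρe
        · simp [cv_ne_zero]
        · intro hmem
          simp only [List.mem_cons, List.not_mem_nil, or_false, or_self] at hmem
          exact hne (cv_inj hh' hh hmem).1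
      · apply eff_ne hρe
        · simp [ct_ne_zero]
        · simp [(cv_ne_ct b i h i' h').symm]
    · intro h' hh' hne
      apply eff_ne hρe
      · simp [cv_ne_zero]
      · intro hmem
        simp only [List.mem_cons, List.not_mem_nil, or_false, or_self] at hmem
        exact hne (cv_inj hh' hh hmem).2
    · intro h' hh'
      apply eff_ne hρe
      · simp [ct_ne_zero]
      · simp [(cv_ne_ct b i h i h').symm]
    · have h1 := eff_eq hρe (cv b i h)
      have h2 := eff_eq hρe 0
      have h3 := cv_ne_zero b i h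
      simp only [List.count_cons, List.count_nil, beq_iff_eq, h3, h3.symm, if_true, if_false] at h1 h2
      simp only [phase] at hph ⊢
      omega
  · -- zero test of phase 1
    simp only at hρ1 hρ2 hρe
    obtain ⟨-, -, rfl⟩ := aux_inj hh hh (by norm_num) he4 (hρ1.trans hc1)
    obtain ⟨hz, hv⟩ := hρe
    refine toA 2 (by norm_num) hρ2.symm ?_ ?_ ?_ ?_
    · intro i' hi' hne h' hh'
      rw [hv]; exact ⟨rfl, rfl⟩
    · intro h' hh' hne
      rw [hv]
    · intro h' hh'
      rw [hv]
    · rw [hv]
      simp only [phase] at hph ⊢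
      omega
  · -- exit of phase 2
    simp only at hρ1 hρ2 hρe
    obtain ⟨-, -, rfl⟩ := aux_inj hh hh (by norm_num) he4 (hρ1.trans hc1)
    simp only [phase] at hph
    obtain ⟨hy, hval⟩ := hph
    obtain ⟨l', hBh, hl'⟩ := hV.2.2.1 (B h) β (c.2 (cv b i h)) hval.symm
    have hcv : ∀ i' h', c'.2 (cv b i' h') = c.2 (cv b i' h') := by
      intro i' h'
      apply eff_ne hρe
      · simp
      · simp [cv_ne_ct]
    have hct : ∀ i' h', h' < b → (i' ≠ i ∨ h' ≠ h) → c'.2 (ct b i' h') = c.2 (ct b i' h') := by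
      intro i' h' hh' hne
      apply eff_ne hρe
      · simp
      · intro hmem
        simp only [List.mem_cons, List.not_mem_nil, or_false, or_self] at hmem
        have := ct_inj hh' hh hmem
        rcases hne with hne | hne
        · exact hne this.1
        · exact hne this.2
    refine toM (stk (Function.update B h l') h) (Function.update B h l') h ?_ rfl ?_ hρ2.symm
      ?_ ?_
    · rw [hsi]
      exact stk_update hBh
    · refine ⟨hh, fun h' hh' => ?_, fun h' hh' => ?_⟩
      · rw [hcv]
        by_cases hne : h' = h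
        · subst hne
          rw [Function.update_self, if_pos le_rfl, hl']
        · rw [Function.update_of_ne hne, hJ2 h' hh' hne]
          by_cases hlt : h' < h
          · rw [if_pos hlt, if_pos hlt.le]
          · rw [if_neg hlt, if_neg (by omega)]
      · by_cases hne : h' = h
        · subst hne
          rw [if_pos rfl]
          have h1 := eff_eq hρe (ct b i h')
          have h2 := hJ3 h' hh'
          simp only [List.count_cons, List.count_nil, beq_iff_eq, if_true] at h1
          omega
        · rw [if_neg hne, hct i h' hh' (Or.inr hne), hJ3 h' hh']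
    · intro i' hi' hne h' hh'
      exact ⟨hcv _ _, hct i' h' hh' (Or.inl hne)⟩
    · rw [eff_ne hρe (by simp) (by simp [(ct_ne_zero b i h).symm]), hy]
  · -- zero test of phase 2
    simp only at hρ1 hρ2 hρe
    obtain ⟨-, -, rfl⟩ := aux_inj hh hh (by norm_num) he4 (hρ1.trans hc1)
    obtain ⟨hz, hv⟩ := hρe
    refine toA 3 (by norm_num) hρ2.symm ?_ ?_ ?_ ?_
    · intro i' hi' hne h' hh'
      rw [hv]; exact ⟨rfl, rfl⟩
    · intro h' hh' hne
      rw [hv]
    · intro h' hh'
      rw [hv]
    · rw [hv]
      simp only [phase] at hph ⊢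
      omega
  · -- exit of phase 3
    simp only at hρ1 hρ2 hρe
    obtain ⟨-, -, rfl⟩ := aux_inj hh hh (by norm_num) he4 (hρ1.trans hc1)
    simp only [phase] at hph
    obtain ⟨hy, hv0, hval⟩ := hph
    obtain ⟨l', hBh, hl'⟩ := hV.2.2.1 (B h) β 0 (by omega)
    have hl0 : l' = [] := val_eq_zero hl'
    subst hl0
    have hh1 : h - 1 < b := by omega
    have hcv : ∀ i' h', c'.2 (cv b i' h') = c.2 (cv b i' h') := by
      intro i' h'
      apply eff_ne hρe
      · simp
      · simp [cv_ne_ct]
    have hct : ∀ i' h', h' < b → (i' ≠ i ∨ h' ≠ h - 1) → c'.2 (ct b i' h') = c.2 (ct b i' h') := by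
      intro i' h' hh' hne
      apply eff_ne hρe
      · simp
      · intro hmem
        simp only [List.mem_cons, List.not_mem_nil, or_false, or_self] at hmem
        have := ct_inj hh' hh1 hmem
        rcases hne with hne | hne
        · exact hne this.1
        · exact hne this.2
    have hct1 : c'.2 (ct b i (h - 1)) = 1 := by
      have h1 := eff_eq hρe (ct b i (h - 1))
      have h2 := hJ3 (h - 1) hh1
      simp only [List.count_cons, List.count_nil, beq_iff_eq, if_true] at h1
      omega
    have hctall : ∀ h' < b, c'.2 (ct b i h') = if h' = h - 1 then 1 else 0 := by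
      intro h' hh'
      by_cases hne : h' = h - 1
      · subst hne
        rw [if_pos rfl, hct1]
      · rw [if_neg hne, hct i h' hh' (Or.inr hne), hJ3 h' hh']
    have hoth' : ∀ i' < K, i' ≠ i → ∀ h' < b, c'.2 (cv b i' h') = c.2 (cv b i' h') ∧
        c'.2 (ct b i' h') = c.2 (ct b i' h') := by
      intro i' hi' hne h' hh'
      exact ⟨hcv _ _, hct i' h' hh' (Or.inl hne)⟩
    have hz0 : c'.2 0 = 0 := by
      rw [eff_ne hρe (by simp) (by simp [(ct_ne_zero b i (h - 1)).symm]), hy]
    cases h with
    | zero =>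
      refine toM (stk (Function.update B 0 []) 0) (Function.update B 0 []) 0 ?_ rfl ?_ hρ2.symm
        hoth' hz0
      · rw [hsi]
        exact stk_update hBh
      · refine ⟨hh, fun h' hh' => ?_, fun h' hh' => ?_⟩
        · rw [hcv]
          by_cases hne : h' = 0
          · subst hne
            rw [Function.update_self, if_pos le_rfl, hv0]
            rfl
          · rw [Function.update_of_ne hne, hJ2 h' hh' hne]
            rw [if_neg (by omega), if_neg (by omega)]
        · rw [hctall h' hh']
    | succ k =>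
      simp only [Nat.add_sub_cancel] at hctall
      refine toM (stk B k) B k ?_ rfl ?_ hρ2.symm hoth' hz0
      · rw [hsi, stk_succ, hBh]
        rfl
      · refine ⟨by omega, fun h' hh' => ?_, hctall⟩
        rw [hcv]
        by_cases hne : h' = k + 1
        · subst hne
          rw [if_neg (by omega), hv0]
        · rw [hJ2 h' hh' hne]
          by_cases hlt : h' ≤ k
          · rw [if_pos (by omega), if_pos hlt]
          · rw [if_neg (by omega), if_neg hlt]

end Pool.Agent.H453R2.JS
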