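import Pool.Agent.H453R2.JS.Spec

/-! Steps of the counter machine from auxiliary states of an empty instruction. -/

namespace Pool.Agent.H453R2.JS

namespace MCSD

open Relation

theorem aux_inj {nm b τ h e τ' h' e' : ℕ} (hh : h < b) (hh' : h' < b) (he : e < 4) (he' : e' < 4)
    (H : aux nm b τ h e = aux nm b τ' h' e') : τ = τ' ∧ h = h' ∧ e = e' := by
  unfold aux at H
  have h1 : τ * b + h = τ' * b + h' := by omega
  have h2 : e = e' := by omega
  have hb : 0 < b := by omega
  have e1 : (τ * b + h) / b = τ := by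
    rw [mul_comm, Nat.mul_add_div hb, Nat.div_eq_of_lt hh, add_zero]
  have e2 : (τ' * b + h') / b = τ' := by
    rw [mul_comm, Nat.mul_add_div hb, Nat.div_eq_of_lt hh', add_zero]
  have h3 : τ = τ' := by rw [← e1, ← e2, h1]
  subst h3
  exact ⟨rfl, by omega, h2⟩

theorem aux_ge {nm b τ h e : ℕ} : nm ≤ aux nm b τ h e := by
  unfold aux
  omega

/-- The rules of a gadget start from its main state or from one of its auxiliary states. -/
theorem src_gad {nm b τ h : ℕ} {r : ℕ × Ins × ℕ} {ρ : CRule} (hρ : ρ ∈ gad nm b τ r h) :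
    ρ.1 = r.1 ∨ ∃ e < 4, ρ.1 = aux nm b τ h e := by
  obtain ⟨q, I, q'⟩ := r
  cases I with
  | push i β =>
    simp only [gad, List.mem_cons, List.not_mem_nil, or_false] at hρ
    rcases hρ with rfl | rfl | rfl | rfl | rfl | rfl | rfl
    · exact Or.inl rfl
    · exact Or.inl rfl
    · exact Or.inr ⟨0, by norm_num, rfl⟩
    · exact Or.inr ⟨0, by norm_num, rfl⟩
    · exact Or.inr ⟨1, by norm_num, rfl⟩
    · exact Or.inr ⟨1, by norm_num, rfl⟩
    · exact Or.inr ⟨2, by norm_num, rfl⟩
  | pop i β =>
    simp only [gad, List.mem_cons, List.not_mem_nil, or_false] at hρ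
    rcases hρ with rfl | rfl | rfl | rfl | rfl | rfl | rfl | rfl
    · exact Or.inl rfl
    · exact Or.inr ⟨0, by norm_num, rfl⟩
    · exact Or.inr ⟨0, by norm_num, rfl⟩
    · exact Or.inr ⟨1, by norm_num, rfl⟩
    · exact Or.inr ⟨1, by norm_num, rfl⟩
    · exact Or.inr ⟨2, by norm_num, rfl⟩
    · exact Or.inr ⟨2, by norm_num, rfl⟩
    · exact Or.inr ⟨3, by norm_num, rfl⟩
  | empty i =>
    simp only [gad, List.mem_cons, List.not_mem_nil, or_false] at hρ
    rcases hρ with rfl | rfl | rfl
    · exact Or.inl rfl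
    · exact Or.inr ⟨0, by norm_num, rfl⟩
    · exact Or.inr ⟨1, by norm_num, rfl⟩

/-- A rule used in the auxiliary state `aux nm b τ h e` belongs to the gadget of `τ` and `h`. -/
theorem rule_of_aux {nm K b : ℕ} {M : Mach} {τ h e : ℕ} {r : ℕ × Ins × ℕ} {ρ : CRule}
    (hM : GoodM nm K M) (hnm : 2 ≤ nm) (hr : M[τ]? = some r) (hh : h < b) (he : e < 4)
    (hρ : ρ ∈ toC nm b M) (hs : ρ.1 = aux nm b τ h e) : ρ ∈ gad nm b τ r h := by
  have hge : nm ≤ aux nm b τ h e := aux_ge
  unfold toC at hρ
  rcases List.mem_cons.1 hρ with h1 | h1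
  · exfalso
    rw [h1] at hs
    have : (1 : ℕ) = aux nm b τ h e := hs
    omega
  · obtain ⟨⟨r', τ'⟩, hz, h2⟩ := List.mem_flatMap.1 h1
    obtain ⟨h', hb', h3⟩ := List.mem_flatMap.1 h2
    have hb'' : h' < b := List.mem_range.1 hb'
    have hz' : M[τ']? = some r' := List.mk_mem_zipIdx_iff_getElem?.1 hz
    have hmem : r' ∈ M := List.mem_of_getElem? hz'
    have hlt := (hM r' hmem).1
    rcases src_gad h3 with h4 | ⟨e', he', h4⟩
    · exfalso
      have h5 : ρ.1 = r'.1 := h4
      omega
    · rw [hs] at h4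
      obtain ⟨rfl, rfl, rfl⟩ := aux_inj hh hb'' he he' h4
      rw [hr] at hz'
      have h6 : r = r' := Option.some.inj hz'
      rw [h6]
      exact h3

theorem ct_ne_cv {b i h i' h' : ℕ} : ct b i h ≠ cv b i' h' := by
  unfold ct cv
  omega

theorem ct_inj {b i h i' h' : ℕ} (hh : h < b) (hh' : h' < b) (H : ct b i h = ct b i' h') :
    i = i' ∧ h = h' := by
  unfold ct at H
  have h1 : i * b + h = i' * b + h' := by omega
  have hb : 0 < b := by omega
  have e1 : (i * b + h) / b = i := by
    rw [mul_comm, Nat.mul_add_div hb, Nat.div_eq_of_lt hh, add_zero]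
  have e2 : (i' * b + h') / b = i' := by
    rw [mul_comm, Nat.mul_add_div hb, Nat.div_eq_of_lt hh', add_zero]
  have h3 : i = i' := by rw [← e1, ← e2, h1]
  subst h3
  exact ⟨rfl, by omega⟩

theorem stk_zero (B : ℕ → List Bool) : stk B 0 = B 0 := by
  simp [stk]

end MCSD

open MCSD Relation

theorem MCSD_holds (hV : S_VAL) : S_MCSD := by
  intro nm K b M x c c' τ r h e i hM hnm hb hri hA hstep
  obtain ⟨hr, hh, he, hc1, s, hs, hoth, B, hJ, hsB, hph⟩ := hA
  obtain ⟨ρ, hρ, h1, h2, hE⟩ := hstep
  have hg := rule_of_aux hM hnm hr hh he hρ (h1.trans hc1)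
  have hmem : r ∈ M := List.mem_of_getElem? hr
  have hgood := hM r hmem
  obtain ⟨q, I, q'⟩ := r
  simp only at hri
  subst hri
  have hge : ∀ e', nm ≤ aux nm b τ h e' := fun e' => aux_ge
  simp only [gad, List.mem_cons, List.not_mem_nil, or_false] at hg
  simp only [insI, insH] at hoth hJ hsB hph
  rcases hg with rfl | rfl | rfl
  · exfalso
    have h3 : q = aux nm b τ h e := h1.trans hc1
    have h4 : q < nm := hgood.1
    have := hge e
    omega
  · -- the zero test
    have h3 : aux nm b τ h 0 = aux nm b τ h e := h1.trans hc1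
    obtain ⟨-, -, h4⟩ := aux_inj hh hh (by norm_num) he h3
    subst h4
    obtain ⟨hz, hv⟩ := hE
    obtain ⟨hp1, hp2⟩ := hph
    right
    refine ⟨τ, (q, Ins.empty i, q'), h, 1, hr, hh, by norm_num, h2.symm, s, hs, ?_, B, ?_, ?_, ?_⟩
    · simp only [insI]
      rw [hv]
      exact hoth
    · simp only [insI, insH]
      rw [hv]
      exact hJ
    · simp only [insI, insH]
      exact hsB
    · simp only [insI, insH]
      rw [hv]
      refine ⟨hp1, hp2, ?_⟩
      rw [← hp1]
      exact hz
  · -- the exit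
    have h3 : aux nm b τ h 1 = aux nm b τ h e := h1.trans hc1
    obtain ⟨-, -, h4⟩ := aux_inj hh hh (by norm_num) he h3
    subst h4
    obtain ⟨-, hv⟩ := hE
    obtain ⟨hp1, hp2, hp3⟩ := hph
    have hB0 : B 0 = [] := hV.1 (by rw [hp3]; rfl)
    have hsi : s i = [] := by rw [hsB, stk_zero, hB0]
    have hv' : ∀ j, c'.2 j = c.2 j + [ct b i 0].count j := by
      intro j
      rw [hv]
      simp
    have hcv : ∀ i' h', c'.2 (cv b i' h') = c.2 (cv b i' h') := by
      intro i' h'
      rw [hv', List.count_eq_zero_of_not_mem, add_zero]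
      intro hmm
      exact ct_ne_cv (List.mem_singleton.1 hmm).symm
    left
    refine ⟨?_, ?_, s, ?_, ?_⟩
    · rw [← h2]
      exact hgood.2.1
    · rw [hv', hp2, List.count_eq_zero_of_not_mem]
      intro hmm
      have := List.mem_singleton.1 hmm
      unfold ct at this
      omega
    · refine hs.tail ⟨(q, Ins.empty i, q'), hmem, rfl, ?_, ?_⟩
      · exact h2
      · exact ⟨hsi, rfl⟩
    · intro i' hi'
      by_cases hii : i' = i
      · subst hii
        refine ⟨B, 0, ⟨by omega, ?_, ?_⟩, hsB⟩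
        · intro h' hh'
          rw [hcv]
          by_cases h0 : h' = 0
          · subst h0
            simpa using hp1
          · have := hJ.2.1 h' hh' h0
            rw [this]
            simp [h0]
        · intro h' hh'
          rw [hv', hJ.2.2 h' hh']
          by_cases h0 : h' = 0
          · subst h0
            simp
          · rw [List.count_eq_zero_of_not_mem]
            · simp [h0]
            · intro hmm
              exact h0 (ct_inj hh' (by omega) (List.mem_singleton.1 hmm)).2
      · obtain ⟨B', tp, ⟨ht, hr1, hr2⟩, hst⟩ := hoth i' hi' hii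
        refine ⟨B', tp, ⟨ht, ?_, ?_⟩, hst⟩
        · intro h' hh'
          rw [hcv]
          exact hr1 h' hh'
        · intro h' hh'
          rw [hv', List.count_eq_zero_of_not_mem, add_zero]
          · exact hr2 h' hh'
          · intro hmm
            exact hii (ct_inj hh' (by omega) (List.mem_singleton.1 hmm)).1

end Pool.Agent.H453R2.JS
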