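import Pool.Agent.H453R2.JS.Spec2

namespace Pool.Agent.H453R2.JS

theorem MONO.run {M : Mach} {S S' t : ℕ} (hS : S ≤ S') {c c' : MCfg} (h : MRun M S t c c') :
    MRun M S' t c c' := by
  induction h with
  | refl c h => exact MRun.refl c fun i => (h i).trans hS
  | step h hs _ ih => exact MRun.step (fun i => (h i).trans hS) hs ih

theorem MONO_holds : S_MONO := by
  rintro M x t t' S S' ht hS ⟨t1, ht1, c, hc, h1⟩
  exact ⟨t1, ht1.trans ht, c, MONO.run hS hc, h1⟩

end Pool.Agent.H453R2.JS
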