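import Pool.Agent.H453R2.JS.Spec

namespace Pool.Agent.H453R2.JS

theorem NN.nact_eq (a : Act) (l : List Tr) : nact a l = (l.map (fun t => t.2.1)).count a := by
  unfold nact
  rw [List.count, List.countP_map]
  congr 1
  funext t
  by_cases h : t.2.1 = a <;> simp [h]

theorem NN_holds : S_NN := by
  classical
  intro nq nc T L Y hY
  obtain ⟨w, kk, hw, hwalk, hcode, hsort, hall⟩ := hY
  refine ⟨w.map T.get, ?_, hwalk, ?_⟩
  · have h1 := hw.map T.get
    have h2 : (List.finRange T.length).map T.get = T := by
      apply List.ext_getElem
      · simp
      · intro i h1 h2
        simp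
    rwa [h2] at h1
  · intro l hl j
    -- the beginning of `kk`
    obtain ⟨m, hm⟩ := hl
    set p := l.length with hp
    have hW : (w.map (fun i => (T.get i).2.1)) = (w.map T.get).map (fun t => t.2.1) := by
      rw [List.map_map]; rfl
    have hk1 : (kk.take (p + 1)).map Y.code = none :: l.map (fun t => t.2.1) := by
      rw [List.map_take, hcode, hW, ← hm, List.map_append, List.take_succ_cons]
      congr 1
      rw [List.take_left' (by simp [hp])]
    set A := kk.take (p + 1) with hA
    have hsplit : A ++ kk.drop (p + 1) = kk := List.take_append_drop _ _
    have hnact : ∀ b, nact (some (j, b)) l = (A.filter (fun k => Y.code k = some (j, b))).length := by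
      intro b
      rw [NN.nact_eq, ← List.countP_eq_length_filter]
      have h1 : (A.map Y.code).count (some (j, b)) = (l.map (fun t => t.2.1)).count (some (j, b)) := by
        rw [hk1, List.count_cons]
        simp
      rw [← h1, List.count, List.countP_map]
      congr 1
      funext k
      by_cases h : Y.code k = some (j, b) <;> simp [h]
    rw [hnact, hnact]
    have hnd : kk.Nodup := hsort.imp (fun {a b} h e => by rw [e] at h; exact lt_irrefl _ h)
    have hAnd : A.Nodup := hnd.sublist (List.take_sublist _ _)
    have hD : ((A.filter (fun k => Y.code k = some (j, false))).map Y.partner).Nodup := by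
      refine List.Nodup.map_on ?_ (hAnd.filter _)
      intro x hx y hy hxy
      have hx' := of_decide_eq_true (List.mem_filter.mp hx).2
      have hy' := of_decide_eq_true (List.mem_filter.mp hy).2
      exact Y.partner_inj x y j j hx' hy' hxy
    have hsub : ((A.filter (fun k => Y.code k = some (j, false))).map Y.partner) ⊆
        A.filter (fun k => Y.code k = some (j, true)) := by
      intro x hx
      obtain ⟨k, hk, rfl⟩ := List.mem_map.mp hx
      obtain ⟨hkA, hkc⟩ := List.mem_filter.mp hk
      have hkc' := of_decide_eq_true hkc
      refine List.mem_filter.mpr ⟨?_, decide_eq_true (Y.partner_code k j hkc')⟩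
      have h1 := hall (Y.partner k)
      rw [← hsplit, List.mem_append] at h1
      rcases h1 with h1 | h1
      · exact h1
      · exfalso
        rw [← hsplit, List.pairwise_append] at hsort
        have h2 := hsort.2.2 k hkA _ h1
        have h3 := Y.partner_lt k j hkc'
        omega
    have := (List.subperm_of_subset hD hsub).length_le
    rwa [List.length_map] at this

end Pool.Agent.H453R2.JS
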