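import Pool.Agent.H453R2.JS.Spec3

namespace Pool.Agent.H453R2.JS.OPTA

open Pool.Agent.H453R2.JS

/-- the total length of the first `i` operations of a job -/
def Q (B : Job) (i : ℕ) : ℕ := ((B.take i).map Prod.snd).sum

/-- the total length of the first `j` jobs -/
def P (J : List Job) (j : ℕ) : ℕ := ((J.take j).map (fun B => (B.map Prod.snd).sum)).sum

theorem Q_succ {B : Job} {i : ℕ} {o : ℕ × ℕ} (h : B[i]? = some o) : Q B (i + 1) = Q B i + o.2 := by
  unfold Q
  rw [List.take_add_one, h]
  simp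

theorem Q_mono {B : Job} {i i' : ℕ} (h : i ≤ i') : Q B i ≤ Q B i' := by
  unfold Q
  have h1 : B.take i = (B.take i').take i := by
    rw [List.take_take, min_eq_left h]
  rw [h1]
  conv_rhs => rw [← List.take_append_drop i (B.take i')]
  rw [List.map_append, List.sum_append]
  omega

theorem Q_le {B : Job} {i : ℕ} : Q B i ≤ (B.map Prod.snd).sum := by
  unfold Q
  conv_rhs => rw [← List.take_append_drop i B]
  rw [List.map_append, List.sum_append]
  omega

theorem P_succ {J : List Job} {j : ℕ} {B : Job} (h : J[j]? = some B) :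
    P J (j + 1) = P J j + (B.map Prod.snd).sum := by
  unfold P
  rw [List.take_add_one, h]
  simp

theorem P_mono {J : List Job} {i i' : ℕ} (h : i ≤ i') : P J i ≤ P J i' := by
  unfold P
  have h1 : J.take i = (J.take i').take i := by
    rw [List.take_take, min_eq_left h]
  rw [h1]
  conv_rhs => rw [← List.take_append_drop i (J.take i')]
  rw [List.map_append, List.sum_append]
  omega

theorem opOf_eq {J : List Job} {j i : ℕ} {o : ℕ × ℕ} (h : opOf J j i = some o) :
    ∃ B, J[j]? = some B ∧ B[i]? = some o := by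
  unfold opOf at h
  rwa [Option.bind_eq_some_iff] at h

/-- one operation after the other -/
def sq (J : List Job) (j i : ℕ) : ℕ := P J j + Q (J.getD j []) i

theorem getD_eq {J : List Job} {j : ℕ} {B : Job} (h : J[j]? = some B) : J.getD j [] = B := by
  rw [List.getD_eq_getElem?_getD, h]
  rfl

theorem sq_end {J : List Job} {j i : ℕ} {o : ℕ × ℕ} (h : opOf J j i = some o) :
    sq J j i + o.2 = sq J j (i + 1) ∧ sq J j (i + 1) ≤ P J (j + 1) ∧ j < J.length := by
  obtain ⟨B, h1, h2⟩ := opOf_eq h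
  unfold sq
  rw [getD_eq h1, Q_succ h2, P_succ h1]
  refine ⟨by omega, ?_, ?_⟩
  · rw [← Q_succ h2]
    have := Q_le (B := B) (i := i + 1)
    omega
  · exact (List.getElem?_eq_some_iff.1 h1).1

theorem sq_order {J : List Job} {j i j' i' : ℕ} {o o' : ℕ × ℕ} (h : opOf J j i = some o)
    (_h' : opOf J j' i' = some o') (hlt : j < j' ∨ (j = j' ∧ i < i')) :
    sq J j i + o.2 ≤ sq J j' i' := by
  obtain ⟨e1, e2, _⟩ := sq_end h
  rcases hlt with hlt | ⟨rfl, hlt⟩
  · have h1 : P J (j + 1) ≤ P J j' := P_mono hlt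
    have h2 : P J j' ≤ sq J j' i' := by unfold sq; omega
    omega
  · rw [e1]
    unfold sq
    have := Q_mono (B := J.getD j []) (i := i + 1) (i' := i') hlt
    omega

theorem exists_sched (J : List Job) (hJ : ∀ B ∈ J, JobOk B) : ∃ L, JobShop (J, L) := by
  refine ⟨P J J.length, hJ, fun j i => (sq J j i : ℝ), ⟨?_, ?_, ?_⟩, ?_⟩
  · intro j i o _
    positivity
  · intro j i o o' h h'
    have := (sq_end h).1
    exact_mod_cast this.le
  · intro j i j' i' o o' h h' _ hne
    rcases Nat.lt_trichotomy j j' with hj | hj | hj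
    · left
      exact_mod_cast sq_order h h' (Or.inl hj)
    · rcases Nat.lt_trichotomy i i' with hi | hi | hi
      · left
        exact_mod_cast sq_order h h' (Or.inr ⟨hj, hi⟩)
      · exact absurd (by rw [hj, hi]) hne
      · right
        exact_mod_cast sq_order h' h (Or.inr ⟨hj.symm, hi⟩)
    · right
      exact_mod_cast sq_order h' h (Or.inl hj)
  · intro j i o h
    obtain ⟨e1, e2, e3⟩ := sq_end (J := J) h
    have e4 : P J (j + 1) ≤ P J J.length := P_mono e3
    change (sq J j i : ℝ) + (o.2 : ℝ) ≤ ((P J J.length : ℕ) : ℝ)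
    have : sq J j i + o.2 ≤ P J J.length := by omega
    exact_mod_cast this

theorem mono {J : List Job} {L L' : ℕ} (h : L ≤ L') (hJ : JobShop (J, L)) : JobShop (J, L') := by
  obtain ⟨h1, S, h2, h3⟩ := hJ
  refine ⟨h1, S, h2, fun j i o ho => (h3 j i o ho).trans ?_⟩
  change (L : ℝ) ≤ (L' : ℝ)
  exact_mod_cast h

end Pool.Agent.H453R2.JS.OPTA

namespace Pool.Agent.H453R2.JS

open OPTA in
theorem OPTA_holds : S_OPTA := by
  intro J L
  constructor
  · intro h
    exact ⟨h.1, Nat.sInf_le h⟩
  · rintro ⟨h1, h2⟩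
    obtain ⟨L0, hL0⟩ := exists_sched J h1
    have h3 : optC J ∈ {L : ℕ | JobShop (J, L)} := Nat.sInf_mem ⟨L0, hL0⟩
    exact mono h2 h3

end Pool.Agent.H453R2.JS
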