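import Pool.Agent.H453R2.JS.Spec

namespace Pool.Agent.H453R2.JS

namespace PAR

/-! ### maxima -/

lemma foldr_max_le (l : List ℕ) (B : ℕ) (h : ∀ x ∈ l, x ≤ B) : l.foldr max 0 ≤ B := by
  induction l with
  | nil => simp
  | cons a l ih =>
    simp only [List.foldr_cons]
    exact max_le (h a (by simp)) (ih fun x hx => h x (by simp [hx]))

lemma pmax_le (J : List Job) (B : ℕ) (h : ∀ b ∈ J, ∀ o ∈ b, o.2 ≤ B) : pmax J ≤ B := by
  unfold pmax
  apply foldr_max_le
  intro x hx
  rw [List.mem_map] at hx
  obtain ⟨o, ho, rfl⟩ := hx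
  rw [List.mem_flatten] at ho
  obtain ⟨b, hb, ho⟩ := ho
  exact h b hb o ho

lemma nmax_le (J : List Job) (B : ℕ) (h : ∀ b ∈ J, b.length ≤ B) : nmax J ≤ B := by
  unfold nmax
  apply foldr_max_le
  intro x hx
  rw [List.mem_map] at hx
  obtain ⟨b, hb, rfl⟩ := hx
  exact h b hb

/-! ### the instance -/

/-- states below `nq`, counters below `nc` -/
def Bd (nq nc : ℕ) (T : List Tr) : Prop :=
  ∀ t ∈ T, t.1 < nq ∧ t.2.2 < nq ∧ ∀ j b, t.2.1 = some (j, b) → j < nc

lemma cAl_le {nq nc q : ℕ} (h : q < nq) : cAl nq nc q ≤ cB nq nc + cE nq nc := by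
  unfold cAl cE
  exact Nat.add_le_add_left (Nat.mul_le_mul_left _ h.le) _

lemma cW_le {nq nc : ℕ} (h : 0 < nq) : cW nc ≤ cE nq nc := by
  unfold cE
  exact Nat.le_mul_of_pos_right _ h

lemma cKa_le {nq nc : ℕ} (h : 0 < nq) (a : Act) (ha : ∀ j b, a = some (j, b) → j < nc) :
    cKa nq nc a ≤ cB nq nc + cE nq nc := by
  have hw := cW_le (nc := nc) h
  match a, ha with
  | none, _ => show cB nq nc ≤ _; omega
  | some (j, true), ha =>
    have := ha j true rfl
    unfold cKa
    unfold cW at hw
    simp only
    omega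
  | some (j, false), ha =>
    have := ha j false rfl
    unfold cKa
    unfold cW at hw
    simp only
    omega

lemma nmax_inst (nq nc : ℕ) (T : List Tr) : nmax (inst nq nc T) ≤ 4 := by
  apply nmax_le
  intro b hb
  unfold inst specials at hb
  simp only [List.mem_append, List.mem_map, List.mem_cons, List.not_mem_nil, or_false] at hb
  rcases hb with (rfl | rfl | rfl | rfl | rfl) | ⟨t, _, rfl⟩ | ⟨k, _, rfl⟩
  · simp
  · simp
  · simp
  · simp
  · simp
  · simp [jobT]
  · cases k <;> simp [kjob]

lemma pmax_inst {nq nc : ℕ} (T : List Tr) (h0 : 0 < nq) (hT : Bd nq nc T) :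
    pmax (inst nq nc T) ≤ 10 * cE nq nc + 10 := by
  have hB : cB nq nc = 4 * cE nq nc + 4 := rfl
  have hMu : cMu nq nc = 1 + 3 * cE nq nc := rfl
  have hMax : cMax nq nc = 1 + 2 * cB nq nc + 2 * cE nq nc := rfl
  have hEnd : cEnd nq nc = cMax nq nc + 1 - cMu nq nc := rfl
  have hBs : cBs nq nc = 1 + cB nq nc + cAl nq nc 0 := rfl
  have hA0 := cAl_le (nc := nc) h0
  have hK0 : cKa nq nc none = cB nq nc := rfl
  apply pmax_le
  intro b hb o ho
  unfold inst specials at hb
  simp only [List.mem_append, List.mem_map, List.mem_cons, List.not_mem_nil, or_false] at hb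
  rcases hb with (rfl | rfl | rfl | rfl | rfl) | ⟨t, ht, rfl⟩ | ⟨k, hk, rfl⟩
  · simp only [List.mem_cons, List.not_mem_nil, or_false] at ho
    rcases ho with rfl | rfl | rfl <;> simp only <;> omega
  · simp only [List.mem_cons, List.not_mem_nil, or_false] at ho
    rcases ho with rfl | rfl <;> simp only <;> omega
  · simp only [List.mem_cons, List.not_mem_nil, or_false] at ho
    rcases ho with rfl
    simp only
    omega
  · simp only [List.mem_cons, List.not_mem_nil, or_false] at ho
    rcases ho with rfl | rfl <;> simp only <;> omega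
  · simp only [List.mem_cons, List.not_mem_nil, or_false] at ho
    rcases ho with rfl
    simp only
    omega
  · obtain ⟨h1, h2, h3⟩ := hT t ht
    have e1 := cAl_le (nc := nc) h1
    have e2 := cAl_le (nc := nc) h2
    have e3 := cKa_le h0 t.2.1 h3
    have hBe : cBe nq nc t = 1 + cKa nq nc t.2.1 + cAl nq nc t.2.2 := rfl
    simp only [jobT, List.mem_cons, List.not_mem_nil, or_false] at ho
    rcases ho with rfl | rfl | rfl | rfl <;> simp only <;> omega
  · have hj : ∀ j, (k = KJ.full j ∨ k = KJ.inc j) → j < nc := by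
      intro j hj
      unfold kjs at hk
      simp only [List.mem_append, List.mem_flatMap, List.mem_range, List.mem_replicate] at hk
      rcases hk with ⟨j', hj', hk⟩ | hk
      · rcases hk with ⟨_, rfl⟩ | ⟨_, rfl⟩
        · rcases hj with hj | hj
          · injection hj with hj
            omega
          · cases hj
        · rcases hj with hj | hj
          · cases hj
          · injection hj with hj
            omega
      · obtain ⟨_, rfl⟩ := hk
        rcases hj with hj | hj <;> cases hj
    cases k with
    | full j =>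
      have hjn := hj j (Or.inl rfl)
      have e1 := cKa_le (nc := nc) h0 (some (j, true)) (fun j' b h => by
        injection h with h; injection h with h _; omega)
      have e2 := cKa_le (nc := nc) h0 (some (j, false)) (fun j' b h => by
        injection h with h; injection h with h _; omega)
      simp only [kjob, List.mem_cons, List.not_mem_nil, or_false] at ho
      rcases ho with rfl | rfl | rfl | rfl <;> simp only <;> omega
    | inc j =>
      have hjn := hj j (Or.inr rfl)
      have e1 := cKa_le (nc := nc) h0 (some (j, true)) (fun j' b h => by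
        injection h with h; injection h with h _; omega)
      simp only [kjob, List.mem_cons, List.not_mem_nil, or_false] at ho
      rcases ho with rfl | rfl <;> simp only <;> omega
    | dum =>
      simp only [kjob, List.mem_cons, List.not_mem_nil, or_false] at ho
      rcases ho with rfl | rfl <;> simp only <;> omega

/-! ### the walk -/

lemma link_bd (nq nc : ℕ) (as : List Act) : ∀ (q s : ℕ), q < nq → s + as.length ≤ nq →
    0 < nq → (∀ a ∈ as, ∀ j b, a = some (j, b) → j < nc) → Bd nq nc (link q s as) := by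
  induction as with
  | nil =>
    intro q s hq hs h0 _ t ht
    simp only [link, List.mem_cons, List.not_mem_nil, or_false] at ht
    subst ht
    exact ⟨hq, h0, fun j b h => by cases h⟩
  | cons a as ih =>
    intro q s hq hs h0 ha t ht
    simp only [link, List.mem_cons] at ht
    simp only [List.length_cons] at hs
    rcases ht with rfl | ht
    · exact ⟨hq, by simp only; omega, fun j b h => ha a (by simp) j b h⟩
    · exact ih s (s + 1) (by omega) (by omega) h0 (fun a' ha' => ha a' (by simp [ha'])) t ht

lemma toT_bd (np : ℕ) (R : List Rule) (h1 : ∀ r ∈ R, r.1.length + r.2.1.length ≤ 8)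
    (h2 : ∀ r ∈ R, ∀ p ∈ r.1 ++ r.2.1, p < np) : Bd (1 + R.length * 8) np (toT 8 R) := by
  intro t ht
  unfold toT at ht
  rw [List.mem_flatMap] at ht
  obtain ⟨⟨r, i⟩, hri, ht⟩ := ht
  rw [List.mem_flatten] at ht
  obtain ⟨l, hl, ht⟩ := ht
  rw [List.mem_replicate] at hl
  obtain ⟨_, rfl⟩ := hl
  obtain ⟨hi, hr⟩ := List.mem_zipIdx' hri
  have hrR : r ∈ R := by
    rw [hr]
    exact List.getElem_mem _
  unfold cyc at ht
  simp only at ht
  refine link_bd _ np _ 0 (1 + i * 8) (by omega) ?_ (by omega) ?_ t ht
  · simp only [List.length_append, List.length_map]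
    have := h1 r hrR
    omega
  · intro a ha j b hab
    simp only [List.mem_append, List.mem_map] at ha
    rcases ha with ⟨p, hp, rfl⟩ | ⟨p, hp, rfl⟩
    · injection hab with hab
      injection hab with hab _
      subst hab
      exact h2 r hrR p (List.mem_append_left _ hp)
    · injection hab with hab
      injection hab with hab _
      subst hab
      exact h2 r hrR p (List.mem_append_right _ hp)

/-! ### the rules -/

lemma sims_bd (ns nc N : ℕ) (D : List CRule) (hD : GoodC ns nc D) (r : Rule) (hr : r ∈ sims N D) :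
    r.1.length + r.2.1.length ≤ 8 ∧ ∀ p ∈ r.1 ++ r.2.1, p < 12 * (ns + nc + D.length + 1) := by
  unfold sims at hr
  rw [List.mem_flatMap] at hr
  obtain ⟨⟨⟨q, ci, q'⟩, i⟩, hri, hr⟩ := hr
  obtain ⟨hi, hd⟩ := List.mem_zipIdx' hri
  have hmem : (q, ci, q') ∈ D := by
    rw [hd]
    exact List.getElem_mem _
  obtain ⟨g1, g2, g3⟩ := hD _ hmem
  simp only at g1 g2 g3
  rcases ci with ⟨pre, post⟩ | j
  · simp only at g3
    obtain ⟨k1, k2, k3⟩ := g3
    simp only [simRules, List.mem_cons, List.not_mem_nil, or_false] at hr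
    subst hr
    refine ⟨?_, ?_⟩
    · simp only [List.length_cons, List.length_append, List.length_map]
      omega
    · intro p hp
      simp only [List.mem_append, List.mem_cons, List.mem_map, pl] at hp
      rcases hp with (rfl | ⟨a, ha, rfl⟩ | ⟨a, ha, rfl⟩) | (rfl | ⟨a, ha, rfl⟩ | ⟨a, ha, rfl⟩)
      · omega
      · have := (k1 a ha).1; omega
      · have := k2 a ha; omega
      · omega
      · have := k2 a ha; omega
      · have := (k1 a ha).1; omega
  · simp only at g3
    simp only [simRules, List.mem_cons, List.not_mem_nil, or_false] at hr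
    rcases hr with rfl | rfl | rfl | rfl | rfl <;> refine ⟨by simp, ?_⟩ <;> intro p hp <;>
      simp only [List.mem_append, List.mem_cons, List.not_mem_nil, or_false, pl] at hp <;>
      try simp only [or_assoc] at hp
    · rcases hp with rfl | rfl | rfl | rfl <;> omega
    · rcases hp with rfl | rfl | rfl | rfl | rfl <;> omega
    · rcases hp with rfl | rfl <;> omega
    · rcases hp with rfl | rfl | rfl | rfl <;> omega
    · rcases hp with rfl | rfl <;> omega

lemma toR_bd (ns nc : ℕ) (D : List CRule) (v0 : List ℕ) (C Z N F : ℕ) (hD : GoodC ns nc D)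
    (hns : 2 ≤ ns)
    (r : Rule) (hr : r ∈ toR ns nc D v0 C Z N F) :
    r.1.length + r.2.1.length ≤ 8 ∧ ∀ p ∈ r.1 ++ r.2.1, p < 12 * (ns + nc + D.length + 1) := by
  unfold toR at hr
  simp only [List.mem_append, List.mem_cons, List.mem_map, List.mem_range] at hr
  rcases hr with rfl | ⟨j, hj, rfl⟩ | ⟨j, hj, rfl⟩ | rfl | rfl | hr | rfl | rfl | rfl | rfl | ⟨x, hx, rfl⟩
  · refine ⟨by simp, ?_⟩
    intro p hp
    simp only [List.mem_append, List.mem_cons, List.not_mem_nil, or_false, false_or, pl] at hp
    omega
  · refine ⟨by simp, ?_⟩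
    intro p hp
    simp only [List.mem_append, List.mem_cons, List.not_mem_nil, or_false, pl] at hp
    omega
  · refine ⟨by simp, ?_⟩
    intro p hp
    simp only [List.mem_append, List.mem_cons, List.not_mem_nil, or_false, pl] at hp
    omega
  · refine ⟨by simp, ?_⟩
    intro p hp
    simp only [List.mem_append, List.mem_cons, List.not_mem_nil, or_false, pl] at hp
    omega
  · refine ⟨by simp, ?_⟩
    intro p hp
    simp only [List.mem_append, List.mem_cons, List.not_mem_nil, or_false, pl] at hp
    omega
  · exact sims_bd ns nc N D hD r hr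
  · refine ⟨by simp, ?_⟩
    intro p hp
    simp only [List.mem_append, List.mem_cons, List.not_mem_nil, or_false, pl] at hp
    omega
  · refine ⟨by simp, ?_⟩
    intro p hp
    simp only [List.mem_append, List.mem_cons, List.not_mem_nil, or_false, pl] at hp
    omega
  · refine ⟨by simp, ?_⟩
    intro p hp
    simp only [List.mem_append, List.mem_cons, List.not_mem_nil, or_false, pl] at hp
    omega
  · refine ⟨by simp, ?_⟩
    intro p hp
    simp only [List.mem_append, List.mem_cons, List.not_mem_nil, or_false, pl] at hp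
    omega
  · have hx' : x < 12 * (ns + nc + D.length + 1) := by
      unfold simPlaces at hx
      simp only [List.mem_append, List.mem_cons, List.mem_map, List.mem_range, List.not_mem_nil,
        or_false, pl] at hx
      rcases hx with ⟨a, ha, rfl⟩ | ⟨a, ha, rfl⟩ | ⟨a, ha, rfl⟩ | ⟨a, ha, rfl⟩ | ⟨a, ha, rfl⟩ |
        ⟨a, ha, rfl⟩ | rfl | rfl | rfl <;> omega
    refine ⟨by simp, ?_⟩
    intro p hp
    simp only [List.mem_append, List.mem_cons, List.not_mem_nil, or_false, pl] at hp
    omega

lemma simRules_length (N : ℕ) (ri : CRule × ℕ) : (simRules N ri).length ≤ 5 := by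
  obtain ⟨⟨q, ci, q'⟩, i⟩ := ri
  rcases ci with ⟨pre, post⟩ | j <;> simp [simRules]

lemma length_flatMap_le {α β : Type} (f : α → List β) (c : ℕ) (l : List α)
    (h : ∀ a ∈ l, (f a).length ≤ c) : (l.flatMap f).length ≤ l.length * c := by
  induction l with
  | nil => simp
  | cons a l ih =>
    rw [List.flatMap_cons, List.length_append, List.length_cons, Nat.add_mul, one_mul, add_comm]
    exact Nat.add_le_add (ih fun x hx => h x (by simp [hx])) (h a (by simp))

lemma toR_length (ns nc : ℕ) (D : List CRule) (v0 : List ℕ) (C Z N F : ℕ) :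
    (toR ns nc D v0 C Z N F).length ≤ 10 + 5 * nc + ns + 7 * D.length := by
  have h1 : (sims N D).length ≤ D.length * 5 := by
    have := length_flatMap_le (simRules N) 5 D.zipIdx (fun a _ => simRules_length N a)
    rwa [List.length_zipIdx] at this
  unfold toR simPlaces
  simp only [List.length_cons, List.length_append, List.length_map, List.length_range,
    List.length_nil]
  omega

lemma gad_length (nm b τ : ℕ) (r : ℕ × Ins × ℕ) (h : ℕ) : (gad nm b τ r h).length ≤ 8 := by
  obtain ⟨q, i, q'⟩ := r
  cases i <;> simp [gad]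

lemma toC_length (nm b : ℕ) (M : Mach) : (toC nm b M).length ≤ 1 + 8 * (M.length * b) := by
  unfold toC
  rw [List.length_cons]
  have := length_flatMap_le (fun ri : (ℕ × Ins × ℕ) × ℕ =>
    (List.range b).flatMap (fun h => gad nm b ri.2 ri.1 h)) (b * 8) M.zipIdx (fun a _ => by
      have := length_flatMap_le (fun h => gad nm b a.2 a.1 h) 8 (List.range b)
        (fun h _ => gad_length nm b a.2 a.1 h)
      rwa [List.length_range] at this)
  rw [List.length_zipIdx] at this
  have e : M.length * (b * 8) = 8 * (M.length * b) := by ring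
  omega

lemma idx_lt {K b i h : ℕ} (hi : i < K) (hh : h < b) : i * b + h < K * b := by
  have h1 : (i + 1) * b ≤ K * b := Nat.mul_le_mul_right _ hi
  rw [Nat.add_mul, one_mul] at h1
  omega

lemma toC_good (nm K b : ℕ) (M : Mach) (hM : GoodM nm K M) (hnm : 2 ≤ nm) :
    GoodC (nsOf nm b M) (ncOf K b) (toC nm b M) := by
  intro r hr
  unfold toC at hr
  rw [List.mem_cons] at hr
  rcases hr with rfl | hr
  · simp only [nsOf, ncOf]
    omega
  · rw [List.mem_flatMap] at hr
    obtain ⟨⟨⟨q, I, q'⟩, τ⟩, hri, hr⟩ := hr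
    obtain ⟨hτ, hd⟩ := List.mem_zipIdx' hri
    have hmem : (q, I, q') ∈ M := by
      rw [hd]
      exact List.getElem_mem _
    obtain ⟨g1, g2, g3⟩ := hM _ hmem
    rw [List.mem_flatMap] at hr
    obtain ⟨h, hh, hr⟩ := hr
    rw [List.mem_range] at hh
    simp only at g1 g2 hτ
    have hL := idx_lt hτ hh
    have ax : ∀ e < 4, aux nm b τ h e < nsOf nm b M := by
      intro e he
      unfold aux nsOf
      omega
    have hq : q < nsOf nm b M := by unfold nsOf; omega
    have hq' : q' < nsOf nm b M := by unfold nsOf; omega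
    have a0 := ax 0 (by norm_num)
    have a1 := ax 1 (by norm_num)
    have a2 := ax 2 (by norm_num)
    have a3 := ax 3 (by norm_num)
    cases I with
    | push i β =>
      simp only at g3
      have hi1 := idx_lt g3 hh
      have hi2 := idx_lt g3 (show h - 1 < b by omega)
      simp only [gad, List.mem_cons, List.not_mem_nil, or_false] at hr
      rcases hr with rfl | rfl | rfl | rfl | rfl | rfl | rfl
      · refine ⟨hq, a0, ?_⟩
        simp [ct, ncOf]
        omega
      · refine ⟨hq, a0, ?_⟩
        simp [ct, ncOf]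
        omega
      · refine ⟨a0, a0, ?_⟩
        simp [cv, ncOf]
        omega
      · refine ⟨a0, a1, ?_⟩
        simp [cv, ncOf]
        omega
      · refine ⟨a1, a1, ?_⟩
        simp [cv, ncOf]
        omega
      · refine ⟨a1, a2, ?_⟩
        simp [ncOf]
      · refine ⟨a2, hq', ?_⟩
        cases β <;> simp [ct, cv, ncOf, List.replicate] <;> omega
    | pop i β =>
      simp only at g3
      have hi1 := idx_lt g3 hh
      have hi2 := idx_lt g3 (show h - 1 < b by omega)
      simp only [gad, List.mem_cons, List.not_mem_nil, or_false] at hr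
      rcases hr with rfl | rfl | rfl | rfl | rfl | rfl | rfl | rfl
      · refine ⟨hq, a0, ?_⟩
        cases β <;> simp [ct, cv, ncOf, List.replicate] <;> omega
      · refine ⟨a0, a0, ?_⟩
        simp [cv, ncOf]
        omega
      · refine ⟨a0, a1, ?_⟩
        simp [cv, ncOf]
        omega
      · refine ⟨a1, a1, ?_⟩
        simp [cv, ncOf]
        omega
      · refine ⟨a1, a2, ?_⟩
        simp [ncOf]
      · refine ⟨a2, hq', ?_⟩
        simp [ct, ncOf]
        omega
      · refine ⟨a2, a3, ?_⟩
        simp [cv, ncOf]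
        omega
      · refine ⟨a3, hq', ?_⟩
        simp [ct, ncOf]
        omega
    | empty i =>
      simp only at g3
      have hi0 := idx_lt g3 (show 0 < b by omega)
      simp only [gad, List.mem_cons, List.not_mem_nil, or_false] at hr
      rcases hr with rfl | rfl | rfl
      · refine ⟨hq, a0, ?_⟩
        simp [ct, ncOf]
        omega
      · refine ⟨a0, a1, ?_⟩
        simp [cv, ncOf]
        omega
      · refine ⟨a1, hq', ?_⟩
        simp [ct, ncOf]
        omega

end PAR

open PAR in
theorem PAR_holds : S_PAR := by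
  intro nm K M hM hnm
  -- a linear bound for everything
  refine ⟨10 * (2 * (12 * (nm + 4 * M.length + 1 + 2 * K + 1 + 8 * M.length + 1)) + 1) *
    (1 + 8 * (10 + 5 * (1 + 2 * K) + (nm + 4 * M.length) + 7 * (1 + 8 * M.length))) + 10, ?_⟩
  intro x w b n
  refine ⟨nmax_inst _ _ _, ?_⟩
  have hD := toC_good nm K b M hM hnm
  have hR := toR_bd (nsOf nm b M) (ncOf K b) (toC nm b M) (v0Of K w b x) n (3 * n) (multN n)
    (fillF (toC nm b M) n (3 * n) (multN n)) hD (by unfold nsOf; omega)
  have hB : Bd (nqOf nm K M x w b n) (npOf nm K b M) (toT 8 (ruleOf nm K M x w b n)) :=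
    toT_bd _ _ (fun r hr => (hR r hr).1) (fun r hr => (hR r hr).2)
  have h1 := pmax_inst (toT 8 (ruleOf nm K M x w b n)) (show 0 < nqOf nm K M x w b n by
    unfold nqOf; omega) hB
  refine (show pmax (redF nm K M x w b n).1 ≤ _ from h1).trans ?_
  have hl := toR_length (nsOf nm b M) (ncOf K b) (toC nm b M) (v0Of K w b x) n (3 * n) (multN n)
    (fillF (toC nm b M) n (3 * n) (multN n))
  have hc := toC_length nm b M
  have hq : nqOf nm K M x w b n ≤
      (1 + 8 * (10 + 5 * (1 + 2 * K) + (nm + 4 * M.length) + 7 * (1 + 8 * M.length))) * (b + 1) := by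
    have e : (ruleOf nm K M x w b n).length ≤ 10 + 5 * (1 + 2 * (K * b)) + (nm + 4 * (M.length * b)) +
        7 * (1 + 8 * (M.length * b)) := by
      unfold ruleOf
      unfold ncOf nsOf at *
      omega
    unfold nqOf
    nlinarith [Nat.zero_le K, Nat.zero_le nm, Nat.zero_le M.length, Nat.zero_le b,
      Nat.zero_le (nm * b)]
  have hp : npOf nm K b M ≤ 12 * (nm + 4 * M.length + 1 + 2 * K + 1 + 8 * M.length + 1) * (b + 1) := by
    unfold npOf nsOf ncOf
    nlinarith [Nat.zero_le K, Nat.zero_le nm, Nat.zero_le M.length, Nat.zero_le b,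
      Nat.zero_le (nm * b)]
  set c1 := 1 + 8 * (10 + 5 * (1 + 2 * K) + (nm + 4 * M.length) + 7 * (1 + 8 * M.length)) with hc1
  set c2 := 12 * (nm + 4 * M.length + 1 + 2 * K + 1 + 8 * M.length + 1) with hc2
  have hE : cE (nqOf nm K M x w b n) (npOf nm K b M) ≤ (2 * c2 + 1) * c1 * (b + 1) ^ 2 := by
    unfold cE cW
    calc (2 * npOf nm K b M + 1) * nqOf nm K M x w b n ≤
        ((2 * c2 + 1) * (b + 1)) * (c1 * (b + 1)) := by
          apply Nat.mul_le_mul _ hq
          nlinarith
      _ = _ := by ring
  have hb1 : 1 ≤ (b + 1) ^ 2 := Nat.one_le_pow _ _ (by omega)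
  calc 10 * cE (nqOf nm K M x w b n) (npOf nm K b M) + 10 ≤
      10 * ((2 * c2 + 1) * c1 * (b + 1) ^ 2) + 10 * (b + 1) ^ 2 := by
        apply Nat.add_le_add (Nat.mul_le_mul_left _ hE)
        omega
    _ = _ := by ring

end Pool.Agent.H453R2.JS
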