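import Pool.Agent.H453R2.JS.Spec

namespace Pool.Agent.H453R2.JS

namespace PH

/-- control places -/
def Ctl (z : ℕ) : Prop := z % 12 ≤ 2 ∨ z = 6 ∨ z = 7 ∨ z = 8

/-- exactly one control token, on `x` -/
def One (x : ℕ) (m : ℕ → ℕ) : Prop := ∀ z, Ctl z → m z = if z = x then 1 else 0

/-- the rule moves the control token from `x` to `y` -/
def Mv (r : Rule) (x y : ℕ) : Prop :=
  Ctl x ∧ Ctl y ∧ ∃ l l', r.1 = x :: l ∧ r.2.1 = y :: l' ∧ (∀ z ∈ l, ¬ Ctl z) ∧ ∀ z ∈ l', ¬ Ctl z

theorem one_use {r : Rule} {x' y x : ℕ} {m : ℕ → ℕ} (hr : Mv r x' y)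
    (hu : ∀ p, r.1.count p ≤ m p) (h : One x m) : x' = x ∧ One y (useR r m) := by
  obtain ⟨hx', hy, l, l', e1, e2, hl, hl'⟩ := hr
  have hx : x' = x := by
    by_contra hne
    have h1 := hu x'
    rw [h x' hx', if_neg hne, e1, List.count_cons_self] at h1
    omega
  subst hx
  refine ⟨rfl, fun z hz => ?_⟩
  have h1 : l.count z = 0 := List.count_eq_zero.2 fun hm => hl z hm hz
  have h2 : l'.count z = 0 := List.count_eq_zero.2 fun hm => hl' z hm hz
  show m z - r.1.count z + r.2.1.count z = _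
  rw [h z hz, e1, e2, List.count_cons, List.count_cons, h1, h2]
  by_cases h3 : z = x'
  · subst h3
    by_cases h4 : z = y
    · subst h4; simp
    · have : y ≠ z := fun h => h4 h.symm
      simp [h4, this]
  · have h3' : x' ≠ z := fun h => h3 h.symm
    by_cases h4 : z = y
    · subst h4; simp [h3, h3']
    · have : y ≠ z := fun h => h4 h.symm
      simp [h3, h3', h4, this]

/-- a phase -/
theorem phase (R : List Rule) (P Q : ℕ → Prop) (e : ℕ)
    (H : ∀ x m i, P x → One x m → i ≠ 0 → i < R.length → (∀ p, (rl R i).1.count p ≤ m p) → i ≠ e →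
      Q i ∧ ∃ y, P y ∧ One y (useR (rl R i) m)) :
    ∀ (w : List ℕ) (m m' : ℕ → ℕ) (x : ℕ), P x → One x m → 0 ∉ w → e ∈ w → RRun R w m m' →
      ∃ w1 w2 m1, w = w1 ++ e :: w2 ∧ (∀ i ∈ w1, Q i) ∧ RRun R w1 m m1 ∧
        (∃ y, P y ∧ One y m1) ∧ RRun R (e :: w2) m1 m' := by
  intro w
  induction w with
  | nil => intro m m' x _ _ _ he; simp at he
  | cons i w ih =>
    intro m m' x hP hO h0 he hr
    by_cases hie : i = e
    · subst hie
      exact ⟨[], w, m, rfl, by simp, rfl, ⟨x, hP, hO⟩, hr⟩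
    · obtain ⟨h1, h2, h3⟩ := hr
      have hi0 : i ≠ 0 := fun h => h0 (by simp [h])
      obtain ⟨hQ, y, hPy, hOy⟩ := H x m i hP hO hi0 h1 h2 hie
      have he' : e ∈ w := by
        rcases List.mem_cons.1 he with h | h
        · exact absurd h.symm hie
        · exact h
      obtain ⟨w1, w2, m1, e1, e2, e3, e4, e5⟩ := ih _ _ y hPy hOy
        (fun h => h0 (List.mem_cons_of_mem _ h)) he' h3
      refine ⟨i :: w1, w2, m1, by rw [e1]; rfl, ?_, ⟨h1, h2, e3⟩, e4, e5⟩
      intro j hj
      rcases List.mem_cons.1 hj with h | h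
      · rw [h]; exact hQ
      · exact e2 j h

theorem rl_left (A B : List Rule) (i : ℕ) (h : i < A.length) : rl (A ++ B) i = rl A i := by
  unfold rl
  rw [List.getD_append _ _ _ _ h]

theorem rl_right (A B : List Rule) (i : ℕ) : rl (A ++ B) (A.length + i) = rl B i := by
  unfold rl
  rw [List.getD_append_right _ _ _ _ (Nat.le_add_right _ _), Nat.add_sub_cancel_left]

theorem rl_map_range (f : ℕ → Rule) (n i : ℕ) (h : i < n) : rl ((List.range n).map f) i = f i := by
  unfold rl
  rw [List.getD_eq_getElem _ _ (by simpa using h)]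
  simp

theorem sims_mv (N : ℕ) (D : List CRule) (r : Rule) (hr : r ∈ sims N D) :
    ∃ x y, Mv r x y ∧ x % 12 ≤ 2 ∧ y % 12 ≤ 2 := by
  unfold sims at hr
  rw [List.mem_flatMap] at hr
  obtain ⟨ri, -, hr⟩ := hr
  have hnc : ∀ k i, 3 ≤ k → k ≤ 5 → ¬ Ctl (pl k i) := by
    intro k i h1 h2; unfold Ctl pl; omega
  have hnc' : ∀ k, 9 ≤ k → k < 12 → ¬ Ctl (pl k 0) := by
    intro k h1 h2; unfold Ctl pl; omega
  have hc : ∀ k i, k ≤ 2 → pl k i % 12 ≤ 2 := by
    intro k i h1; unfold pl; omega
  have hc' : ∀ k i, k ≤ 2 → Ctl (pl k i) := fun k i h => Or.inl (hc k i h)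
  unfold simRules at hr
  split at hr
  · rename_i pre post _
    rw [List.mem_singleton] at hr
    subst hr
    refine ⟨pl 0 ri.1.1, pl 0 ri.1.2.2, ⟨hc' _ _ (by norm_num), hc' _ _ (by norm_num), _, _, rfl, rfl,
      ?_, ?_⟩, hc _ _ (by norm_num), hc _ _ (by norm_num)⟩
    · intro z hz
      rw [List.mem_append, List.mem_map, List.mem_map] at hz
      rcases hz with ⟨j, -, rfl⟩ | ⟨j, -, rfl⟩
      · exact hnc 3 j (by norm_num) (by norm_num)
      · exact hnc 4 j (by norm_num) (by norm_num)
    · intro z hz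
      rw [List.mem_append, List.mem_map, List.mem_map] at hz
      rcases hz with ⟨j, -, rfl⟩ | ⟨j, -, rfl⟩
      · exact hnc 3 j (by norm_num) (by norm_num)
      · exact hnc 4 j (by norm_num) (by norm_num)
  · rename_i j _
    simp only [List.mem_cons, List.not_mem_nil, or_false] at hr
    rcases hr with rfl | rfl | rfl | rfl | rfl
    · refine ⟨pl 0 ri.1.1, pl 1 ri.2, ⟨hc' _ _ (by norm_num), hc' _ _ (by norm_num), _, _, rfl, rfl,
        ?_, ?_⟩, hc _ _ (by norm_num), hc _ _ (by norm_num)⟩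
      · intro z hz
        rw [List.mem_singleton] at hz
        subst hz
        exact hnc' 9 (by norm_num) (by norm_num)
      · intro z hz
        rw [List.mem_singleton] at hz
        subst hz
        exact hnc' 10 (by norm_num) (by norm_num)
    · refine ⟨pl 1 ri.2, pl 1 ri.2, ⟨hc' _ _ (by norm_num), hc' _ _ (by norm_num), _, _, rfl, rfl,
        ?_, ?_⟩, hc _ _ (by norm_num), hc _ _ (by norm_num)⟩
      · intro z hz
        rw [List.mem_singleton] at hz
        subst hz
        exact hnc 4 j (by norm_num) (by norm_num)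
      · intro z hz
        simp only [List.mem_cons, List.not_mem_nil, or_false] at hz
        rcases hz with rfl | rfl
        · exact hnc 5 j (by norm_num) (by norm_num)
        · exact hnc' 11 (by norm_num) (by norm_num)
    · exact ⟨pl 1 ri.2, pl 2 ri.2, ⟨hc' _ _ (by norm_num), hc' _ _ (by norm_num), _, _, rfl, rfl,
        by simp, by simp⟩, hc _ _ (by norm_num), hc _ _ (by norm_num)⟩
    · refine ⟨pl 2 ri.2, pl 2 ri.2, ⟨hc' _ _ (by norm_num), hc' _ _ (by norm_num), _, _, rfl, rfl,
        ?_, ?_⟩, hc _ _ (by norm_num), hc _ _ (by norm_num)⟩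
      · intro z hz
        rw [List.mem_singleton] at hz
        subst hz
        exact hnc 5 j (by norm_num) (by norm_num)
      · intro z hz
        rw [List.mem_singleton] at hz
        subst hz
        exact hnc 4 j (by norm_num) (by norm_num)
    · exact ⟨pl 2 ri.2, pl 0 ri.1.2.2, ⟨hc' _ _ (by norm_num), hc' _ _ (by norm_num), _, _, rfl, rfl,
        by simp, by simp⟩, hc _ _ (by norm_num), hc _ _ (by norm_num)⟩

/-- the table of the rules of `toR` -/
structure Tab (nc : ℕ) (D : List CRule) (v0 : List ℕ) (C Z N : ℕ) (R : List Rule) : Prop where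
  t0 : rl R 0 = ([], [6], 1)
  t3 : ∀ j < nc, rl R (1 + j) = ([6], [6, pl 3 j], min (v0.getD j 0) C)
  t4 : ∀ j < nc, rl R (1 + nc + j) = ([6], [6, pl 4 j], C - v0.getD j 0)
  tZ : rl R (1 + nc + nc) = ([6], [6, 9], Z)
  tA : rl R (1 + nc + nc + 1) = ([6], [0], 1)
  tS : ∀ i < (sims N D).length, rl R (1 + nc + nc + 2 + i) = rl (sims N D) i
  t12 : rl R (1 + nc + nc + 2 + (sims N D).length) = ([12], [7], 1)
  tG : rl R (1 + nc + nc + 2 + (sims N D).length + 1) = ([7, 10], [7], Z)
  tH : rl R (1 + nc + nc + 2 + (sims N D).length + 2) = ([7, 11], [7], Z * C)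
  tE : rl R (1 + nc + nc + 2 + (sims N D).length + 3) = ([7], [8], 1)
  len : 1 + nc + nc + 2 + (sims N D).length + 4 ≤ R.length
  tF : ∀ i, 1 + nc + nc + 2 + (sims N D).length + 4 ≤ i → i < R.length →
    ∃ x F, rl R i = ([8], [8, x], F) ∧ x ≠ 6 ∧ x ≠ 7

theorem tab (ns nc : ℕ) (D : List CRule) (v0 : List ℕ) (C Z N F : ℕ) :
    Tab nc D v0 C Z N (toR ns nc D v0 C Z N F) := by
  set f3 : ℕ → Rule := fun j => ([pl 6 0], [pl 6 0, pl 3 j], min (v0.getD j 0) C) with hf3
  set f4 : ℕ → Rule := fun j => ([pl 6 0], [pl 6 0, pl 4 j], C - v0.getD j 0) with hf4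
  set LF : List Rule := (simPlaces ns nc D.length).map
    (fun x => (([pl 8 0], [pl 8 0, x], F) : Rule)) with hLF
  have hR : toR ns nc D v0 C Z N F = [([], [6], 1)] ++ ((List.range nc).map f3 ++
      ((List.range nc).map f4 ++ ([([6], [6, 9], Z), ([6], [0], 1)] ++ (sims N D ++
      ([([12], [7], 1), ([7, 10], [7], Z), ([7, 11], [7], Z * C), ([7], [8], 1)] ++ LF))))) := rfl
  set R := toR ns nc D v0 C Z N F with hRdef
  set B5 := [(([12], [7], 1) : Rule), ([7, 10], [7], Z), ([7, 11], [7], Z * C), ([7], [8], 1)] ++ LF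
    with hB5
  set B4 := sims N D ++ B5 with hB4
  set B3 := [(([6], [6, 9], Z) : Rule), ([6], [0], 1)] ++ B4 with hB3
  set B2 := (List.range nc).map f4 ++ B3 with hB2
  set B1 := (List.range nc).map f3 ++ B2 with hB1
  have e1 : ∀ i, rl R (1 + i) = rl B1 i := fun i => by
    rw [hR]; exact rl_right [(([], [6], 1) : Rule)] B1 i
  have l3 : ((List.range nc).map f3).length = nc := by simp
  have l4 : ((List.range nc).map f4).length = nc := by simp
  have e2 : ∀ i, rl B1 (nc + i) = rl B2 i := fun i => by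
    have := rl_right ((List.range nc).map f3) B2 i
    rwa [l3] at this
  have e3 : ∀ i, rl B2 (nc + i) = rl B3 i := fun i => by
    have := rl_right ((List.range nc).map f4) B3 i
    rwa [l4] at this
  have e4 : ∀ i, rl B3 (2 + i) = rl B4 i := fun i => rl_right [(([6], [6, 9], Z) : Rule), ([6], [0], 1)] B4 i
  have e5 : ∀ i, rl B4 ((sims N D).length + i) = rl B5 i := fun i => rl_right (sims N D) B5 i
  have e6 : ∀ i, rl B5 (4 + i) = rl LF i := fun i =>
    rl_right [(([12], [7], 1) : Rule), ([7, 10], [7], Z), ([7, 11], [7], Z * C), ([7], [8], 1)] LF i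
  have E2 : ∀ i, rl R (1 + nc + i) = rl B2 i := fun i => by rw [add_assoc, e1, e2]
  have E3 : ∀ i, rl R (1 + nc + nc + i) = rl B3 i := fun i => by rw [add_assoc (1 + nc), E2, e3]
  have E4 : ∀ i, rl R (1 + nc + nc + 2 + i) = rl B4 i := fun i => by
    rw [add_assoc (1 + nc + nc), E3, e4]
  have E5 : ∀ i, rl R (1 + nc + nc + 2 + (sims N D).length + i) = rl B5 i := fun i => by
    rw [add_assoc (1 + nc + nc + 2), E4, e5]
  have E6 : ∀ i, rl R (1 + nc + nc + 2 + (sims N D).length + 4 + i) = rl LF i := fun i => by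
    rw [add_assoc (1 + nc + nc + 2 + (sims N D).length), E5, e6]
  have hlen : R.length = 1 + nc + nc + 2 + (sims N D).length + 4 + LF.length := by
    rw [hR]
    simp only [List.length_append, List.length_cons, List.length_nil, l3, l4, hB1, hB2, hB3, hB4, hB5]
    omega
  refine ⟨?_, ?_, ?_, ?_, ?_, ?_, ?_, ?_, ?_, ?_, ?_, ?_⟩
  · rw [hR]; rfl
  · intro j hj
    rw [e1, hB1, rl_left _ _ _ (by rw [l3]; exact hj), rl_map_range _ _ _ hj]; rfl
  · intro j hj
    rw [E2, hB2, rl_left _ _ _ (by rw [l4]; exact hj), rl_map_range _ _ _ hj]; rfl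
  · have := E3 0
    rw [add_zero] at this
    rw [this]; rfl
  · rw [E3]; rfl
  · intro i hi
    rw [E4, hB4, rl_left _ _ _ hi]
  · have := E5 0
    rw [add_zero] at this
    rw [this]; rfl
  · rw [E5]; rfl
  · rw [E5]; rfl
  · rw [E5]; rfl
  · rw [hlen]; omega
  · intro i h1 h2
    obtain ⟨t, rfl⟩ := Nat.exists_eq_add_of_le h1
    have ht : t < (simPlaces ns nc D.length).length := by
      rw [hlen, hLF, List.length_map] at h2; omega
    refine ⟨(simPlaces ns nc D.length)[t], F, ?_, ?_⟩
    · rw [E6]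
      unfold rl
      rw [List.getD_eq_getElem _ _ (by rw [hLF, List.length_map]; exact ht)]
      simp only [hLF, List.getElem_map]
      rfl
    · have hm : (simPlaces ns nc D.length)[t] ∈ simPlaces ns nc D.length := List.getElem_mem ht
      generalize (simPlaces ns nc D.length)[t] = x at hm
      unfold simPlaces at hm
      simp only [List.mem_append, List.mem_map, List.mem_range, List.mem_cons, List.not_mem_nil,
        or_false] at hm
      rcases hm with ⟨a, -, rfl⟩ | ⟨a, -, rfl⟩ | ⟨a, -, rfl⟩ | ⟨a, -, rfl⟩ | ⟨a, -, rfl⟩ | ⟨a, -, rfl⟩ |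
        rfl | rfl | rfl <;> (unfold pl; omega)

section
variable {nc : ℕ} {D : List CRule} {v0 : List ℕ} {C Z N : ℕ} {R : List Rule}

theorem ctl6 : Ctl 6 := Or.inr (Or.inl rfl)
theorem ctl7 : Ctl 7 := Or.inr (Or.inr (Or.inl rfl))
theorem ctl8 : Ctl 8 := Or.inr (Or.inr (Or.inr rfl))
theorem ctl0 : Ctl 0 := Or.inl (by norm_num)
theorem ctl12 : Ctl 12 := Or.inl (by norm_num)

theorem cls (T : Tab nc D v0 C Z N R) (i : ℕ) (hi : i < R.length) (h0 : i ≠ 0) :
    (1 ≤ i ∧ i ≤ nc + nc + 1 ∧ Mv (rl R i) 6 6) ∨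
    (i = 1 + nc + nc + 1 ∧ Mv (rl R i) 6 0) ∨
    (∃ x y, 1 + nc + nc + 2 ≤ i ∧ i < 1 + nc + nc + 2 + (sims N D).length ∧ Mv (rl R i) x y ∧
      x % 12 ≤ 2 ∧ y % 12 ≤ 2) ∨
    (i = 1 + nc + nc + 2 + (sims N D).length ∧ Mv (rl R i) 12 7) ∨
    ((i = 1 + nc + nc + 2 + (sims N D).length + 1 ∨ i = 1 + nc + nc + 2 + (sims N D).length + 2) ∧
      Mv (rl R i) 7 7) ∨
    (i = 1 + nc + nc + 2 + (sims N D).length + 3 ∧ Mv (rl R i) 7 8) ∨
    (1 + nc + nc + 2 + (sims N D).length + 4 ≤ i ∧ ∃ x F, rl R i = ([8], [8, x], F) ∧ x ≠ 6 ∧ x ≠ 7) := by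
  by_cases c1 : i < 1 + nc
  · obtain ⟨j, rfl⟩ := Nat.exists_eq_add_of_le (show 1 ≤ i by omega)
    refine Or.inl ⟨by omega, by omega, ctl6, ctl6, [], [pl 3 j], ?_, ?_, by simp, ?_⟩
    · rw [T.t3 j (by omega)]
    · rw [T.t3 j (by omega)]
    · intro z hz
      rw [List.mem_singleton] at hz
      subst hz
      unfold Ctl pl; omega
  by_cases c2 : i < 1 + nc + nc
  · obtain ⟨j, rfl⟩ := Nat.exists_eq_add_of_le (show 1 + nc ≤ i by omega)
    refine Or.inl ⟨by omega, by omega, ctl6, ctl6, [], [pl 4 j], ?_, ?_, by simp, ?_⟩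
    · rw [T.t4 j (by omega)]
    · rw [T.t4 j (by omega)]
    · intro z hz
      rw [List.mem_singleton] at hz
      subst hz
      unfold Ctl pl; omega
  by_cases c3 : i = 1 + nc + nc
  · subst c3
    refine Or.inl ⟨by omega, by omega, ctl6, ctl6, [], [9], ?_, ?_, by simp, ?_⟩
    · rw [T.tZ]
    · rw [T.tZ]
    · intro z hz
      rw [List.mem_singleton] at hz
      subst hz
      unfold Ctl; omega
  by_cases c4 : i = 1 + nc + nc + 1
  · subst c4
    exact Or.inr (Or.inl ⟨rfl, ctl6, ctl0, [], [], by rw [T.tA], by rw [T.tA], by simp, by simp⟩)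
  by_cases c5 : i < 1 + nc + nc + 2 + (sims N D).length
  · obtain ⟨t, rfl⟩ := Nat.exists_eq_add_of_le (show 1 + nc + nc + 2 ≤ i by omega)
    have ht : t < (sims N D).length := by omega
    have hm : rl (sims N D) t ∈ sims N D := by
      unfold rl
      rw [List.getD_eq_getElem _ _ ht]
      exact List.getElem_mem ht
    obtain ⟨x, y, h1, h2, h3⟩ := sims_mv N D _ hm
    refine Or.inr (Or.inr (Or.inl ⟨x, y, by omega, by omega, ?_, h2, h3⟩))
    rw [T.tS t ht]
    exact h1
  by_cases c6 : i = 1 + nc + nc + 2 + (sims N D).length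
  · subst c6
    exact Or.inr (Or.inr (Or.inr (Or.inl ⟨rfl, ctl12, ctl7, [], [], by rw [T.t12], by rw [T.t12],
      by simp, by simp⟩)))
  by_cases c7 : i = 1 + nc + nc + 2 + (sims N D).length + 1
  · subst c7
    refine Or.inr (Or.inr (Or.inr (Or.inr (Or.inl ⟨Or.inl rfl, ctl7, ctl7, [10], [], by rw [T.tG],
      by rw [T.tG], ?_, by simp⟩))))
    intro z hz
    rw [List.mem_singleton] at hz
    subst hz
    unfold Ctl; omega
  by_cases c8 : i = 1 + nc + nc + 2 + (sims N D).length + 2
  · subst c8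
    refine Or.inr (Or.inr (Or.inr (Or.inr (Or.inl ⟨Or.inr rfl, ctl7, ctl7, [11], [], by rw [T.tH],
      by rw [T.tH], ?_, by simp⟩))))
    intro z hz
    rw [List.mem_singleton] at hz
    subst hz
    unfold Ctl; omega
  by_cases c9 : i = 1 + nc + nc + 2 + (sims N D).length + 3
  · subst c9
    exact Or.inr (Or.inr (Or.inr (Or.inr (Or.inr (Or.inl ⟨rfl, ctl7, ctl8, [], [], by rw [T.tE],
      by rw [T.tE], by simp, by simp⟩)))))
  · exact Or.inr (Or.inr (Or.inr (Or.inr (Or.inr (Or.inr ⟨by omega, T.tF i (by omega) hi⟩)))))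

theorem one8 {x : ℕ} {m : ℕ → ℕ} (h : One x m) (hx : x ≠ 8) (r : Rule) (y F : ℕ)
    (hr : r = ([8], [8, y], F)) (hu : ∀ p, r.1.count p ≤ m p) : False := by
  have h1 := hu 8
  rw [h 8 ctl8, if_neg (fun h => hx h.symm), hr] at h1
  simp at h1

theorem first (T : Tab nc D v0 C Z N R) (i : ℕ) (hi : i < R.length)
    (hu : ∀ p, (rl R i).1.count p ≤ 0) : i = 0 := by
  by_contra h0
  have hM : ∀ x y, Mv (rl R i) x y → False := by
    rintro x y ⟨-, -, l, l', e1, -⟩
    have := hu x
    rw [e1, List.count_cons_self] at this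
    omega
  rcases cls T i hi h0 with h | h | h | h | h | h | h
  · exact hM _ _ h.2.2
  · exact hM _ _ h.2
  · obtain ⟨x, y, -, -, h, -⟩ := h
    exact hM _ _ h
  · exact hM _ _ h.2
  · exact hM _ _ h.2
  · exact hM _ _ h.2
  · obtain ⟨-, x, F, h, -⟩ := h
    have := hu 8
    rw [h] at this
    simp at this

theorem HA (T : Tab nc D v0 C Z N R) : ∀ x m i, x = 6 → One x m → i ≠ 0 → i < R.length →
    (∀ p, (rl R i).1.count p ≤ m p) → i ≠ 1 + nc + nc + 1 →
      (1 ≤ i ∧ i ≤ nc + nc + 1) ∧ ∃ y, y = 6 ∧ One y (useR (rl R i) m) := by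
  intro x m i hx hO h0 hi hu hie
  subst hx
  rcases cls T i hi h0 with h | h | h | h | h | h | h
  · exact ⟨⟨h.1, h.2.1⟩, 6, rfl, (one_use h.2.2 hu hO).2⟩
  · exact absurd h.1 hie
  · obtain ⟨x, y, -, -, h, h2, -⟩ := h
    have := (one_use h hu hO).1
    omega
  · have := (one_use h.2 hu hO).1
    omega
  · have := (one_use h.2 hu hO).1
    omega
  · have := (one_use h.2 hu hO).1
    omega
  · obtain ⟨-, x, F, h, -⟩ := h
    exact (one8 hO (by norm_num) _ _ _ h hu).elim

theorem HB (T : Tab nc D v0 C Z N R) : ∀ x m i, x % 12 ≤ 2 → One x m → i ≠ 0 → i < R.length →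
    (∀ p, (rl R i).1.count p ≤ m p) → i ≠ 1 + nc + nc + 2 + (sims N D).length →
      (1 + nc + nc + 2 ≤ i ∧ i < 1 + nc + nc + 2 + (sims N D).length) ∧
      ∃ y, y % 12 ≤ 2 ∧ One y (useR (rl R i) m) := by
  intro x m i hx hO h0 hi hu hie
  rcases cls T i hi h0 with h | h | h | h | h | h | h
  · have := (one_use h.2.2 hu hO).1
    omega
  · have := (one_use h.2 hu hO).1
    omega
  · obtain ⟨x, y, h1, h2, h, h3, h4⟩ := h
    exact ⟨⟨h1, h2⟩, y, h4, (one_use h hu hO).2⟩
  · exact absurd h.1 hie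
  · have := (one_use h.2 hu hO).1
    omega
  · have := (one_use h.2 hu hO).1
    omega
  · obtain ⟨-, x, F, h, -⟩ := h
    exact (one8 hO (by omega) _ _ _ h hu).elim

theorem HC (T : Tab nc D v0 C Z N R) : ∀ x m i, x = 7 → One x m → i ≠ 0 → i < R.length →
    (∀ p, (rl R i).1.count p ≤ m p) → i ≠ 1 + nc + nc + 2 + (sims N D).length + 3 →
      (i = 1 + nc + nc + 2 + (sims N D).length + 1 ∨ i = 1 + nc + nc + 2 + (sims N D).length + 2) ∧
      ∃ y, y = 7 ∧ One y (useR (rl R i) m) := by
  intro x m i hx hO h0 hi hu hie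
  subst hx
  rcases cls T i hi h0 with h | h | h | h | h | h | h
  · have := (one_use h.2.2 hu hO).1
    omega
  · have := (one_use h.2 hu hO).1
    omega
  · obtain ⟨x, y, h1, h2, h, h3, h4⟩ := h
    have := (one_use h hu hO).1
    omega
  · have := (one_use h.2 hu hO).1
    omega
  · exact ⟨h.1, 7, rfl, (one_use h.2 hu hO).2⟩
  · exact absurd h.1 hie
  · obtain ⟨-, x, F, h, -⟩ := h
    exact (one8 hO (by norm_num) _ _ _ h hu).elim

/-- the last phase -/
theorem tail (T : Tab nc D v0 C Z N R) : ∀ (w : List ℕ) (m m' : ℕ → ℕ), RRun R w m m' → m 6 = 0 →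
    m 7 = 0 → 0 ∉ w → 1 + nc + nc + 2 + (sims N D).length ∉ w → ∀ i ∈ w, 1 + nc + nc + 2 ≤ i ∧
    i ≠ 1 + nc + nc + 2 + (sims N D).length + 1 ∧ i ≠ 1 + nc + nc + 2 + (sims N D).length + 2 := by
  intro w
  induction w with
  | nil => intro m m' _ _ _ _ _ i hi; simp at hi
  | cons i w ih =>
    intro m m' hr h6 h7 h0 hs
    obtain ⟨h1, h2, h3⟩ := hr
    have hi0 : i ≠ 0 := fun h => h0 (by simp [h])
    have his : i ≠ 1 + nc + nc + 2 + (sims N D).length := fun h => hs (by simp [h])
    have hcnt : ∀ x y, Mv (rl R i) x y → 1 ≤ m x := by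
      rintro x y ⟨-, -, l, l', e1, -⟩
      have := h2 x
      rw [e1, List.count_cons_self] at this
      omega
    have key : (1 + nc + nc + 2 ≤ i ∧ i ≠ 1 + nc + nc + 2 + (sims N D).length + 1 ∧
        i ≠ 1 + nc + nc + 2 + (sims N D).length + 2) ∧ (rl R i).2.1.count 6 = 0 ∧
        (rl R i).2.1.count 7 = 0 := by
      rcases cls T i h1 hi0 with h | h | h | h | h | h | h
      · have := hcnt _ _ h.2.2; omega
      · have := hcnt _ _ h.2; omega
      · obtain ⟨x, y, k1, k2, ⟨-, -, l, l', e1, e2, k5, k6⟩, k3, k4⟩ := h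
        refine ⟨⟨k1, by omega, by omega⟩, ?_, ?_⟩
        · rw [e2, List.count_eq_zero]
          intro hm
          rcases List.mem_cons.1 hm with h | h
          · omega
          · exact k6 6 h ctl6
        · rw [e2, List.count_eq_zero]
          intro hm
          rcases List.mem_cons.1 hm with h | h
          · omega
          · exact k6 7 h ctl7
      · exact absurd h.1 his
      · have := hcnt _ _ h.2; omega
      · have := hcnt _ _ h.2; omega
      · obtain ⟨k1, x, F, k2, k3, k4⟩ := h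
        refine ⟨⟨by omega, by omega, by omega⟩, ?_, ?_⟩
        · rw [k2, List.count_eq_zero]
          simp only [List.mem_cons, List.not_mem_nil, or_false]
          omega
        · rw [k2, List.count_eq_zero]
          simp only [List.mem_cons, List.not_mem_nil, or_false]
          omega
    have a6 : useR (rl R i) m 6 = 0 := by
      show m 6 - _ + _ = 0
      rw [h6, key.2.1]; omega
    have a7 : useR (rl R i) m 7 = 0 := by
      show m 7 - _ + _ = 0
      rw [h7, key.2.2]; omega
    have := ih _ _ h3 a6 a7 (fun h => h0 (List.mem_cons_of_mem _ h))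
      (fun h => hs (List.mem_cons_of_mem _ h))
    intro j hj
    rcases List.mem_cons.1 hj with h | h
    · rw [h]; exact key.1
    · exact this j h

theorem shift (T : Tab nc D v0 C Z N R) : ∀ (w : List ℕ) (m m' : ℕ → ℕ), RRun R w m m' →
    (∀ i ∈ w, 1 + nc + nc + 2 ≤ i ∧ i < 1 + nc + nc + 2 + (sims N D).length) →
    RRun (sims N D) (w.map (fun i => i - (1 + nc + nc + 2))) m m' := by
  intro w
  induction w with
  | nil => intro m m' h _; exact h
  | cons i w ih =>
    intro m m' hr h
    obtain ⟨h1, h2, h3⟩ := hr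
    obtain ⟨h4, h5⟩ := h i (by simp)
    obtain ⟨t, rfl⟩ := Nat.exists_eq_add_of_le h4
    have ht : t < (sims N D).length := by omega
    rw [T.tS t ht] at h2 h3
    have e : (1 + nc + nc + 2 + t) - (1 + nc + nc + 2) = t := by omega
    show RRun (sims N D) (((1 + nc + nc + 2 + t) - (1 + nc + nc + 2)) ::
      w.map (fun i => i - (1 + nc + nc + 2))) m m'
    rw [e]
    exact ⟨ht, h2, ih _ _ h3 (fun j hj => h j (List.mem_cons_of_mem _ hj))⟩

theorem sum_by_count (w : List ℕ) (k : ℕ) (mult f : ℕ → ℕ) (h1 : ∀ i ∈ w, i < k)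
    (h2 : ∀ i < k, w.count i = mult i) : (w.map f).sum = ∑ i ∈ Finset.range k, mult i * f i := by
  classical
  rw [Finset.sum_list_map_count]
  have hsub : w.toFinset ⊆ Finset.range k := fun i hi =>
    Finset.mem_range.2 (h1 i (List.mem_toFinset.1 hi))
  rw [Finset.sum_subset hsub (f := fun m => List.count m w • f m)]
  · refine Finset.sum_congr rfl fun i hi => ?_
    rw [h2 i (Finset.mem_range.1 hi), smul_eq_mul]
  · intro i _ hi
    have : i ∉ w := fun h => hi (List.mem_toFinset.2 h)
    rw [List.count_eq_zero.2 this, zero_smul]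

theorem sum_split (nc : ℕ) (g : ℕ → ℕ) : ∑ i ∈ Finset.range (1 + nc + nc + 2), g i =
    g 0 + ∑ j ∈ Finset.range nc, g (1 + j) + ∑ j ∈ Finset.range nc, g (1 + nc + j) +
      g (1 + nc + nc) + g (1 + nc + nc + 1) := by
  rw [Finset.sum_range_succ, Finset.sum_range_succ, Finset.sum_range_add, Finset.sum_range_add,
    Finset.sum_range_one]

theorem sum_pl (nc k p : ℕ) (a : ℕ → ℕ) (hk : k < 12) :
    ∑ j ∈ Finset.range nc, a j * [pl k j].count p =
      if p % 12 = k ∧ p / 12 < nc then a (p / 12) else 0 := by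
  have hcount : ∀ j, [pl k j].count p = if pl k j = p then 1 else 0 := fun j => by
    rw [List.count_singleton]
    simp
  split_ifs with h
  · rw [Finset.sum_eq_single (p / 12)]
    · rw [hcount, if_pos (by unfold pl; omega), mul_one]
    · intro j _ hj
      rw [hcount, if_neg (by unfold pl; omega), mul_zero]
    · intro hn
      exact absurd (Finset.mem_range.2 h.2) hn
  · refine Finset.sum_eq_zero fun j hj => ?_
    rw [Finset.mem_range] at hj
    rw [hcount, if_neg, mul_zero]
    intro he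
    apply h
    unfold pl at he
    omega

/-- the marking after the initial phase -/
theorem marking (T : Tab nc D v0 C Z N R) (hv : ∀ j, v0.getD j 0 ≤ C) (w : List ℕ) (m : ℕ → ℕ)
    (h1 : ∀ i ∈ w, i < 1 + nc + nc + 2)
    (h2 : ∀ i < 1 + nc + nc + 2, w.count i = (rl R i).2.2)
    (h3 : ∀ p, m p + preC R w p = 0 + postC R w p) : m = mk0 nc v0 C Z := by
  funext p
  have h4 := h3 p
  unfold preC postC at h4
  rw [sum_by_count w _ _ _ h1 h2, sum_by_count w _ _ _ h1 h2, sum_split, sum_split] at h4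
  have hc : ∀ a b : ℕ, [a, b].count p = [a].count p + [b].count p := fun a b => by
    rw [show [a, b] = [a] ++ [b] from rfl, List.count_append]
  have e1 : ∑ j ∈ Finset.range nc, (rl R (1 + j)).2.2 * (rl R (1 + j)).1.count p =
      ∑ j ∈ Finset.range nc, v0.getD j 0 * [6].count p := by
    refine Finset.sum_congr rfl fun j hj => ?_
    rw [T.t3 j (Finset.mem_range.1 hj)]
    show min _ _ * _ = _
    rw [min_eq_left (hv j)]
  have e2 : ∑ j ∈ Finset.range nc, (rl R (1 + nc + j)).2.2 * (rl R (1 + nc + j)).1.count p =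
      ∑ j ∈ Finset.range nc, (C - v0.getD j 0) * [6].count p := by
    refine Finset.sum_congr rfl fun j hj => ?_
    rw [T.t4 j (Finset.mem_range.1 hj)]
  have e3 : ∑ j ∈ Finset.range nc, (rl R (1 + j)).2.2 * (rl R (1 + j)).2.1.count p =
      ∑ j ∈ Finset.range nc, v0.getD j 0 * [6].count p +
      ∑ j ∈ Finset.range nc, v0.getD j 0 * [pl 3 j].count p := by
    rw [← Finset.sum_add_distrib]
    refine Finset.sum_congr rfl fun j hj => ?_
    rw [T.t3 j (Finset.mem_range.1 hj)]
    show min _ _ * _ = _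
    rw [min_eq_left (hv j), hc, mul_add]
  have e4 : ∑ j ∈ Finset.range nc, (rl R (1 + nc + j)).2.2 * (rl R (1 + nc + j)).2.1.count p =
      ∑ j ∈ Finset.range nc, (C - v0.getD j 0) * [6].count p +
      ∑ j ∈ Finset.range nc, (C - v0.getD j 0) * [pl 4 j].count p := by
    rw [← Finset.sum_add_distrib]
    refine Finset.sum_congr rfl fun j hj => ?_
    rw [T.t4 j (Finset.mem_range.1 hj)]
    show (C - v0.getD j 0) * _ = _
    rw [hc, mul_add]
  rw [e1, e2, e3, e4, sum_pl nc 3 p _ (by norm_num), sum_pl nc 4 p _ (by norm_num), T.t0, T.tZ,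
    T.tA] at h4
  have c0 : ([] : List ℕ).count p = 0 := List.count_nil
  simp only [hc, c0] at h4
  have k9 : [9].count p = if p = 9 then 1 else 0 := by
    rw [List.count_singleton]
    by_cases h : p = 9
    · simp [h]
    · have : ¬ 9 = p := fun h' => h h'.symm
      simp [h, this]
  have k0 : [0].count p = if p = 0 then 1 else 0 := by
    rw [List.count_singleton]
    by_cases h : p = 0
    · simp [h]
    · have : ¬ 0 = p := fun h' => h h'.symm
      simp [h, this]
  rw [k9, k0] at h4
  have h5 : m p = (if p % 12 = 3 ∧ p / 12 < nc then v0.getD (p / 12) 0 else 0) +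
      (if p % 12 = 4 ∧ p / 12 < nc then C - v0.getD (p / 12) 0 else 0) +
      Z * (if p = 9 then 1 else 0) + (if p = 0 then 1 else 0) := by
    have : (1 : ℕ) * [6].count p = [6].count p := one_mul _
    have h6 : Z * ([6].count p + if p = 9 then 1 else 0) = Z * [6].count p +
      Z * (if p = 9 then 1 else 0) := mul_add _ _ _
    omega
  rw [h5]
  unfold mk0
  have p0 : pl 0 0 = 0 := rfl
  have p9 : pl 9 0 = 9 := rfl
  rw [p0, p9]
  by_cases q0 : p = 0
  · subst q0; simp
  by_cases q9 : p = 9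
  · subst q9; simp
  by_cases q3 : p % 12 = 3 ∧ p / 12 < nc
  · rw [if_pos q3, if_neg (by omega), if_neg q9, if_neg q0, if_neg q0, if_neg q9, if_pos q3]
    simp
  by_cases q4 : p % 12 = 4 ∧ p / 12 < nc
  · rw [if_neg q3, if_pos q4, if_neg q9, if_neg q0, if_neg q0, if_neg q9, if_neg q3]
    simp
  · rw [if_neg q3, if_neg q4, if_neg q9, if_neg q0, if_neg q0, if_neg q9, if_neg q3]
    simp

end

end PH

open PH in
theorem PH_holds (hLEG : S_LEG) : S_PH := by
  classical
  intro ns nc D v0 C Z N F hD hv0 hv hF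
  have T := tab ns nc D v0 C Z N F
  set R := toR ns nc D v0 C Z N F with hR
  obtain ⟨w, hcnt, hleg⟩ := hF
  obtain ⟨L1, L2, L3⟩ := hLEG
  have hlt : ∀ i ∈ w, i < R.length := by
    intro i hi
    by_contra hn
    have h1 := hcnt i
    have h2 : rl R i = ([], [], 0) := by
      unfold rl
      rw [List.getD_eq_default _ _ (by omega)]
    rw [h2] at h1
    exact absurd hi (List.count_eq_zero.1 h1)
  obtain ⟨m', hr⟩ := (L1 R w hlt).1 hleg
  -- counts of the special rules
  have c0 : w.count 0 = 1 := by rw [hcnt, T.t0]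
  have cA : w.count (1 + nc + nc + 1) = 1 := by rw [hcnt, T.tA]
  have c12 : w.count (1 + nc + nc + 2 + (sims N D).length) = 1 := by rw [hcnt, T.t12]
  have cG : w.count (1 + nc + nc + 2 + (sims N D).length + 1) = Z := by rw [hcnt, T.tG]
  have cH : w.count (1 + nc + nc + 2 + (sims N D).length + 2) = Z * C := by rw [hcnt, T.tH]
  have cE : w.count (1 + nc + nc + 2 + (sims N D).length + 3) = 1 := by rw [hcnt, T.tE]
  set s := 1 + nc + nc + 2 + (sims N D).length with hs
  -- the start
  obtain ⟨w', rfl⟩ : ∃ w', w = 0 :: w' := by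
    cases w with
    | nil => simp at c0
    | cons i w' =>
      have h0 : i = 0 := by
        obtain ⟨h1, h2, -⟩ := hr
        exact first T i h1 h2
      exact ⟨w', by rw [h0]⟩
  have hr0 := hr
  obtain ⟨-, -, hr1⟩ := hr
  have hO6 : One 6 (useR (rl R 0) (fun _ => 0)) := by
    intro z hz
    rw [T.t0]
    show 0 - ([] : List ℕ).count z + [6].count z = _
    rw [List.count_nil, List.count_singleton]
    by_cases h : z = 6
    · simp [h]
    · have : ¬ 6 = z := fun h' => h h'.symm
      simp [h, this]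
  have h0w : 0 ∉ w' := by
    rw [List.count_cons_self] at c0
    exact List.count_eq_zero.1 (by omega)
  have hmem : ∀ i, i ≠ 0 → (0 :: w').count i = 1 → i ∈ w' := by
    intro i hi h
    rw [List.count_cons_of_ne (fun h => hi h.symm)] at h
    exact List.count_pos_iff.1 (by omega)
  -- phase A
  obtain ⟨wA, w2, mA, e1, qA, rA, ⟨yA, hyA, oA⟩, r2⟩ := PH.phase R (fun x => x = 6)
    (fun i => 1 ≤ i ∧ i ≤ nc + nc + 1) (1 + nc + nc + 1) (HA T) w' _ m' 6 rfl hO6 h0w
    (hmem _ (by omega) cA) hr1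
  subst hyA
  subst e1
  obtain ⟨-, uA, r3⟩ := r2
  have hMA : Mv (rl R (1 + nc + nc + 1)) 6 0 :=
    ⟨ctl6, ctl0, [], [], by rw [T.tA], by rw [T.tA], by simp, by simp⟩
  have oB := (one_use hMA uA oA).2
  have m12 : s ∈ w2 := by
    have h1 := hmem s (by omega) c12
    rcases List.mem_append.1 h1 with h | h
    · have := (qA s h).2; omega
    · rcases List.mem_cons.1 h with h | h
      · omega
      · exact h
  have h0w2 : 0 ∉ w2 := fun h => h0w (List.mem_append_right _ (List.mem_cons_of_mem _ h))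
  -- phase B
  obtain ⟨wB, w4, mB, e2, qB, rB, ⟨yB, hyB, oB'⟩, r4⟩ := PH.phase R (fun x => x % 12 ≤ 2)
    (fun i => 1 + nc + nc + 2 ≤ i ∧ i < s) s (HB T) w2 _ m' 0 (by norm_num) oB h0w2 m12 r3
  subst e2
  obtain ⟨-, uB, r5⟩ := r4
  have hMB : Mv (rl R s) 12 7 :=
    ⟨ctl12, ctl7, [], [], by rw [T.t12], by rw [T.t12], by simp, by simp⟩
  have oC := (one_use hMB uB oB').2
  have mE : s + 3 ∈ w4 := by
    have h1 := hmem (s + 3) (by omega) cE
    rcases List.mem_append.1 h1 with h | h
    · have := (qA _ h).2; omega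
    · rcases List.mem_cons.1 h with h | h
      · omega
      · rcases List.mem_append.1 h with h | h
        · have := (qB _ h).2; omega
        · rcases List.mem_cons.1 h with h | h
          · omega
          · exact h
  have h0w4 : 0 ∉ w4 := fun h => h0w2 (List.mem_append_right _ (List.mem_cons_of_mem _ h))
  -- phase C
  obtain ⟨wC, w6, mC, e3, qC, rC, ⟨yC, hyC, oC'⟩, r6⟩ := PH.phase R (fun x => x = 7)
    (fun i => i = s + 1 ∨ i = s + 2) (s + 3) (HC T) w4 _ m' 7 rfl oC h0w4 mE r5
  subst hyC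
  subst e3
  obtain ⟨-, uC, r7⟩ := r6
  have hMC : Mv (rl R (s + 3)) 7 8 :=
    ⟨ctl7, ctl8, [], [], by rw [T.tE], by rw [T.tE], by simp, by simp⟩
  have oD := (one_use hMC uC oC').2
  have h0w6 : 0 ∉ w6 := fun h => h0w4 (List.mem_append_right _ (List.mem_cons_of_mem _ h))
  have hsw6 : s ∉ w6 := by
    intro h
    have h1 : 2 ≤ (0 :: (wA ++ (1 + nc + nc + 1) :: (wB ++ s :: (wC ++ (s + 3) :: w6)))).count s := by
      have h2 : 1 ≤ w6.count s := List.count_pos_iff.2 h
      simp only [List.count_cons, List.count_append]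
      simp
      omega
    omega
  have tD := tail T w6 _ _ r7 (by rw [oD 6 ctl6]; simp) (by rw [oD 7 ctl7]; simp) h0w6 hsw6
  -- the marking after phase A
  have hmark : useR (rl R (1 + nc + nc + 1)) mA = mk0 nc v0 C Z := by
    have hrun : RRun R (0 :: (wA ++ [1 + nc + nc + 1])) (fun _ => 0)
        (useR (rl R (1 + nc + nc + 1)) mA) := by
      refine ⟨hlt 0 (by simp), by rw [T.t0]; simp, ?_⟩
      rw [L2]
      exact ⟨mA, rA, hlt _ (by simp), uA, rfl⟩
    refine marking T hv (0 :: (wA ++ [1 + nc + nc + 1])) _ ?_ ?_ ?_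
    · intro i hi
      rcases List.mem_cons.1 hi with h | h
      · omega
      · rcases List.mem_append.1 h with h | h
        · have := qA i h; omega
        · rw [List.mem_singleton] at h; omega
    · intro i hi
      rw [← hcnt i]
      have d1 : wB.count i = 0 := List.count_eq_zero.2 fun h => by have := (qB i h).1; omega
      have d2 : wC.count i = 0 := List.count_eq_zero.2 fun h => by
        rcases qC i h with h | h <;> omega
      have d3 : w6.count i = 0 := List.count_eq_zero.2 fun h => by have := (tD i h).1; omega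
      have d4 : ¬ s = i := by omega
      have d5 : ¬ s + 3 = i := by omega
      simp only [List.count_cons, List.count_append, List.count_nil, d1, d2, d3, beq_iff_eq, d4, d5,
        if_false]
      try omega
    · exact (L3 R _ _ _ hrun).2
  rw [hmark] at rB
  refine ⟨wB.map (fun i => i - (1 + nc + nc + 2)), mB, shift T wB _ _ rB qB, ?_, ?_, ?_⟩
  · have := uB 12
    rw [T.t12] at this
    show 1 ≤ mB 12
    simpa using this
  · -- gate rules, `pl 10 0`
    have h1 := (L3 R _ _ _ rC).2 10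
    have h2 : postC R wC 10 = 0 := by
      unfold postC
      refine List.sum_eq_zero fun x hx => ?_
      obtain ⟨i, hi, rfl⟩ := List.mem_map.1 hx
      rcases qC i hi with h | h
      · rw [h, T.tG]; rfl
      · rw [h, T.tH]; rfl
    have h3 : preC R wC 10 = wC.count (s + 1) := by
      unfold preC
      have : ∀ l : List ℕ, (∀ i ∈ l, i = s + 1 ∨ i = s + 2) →
          (l.map (fun i => (rl R i).1.count 10)).sum = l.count (s + 1) := by
        intro l
        induction l with
        | nil => intro _; rfl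
        | cons a l ih =>
          intro hl
          rw [List.map_cons, List.sum_cons, ih (fun i hi => hl i (List.mem_cons_of_mem _ hi)),
            List.count_cons]
          rcases hl a (by simp) with h | h
          · rw [h, T.tG]; simp; omega
          · rw [h, T.tH]; simp
      exact this wC qC
    have h4 : useR (rl R s) mB 10 = mB 10 := by
      rw [T.t12]; show mB 10 - [12].count 10 + [7].count 10 = mB 10; simp
    have h5 : wC.count (s + 1) = Z := by
      rw [← cG]
      have d0 : wA.count (s + 1) = 0 := List.count_eq_zero.2 fun h => by have := (qA _ h).2; omega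
      have d1 : wB.count (s + 1) = 0 := List.count_eq_zero.2 fun h => by have := (qB _ h).2; omega
      have d3 : w6.count (s + 1) = 0 := List.count_eq_zero.2 fun h => by
        have := (tD _ h).2.1; omega
      have d4 : ¬ s = s + 1 := by omega
      have d5 : ¬ s + 3 = s + 1 := by omega
      have d6 : ¬ 0 = s + 1 := by omega
      have d7 : ¬ 1 + nc + nc + 1 = s + 1 := by omega
      simp only [List.count_cons, List.count_append, d0, d1, d3, beq_iff_eq, d4, d5, d6, d7,
        if_false]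
      omega
    show Z ≤ mB 10
    rw [h2, h3, h4, h5] at h1
    omega
  · have h1 := (L3 R _ _ _ rC).2 11
    have h2 : postC R wC 11 = 0 := by
      unfold postC
      refine List.sum_eq_zero fun x hx => ?_
      obtain ⟨i, hi, rfl⟩ := List.mem_map.1 hx
      rcases qC i hi with h | h
      · rw [h, T.tG]; rfl
      · rw [h, T.tH]; rfl
    have h3 : preC R wC 11 = wC.count (s + 2) := by
      unfold preC
      have : ∀ l : List ℕ, (∀ i ∈ l, i = s + 1 ∨ i = s + 2) →
          (l.map (fun i => (rl R i).1.count 11)).sum = l.count (s + 2) := by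
        intro l
        induction l with
        | nil => intro _; rfl
        | cons a l ih =>
          intro hl
          rw [List.map_cons, List.sum_cons, ih (fun i hi => hl i (List.mem_cons_of_mem _ hi)),
            List.count_cons]
          rcases hl a (by simp) with h | h
          · rw [h, T.tG]; simp
          · rw [h, T.tH]; simp; omega
      exact this wC qC
    have h4 : useR (rl R s) mB 11 = mB 11 := by
      rw [T.t12]; show mB 11 - [12].count 11 + [7].count 11 = mB 11; simp
    have h5 : wC.count (s + 2) = Z * C := by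
      rw [← cH]
      have d0 : wA.count (s + 2) = 0 := List.count_eq_zero.2 fun h => by have := (qA _ h).2; omega
      have d1 : wB.count (s + 2) = 0 := List.count_eq_zero.2 fun h => by have := (qB _ h).2; omega
      have d3 : w6.count (s + 2) = 0 := List.count_eq_zero.2 fun h => by
        have := (tD _ h).2.2; omega
      have d4 : ¬ s = s + 2 := by omega
      have d5 : ¬ s + 3 = s + 2 := by omega
      have d6 : ¬ 0 = s + 2 := by omega
      have d7 : ¬ 1 + nc + nc + 1 = s + 2 := by omega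
      simp only [List.count_cons, List.count_append, d0, d1, d3, beq_iff_eq, d4, d5, d6, d7,
        if_false]
      omega
    show Z * C ≤ mB 11
    rw [h2, h3, h4, h5] at h1
    omega

end Pool.Agent.H453R2.JS
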