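import Pool.Agent.H453R2.JS.Spec2
import Pool.Agent.H671R2.PolyAuto

/-!
# The rules are computed in polynomial time
-/

namespace Pool.Agent.H453R2.JS.POLYA

open Pool.Agent.NPC

variable {α β γ : Type} [TEnc α] [TEnc β] [TEnc γ]

/-! ### Lists -/

theorem take_eq_filter {β : Type} (l : List β) : ∀ (k n : ℕ),
    l.take n = ((l.zipIdx k).filter (fun p => decide (p.2 < k + n))).map Prod.fst := by
  induction l with
  | nil => intro k n; simp
  | cons b l ih =>
    intro k n
    rw [List.zipIdx_cons]
    cases n with
    | zero =>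
      have h : ((l.zipIdx (k + 1)).filter (fun p => decide (p.2 < k + 0))) = [] := by
        rw [List.filter_eq_nil_iff]
        intro p hp
        have := List.le_snd_of_mem_zipIdx hp
        simp only [Nat.add_zero, decide_eq_true_eq, not_lt]
        omega
      rw [List.filter_cons_of_neg (by simp), h]
      simp
    | succ n =>
      rw [List.take_succ_cons, List.filter_cons_of_pos (by simp), List.map_cons, ih (k + 1) n]
      have : k + 1 + n = k + (n + 1) := by omega
      rw [this]

theorem drop_eq_filter {β : Type} (l : List β) : ∀ (k n : ℕ),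
    l.drop n = ((l.zipIdx k).filter (fun p => decide (k + n ≤ p.2))).map Prod.fst := by
  induction l with
  | nil => intro k n; simp
  | cons b l ih =>
    intro k n
    rw [List.zipIdx_cons]
    cases n with
    | zero =>
      have h : ((l.zipIdx (k + 1)).filter (fun p => decide (k + 0 ≤ p.2))) = l.zipIdx (k + 1) := by
        rw [List.filter_eq_self]
        intro p hp
        have := List.le_snd_of_mem_zipIdx hp
        simp only [Nat.add_zero, decide_eq_true_eq]
        omega
      rw [List.filter_cons_of_pos (by simp), h]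
      simp
    | succ n =>
      rw [List.drop_succ_cons, List.filter_cons_of_neg (by simp), ih (k + 1) n]
      have : k + 1 + n = k + (n + 1) := by omega
      rw [this]

theorem poly_take {l : α → List β} {n : α → ℕ} (hl : Poly l) (hn : Poly n) :
    Poly (fun a => (l a).take (n a)) := by
  have h : Poly (fun a => ((l a).zipIdx.filter (fun p => decide (p.2 < 0 + n a))).map
      (fun p => p.1)) := by fun_prop
  exact h.congr fun a => (take_eq_filter (l a) 0 (n a)).symm

theorem poly_drop {l : α → List β} {n : α → ℕ} (hl : Poly l) (hn : Poly n) :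
    Poly (fun a => (l a).drop (n a)) := by
  have h : Poly (fun a => ((l a).zipIdx.filter (fun p => decide (0 + n a ≤ p.2))).map
      (fun p => p.1)) := by fun_prop
  exact h.congr fun a => (drop_eq_filter (l a) 0 (n a)).symm

attribute [fun_prop] poly_take poly_drop

theorem val_eq (l : List Bool) : val l + 1 = valB (l ++ [true]) := by
  induction l with
  | nil => rfl
  | cons b l ih =>
    rw [List.cons_append, valB_cons, ← ih, val]
    cases b <;> simp <;> omega

theorem poly_val {l : α → List Bool} (hl : Poly l) : Poly (fun a => val (l a)) := by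
  have h1 : Poly (fun a => l a ++ [true]) := by fun_prop
  have h2 : Poly (fun a => valB (l a ++ [true])) := Poly.valBits h1
  have h3 : Poly (fun a => valB (l a ++ [true]) - 1) := by fun_prop
  exact h3.congr fun a => by rw [← val_eq]; rfl

attribute [fun_prop] poly_val

theorem poly_blk {w : α → ℕ} {s : α → List Bool} {h : α → ℕ} (hw : Poly w) (hs : Poly s)
    (hh : Poly h) : Poly (fun a => blk (w a) (s a) (h a)) := by
  unfold blk
  fun_prop

theorem poly_top {w : α → ℕ} {s : α → List Bool} (hw : Poly w) (hs : Poly s) :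
    Poly (fun a => top (w a) (s a)) := by
  unfold top
  fun_prop

attribute [fun_prop] poly_blk poly_top

theorem poly_v0Of (K : ℕ) {w b : α → ℕ} {x : α → List Bool} (hw : Poly w) (hb : UPoly b)
    (hx : Poly x) : Poly (fun a => v0Of K (w a) (b a) (x a)) := by
  have h1 : Poly b := hb.toPoly
  have h2 : Poly (fun a => List.range (K * b a)) := ((UPoly.const K).mul hb).range
  unfold v0Of
  fun_prop

/-! ### The counter machine -/

theorem poly_gad (nm τ : ℕ) (r : ℕ × Ins × ℕ) {b h : α → ℕ} (hb : Poly b) (hh : Poly h) :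
    Poly (fun a => gad nm (b a) τ r (h a)) := by
  obtain ⟨p, i, q⟩ := r
  cases i with
  | push i β =>
    cases β <;> simp only [gad, cv, ct, aux, Bool.toNat_true, Bool.toNat_false,
      List.replicate] <;> fun_prop
  | pop i β =>
    cases β <;> simp only [gad, cv, ct, aux, Bool.toNat_true, Bool.toNat_false,
      List.replicate] <;> fun_prop
  | empty i =>
    simp only [gad, cv, ct, aux]
    fun_prop

theorem poly_toC (nm : ℕ) (M : Mach) {b : α → ℕ} (hb : UPoly b) :
    Poly (fun a => toC nm (b a) M) := by
  have hb' : Poly b := hb.toPoly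
  have hr : Poly (fun a => List.range (b a)) := hb.range
  have key : ∀ L : List ((ℕ × Ins × ℕ) × ℕ), Poly (fun a => L.flatMap (fun ri =>
      (List.range (b a)).flatMap (fun h => gad nm (b a) ri.2 ri.1 h))) := by
    intro L
    induction L with
    | nil =>
      exact (NPC.Poly.const ([] : List CRule)).congr fun a => rfl
    | cons ri L ih =>
      simp only [List.flatMap_cons]
      refine Poly.append ?_ ih
      exact Poly.flatMap (F := fun a h => gad nm (b a) ri.2 ri.1 h) hr
        (poly_gad nm ri.2 ri.1 (hb'.comp (Poly.fst Poly.id)) (Poly.snd Poly.id))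
  unfold toC
  exact NPC.Poly.cons (NPC.Poly.const _) (key _)

/-! ### The rules -/

theorem simRules_eq (N : ℕ) (ri : CRule × ℕ) : simRules N ri = Sum.elim
    (fun pp : List ℕ × List ℕ =>
      [(pl 0 ri.1.1 :: (pp.1.map (pl 3) ++ pp.2.map (pl 4)),
        pl 0 ri.1.2.2 :: (pp.2.map (pl 3) ++ pp.1.map (pl 4)), N)])
    (fun j : ℕ => [([pl 0 ri.1.1, pl 9 0], [pl 1 ri.2, pl 10 0], N),
     ([pl 1 ri.2, pl 4 j], [pl 1 ri.2, pl 5 j, pl 11 0], N),
     ([pl 1 ri.2], [pl 2 ri.2], N),
     ([pl 2 ri.2, pl 5 j], [pl 2 ri.2, pl 4 j], N),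
     ([pl 2 ri.2], [pl 0 ri.1.2.2], N)]) ri.1.2.1 := by
  obtain ⟨⟨p, i, q⟩, k⟩ := ri
  rcases i with ⟨pre, post⟩ | j <;> rfl

theorem poly_pl (k : ℕ) {i : α → ℕ} (hi : Poly i) : Poly (fun a => pl k (i a)) := by
  unfold pl
  fun_prop

attribute [fun_prop] poly_pl

theorem poly_simRules {N : α → ℕ} {r : α → CRule × ℕ} (hN : Poly N) (hr : Poly r) :
    Poly (fun a => simRules (N a) (r a)) := by
  simp only [simRules_eq]
  fun_prop

attribute [fun_prop] poly_simRules

theorem poly_sims {N : α → ℕ} {D : α → List CRule} (hN : Poly N) (hD : Poly D) :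
    Poly (fun a => sims (N a) (D a)) := by
  unfold sims
  fun_prop

attribute [fun_prop] poly_sims

theorem poly_toR {ns nc C Z N F : α → ℕ} {D : α → List CRule} {v0 : α → List ℕ}
    (hns : UPoly ns) (hnc : UPoly nc) (hD : Poly D) (hv0 : Poly v0) (hC : Poly C) (hZ : Poly Z)
    (hN : Poly N) (hF : Poly F) :
    Poly (fun a => toR (ns a) (nc a) (D a) (v0 a) (C a) (Z a) (N a) (F a)) := by
  have h1 : Poly (fun a => List.range (ns a)) := hns.range
  have h2 : Poly (fun a => List.range (nc a)) := hnc.range
  have h3 : Poly (fun a => List.range (D a).length) := Poly.range_length hD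
  unfold toR simPlaces
  fun_prop

theorem uPoly_sum {f : α → β → ℕ} {l : α → List β} (hl : Poly l)
    (hf : UPoly (fun p : α × β => f p.1 p.2)) : UPoly (fun a => ((l a).map (f a)).sum) := by
  have h := Poly.flatMap (F := fun a b => List.replicate (f a b) ()) hl hf
  refine h.congr fun a => ?_
  rw [List.eq_replicate_iff]
  refine ⟨?_, fun _ _ => rfl⟩
  rw [List.length_flatMap]
  congr 1
  apply List.map_congr_left
  intro b _
  simp

theorem uPoly_fillF {C Z N : α → ℕ} {D : α → List CRule} (hD : Poly D) (hC : UPoly C)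
    (hZ : UPoly Z) (hN : UPoly N) : UPoly (fun a => fillF (D a) (C a) (Z a) (N a)) := by
  have h1 : Poly (fun a => sims (N a) (D a)) := poly_sims hN.toPoly hD
  have h2 : UPoly (fun a => ((sims (N a) (D a)).map (fun r => N a * r.1.length)).sum) :=
    uPoly_sum (f := fun a r => N a * r.1.length) h1
      ((hN.comp (Poly.fst Poly.id)).mul (UPoly.length (Poly.fst (Poly.snd Poly.id))))
  exact ((h2.add (hZ.mul hC)).add hZ).add (UPoly.const 1)

theorem uPoly_multN {n : α → ℕ} (hn : UPoly n) : UPoly (fun a => multN (n a)) :=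
  (UPoly.const 20).mul ((hn.add (UPoly.const 1)).mul (hn.add (UPoly.const 1)))

theorem mult_simRules {N : ℕ} {ri : CRule × ℕ} {r : Rule} (h : r ∈ simRules N ri) :
    r.2.2 = N := by
  obtain ⟨⟨p, i, q⟩, k⟩ := ri
  rcases i with ⟨pre, post⟩ | j
  · simp only [simRules, List.mem_cons, List.not_mem_nil, or_false] at h
    rw [h]
  · simp only [simRules, List.mem_cons, List.not_mem_nil, or_false] at h
    rcases h with rfl | rfl | rfl | rfl | rfl <;> rfl

theorem mult_toR {ns nc C Z N F : ℕ} {D : List CRule} {v0 : List ℕ} {r : Rule}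
    (h : r ∈ toR ns nc D v0 C Z N F) : r.2.2 ≤ F + N + Z * C + Z + C + 1 := by
  unfold toR at h
  simp only [List.mem_cons, List.mem_append, List.mem_map, List.mem_range] at h
  rcases h with rfl | ⟨j, -, rfl⟩ | ⟨j, -, rfl⟩ | rfl | rfl | h | rfl | rfl | rfl | rfl |
    ⟨x, -, rfl⟩
  · exact Nat.le_add_left _ _
  · have := min_le_right (v0.getD j 0) C
    simp only
    omega
  · simp only
    omega
  · simp only
    omega
  · exact Nat.le_add_left _ _
  · unfold sims at h
    rw [List.mem_flatMap] at h
    obtain ⟨ri, -, h⟩ := h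
    rw [mult_simRules h]
    omega
  · exact Nat.le_add_left _ _
  · simp only
    omega
  · simp only
    omega
  · exact Nat.le_add_left _ _
  · simp only
    omega

end Pool.Agent.H453R2.JS.POLYA

namespace Pool.Agent.H453R2.JS

open Pool.Agent.NPC POLYA

theorem POLYA_holds : S_POLYA := by
  intro nm K M
  have hx : Poly (fun a : RArg => a.1) := by fun_prop
  have hw : Poly (fun a : RArg => a.2.1.length) := by fun_prop
  have hb : UPoly (fun a : RArg => a.2.2.1.length) := UPoly.length (by fun_prop)
  have hn : UPoly (fun a : RArg => a.2.2.2.length) := UPoly.length (by fun_prop)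
  have hns : UPoly (fun a : RArg => nsOf nm a.2.2.1.length M) :=
    (UPoly.const nm).add ((UPoly.const 4).mul ((UPoly.const M.length).mul hb))
  have hnc : UPoly (fun a : RArg => ncOf K a.2.2.1.length) :=
    (UPoly.const 1).add ((UPoly.const 2).mul ((UPoly.const K).mul hb))
  have hD : Poly (fun a : RArg => toC nm a.2.2.1.length M) := poly_toC nm M hb
  have hv0 : Poly (fun a : RArg => v0Of K a.2.1.length a.2.2.1.length a.1) :=
    poly_v0Of K hw hb hx
  have hZ : UPoly (fun a : RArg => 3 * a.2.2.2.length) := (UPoly.const 3).mul hn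
  have hN : UPoly (fun a : RArg => multN a.2.2.2.length) := uPoly_multN hn
  have hF : UPoly (fun a : RArg => fillF (toC nm a.2.2.1.length M) a.2.2.2.length
      (3 * a.2.2.2.length) (multN a.2.2.2.length)) := uPoly_fillF hD hn hZ hN
  refine ⟨?_, ?_, fun a => fillF (toC nm a.2.2.1.length M) a.2.2.2.length
      (3 * a.2.2.2.length) (multN a.2.2.2.length) + multN a.2.2.2.length +
      3 * a.2.2.2.length * a.2.2.2.length + 3 * a.2.2.2.length + a.2.2.2.length + 1, ?_, ?_⟩
  · exact poly_toR hns hnc hD hv0 hn.toPoly hZ.toPoly hN.toPoly hF.toPoly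
  · exact (UPoly.const 12).mul (((hns.add hnc).add (UPoly.length hD)).add (UPoly.const 1))
  · exact ((((hF.add hN).add (hZ.mul hn)).add hZ).add hn).add (UPoly.const 1)
  · intro a r hr
    exact mult_toR hr

end Pool.Agent.H453R2.JS
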