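import Pool.Agent.H453R2.JS.Spec2

namespace Pool.Agent.H453R2.JS

open Pool.Agent.NPC

namespace POLYB

theorem link_eq (as : List Act) : ∀ q s : ℕ, link q s as =
    (as.zipIdx).map (fun ai => ((if ai.2 = 0 then q else s + ai.2 - 1), ai.1, s + ai.2)) ++
      [((if as.length = 0 then q else s + as.length - 1), none, 0)] := by
  induction as with
  | nil => intro q s; simp [link]
  | cons a as ih =>
    intro q s
    rw [link, ih s (s + 1), List.zipIdx_cons, List.zipIdx_succ, List.map_cons, List.map_map]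
    simp only [List.cons_append, if_true, Nat.add_zero, List.length_cons]
    congr 2
    · apply List.map_congr_left
      rintro ⟨b, i⟩ _
      simp only [Function.comp_apply]
      rw [if_neg (Nat.succ_ne_zero i)]
      by_cases h : i = 0
      · subst h; simp
      · rw [if_neg h]
        congr 2 <;> omega
    · rw [if_neg (Nat.succ_ne_zero _)]
      by_cases h : as.length = 0
      · rw [if_pos h, h]; simp
      · rw [if_neg h]
        congr 2
        omega

/-- the actions of a rule -/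
def ac (r : Rule) : List Act :=
  r.1.map (fun p => some (p, false)) ++ r.2.1.map (fun p => some (p, true))

theorem poly_ac : Poly (fun r : Rule => ac r) :=
  NPC.Poly.append
    (NPC.Poly.map (F := fun (_ : Rule) (p : ℕ) => (some (p, false) : Act)) (NPC.Poly.fst NPC.Poly.id)
      (NPC.Poly.some (NPC.Poly.pair (NPC.Poly.snd NPC.Poly.id) (NPC.Poly.const false))))
    (NPC.Poly.map (F := fun (_ : Rule) (p : ℕ) => (some (p, true) : Act))
      (NPC.Poly.fst (NPC.Poly.snd NPC.Poly.id))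
      (NPC.Poly.some (NPC.Poly.pair (NPC.Poly.snd NPC.Poly.id) (NPC.Poly.const true))))

/-- the first state of the cycle -/
def st0 (p : Rule × ℕ) : ℕ := 1 + p.2 * 8

theorem poly_st0 : Poly st0 :=
  NPC.Poly.add (NPC.Poly.const 1) (NPC.Poly.mul (NPC.Poly.snd NPC.Poly.id) (NPC.Poly.const 8))

theorem poly_cyc : Poly (fun p : Rule × ℕ => cyc 8 p.2 p.1) := by
  have hA : Poly (fun p : Rule × ℕ => ac p.1) := poly_ac.comp (NPC.Poly.fst NPC.Poly.id)
  have h1 : Poly (fun p : Rule × ℕ => (ac p.1).zipIdx.map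
      (fun ai => (((if ai.2 = 0 then 0 else st0 p + ai.2 - 1), ai.1, st0 p + ai.2) : Tr))) := by
    refine NPC.Poly.map (F := fun (p : Rule × ℕ) (ai : Act × ℕ) =>
      (((if ai.2 = 0 then 0 else st0 p + ai.2 - 1), ai.1, st0 p + ai.2) : Tr))
      (NPC.Poly.zipIdx hA) ?_
    have h2 : Poly (fun q : (Rule × ℕ) × (Act × ℕ) => q.2.2) := NPC.Poly.snd (NPC.Poly.snd NPC.Poly.id)
    have h3 : Poly (fun q : (Rule × ℕ) × (Act × ℕ) => st0 q.1) :=
      poly_st0.comp (NPC.Poly.fst NPC.Poly.id)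
    have h4 := NPC.Poly.add h3 h2
    exact NPC.Poly.pair (NPC.Poly.ite (NPC.Poly.decide_eq h2 (NPC.Poly.const 0)) (NPC.Poly.const 0)
      (NPC.Poly.sub h4 (NPC.Poly.const 1))) (NPC.Poly.pair (NPC.Poly.fst (NPC.Poly.snd NPC.Poly.id)) h4)
  have h5 : Poly (fun p : Rule × ℕ =>
      [(((if (ac p.1).length = 0 then 0 else st0 p + (ac p.1).length - 1), none, 0) : Tr)]) := by
    have hl := NPC.Poly.length hA
    exact NPC.Poly.cons (NPC.Poly.pair (NPC.Poly.ite (NPC.Poly.decide_eq hl (NPC.Poly.const 0)) (NPC.Poly.const 0)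
      (NPC.Poly.sub (NPC.Poly.add poly_st0 hl) (NPC.Poly.const 1))) (NPC.Poly.const _)) (NPC.Poly.const [])
  refine (NPC.Poly.append h1 h5).congr fun p => ?_
  unfold cyc
  rw [link_eq]
  rfl

end POLYB

open POLYB in
theorem POLYB_holds : S_POLYB := by
  intro R u hR hu hb
  have hm : UPoly (fun q : RArg × (Rule × ℕ) => min q.2.1.2.2 (u q.1)) := by
    refine UPoly.of_le (NPC.Poly.min ?_ ?_) (hu.comp (NPC.Poly.fst NPC.Poly.id)) fun q => min_le_right _ _
    · exact NPC.Poly.snd (NPC.Poly.snd (NPC.Poly.fst (NPC.Poly.snd NPC.Poly.id)))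
    · exact (hu.toPoly).comp (NPC.Poly.fst NPC.Poly.id)
  have hc : Poly (fun q : RArg × (Rule × ℕ) => cyc 8 q.2.2 q.2.1) :=
    poly_cyc.comp (NPC.Poly.snd NPC.Poly.id)
  have hF : Poly (fun q : RArg × (Rule × ℕ) =>
      (List.replicate (min q.2.1.2.2 (u q.1)) (cyc 8 q.2.2 q.2.1)).flatten) := by
    refine (NPC.Poly.flatMap (l := fun q : RArg × (Rule × ℕ) =>
      List.replicate (min q.2.1.2.2 (u q.1)) ())
      (F := fun q _ => cyc 8 q.2.2 q.2.1) hm (hc.comp (NPC.Poly.fst NPC.Poly.id))).congr fun q => ?_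
    rw [List.flatMap, List.map_replicate]
  refine (NPC.Poly.flatMap (l := fun a => (R a).zipIdx)
    (F := fun a (ri : Rule × ℕ) =>
      (List.replicate (min ri.1.2.2 (u a)) (cyc 8 ri.2 ri.1)).flatten)
    (NPC.Poly.zipIdx hR) hF).congr fun a => ?_
  unfold toT
  rw [List.flatMap, List.flatMap]
  congr 1
  apply List.map_congr_left
  intro ri hri
  have h1 : ri.1 ∈ R a := List.fst_mem_of_mem_zipIdx hri
  rw [min_eq_left (hb a ri.1 h1)]

end Pool.Agent.H453R2.JS
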