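import Pool.Agent.H453R2.JS.Spec2

/-! Task POLYC: the job shop instance is computed in polynomial time (helper155). -/

namespace Pool.Agent.H453R2.JS

open Pool.Agent.NPC

namespace POLYC

variable {α β : Type} [TEnc α] [TEnc β]

theorem repl {n : α → ℕ} {x : α → β} (hn : UPoly n) (hx : NPC.Poly x) :
    NPC.Poly (fun a => List.replicate (n a) (x a)) :=
  (NPC.Poly.map (F := fun a (_ : Unit) => x a) hn (hx.comp (NPC.Poly.fst NPC.Poly.id))).congr fun a => by
    rw [List.map_replicate]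

section
set_option linter.unusedSectionVars false
variable {nq nc : α → ℕ} (hq : NPC.Poly nq) (hc : NPC.Poly nc)
include hq hc

theorem pW : NPC.Poly (fun a => cW (nc a)) :=
  NPC.Poly.add (NPC.Poly.mul (NPC.Poly.const 2) hc) (NPC.Poly.const 1)

theorem pE : NPC.Poly (fun a => cE (nq a) (nc a)) := NPC.Poly.mul (pW hq hc) hq

theorem pB : NPC.Poly (fun a => cB (nq a) (nc a)) :=
  NPC.Poly.add (NPC.Poly.mul (NPC.Poly.const 4) (pE hq hc)) (NPC.Poly.const 4)

theorem pMu : NPC.Poly (fun a => cMu (nq a) (nc a)) :=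
  NPC.Poly.add (NPC.Poly.const 1) (NPC.Poly.mul (NPC.Poly.const 3) (pE hq hc))

theorem pAl {x : α → ℕ} (hx : NPC.Poly x) : NPC.Poly (fun a => cAl (nq a) (nc a) (x a)) :=
  NPC.Poly.add (pB hq hc) (NPC.Poly.mul (pW hq hc) hx)

theorem pKa {x : α → Act} (hx : NPC.Poly x) : NPC.Poly (fun a => cKa (nq a) (nc a) (x a)) := by
  have h1 : NPC.Poly (fun p : α × (ℕ × Bool) => bif p.2.2 then cB (nq p.1) (nc p.1) + 1 + 2 * p.2.1
      else cB (nq p.1) (nc p.1) + 2 + 2 * p.2.1) := by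
    have hb : NPC.Poly (fun p : α × (ℕ × Bool) => cB (nq p.1) (nc p.1)) :=
      (pB hq hc).comp (NPC.Poly.fst NPC.Poly.id)
    have hj : NPC.Poly (fun p : α × (ℕ × Bool) => 2 * p.2.1) :=
      NPC.Poly.mul (NPC.Poly.const 2) (NPC.Poly.fst (NPC.Poly.snd NPC.Poly.id))
    exact NPC.Poly.cond (NPC.Poly.snd (NPC.Poly.snd NPC.Poly.id)) (NPC.Poly.add (NPC.Poly.add hb (NPC.Poly.const 1)) hj)
      (NPC.Poly.add (NPC.Poly.add hb (NPC.Poly.const 2)) hj)
  refine (NPC.Poly.optCases (o := x) (g := fun a => cB (nq a) (nc a))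
    (h := fun a (p : ℕ × Bool) => bif p.2 then cB (nq a) (nc a) + 1 + 2 * p.1
      else cB (nq a) (nc a) + 2 + 2 * p.1) hx (pB hq hc) h1).congr fun a => ?_
  rcases x a with _ | ⟨j, _ | _⟩ <;> rfl

theorem pBe {t : α → Tr} (ht : NPC.Poly t) : NPC.Poly (fun a => cBe (nq a) (nc a) (t a)) :=
  NPC.Poly.add (NPC.Poly.add (NPC.Poly.const 1) (pKa hq hc (NPC.Poly.fst (NPC.Poly.snd ht))))
    (pAl hq hc (NPC.Poly.snd (NPC.Poly.snd ht)))

theorem pBs : NPC.Poly (fun a => cBs (nq a) (nc a)) :=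
  NPC.Poly.add (NPC.Poly.add (NPC.Poly.const 1) (pB hq hc)) (pAl hq hc (NPC.Poly.const 0))

theorem pMax : NPC.Poly (fun a => cMax (nq a) (nc a)) :=
  NPC.Poly.add (NPC.Poly.add (NPC.Poly.const 1) (NPC.Poly.mul (NPC.Poly.const 2) (pB hq hc)))
    (NPC.Poly.mul (NPC.Poly.const 2) (pE hq hc))

theorem pEnd : NPC.Poly (fun a => cEnd (nq a) (nc a)) :=
  NPC.Poly.sub (NPC.Poly.add (pMax hq hc) (NPC.Poly.const 1)) (pMu hq hc)

theorem pOp {k : ℕ} {x : α → ℕ} (hx : NPC.Poly x) : NPC.Poly (fun a => ((k, x a) : ℕ × ℕ)) :=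
  NPC.Poly.pair (NPC.Poly.const k) hx

theorem pJobT {t : α → Tr} (ht : NPC.Poly t) : NPC.Poly (fun a => jobT (nq a) (nc a) (t a)) := by
  have h1 := pBe hq hc ht
  exact NPC.Poly.cons (pOp hq hc (pAl hq hc (NPC.Poly.fst ht))) (NPC.Poly.cons (pOp hq hc h1)
    (NPC.Poly.cons (NPC.Poly.const ((0, 1) : ℕ × ℕ)) (NPC.Poly.cons (pOp hq hc (NPC.Poly.sub h1 (pMu hq hc)))
      (NPC.Poly.const ([] : Job)))))

theorem pFull {j : α → ℕ} (hj : NPC.Poly j) :
    NPC.Poly (fun a => kjob (nq a) (nc a) (KJ.full (j a))) := by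
  have h1 : NPC.Poly (fun a => cKa (nq a) (nc a) (some (j a, true))) :=
    pKa hq hc (NPC.Poly.some (NPC.Poly.pair hj (NPC.Poly.const true)))
  have h2 : NPC.Poly (fun a => cKa (nq a) (nc a) (some (j a, false))) :=
    pKa hq hc (NPC.Poly.some (NPC.Poly.pair hj (NPC.Poly.const false)))
  exact NPC.Poly.cons (pOp hq hc h1) (NPC.Poly.cons (pOp hq hc (pMu hq hc))
    (NPC.Poly.cons (pOp hq hc h2) (NPC.Poly.cons (pOp hq hc (pMu hq hc)) (NPC.Poly.const ([] : Job)))))

theorem pInc {j : α → ℕ} (hj : NPC.Poly j) :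
    NPC.Poly (fun a => kjob (nq a) (nc a) (KJ.inc (j a))) := by
  have h1 : NPC.Poly (fun a => cKa (nq a) (nc a) (some (j a, true))) :=
    pKa hq hc (NPC.Poly.some (NPC.Poly.pair hj (NPC.Poly.const true)))
  exact NPC.Poly.cons (pOp hq hc h1) (NPC.Poly.cons (pOp hq hc (pMu hq hc)) (NPC.Poly.const ([] : Job)))

theorem pDum : NPC.Poly (fun a => kjob (nq a) (nc a) KJ.dum) := by
  have h1 : NPC.Poly (fun a => cKa (nq a) (nc a) (none : Act)) :=
    pKa hq hc (NPC.Poly.const (none : Act))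
  exact NPC.Poly.cons (pOp hq hc h1) (NPC.Poly.cons (pOp hq hc (pMu hq hc)) (NPC.Poly.const ([] : Job)))

theorem pSpec : NPC.Poly (fun a => specials (nq a) (nc a)) := by
  have e : NPC.Poly (fun _ : α => ([] : Job)) := NPC.Poly.const _
  have h1 : NPC.Poly (fun a => ([(2, cBs (nq a) (nc a)), (0, 1),
      (1, cBs (nq a) (nc a) - cMu (nq a) (nc a))] : Job)) :=
    NPC.Poly.cons (pOp hq hc (pBs hq hc)) (NPC.Poly.cons (NPC.Poly.const ((0, 1) : ℕ × ℕ))
      (NPC.Poly.cons (pOp hq hc (NPC.Poly.sub (pBs hq hc) (pMu hq hc))) e))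
  have h2 : NPC.Poly (fun a => ([(0, 1), (1, cMax (nq a) (nc a) - cMu (nq a) (nc a))] : Job)) :=
    NPC.Poly.cons (NPC.Poly.const ((0, 1) : ℕ × ℕ))
      (NPC.Poly.cons (pOp hq hc (NPC.Poly.sub (pMax hq hc) (pMu hq hc))) e)
  have h3 : NPC.Poly (fun _ : α => ([(1, 1)] : Job)) := NPC.Poly.const _
  have h4 : NPC.Poly (fun a => ([(0, cAl (nq a) (nc a) 0), (2, cEnd (nq a) (nc a))] : Job)) :=
    NPC.Poly.cons (pOp hq hc (pAl hq hc (NPC.Poly.const 0)))
      (NPC.Poly.cons (pOp hq hc (pEnd hq hc)) e)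
  have h5 : NPC.Poly (fun a => ([(0, cMax (nq a) (nc a) - cMu (nq a) (nc a))] : Job)) :=
    NPC.Poly.cons (pOp hq hc (NPC.Poly.sub (pMax hq hc) (pMu hq hc))) e
  exact NPC.Poly.cons h1 (NPC.Poly.cons h2 (NPC.Poly.cons h3 (NPC.Poly.cons h4 (NPC.Poly.cons h5
    (NPC.Poly.const ([] : List Job))))))

end

theorem pNact {T : α → List Tr} {x : α → Act} (hT : NPC.Poly T) (hx : NPC.Poly x) :
    UPoly (fun a => nact (x a) (T a)) := by
  have h1 : NPC.Poly (fun a => (T a).filter (fun t => decide (t.2.1 = x a))) :=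
    NPC.Poly.filter (p := fun a (t : Tr) => decide (t.2.1 = x a)) hT
      (NPC.Poly.decide_eq (NPC.Poly.fst (NPC.Poly.snd (NPC.Poly.snd NPC.Poly.id))) (hx.comp (NPC.Poly.fst NPC.Poly.id)))
  refine NPC.Poly.congr (UPoly.length h1) fun a => ?_
  show List.replicate _ () = List.replicate (List.countP _ _) ()
  rw [List.countP_eq_length_filter]

theorem pKjs {T : α → List Tr} {nq np : α → ℕ} (hT : NPC.Poly T) (hq : NPC.Poly nq) (hp : UPoly np) :
    NPC.Poly (fun a => (kjs (np a) (T a)).map (kjob (nq a) (np a))) := by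
  have hp' : NPC.Poly np := hp.toPoly
  have f1 : NPC.Poly (fun p : α × ℕ => p.1) := NPC.Poly.fst NPC.Poly.id
  have f2 : NPC.Poly (fun p : α × ℕ => p.2) := NPC.Poly.snd NPC.Poly.id
  have hm : UPoly (fun p : α × ℕ => nact (some (p.2, false)) (T p.1)) :=
    pNact (hT.comp f1) (NPC.Poly.some (NPC.Poly.pair f2 (NPC.Poly.const false)))
  have hpl : UPoly (fun p : α × ℕ => nact (some (p.2, true)) (T p.1)) :=
    pNact (hT.comp f1) (NPC.Poly.some (NPC.Poly.pair f2 (NPC.Poly.const true)))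
  have hs : UPoly (fun p : α × ℕ => nact (some (p.2, true)) (T p.1) -
      nact (some (p.2, false)) (T p.1)) :=
    UPoly.of_le (NPC.Poly.sub hpl.toPoly hm.toPoly) hpl fun _ => Nat.sub_le _ _
  have hfull := pFull (hq.comp f1) (hp'.comp f1) f2
  have hinc := pInc (hq.comp f1) (hp'.comp f1) f2
  have hF : NPC.Poly (fun p : α × ℕ =>
      List.replicate (nact (some (p.2, false)) (T p.1)) (kjob (nq p.1) (np p.1) (KJ.full p.2)) ++
      List.replicate (nact (some (p.2, true)) (T p.1) - nact (some (p.2, false)) (T p.1))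
        (kjob (nq p.1) (np p.1) (KJ.inc p.2))) :=
    NPC.Poly.append (repl hm hfull) (repl hs hinc)
  have h1 := NPC.Poly.flatMap (F := fun (a : α) (j : ℕ) =>
      List.replicate (nact (some (j, false)) (T a)) (kjob (nq a) (np a) (KJ.full j)) ++
      List.replicate (nact (some (j, true)) (T a) - nact (some (j, false)) (T a))
        (kjob (nq a) (np a) (KJ.inc j))) hp.range hF
  have h2 : NPC.Poly (fun a => List.replicate (nact none (T a) + 1) (kjob (nq a) (np a) KJ.dum)) :=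
    repl (UPoly.add (pNact hT (NPC.Poly.const none)) (UPoly.const 1)) (pDum hq hp')
  refine (NPC.Poly.append h1 h2).congr fun a => ?_
  rw [kjs, List.map_append, List.map_replicate, List.map_flatMap]
  simp only [List.map_append, List.map_replicate]

end POLYC

theorem POLYC_holds : S_POLYC := by
  intro T nq np hT hnq hnp
  have hq : NPC.Poly nq := hnq.toPoly
  have hp : NPC.Poly np := hnp.toPoly
  have f1 : NPC.Poly (fun p : RArg × Tr => p.1) := NPC.Poly.fst NPC.Poly.id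
  have f2 : NPC.Poly (fun p : RArg × Tr => p.2) := NPC.Poly.snd NPC.Poly.id
  have h1 : NPC.Poly (fun a => (T a).map (jobT (nq a) (np a))) :=
    NPC.Poly.map (F := fun a t => jobT (nq a) (np a) t) hT
      (POLYC.pJobT (hq.comp f1) (hp.comp f1) f2)
  have h2 : NPC.Poly (fun a => (T a).map (cBe (nq a) (np a))) :=
    NPC.Poly.map (F := fun a t => cBe (nq a) (np a) t) hT
      (POLYC.pBe (hq.comp f1) (hp.comp f1) f2)
  exact NPC.Poly.pair (NPC.Poly.append (POLYC.pSpec hq hp) (NPC.Poly.append h1 (POLYC.pKjs hT hq hnp)))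
    (NPC.Poly.add (NPC.Poly.add (NPC.Poly.sum h2) (POLYC.pBs hq hp)) (POLYC.pEnd hq hp))

end Pool.Agent.H453R2.JS
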