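import Pool.Agent.H453R2.JS.Spec

namespace Pool.Agent.H453R2.JS.RG

open Pool.Agent.H453R2.JS

theorem mem_sims {N : ℕ} {D : List CRule} {r : Rule} (h : r ∈ sims N D) :
    ∃ (t : CRule) (i : ℕ), t ∈ D ∧ i < D.length ∧ r ∈ simRules N (t, i) := by
  unfold sims at h
  rw [List.mem_flatMap] at h
  obtain ⟨⟨t, i⟩, h1, h2⟩ := h
  refine ⟨t, i, ?_, ?_, h2⟩
  · exact List.fst_mem_of_mem_zipIdx h1
  · have := List.snd_lt_of_mem_zipIdx h1
    simpa using this

/-- the rules of one transition -/
theorem simRules_props {ns nc : ℕ} {D : List CRule} (hG : GoodC ns nc D) {N : ℕ} {t : CRule} {i : ℕ}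
    (ht : t ∈ D) (hi : i < D.length) {r : Rule} (hr : r ∈ simRules N (t, i)) :
    r.1.length + r.2.1.length ≤ 8 ∧ r.1 ++ r.2.1 ≠ [] ∧ r.2.2 = N ∧
    (∀ p ∈ r.1, p ∈ simPlaces ns nc D.length) ∧ (∀ p ∈ r.2.1, p ∈ simPlaces ns nc D.length) := by
  obtain ⟨q, I, q'⟩ := t
  obtain ⟨h1, h2, h3⟩ := hG _ ht
  simp only at h1 h2 h3
  rcases I with ⟨pre, post⟩ | j
  · simp only at h3
    obtain ⟨h4, h5, h6⟩ := h3
    simp only [simRules, List.mem_singleton] at hr
    subst hr
    refine ⟨?_, by simp, rfl, ?_, ?_⟩
    · simp only [List.length_cons, List.length_append, List.length_map]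
      omega
    · intro p hp
      simp only [List.mem_cons, List.mem_append, List.mem_map] at hp
      simp only [simPlaces, List.mem_append, List.mem_map, List.mem_range, List.mem_cons]
      rcases hp with rfl | ⟨j, hj, rfl⟩ | ⟨j, hj, rfl⟩
      · exact Or.inl ⟨q, h1, rfl⟩
      · exact Or.inr (Or.inr (Or.inr (Or.inl ⟨j, (h4 j hj).1, rfl⟩)))
      · exact Or.inr (Or.inr (Or.inr (Or.inr (Or.inl ⟨j, h5 j hj, rfl⟩))))
    · intro p hp
      simp only [List.mem_cons, List.mem_append, List.mem_map] at hp
      simp only [simPlaces, List.mem_append, List.mem_map, List.mem_range, List.mem_cons]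
      rcases hp with rfl | ⟨j, hj, rfl⟩ | ⟨j, hj, rfl⟩
      · exact Or.inl ⟨q', h2, rfl⟩
      · exact Or.inr (Or.inr (Or.inr (Or.inl ⟨j, h5 j hj, rfl⟩)))
      · exact Or.inr (Or.inr (Or.inr (Or.inr (Or.inl ⟨j, (h4 j hj).1, rfl⟩))))
  · simp only at h3
    simp only [simRules, List.mem_cons, List.not_mem_nil, or_false] at hr
    have m0 : ∀ a < ns, pl 0 a ∈ simPlaces ns nc D.length := by
      intro a ha
      simp only [simPlaces, List.mem_append, List.mem_map, List.mem_range, List.mem_cons]
      exact Or.inl ⟨a, ha, rfl⟩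
    have m1 : pl 1 i ∈ simPlaces ns nc D.length := by
      simp only [simPlaces, List.mem_append, List.mem_map, List.mem_range, List.mem_cons]
      exact Or.inr (Or.inl ⟨i, hi, rfl⟩)
    have m2 : pl 2 i ∈ simPlaces ns nc D.length := by
      simp only [simPlaces, List.mem_append, List.mem_map, List.mem_range, List.mem_cons]
      exact Or.inr (Or.inr (Or.inl ⟨i, hi, rfl⟩))
    have m4 : pl 4 j ∈ simPlaces ns nc D.length := by
      simp only [simPlaces, List.mem_append, List.mem_map, List.mem_range, List.mem_cons]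
      exact Or.inr (Or.inr (Or.inr (Or.inr (Or.inl ⟨j, h3, rfl⟩))))
    have m5 : pl 5 j ∈ simPlaces ns nc D.length := by
      simp only [simPlaces, List.mem_append, List.mem_map, List.mem_range, List.mem_cons]
      exact Or.inr (Or.inr (Or.inr (Or.inr (Or.inr (Or.inl ⟨j, h3, rfl⟩)))))
    have m9 : pl 9 0 ∈ simPlaces ns nc D.length := by simp [simPlaces]
    have m10 : pl 10 0 ∈ simPlaces ns nc D.length := by simp [simPlaces]
    have m11 : pl 11 0 ∈ simPlaces ns nc D.length := by simp [simPlaces]
    have mq := m0 q h1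
    have mq' := m0 q' h2
    rcases hr with rfl | rfl | rfl | rfl | rfl
    · exact ⟨by simp, by simp, rfl, by simp [mq, m9], by simp [m1, m10]⟩
    · exact ⟨by simp, by simp, rfl, by simp [m1, m4], by simp [m1, m5, m11]⟩
    · exact ⟨by simp, by simp, rfl, by simp [m1], by simp [m2]⟩
    · exact ⟨by simp, by simp, rfl, by simp [m2, m5], by simp [m2, m4]⟩
    · exact ⟨by simp, by simp, rfl, by simp [m2], by simp [mq']⟩

theorem simPlaces_lt {ns nc nd p : ℕ} (h : p ∈ simPlaces ns nc nd) : p < 12 * (ns + nc + nd + 1) := by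
  simp only [simPlaces, List.mem_append, List.mem_map, List.mem_range, List.mem_cons,
    List.not_mem_nil, or_false] at h
  simp only [pl] at h
  rcases h with ⟨a, ha, rfl⟩ | ⟨a, ha, rfl⟩ | ⟨a, ha, rfl⟩ | ⟨a, ha, rfl⟩ | ⟨a, ha, rfl⟩ |
    ⟨a, ha, rfl⟩ | rfl | rfl | rfl <;> omega

/-- tokens taken -/
def tk (p : ℕ) (R : List Rule) : ℕ := (R.map (fun r => r.2.2 * r.1.count p)).sum

/-- tokens put -/
def pt (p : ℕ) (R : List Rule) : ℕ := (R.map (fun r => r.2.2 * r.2.1.count p)).sum

theorem tk_cons (p : ℕ) (r : Rule) (R : List Rule) : tk p (r :: R) = r.2.2 * r.1.count p + tk p R := by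
  simp [tk]

theorem pt_cons (p : ℕ) (r : Rule) (R : List Rule) : pt p (r :: R) = r.2.2 * r.2.1.count p + pt p R := by
  simp [pt]

theorem tk_append (p : ℕ) (R R' : List Rule) : tk p (R ++ R') = tk p R + tk p R' := by
  simp [tk]

theorem pt_append (p : ℕ) (R R' : List Rule) : pt p (R ++ R') = pt p R + pt p R' := by
  simp [pt]

theorem tk_le_pt (p : ℕ) (R : List Rule) (h : ∀ r ∈ R, r.1.count p ≤ r.2.1.count p) :
    tk p R ≤ pt p R := by
  unfold tk pt
  apply List.sum_le_sum
  intro r hr
  exact Nat.mul_le_mul_left _ (h r hr)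

theorem fill_eq (p F : ℕ) (l : List ℕ) :
    pt p (l.map (fun x => (([pl 8 0], [pl 8 0, x], F) : Rule))) =
      tk p (l.map (fun x => (([pl 8 0], [pl 8 0, x], F) : Rule))) + F * l.count p := by
  induction l with
  | nil => simp [pt, tk]
  | cons x l ih =>
    simp only [List.map_cons]
    rw [pt_cons, tk_cons, ih]
    simp only [List.count_cons, List.count_nil]
    ring

theorem tk_sims_le {ns nc : ℕ} {D : List CRule} (hG : GoodC ns nc D) (N p : ℕ) :
    tk p (sims N D) ≤ ((sims N D).map (fun r => N * r.1.length)).sum := by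
  unfold tk
  apply List.sum_le_sum
  intro r hr
  obtain ⟨t, i, h1, h2, h3⟩ := mem_sims hr
  obtain ⟨_, _, h4, _, _⟩ := simRules_props hG h1 h2 h3
  rw [h4]
  exact Nat.mul_le_mul_left _ List.count_le_length

theorem tk_sims_zero {ns nc : ℕ} {D : List CRule} (hG : GoodC ns nc D) (N p : ℕ)
    (hp : p ∉ simPlaces ns nc D.length) : tk p (sims N D) = 0 := by
  unfold tk
  rw [List.sum_eq_zero_iff]
  intro x hx
  obtain ⟨r, hr, rfl⟩ := List.mem_map.1 hx
  obtain ⟨t, i, h1, h2, h3⟩ := mem_sims hr
  obtain ⟨_, _, _, h5, _⟩ := simRules_props hG h1 h2 h3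
  have : r.1.count p = 0 := List.count_eq_zero.2 (fun h => hp (h5 p h))
  rw [this, mul_zero]

end Pool.Agent.H453R2.JS.RG

namespace Pool.Agent.H453R2.JS

open RG in
theorem RG_holds : S_RG := by
  intro ns nc D v0 C Z N F hG hns hv0 hvC hF
  have hmem : ∀ r ∈ toR ns nc D v0 C Z N F, r.1.length + r.2.1.length ≤ 8 ∧ r.1 ++ r.2.1 ≠ [] ∧
      ∀ p ∈ r.1 ++ r.2.1, p < 12 * (ns + nc + D.length + 1) := by
    intro r hr
    simp only [toR, List.mem_cons, List.mem_append, List.mem_map, List.mem_range] at hr
    rcases hr with rfl | ⟨j, hj, rfl⟩ | ⟨j, hj, rfl⟩ | rfl | rfl | hr | rfl | rfl | rfl | rfl |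
      ⟨x, hx, rfl⟩
    · simp [pl]; omega
    · refine ⟨by simp, by simp, ?_⟩
      intro p hp
      simp only [pl, List.mem_append, List.mem_cons, List.not_mem_nil, or_false] at hp
      omega
    · refine ⟨by simp, by simp, ?_⟩
      intro p hp
      simp only [pl, List.mem_append, List.mem_cons, List.not_mem_nil, or_false] at hp
      omega
    · refine ⟨by simp, by simp, ?_⟩
      intro p hp
      simp only [pl, List.mem_append, List.mem_cons, List.not_mem_nil, or_false] at hp
      omega
    · refine ⟨by simp, by simp, ?_⟩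
      intro p hp
      simp only [pl, List.mem_append, List.mem_cons, List.not_mem_nil, or_false] at hp
      omega
    · obtain ⟨t, i, h1, h2, h3⟩ := mem_sims hr
      obtain ⟨g1, g2, _, g4, g5⟩ := simRules_props hG h1 h2 h3
      refine ⟨g1, g2, ?_⟩
      intro p hp
      rcases List.mem_append.1 hp with hp | hp
      · exact simPlaces_lt (g4 p hp)
      · exact simPlaces_lt (g5 p hp)
    · refine ⟨by simp, by simp, ?_⟩
      intro p hp
      simp only [pl, List.mem_append, List.mem_cons, List.not_mem_nil, or_false] at hp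
      omega
    · refine ⟨by simp, by simp, ?_⟩
      intro p hp
      simp only [pl, List.mem_append, List.mem_cons, List.not_mem_nil, or_false] at hp
      omega
    · refine ⟨by simp, by simp, ?_⟩
      intro p hp
      simp only [pl, List.mem_append, List.mem_cons, List.not_mem_nil, or_false] at hp
      omega
    · refine ⟨by simp, by simp, ?_⟩
      intro p hp
      simp only [pl, List.mem_append, List.mem_cons, List.not_mem_nil, or_false] at hp
      omega
    · refine ⟨by simp, by simp, ?_⟩
      intro p hp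
      simp only [List.mem_append, List.mem_cons, List.not_mem_nil, or_false] at hp
      rcases hp with rfl | rfl | rfl
      · simp only [pl]; omega
      · simp only [pl]; omega
      · exact simPlaces_lt hx
  refine ⟨fun r hr => (hmem r hr).1, fun r hr => (hmem r hr).2.1, fun r hr => (hmem r hr).2.2, ?_⟩
  intro p
  change tk p (toR ns nc D v0 C Z N F) ≤ pt p (toR ns nc D v0 C Z N F)
  have e1 : tk p ((List.range nc).map
      (fun j => (([pl 6 0], [pl 6 0, pl 3 j], min (v0.getD j 0) C) : Rule))) ≤
      pt p ((List.range nc).map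
      (fun j => (([pl 6 0], [pl 6 0, pl 3 j], min (v0.getD j 0) C) : Rule))) := by
    apply tk_le_pt
    intro r hr
    obtain ⟨j, _, rfl⟩ := List.mem_map.1 hr
    simp only [List.count_cons, List.count_nil]
    omega
  have e2 : tk p ((List.range nc).map
      (fun j => (([pl 6 0], [pl 6 0, pl 4 j], C - v0.getD j 0) : Rule))) ≤
      pt p ((List.range nc).map
      (fun j => (([pl 6 0], [pl 6 0, pl 4 j], C - v0.getD j 0) : Rule))) := by
    apply tk_le_pt
    intro r hr
    obtain ⟨j, _, rfl⟩ := List.mem_map.1 hr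
    simp only [List.count_cons, List.count_nil]
    omega
  have e3 := fill_eq p F (simPlaces ns nc D.length)
  have e4 := tk_sims_le hG N p
  have key : tk p (sims N D) + (if p = pl 0 1 then 1 else 0) + Z * (if p = pl 10 0 then 1 else 0) +
      Z * C * (if p = pl 11 0 then 1 else 0) ≤ F * (simPlaces ns nc D.length).count p := by
    by_cases hp : p ∈ simPlaces ns nc D.length
    · have h1 : 1 ≤ (simPlaces ns nc D.length).count p := List.one_le_count_iff.2 hp
      have h2 : F ≤ F * (simPlaces ns nc D.length).count p := Nat.le_mul_of_pos_right _ h1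
      refine le_trans ?_ h2
      refine le_trans ?_ hF
      unfold fillF
      have a1 : (if p = pl 0 1 then 1 else 0) ≤ 1 := by split_ifs <;> omega
      have a2 : Z * (if p = pl 10 0 then 1 else 0) ≤ Z := by split_ifs <;> omega
      have a3 : Z * C * (if p = pl 11 0 then 1 else 0) ≤ Z * C := by split_ifs <;> omega
      omega
    · rw [tk_sims_zero hG N p hp]
      have b1 : p ≠ pl 0 1 := by
        rintro rfl
        apply hp
        simp only [simPlaces, List.mem_append, List.mem_map, List.mem_range, List.mem_cons]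
        exact Or.inl ⟨1, by omega, rfl⟩
      have b2 : p ≠ pl 10 0 := by
        rintro rfl
        apply hp
        simp [simPlaces]
      have b3 : p ≠ pl 11 0 := by
        rintro rfl
        apply hp
        simp [simPlaces]
      rw [if_neg b1, if_neg b2, if_neg b3]
      omega
  have c1 : ∀ a : ℕ, (if (a == p) = true then 1 else 0) = if p = a then 1 else 0 := by
    intro a
    by_cases h : p = a
    · subst h; simp
    · have : ¬ (a = p) := fun h' => h h'.symm
      simp [h, this]
  unfold toR
  simp only [tk_cons, pt_cons, tk_append, pt_append, List.count_cons, List.count_nil, c1, e3]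
  simp only [Nat.zero_add, Nat.mul_add, Nat.mul_zero, Nat.one_mul]
  clear e3 e4 hmem c1
  revert key e1 e2
  generalize (Z * if p = pl 9 0 then 1 else 0) = z9
  generalize (Z * if p = pl 6 0 then 1 else 0) = z6
  generalize (Z * if p = pl 7 0 then 1 else 0) = z7
  generalize (Z * if p = pl 10 0 then 1 else 0) = z10
  generalize (Z * C * if p = pl 7 0 then 1 else 0) = c7
  generalize (Z * C * if p = pl 11 0 then 1 else 0) = c11
  generalize F * List.count p (simPlaces ns nc D.length) = ff
  intro h1 h2 h3
  omega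

end Pool.Agent.H453R2.JS
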