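import Pool.Agent.H453R2.JS.Spec

/-!
# The timed jobs are the jobs of the instance, in order and in time
-/

namespace Pool.Agent.H453R2.JS

namespace SCHA

variable {nq nc : ℕ} {w : List Tr}

theorem nact_perm {w T : List Tr} (h : w.Perm T) (a : Act) : nact a w = nact a T :=
  h.countP_eq _

theorem kjs_perm {w T : List Tr} (h : w.Perm T) : kjs nc w = kjs nc T := by
  unfold kjs
  simp only [nact_perm h]

theorem sT_zero : sT nq nc w 0 = 0 := by simp [sT]

theorem sT_step {a x : ℕ} (h : (cBs nq nc :: w.map (cBe nq nc))[a]? = some x) :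
    sT nq nc w (a + 1) = sT nq nc w a + x := by
  unfold sT
  rw [List.take_add_one, h]
  simp

theorem sT_top (a : ℕ) (h : w.length + 1 ≤ a) :
    sT nq nc w a = cBs nq nc + (w.map (cBe nq nc)).sum := by
  unfold sT
  rw [List.take_of_length_le (by simpa using h), List.sum_cons]

theorem sT_mono {a b : ℕ} (h : a ≤ b) : sT nq nc w a ≤ sT nq nc w b := by
  induction b, h using Nat.le_induction with
  | base => exact le_rfl
  | succ b _ ih =>
    refine ih.trans ?_
    rcases hb : (cBs nq nc :: w.map (cBe nq nc))[b]? with _ | x
    · unfold sT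
      rw [List.take_add_one, hb]
      simp
    · rw [sT_step hb]
      omega

theorem sT_le (a : ℕ) : sT nq nc w a ≤ sT nq nc w (w.length + 1) := by
  rcases le_total a (w.length + 1) with h | h
  · exact sT_mono h
  · rw [sT_top a h, sT_top _ le_rfl]

theorem sT_tr {a : ℕ} {t : Tr} (h : w[a]? = some t) :
    sT nq nc w (a + 2) = sT nq nc w (a + 1) + cBe nq nc t := by
  apply sT_step
  simp [h]

theorem sT_one : sT nq nc w 1 = cBs nq nc := by
  have := sT_step (nq := nq) (nc := nc) (w := w) (a := 0) (x := cBs nq nc) (by simp)
  rw [sT_zero] at this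
  simpa using this

/-- the states along a walk -/
theorem walk_states : ∀ (w : List Tr) (q r : ℕ), IsWalk q r w →
    (∀ (a : ℕ) (t : Tr), w[a]? = some t → (q :: w.map (fun t => t.2.2))[a]? = some t.1) ∧
      (q :: w.map (fun t => t.2.2))[w.length]? = some r := by
  intro w
  induction w with
  | nil =>
    intro q r h
    have h' : q = r := h
    refine ⟨fun a t ht => by simp at ht, by simp [h']⟩
  | cons t w ih =>
    intro q r h
    have h' : t.1 = q ∧ IsWalk t.2.2 r w := h
    obtain ⟨h1, h2⟩ := ih t.2.2 r h'.2
    refine ⟨?_, ?_⟩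
    · intro a s hs
      cases a with
      | zero =>
        simp only [List.getElem?_cons_zero, Option.some.injEq] at hs
        subst hs
        simp [h'.1]
      | succ a =>
        simp only [List.getElem?_cons_succ] at hs
        have := h1 a s hs
        simpa using this
    · simpa using h2

theorem cAl_zero : cAl nq nc 0 = cB nq nc := by simp [cAl]

theorem cB_le_cAl (q : ℕ) : cB nq nc ≤ cAl nq nc q := by simp [cAl]

theorem cAl_le {q : ℕ} (h : q < nq) : cAl nq nc q ≤ cB nq nc + cE nq nc := by
  unfold cAl cE
  have := Nat.mul_le_mul_left (cW nc) h.le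
  omega

theorem cB_le_cKa (a : Act) : cB nq nc ≤ cKa nq nc a := by
  unfold cKa
  split <;> omega

theorem cKa_le (hq : 0 < nq) (a : Act) (h : ∀ j b, a = some (j, b) → j < nc) :
    cKa nq nc a ≤ cB nq nc + cE nq nc := by
  have h1 : cW nc ≤ cE nq nc := by
    unfold cE
    exact Nat.le_mul_of_pos_right _ hq
  have h2 : cW nc = 2 * nc + 1 := rfl
  rcases a with _ | ⟨j, b⟩
  · simp [cKa]
  · have := h j b rfl
    cases b <;> simp only [cKa] <;> omega

/-- the frame number `a`, with the state `p` at its end -/
theorem frame {a p : ℕ} (h : ((0 : ℕ) :: w.map (fun t => t.2.2))[a]? = some p) :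
    sT nq nc w (a + 1) = sT nq nc w a + 1 + kap nq nc w a + cAl nq nc p := by
  cases a with
  | zero =>
    simp only [List.getElem?_cons_zero, Option.some.injEq] at h
    subst h
    rw [Nat.zero_add, sT_one, sT_zero]
    simp [kap, acts, cKa, cBs]
  | succ a =>
    simp only [List.getElem?_cons_succ, List.getElem?_map, Option.map_eq_some_iff] at h
    obtain ⟨t, ht, rfl⟩ := h
    have h1 := sT_tr (nq := nq) (nc := nc) ht
    have h2 : kap nq nc w (a + 1) = cKa nq nc t.2.1 := by
      simp [kap, acts, List.getD_cons_succ, List.getD_eq_getElem?_getD, ht]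
    rw [show a + 1 + 1 = a + 2 from rfl, h1, h2]
    simp only [cBe]
    omega

/-- everything about the frame number `a` -/
theorem frame_bds (hq : 0 < nq) (htgt : ∀ t ∈ w, t.2.2 < nq)
    (hcnt : ∀ t ∈ w, ∀ j b, t.2.1 = some (j, b) → j < nc) {a : ℕ} (ha : a ≤ w.length) :
    sT nq nc w a + (1 + 2 * cB nq nc) ≤ sT nq nc w (a + 1) ∧
      sT nq nc w (a + 1) ≤ sT nq nc w a + cMax nq nc := by
  have h0 : a < ((0 : ℕ) :: w.map (fun t => t.2.2)).length := by
    simp
    omega
  have h1 := List.getElem?_eq_getElem h0
  set p := ((0 : ℕ) :: w.map (fun t => t.2.2))[a] with hp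
  have h2 := frame (nq := nq) (nc := nc) h1
  have hpn : p < nq := by
    have hm : p ∈ ((0 : ℕ) :: w.map (fun t => t.2.2)) := List.getElem_mem h0
    rcases List.mem_cons.1 hm with h | h
    · omega
    · obtain ⟨t, ht, e⟩ := List.mem_map.1 h
      rw [← e]
      exact htgt t ht
  have h3 := cB_le_cAl (nq := nq) (nc := nc) p
  have h4 := cAl_le (nc := nc) hpn
  have h5 : cB nq nc ≤ kap nq nc w a := cB_le_cKa _
  have h6 : kap nq nc w a ≤ cB nq nc + cE nq nc := by
    refine cKa_le hq _ ?_
    intro j b hjb
    have hlen : a < (acts w).length := by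
      simp [acts]
      omega
    rw [List.getD_eq_getElem _ _ hlen] at hjb
    have hm : (acts w)[a] ∈ acts w := List.getElem_mem hlen
    rw [hjb] at hm
    rcases List.mem_cons.1 hm with h | h
    · exact absurd h (by simp)
    · obtain ⟨t, ht, e⟩ := List.mem_map.1 h
      exact hcnt t ht j b e
  have h7 : cMax nq nc = 1 + 2 * cB nq nc + 2 * cE nq nc := rfl
  omega

theorem acts_lt {a : ℕ} {x : Act} (h : (acts w)[a]? = some x) : a ≤ w.length := by
  have := (List.getElem?_eq_some_iff.1 h).1
  simp [acts] at this
  omega

theorem acts_cnt (hcnt : ∀ t ∈ w, ∀ j b, t.2.1 = some (j, b) → j < nc) {a : ℕ} {x : Act}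
    (h : (acts w)[a]? = some x) : ∀ j b, x = some (j, b) → j < nc := by
  intro j b hx
  subst hx
  have hm := List.mem_of_getElem? h
  rcases List.mem_cons.1 hm with h | h
  · exact absurd h (by simp)
  · obtain ⟨t, ht, e⟩ := List.mem_map.1 h
    exact hcnt t ht j b e

theorem part1 {T : List Tr} {A : List (KJ × ℕ × ℕ)} (hw : w.Perm T) (hA : Asg nc w A) :
    ((tjobs nq nc w A).map (List.map Prod.fst)).Perm (inst nq nc T) := by
  unfold tjobs inst
  rw [List.map_append, List.map_append]
  have h1 : (tjS nq nc w).map (List.map Prod.fst) = specials nq nc := by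
    simp [tjS, specials]
  have h2 : (w.zipIdx.map (fun ta => tjT nq nc w ta.1 ta.2)).map (List.map Prod.fst) =
      w.map (jobT nq nc) := by
    rw [List.map_map]
    have e : (List.map Prod.fst ∘ fun ta : Tr × ℕ => tjT nq nc w ta.1 ta.2) =
        (jobT nq nc) ∘ Prod.fst := by
      funext ta
      simp [tjT, jobT]
    rw [e, ← List.map_map, List.zipIdx_map_fst]
  have h3 : (A.map (tjK nq nc w)).map (List.map Prod.fst) =
      (A.map Prod.fst).map (kjob nq nc) := by
    rw [List.map_map, List.map_map]
    have e : (List.map Prod.fst ∘ tjK nq nc w) = (kjob nq nc) ∘ Prod.fst := by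
      funext ⟨k, a, b⟩
      cases k <;> simp [tjK, kjob]
    rw [e]
  rw [h1, h2, h3, ← kjs_perm hw]
  exact (List.Perm.refl _).append ((hw.map _).append (hA.perm.map _))

end SCHA

open SCHA in
theorem SCHA_holds : S_SCHA := by
  intro nq nc T w A hG hw hW hA
  have hq := hG.pos
  have htgt : ∀ t ∈ w, t.2.2 < nq := fun t ht => hG.tgt t (hw.mem_iff.1 ht)
  have hcnt : ∀ t ∈ w, ∀ j b, t.2.1 = some (j, b) → j < nc :=
    fun t ht => hG.cnt t (hw.mem_iff.1 ht)
  have hfr := fun {a : ℕ} (ha : a ≤ w.length) => frame_bds hq htgt hcnt ha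
  obtain ⟨hst1, hst2⟩ := walk_states w 0 0 hW
  have cMu_def : cMu nq nc = 1 + 3 * cE nq nc := rfl
  have cB_def : cB nq nc = 4 * cE nq nc + 4 := rfl
  have cMax_def : cMax nq nc = 1 + 2 * cB nq nc + 2 * cE nq nc := rfl
  have cEnd_def : cEnd nq nc = cMax nq nc + 1 - cMu nq nc := rfl
  have cBs_def : cBs nq nc = 1 + 2 * cB nq nc := by
    have : cBs nq nc = 1 + cB nq nc + cAl nq nc 0 := rfl
    rw [this, cAl_zero]
    omega
  have hbound : bound nq nc T = sT nq nc w (w.length + 1) + cEnd nq nc := by
    have h1 : (T.map (cBe nq nc)).sum = (w.map (cBe nq nc)).sum := ((hw.map _).sum_eq).symm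
    unfold bound
    rw [sT_top _ le_rfl, h1]
    omega
  have hend := frame (nq := nq) (nc := nc) hst2
  have hone := sT_one (nq := nq) (nc := nc) (w := w)
  have hle1 := sT_le (nq := nq) (nc := nc) (w := w) 1
  -- the action operations
  have hact : ∀ {a : ℕ} {x : Act}, (acts w)[a]? = some x →
      cKa nq nc x ≤ cB nq nc + cE nq nc ∧
        sT nq nc w a + (1 + 2 * cB nq nc) ≤ sT nq nc w (a + 1) ∧
        sT nq nc w (a + 1) ≤ sT nq nc w (w.length + 1) := by
    intro a x h
    exact ⟨cKa_le hq _ (acts_cnt hcnt h), (hfr (acts_lt h)).1, sT_le _⟩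
  refine ⟨part1 hw hA, ?_, ?_⟩
  · intro x hx
    unfold tjobs at hx
    rw [List.mem_append, List.mem_append] at hx
    rcases hx with hx | hx | hx
    · simp only [tjS, List.mem_cons, List.not_mem_nil, or_false] at hx
      rcases hx with rfl | rfl | rfl | rfl | rfl
      · simp only [List.isChain_cons_cons, List.isChain_singleton, and_true]
        omega
      · simp only [List.isChain_cons_cons, List.isChain_singleton, and_true]
        omega
      · simp only [List.isChain_singleton]
      · simp only [List.isChain_cons_cons, List.isChain_singleton, and_true]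
        omega
      · simp only [List.isChain_singleton]
    · obtain ⟨⟨t, a⟩, hta, rfl⟩ := List.mem_map.1 hx
      have hwa : w[a]? = some t := List.mem_zipIdx_iff_getElem?.1 hta
      have ha : a < w.length := (List.getElem?_eq_some_iff.1 hwa).1
      have e1 := frame (nq := nq) (nc := nc) (hst1 a t hwa)
      have e2 := sT_tr (nq := nq) (nc := nc) hwa
      have e3 := (hfr (a := a + 1) (by omega)).2
      rw [show a + 1 + 1 = a + 2 from rfl] at e3
      simp only [tjT, List.isChain_cons_cons, List.isChain_singleton, and_true]
      omega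
    · obtain ⟨⟨k, a, b⟩, hk, rfl⟩ := List.mem_map.1 hx
      have hok := hA.ok _ hk
      cases k with
      | full j =>
        obtain ⟨h1, h2, h3⟩ := hok
        have e1 := hact h1
        have e2 := hact h2
        have hb := acts_lt h2
        have e3 := (hfr (a := a + 1) (by omega)).1
        have e4 : sT nq nc w (a + 1 + 1) ≤ sT nq nc w b := sT_mono (by omega)
        simp only [tjK, List.isChain_cons_cons, List.isChain_singleton, and_true]
        omega
      | inc j =>
        have h1 : (acts w)[a]? = some (some (j, true)) := hok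
        have e1 := hact h1
        simp only [tjK, List.isChain_cons_cons, List.isChain_singleton, and_true]
        omega
      | dum =>
        have h1 : (acts w)[a]? = some none := hok
        have e1 := hact h1
        simp only [tjK, List.isChain_cons_cons, List.isChain_singleton, and_true]
        omega
  · intro x hx u hu
    rw [hbound]
    unfold tjobs at hx
    rw [List.mem_append, List.mem_append] at hx
    rcases hx with hx | hx | hx
    · simp only [tjS, List.mem_cons, List.not_mem_nil, or_false] at hx
      rcases hx with rfl | rfl | rfl | rfl | rfl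
      · simp only [List.mem_cons, List.not_mem_nil, or_false] at hu
        rcases hu with rfl | rfl | rfl <;> simp only <;> omega
      · simp only [List.mem_cons, List.not_mem_nil, or_false] at hu
        rcases hu with rfl | rfl <;> simp only <;> omega
      · simp only [List.mem_cons, List.not_mem_nil, or_false] at hu
        subst hu
        simp only
        omega
      · simp only [List.mem_cons, List.not_mem_nil, or_false] at hu
        rcases hu with rfl | rfl <;> simp only <;> omega
      · simp only [List.mem_cons, List.not_mem_nil, or_false] at hu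
        subst hu
        simp only
        omega
    · obtain ⟨⟨t, a⟩, hta, rfl⟩ := List.mem_map.1 hx
      have hwa : w[a]? = some t := List.mem_zipIdx_iff_getElem?.1 hta
      have ha : a < w.length := (List.getElem?_eq_some_iff.1 hwa).1
      have e1 := frame (nq := nq) (nc := nc) (hst1 a t hwa)
      have e2 := sT_tr (nq := nq) (nc := nc) hwa
      have e3 := (hfr (a := a + 1) (by omega)).1
      rw [show a + 1 + 1 = a + 2 from rfl] at e3
      have e4 := sT_le (nq := nq) (nc := nc) (w := w) (a + 2)
      simp only [tjT, List.mem_cons, List.not_mem_nil, or_false] at hu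
      rcases hu with rfl | rfl | rfl | rfl <;> simp only <;> omega
    · obtain ⟨⟨k, a, b⟩, hk, rfl⟩ := List.mem_map.1 hx
      have hok := hA.ok _ hk
      cases k with
      | full j =>
        obtain ⟨h1, h2, h3⟩ := hok
        have e1 := hact h1
        have e2 := hact h2
        simp only [tjK, List.mem_cons, List.not_mem_nil, or_false] at hu
        rcases hu with rfl | rfl | rfl | rfl <;> simp only <;> omega
      | inc j =>
        have h1 : (acts w)[a]? = some (some (j, true)) := hok
        have e1 := hact h1
        simp only [tjK, List.mem_cons, List.not_mem_nil, or_false] at hu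
        rcases hu with rfl | rfl <;> simp only <;> omega
      | dum =>
        have h1 : (acts w)[a]? = some none := hok
        have e1 := hact h1
        simp only [tjK, List.mem_cons, List.not_mem_nil, or_false] at hu
        rcases hu with rfl | rfl <;> simp only <;> omega

end Pool.Agent.H453R2.JS
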