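import Pool.Agent.H453R2.JS.Spec

set_option autoImplicit false

namespace Pool.Agent.H453R2.JS

namespace SCHB

/-- frame lengths -/
def fl (nq nc : ℕ) (w : List Tr) (a : ℕ) : ℕ := (cBs nq nc :: w.map (cBe nq nc)).getD a 0

/-- targets -/
def tgt (w : List Tr) (a : ℕ) : ℕ := ((0 : ℕ) :: w.map (fun t => t.2.2)).getD a 0

/-- the operation with a given label (machine, frame, number) -/
def op (nq nc : ℕ) (w : List Tr) (l : ℕ × ℕ × ℕ) : TOp :=
  if l.1 = 0 then
    (if l.2.2 = 0 then ((0, 1), sT nq nc w l.2.1)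
    else if l.2.2 = 1 then
      (if l.2.1 ≤ w.length then ((0, kap nq nc w l.2.1), sT nq nc w l.2.1 + 1)
        else ((0, cMax nq nc - cMu nq nc), sT nq nc w l.2.1 + 1))
    else ((0, cAl nq nc (tgt w l.2.1)), sT nq nc w l.2.1 + 1 + kap nq nc w l.2.1))
  else if l.1 = 1 then
    (if l.2.1 = 0 then (if l.2.2 = 0 then ((1, 1), 0) else ((1, cMax nq nc - cMu nq nc), 1))
    else if l.2.2 = 0 then
      ((1, cMu nq nc), sT nq nc w (l.2.1 - 1) + (cMax nq nc + 1 - cMu nq nc))
    else ((1, fl nq nc w (l.2.1 - 1) - cMu nq nc), sT nq nc w (l.2.1 - 1) + (cMax nq nc + 1)))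
  else
    (if l.2.1 ≤ w.length then ((2, fl nq nc w l.2.1), sT nq nc w l.2.1)
      else ((2, cEnd nq nc), sT nq nc w l.2.1))

/-- labels of a transition job -/
def gl (a : ℕ) : List (ℕ × ℕ × ℕ) := [(0, a, 2), (2, a + 1, 0), (0, a + 2, 0), (1, a + 2, 1)]

/-- labels of an action -/
def fa (a : ℕ) : List (ℕ × ℕ × ℕ) := [(0, a, 1), (1, a + 1, 0)]

/-- labels of the special jobs -/
def spl (n : ℕ) : List (ℕ × ℕ × ℕ) :=
  [(2, 0, 0), (0, 1, 0), (1, 1, 1), (0, 0, 0), (1, 0, 1), (1, 0, 0), (0, n, 2), (2, n + 1, 0),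
    (0, n + 1, 1)]

/-- all labels -/
def lab (n : ℕ) : List (ℕ × ℕ × ℕ) :=
  spl n ++ ((List.range n).flatMap gl ++ (List.range (n + 1)).flatMap fa)

lemma lab_nodup (n : ℕ) : (lab n).Nodup := by
  unfold lab
  rw [List.nodup_append, List.nodup_append]
  refine ⟨?_, ⟨?_, ?_, ?_⟩, ?_⟩
  · simp [spl]
  · rw [List.nodup_flatMap]
    refine ⟨fun a _ => by simp [gl], ?_⟩
    refine (List.nodup_range).imp ?_
    intro a b hab
    simp only [Function.onFun, List.disjoint_left, gl]
    simp
    omega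
  · rw [List.nodup_flatMap]
    refine ⟨fun a _ => by simp [fa], ?_⟩
    refine (List.nodup_range).imp ?_
    intro a b hab
    simp only [Function.onFun, List.disjoint_left, fa]
    simp
    omega
  · intro x hx y hy
    simp only [List.mem_flatMap, List.mem_range, gl, fa] at hx hy
    obtain ⟨a, ha, hx⟩ := hx
    obtain ⟨b, hb, hy⟩ := hy
    simp at hx hy
    rcases hx with rfl | rfl | rfl | rfl <;> rcases hy with rfl | rfl <;> simp
  · intro x hx y hy
    rw [List.mem_append] at hy
    simp only [List.mem_flatMap, List.mem_range, gl, fa] at hy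
    simp [spl] at hx
    rcases hy with ⟨a, ha, hy⟩ | ⟨a, ha, hy⟩
    · simp at hy
      rcases hy with rfl | rfl | rfl | rfl <;>
        rcases hx with rfl | rfl | rfl | rfl | rfl | rfl | rfl | rfl | rfl <;> simp <;> omega
    · simp at hy
      rcases hy with rfl | rfl <;>
        rcases hx with rfl | rfl | rfl | rfl | rfl | rfl | rfl | rfl | rfl <;> simp <;> omega

lemma sT_succ (nq nc : ℕ) (w : List Tr) (a : ℕ) :
    sT nq nc w (a + 1) = sT nq nc w a + fl nq nc w a := by
  unfold sT fl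
  rw [List.take_add_one, List.sum_append]
  congr 1
  rw [List.getD_eq_getElem?_getD]
  cases ((cBs nq nc :: w.map (cBe nq nc))[a]?) <;> simp

lemma sT_zero (nq nc : ℕ) (w : List Tr) : sT nq nc w 0 = 0 := by simp [sT]

lemma sT_mono (nq nc : ℕ) (w : List Tr) : Monotone (sT nq nc w) :=
  monotone_nat_of_le_succ fun a => by rw [sT_succ]; omega

lemma fl_eq (nq nc : ℕ) (w : List Tr) (a : ℕ) (ha : a ≤ w.length) :
    fl nq nc w a = 1 + kap nq nc w a + cAl nq nc (tgt w a) := by
  unfold fl kap tgt acts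
  rcases a with _ | a
  · simp [cBs, cKa]
  · have h : a < w.length := by omega
    simp [cBe, List.getElem?_eq_getElem h]

lemma walk_src (w : List Tr) : ∀ q r, IsWalk q r w →
    (∀ a (h : a < w.length), (w[a]).1 = (q :: w.map (fun t => t.2.2)).getD a 0) ∧
    (q :: w.map (fun t => t.2.2)).getD w.length 0 = r := by
  induction w with
  | nil =>
    intro q r h
    refine ⟨fun a h => by simp at h, ?_⟩
    simpa [IsWalk] using h
  | cons t w ih =>
    intro q r h
    obtain ⟨h1, h2⟩ := h
    obtain ⟨h3, h4⟩ := ih _ _ h2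
    constructor
    · intro a ha
      rcases a with _ | a
      · simpa using h1
      · have := h3 a (by simpa using ha)
        simpa using this
    · simpa using h4

/-- validity of labels -/
lemma lab_valid (n : ℕ) {l : ℕ × ℕ × ℕ} (h : l ∈ lab n) :
    (l.1 = 0 ∧ (l.2.2 ≤ 1 ∧ l.2.1 ≤ n + 1 ∨ l.2.2 = 2 ∧ l.2.1 ≤ n)) ∨
    (l.1 = 1 ∧ l.2.2 ≤ 1 ∧ l.2.1 ≤ n + 1) ∨ (l.1 = 2 ∧ l.2.2 = 0 ∧ l.2.1 ≤ n + 1) := by
  unfold lab at h
  rw [List.mem_append, List.mem_append] at h
  simp only [List.mem_flatMap, List.mem_range, gl, fa, spl] at h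
  rcases h with h | ⟨a, ha, h⟩ | ⟨a, ha, h⟩
  · simp at h
    rcases h with rfl | rfl | rfl | rfl | rfl | rfl | rfl | rfl | rfl <;> simp
  · simp at h
    rcases h with rfl | rfl | rfl | rfl <;> simp <;> omega
  · simp at h
    rcases h with rfl | rfl <;> simp <;> omega

lemma cB_le_cKa (nq nc : ℕ) (a : Act) : cB nq nc ≤ cKa nq nc a := by
  rcases a with _ | ⟨j, b⟩
  · simp [cKa]
  · cases b <;> simp [cKa] <;> omega

lemma mu_le_fl (nq nc : ℕ) (w : List Tr) (a : ℕ) (ha : a ≤ w.length) :
    cMu nq nc ≤ fl nq nc w a := by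
  rw [fl_eq nq nc w a ha]
  have h1 : cB nq nc ≤ kap nq nc w a := cB_le_cKa _ _ _
  unfold cMu
  unfold cB at h1
  omega

lemma mu_le_max (nq nc : ℕ) : cMu nq nc ≤ cMax nq nc := by
  unfold cMu cMax cB
  omega

/-- disjointness for ordered labels -/
lemma op_lt (nq nc : ℕ) (w : List Tr) {l l' : ℕ × ℕ × ℕ} (h : l ∈ lab w.length)
    (h' : l' ∈ lab w.length) (hm : l.1 = l'.1)
    (hlt : l.2.1 < l'.2.1 ∨ (l.2.1 = l'.2.1 ∧ l.2.2 < l'.2.2)) :
    (op nq nc w l).2 + (op nq nc w l).1.2 ≤ (op nq nc w l').2 := by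
  obtain ⟨m, a, k⟩ := l
  obtain ⟨m', b, k'⟩ := l'
  have v := lab_valid _ h
  have v' := lab_valid _ h'
  simp only at hm hlt v v'
  subst hm
  rcases v with ⟨rfl, v⟩ | ⟨rfl, v⟩ | ⟨rfl, v⟩
  · -- machine 0
    have hk : k ≤ 2 := by omega
    have hk' : k' ≤ 2 := by omega
    rcases hlt with hab | ⟨rfl, hkk⟩
    · have ha : a ≤ w.length := by omega
      have h1 : (op nq nc w (0, a, k)).2 + (op nq nc w (0, a, k)).1.2 ≤ sT nq nc w (a + 1) := by
        rw [sT_succ, fl_eq nq nc w a ha]
        interval_cases k <;> simp [op, ha] <;> omega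
      have h2 : sT nq nc w (a + 1) ≤ sT nq nc w b := sT_mono nq nc w hab
      have h3 : sT nq nc w b ≤ (op nq nc w (0, b, k')).2 := by
        interval_cases k' <;> simp [op] 
        · split_ifs <;> simp
        · omega
      omega
    · by_cases ha : a ≤ w.length
      · interval_cases k <;> interval_cases k' <;> simp [op, ha] at hkk ⊢ <;> omega
      · interval_cases k <;> interval_cases k' <;> simp [op, ha] at hkk ⊢ <;> omega
  · -- machine 1
    have hk : k ≤ 1 := by omega
    have hk' : k' ≤ 1 := by omega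
    have hmm := mu_le_max nq nc
    rcases hlt with hab | ⟨rfl, hkk⟩
    · have ha : a ≤ w.length := by omega
      have h1 : (op nq nc w (1, a, k)).2 + (op nq nc w (1, a, k)).1.2 ≤
          sT nq nc w a + (cMax nq nc + 1 - cMu nq nc) := by
        rcases a with _ | a
        · rw [sT_zero]
          interval_cases k <;> simp [op] <;> omega
        · rw [sT_succ]
          have h5 := mu_le_fl nq nc w a (by omega)
          interval_cases k <;> simp [op] <;> omega
      have h2 : sT nq nc w a ≤ sT nq nc w (b - 1) := sT_mono nq nc w (by omega)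
      have h3 : sT nq nc w (b - 1) + (cMax nq nc + 1 - cMu nq nc) ≤ (op nq nc w (1, b, k')).2 := by
        have hb : b ≠ 0 := by omega
        interval_cases k' <;> simp [op, hb] <;> omega
      omega
    · have e1 : k = 0 := by omega
      have e2 : k' = 1 := by omega
      subst e1 e2
      rcases a with _ | a
      · simp [op]
      · simp [op]
        omega
  · -- machine 2
    rcases hlt with hab | ⟨rfl, hkk⟩
    · have ha : a ≤ w.length := by omega
      have h1 : (op nq nc w (2, a, k)).2 + (op nq nc w (2, a, k)).1.2 = sT nq nc w (a + 1) := by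
        rw [sT_succ]
        simp [op, ha]
      have h2 : sT nq nc w (a + 1) ≤ sT nq nc w b := sT_mono nq nc w hab
      have h3 : (op nq nc w (2, b, k')).2 = sT nq nc w b := by
        simp only [op]
        simp
        split_ifs <;> rfl
      omega
    · omega

lemma op_disj (nq nc : ℕ) (w : List Tr) {l l' : ℕ × ℕ × ℕ} (h : l ∈ lab w.length)
    (h' : l' ∈ lab w.length) (hne : l ≠ l') (hm : (op nq nc w l).1.1 = (op nq nc w l').1.1) :
    (op nq nc w l).2 + (op nq nc w l).1.2 ≤ (op nq nc w l').2 ∨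
    (op nq nc w l').2 + (op nq nc w l').1.2 ≤ (op nq nc w l).2 := by
  have hop : ∀ l ∈ lab w.length, (op nq nc w l).1.1 = l.1 := by
    intro l hl
    have v := lab_valid _ hl
    obtain ⟨m, a, k⟩ := l
    simp only at v
    rcases v with ⟨rfl, v⟩ | ⟨rfl, v⟩ | ⟨rfl, v⟩
    · simp only [op]
      simp
      split_ifs <;> rfl
    · simp only [op]
      simp
      split_ifs <;> rfl
    · simp only [op]
      simp
      split_ifs <;> rfl
  rw [hop l h, hop l' h'] at hm
  rcases lt_trichotomy l.2.1 l'.2.1 with h1 | h1 | h1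
  · exact Or.inl (op_lt nq nc w h h' hm (Or.inl h1))
  · rcases lt_trichotomy l.2.2 l'.2.2 with h2 | h2 | h2
    · exact Or.inl (op_lt nq nc w h h' hm (Or.inr ⟨h1, h2⟩))
    · exact absurd (Prod.ext hm (Prod.ext h1 h2)) hne
    · exact Or.inr (op_lt nq nc w h' h hm.symm (Or.inr ⟨h1.symm, h2⟩))
  · exact Or.inr (op_lt nq nc w h' h hm.symm (Or.inl h1))

lemma spl_eq (nq nc : ℕ) (w : List Tr) (hw : tgt w w.length = 0) :
    (tjS nq nc w).flatten = (spl w.length).map (op nq nc w) := by
  have e0 : cBs nq nc = fl nq nc w 0 := by simp [fl]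
  simp [tjS, spl, op, sT_zero, hw, e0]

lemma gl_eq (nq nc : ℕ) (w : List Tr) (hw : IsWalk 0 0 w) :
    (w.zipIdx.map (fun ta => tjT nq nc w ta.1 ta.2)).flatten =
      ((List.range w.length).flatMap gl).map (op nq nc w) := by
  have h1 : w.zipIdx.map (fun ta => tjT nq nc w ta.1 ta.2) =
      (List.range w.length).map (fun a => (gl a).map (op nq nc w)) := by
    apply List.ext_getElem
    · simp
    · intro a h1 h2
      have ha : a < w.length := by simpa using h1
      have hs := (walk_src w 0 0 hw).1 a ha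
      have hs' : (w[a]).1 = tgt w a := hs
      have hf : cBe nq nc (w[a]) = fl nq nc w (a + 1) := by
        simp [fl, List.getElem?_eq_getElem ha]
      have ha1 : a + 1 ≤ w.length := ha
      simp [tjT, gl, op, hs', hf]
      omega
  rw [h1, List.map_flatMap, List.flatMap_def]

lemma fa_eq (nq nc : ℕ) (w : List Tr) (x : KJ × ℕ × ℕ) (hx : kok w x) (hp : ∀ a ∈ kpos x, a ≤ w.length) :
    tjK nq nc w x = ((kpos x).flatMap fa).map (op nq nc w) := by
  obtain ⟨k, a, b⟩ := x
  cases k with
  | full j =>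
    obtain ⟨h1, h2, h3⟩ := hx
    have ha : a ≤ w.length := hp a (by simp [kpos])
    have hb : b ≤ w.length := hp b (by simp [kpos])
    have e1 : kap nq nc w a = cKa nq nc (some (j, true)) := by
      unfold kap; rw [List.getD_eq_getElem?_getD, h1]; rfl
    have e2 : kap nq nc w b = cKa nq nc (some (j, false)) := by
      unfold kap; rw [List.getD_eq_getElem?_getD, h2]; rfl
    simp [tjK, kpos, fa, op, ha, hb, e1, e2]
  | inc j =>
    have ha : a ≤ w.length := hp a (by simp [kpos])
    have e1 : kap nq nc w a = cKa nq nc (some (j, true)) := by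
      unfold kap; rw [List.getD_eq_getElem?_getD, hx]; rfl
    simp [tjK, kpos, fa, op, ha, e1]
  | dum =>
    have ha : a ≤ w.length := hp a (by simp [kpos])
    have e1 : kap nq nc w a = cKa nq nc none := by
      unfold kap; rw [List.getD_eq_getElem?_getD, hx]; rfl
    simp [tjK, kpos, fa, op, ha, e1]

lemma flat_perm (nq nc : ℕ) (w : List Tr) (A : List (KJ × ℕ × ℕ)) (hw : IsWalk 0 0 w)
    (hA : Asg nc w A) :
    (tjobs nq nc w A).flatten.Perm ((lab w.length).map (op nq nc w)) := by
  unfold tjobs lab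
  rw [List.flatten_append, List.flatten_append, List.map_append, List.map_append,
    spl_eq nq nc w (walk_src w 0 0 hw).2, gl_eq nq nc w hw]
  apply List.Perm.append_left
  apply List.Perm.append_left
  have hmem : ∀ x ∈ A, ∀ a ∈ kpos x, a ≤ w.length := by
    intro x hx a ha
    have : a ∈ A.flatMap kpos := List.mem_flatMap.mpr ⟨x, hx, ha⟩
    have := hA.pos.mem_iff.mp this
    rw [List.mem_range] at this
    omega
  have h1 : (A.map (tjK nq nc w)).flatten = ((A.flatMap kpos).flatMap fa).map (op nq nc w) := by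
    rw [List.flatMap_assoc, List.map_flatMap, ← List.flatMap_def]
    apply List.flatMap_congr
    intro x hx
    exact fa_eq nq nc w x (hA.ok x hx) (hmem x hx)
  rw [h1]
  apply List.Perm.map
  exact hA.pos.flatMap_right _

end SCHB

theorem SCHB_holds : S_SCHB := by
  intro nq nc T w A _ _ hw hA
  have h := SCHB.flat_perm nq nc w A hw hA
  have hsymm : ∀ {u v : TOp}, (u.1.1 = v.1.1 → u.2 + u.1.2 ≤ v.2 ∨ v.2 + v.1.2 ≤ u.2) →
      (v.1.1 = u.1.1 → v.2 + v.1.2 ≤ u.2 ∨ u.2 + u.1.2 ≤ v.2) := by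
    intro u v h1 h2
    exact (h1 h2.symm).symm
  rw [h.pairwise_iff hsymm, List.pairwise_map]
  refine (SCHB.lab_nodup w.length).pairwise_of_forall_ne ?_
  intro l hl l' hl' hne hm
  exact SCHB.op_disj nq nc w hl hl' hne hm

end Pool.Agent.H453R2.JS
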