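import Pool.Agent.H453R2.JS.Spec

/-!
# SIM: correctness of the simulation
-/

namespace Pool.Agent.H453R2.JS.SIM

open Pool.Agent.H453R2.JS Relation

theorem pl_iff {k k' i i' : ℕ} (hk : k < 12) (hk' : k' < 12) :
    pl k i = pl k' i' ↔ k = k' ∧ i = i' := by
  unfold pl
  constructor
  · intro h
    omega
  · rintro ⟨rfl, rfl⟩
    rfl

theorem pl_inj (k : ℕ) : Function.Injective (pl k) := by
  intro i i' h
  unfold pl at h
  omega

theorem cnt_same (k i : ℕ) (l : List ℕ) : (l.map (pl k)).count (pl k i) = l.count i :=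
  List.count_map_of_injective l (pl k) (pl_inj k) i

theorem cnt_ne {k k' : ℕ} (i : ℕ) (l : List ℕ) (hk : k < 12) (hk' : k' < 12) (h : k ≠ k') :
    (l.map (pl k)).count (pl k' i) = 0 := by
  rw [List.count_eq_zero]
  intro hm
  obtain ⟨a, -, ha⟩ := List.mem_map.1 hm
  exact h ((pl_iff hk hk').1 ha).1

/-- the places which carry the control token -/
def Tok (m : ℕ → ℕ) (kd num : ℕ) : Prop :=
  ∀ k i, k < 3 → m (pl k i) = if k = kd ∧ i = num then 1 else 0

/-- the reachability statement -/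
def Rch (D : List CRule) (v0 : List ℕ) (m : ℕ → ℕ) (p : ℕ) : Prop :=
  ReflTransGen (CStep D) (cfg0 0 v0) (p, fun j => m (pl 3 j))

/-- the control part of the invariant -/
def Ctl (D : List CRule) (v0 : List ℕ) (C : ℕ) (m : ℕ → ℕ) : Prop :=
  (∃ p, Tok m 0 p ∧ m (pl 11 0) ≤ m (pl 10 0) * C ∧
    (m (pl 11 0) = m (pl 10 0) * C → Rch D v0 m p)) ∨
  (∃ t q j q' e, Tok m 1 t ∧ D[t]? = some (q, Sum.inr j, q') ∧ m (pl 10 0) = e + 1 ∧
    m (pl 11 0) ≤ e * C + m (pl 5 j) ∧
    (m (pl 11 0) = e * C + m (pl 5 j) → Rch D v0 m q)) ∨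
  (∃ t q j q', Tok m 2 t ∧ D[t]? = some (q, Sum.inr j, q') ∧
    m (pl 11 0) ≤ m (pl 10 0) * C ∧
    (m (pl 11 0) = m (pl 10 0) * C → Rch D v0 m q ∧ m (pl 3 j) = 0))

/-- the invariant -/
structure Iv (nc : ℕ) (D : List CRule) (v0 : List ℕ) (C Z : ℕ) (m : ℕ → ℕ) : Prop where
  sum : ∀ j, j < nc → m (pl 3 j) + m (pl 4 j) + m (pl 5 j) = C
  out : ∀ j, nc ≤ j → m (pl 3 j) = 0
  tot : m (pl 10 0) + m (pl 9 0) = Z
  ctl : Ctl D v0 C m

theorem Tok.uniq {m : ℕ → ℕ} {kd num k i : ℕ} (h : Tok m kd num) (hk : k < 3)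
    (h1 : 1 ≤ m (pl k i)) : k = kd ∧ i = num := by
  rw [h k i hk] at h1
  by_contra hcon
  rw [if_neg hcon] at h1
  omega

theorem Rch.congr {D : List CRule} {v0 : List ℕ} {m m' : ℕ → ℕ} {p : ℕ}
    (h : Rch D v0 m p) (hm : ∀ j, m' (pl 3 j) = m (pl 3 j)) : Rch D v0 m' p := by
  unfold Rch at h ⊢
  have : (fun j => m' (pl 3 j)) = fun j => m (pl 3 j) := funext hm
  rw [this]; exact h

theorem init {ns nc : ℕ} {D : List CRule} {v0 : List ℕ} {C Z : ℕ} (hv : v0.length ≤ nc)
    (hC : ∀ j, v0.getD j 0 ≤ C) : Iv nc D v0 C Z (mk0 nc v0 C Z) := by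
  have e3 : ∀ j, mk0 nc v0 C Z (pl 3 j) = v0.getD j 0 := by
    intro j
    unfold mk0
    rw [if_neg (by rw [pl_iff (by norm_num) (by norm_num)]; omega),
      if_neg (by rw [pl_iff (by norm_num) (by norm_num)]; omega)]
    have h1 : pl 3 j % 12 = 3 := by unfold pl; omega
    have h2 : pl 3 j / 12 = j := by unfold pl; omega
    rw [h1, h2]
    by_cases hj : j < nc
    · rw [if_pos ⟨rfl, hj⟩]
    · rw [if_neg (by tauto), if_neg (by omega)]
      rw [List.getD_eq_default _ _ (by omega)]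
  have e4 : ∀ j, j < nc → mk0 nc v0 C Z (pl 4 j) = C - v0.getD j 0 := by
    intro j hj
    unfold mk0
    rw [if_neg (by rw [pl_iff (by norm_num) (by norm_num)]; omega),
      if_neg (by rw [pl_iff (by norm_num) (by norm_num)]; omega)]
    have h1 : pl 4 j % 12 = 4 := by unfold pl; omega
    have h2 : pl 4 j / 12 = j := by unfold pl; omega
    rw [h1, h2, if_neg (by omega), if_pos ⟨rfl, hj⟩]
  have e0 : ∀ k i, k < 12 → k ≠ 3 → k ≠ 4 → k ≠ 9 → (k ≠ 0 ∨ i ≠ 0) →
      mk0 nc v0 C Z (pl k i) = 0 := by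
    intro k i hk h3 h4 h9 h0
    unfold mk0
    rw [if_neg (by rw [pl_iff hk (by norm_num)]; omega),
      if_neg (by rw [pl_iff hk (by norm_num)]; omega)]
    have h1 : pl k i % 12 = k := by unfold pl; omega
    rw [h1, if_neg (by omega), if_neg (by omega)]
  have e00 : mk0 nc v0 C Z (pl 0 0) = 1 := by
    unfold mk0
    rw [if_pos rfl]
  have e9 : mk0 nc v0 C Z (pl 9 0) = Z := by
    unfold mk0
    rw [if_neg (by rw [pl_iff (by norm_num) (by norm_num)]; omega), if_pos rfl]
  refine ⟨?_, ?_, ?_, ?_⟩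
  · intro j hj
    rw [e3, e4 j hj, e0 5 j (by norm_num) (by norm_num) (by norm_num) (by norm_num) (by omega)]
    have := hC j
    omega
  · intro j hj
    rw [e3, List.getD_eq_default _ _ (by omega)]
  · rw [e9, e0 10 0 (by norm_num) (by norm_num) (by norm_num) (by norm_num) (by omega)]
    omega
  · left
    refine ⟨0, ?_, ?_, ?_⟩
    · intro k i hk
      split_ifs with h
      · obtain ⟨rfl, rfl⟩ := h
        exact e00
      · exact e0 k i (by omega) (by omega) (by omega) (by omega) (by omega)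
    · rw [e0 11 0 (by norm_num) (by norm_num) (by norm_num) (by norm_num) (by omega)]
      omega
    · intro _
      unfold Rch cfg0
      have : (fun j => mk0 nc v0 C Z (pl 3 j)) = fun j => v0.getD j 0 := funext e3
      rw [this]

/-- the addition rules -/
theorem step_add {ns nc : ℕ} {D : List CRule} {v0 : List ℕ} {C Z : ℕ} {m : ℕ → ℕ}
    (hD : GoodC ns nc D) (hI : Iv nc D v0 C Z m) {q q' : ℕ} {pre post : List ℕ}
    (hr : (q, Sum.inl (pre, post), q') ∈ D) (N : ℕ)
    (hen : ∀ p, (pl 0 q :: (pre.map (pl 3) ++ post.map (pl 4))).count p ≤ m p) :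
    Iv nc D v0 C Z (useR (pl 0 q :: (pre.map (pl 3) ++ post.map (pl 4)),
      pl 0 q' :: (post.map (pl 3) ++ pre.map (pl 4)), N) m) := by
  have c0 : ∀ (l l' : List ℕ) (x i : ℕ),
      (pl 0 x :: (l.map (pl 3) ++ l'.map (pl 4))).count (pl 0 i) = if x = i then 1 else 0 := by
    intro l l' x i
    rw [List.count_cons, List.count_append, cnt_ne i l (by norm_num) (by norm_num) (by norm_num),
      cnt_ne i l' (by norm_num) (by norm_num) (by norm_num)]
    simp [pl_iff]
  have c3 : ∀ (l l' : List ℕ) (x i : ℕ),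
      (pl 0 x :: (l.map (pl 3) ++ l'.map (pl 4))).count (pl 3 i) = l.count i := by
    intro l l' x i
    rw [List.count_cons, List.count_append, cnt_same,
      cnt_ne i l' (by norm_num) (by norm_num) (by norm_num)]
    simp [pl_iff]
  have c4 : ∀ (l l' : List ℕ) (x i : ℕ),
      (pl 0 x :: (l.map (pl 3) ++ l'.map (pl 4))).count (pl 4 i) = l'.count i := by
    intro l l' x i
    rw [List.count_cons, List.count_append, cnt_same,
      cnt_ne i l (by norm_num) (by norm_num) (by norm_num)]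
    simp [pl_iff]
  have co : ∀ (l l' : List ℕ) (x k i : ℕ), k < 12 → k ≠ 0 → k ≠ 3 → k ≠ 4 →
      (pl 0 x :: (l.map (pl 3) ++ l'.map (pl 4))).count (pl k i) = 0 := by
    intro l l' x k i hk h0 h3 h4
    rw [List.count_cons, List.count_append, cnt_ne i l (by norm_num) hk (Ne.symm h3),
      cnt_ne i l' (by norm_num) hk (Ne.symm h4)]
    have : pl 0 x ≠ pl k i := by
      rw [Ne, pl_iff (by norm_num) hk]; omega
    simp [this]
  set m' := useR (pl 0 q :: (pre.map (pl 3) ++ post.map (pl 4)),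
      pl 0 q' :: (post.map (pl 3) ++ pre.map (pl 4)), N) m with hm'
  have u0 : ∀ i, m' (pl 0 i) = m (pl 0 i) - (if q = i then 1 else 0) + (if q' = i then 1 else 0) := by
    intro i
    simp only [hm', useR]
    rw [c0, c0]
  have u3 : ∀ i, m' (pl 3 i) = m (pl 3 i) - pre.count i + post.count i := by
    intro i
    simp only [hm', useR]
    rw [c3, c3]
  have u4 : ∀ i, m' (pl 4 i) = m (pl 4 i) - post.count i + pre.count i := by
    intro i
    simp only [hm', useR]
    rw [c4, c4]
  have uo : ∀ k i, k < 12 → k ≠ 0 → k ≠ 3 → k ≠ 4 → m' (pl k i) = m (pl k i) := by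
    intro k i hk h0 h3 h4
    simp only [hm', useR]
    rw [co _ _ _ _ _ hk h0 h3 h4, co _ _ _ _ _ hk h0 h3 h4]
    omega
  have en3 : ∀ j, pre.count j ≤ m (pl 3 j) := by
    intro j; have := hen (pl 3 j); rwa [c3] at this
  have en4 : ∀ j, post.count j ≤ m (pl 4 j) := by
    intro j; have := hen (pl 4 j); rwa [c4] at this
  have en0 : 1 ≤ m (pl 0 q) := by
    have := hen (pl 0 q); rwa [c0, if_pos rfl] at this
  obtain ⟨-, -, hg⟩ := hD _ hr
  simp only at hg
  obtain ⟨hg1, hg2, -⟩ := hg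
  refine ⟨?_, ?_, ?_, ?_⟩
  · intro j hj
    rw [u3, u4, uo 5 j (by norm_num) (by norm_num) (by norm_num) (by norm_num)]
    have := hI.sum j hj
    have := en3 j
    have := en4 j
    omega
  · intro j hj
    have h1 : post.count j = 0 := by
      rw [List.count_eq_zero]
      intro h; have := hg2 j h; omega
    rw [u3, hI.out j hj, h1]
    omega
  · rw [uo 10 0 (by norm_num) (by norm_num) (by norm_num) (by norm_num),
      uo 9 0 (by norm_num) (by norm_num) (by norm_num) (by norm_num)]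
    exact hI.tot
  · have e10 := uo 10 0 (by norm_num) (by norm_num) (by norm_num) (by norm_num)
    have e11 := uo 11 0 (by norm_num) (by norm_num) (by norm_num) (by norm_num)
    rcases hI.ctl with ⟨p, ht, h1, h2⟩ | ⟨t, _, _, _, _, ht, _⟩ | ⟨t, _, _, _, ht, _⟩
    · obtain ⟨-, rfl⟩ := ht.uniq (by norm_num) en0
      left
      refine ⟨q', ?_, ?_, ?_⟩
      · intro k i hk
        rcases Nat.eq_zero_or_pos k with rfl | hk0
        · rw [u0, ht 0 i (by norm_num)]
          split_ifs <;> omega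
        · rw [uo k i (by omega) (by omega) (by omega) (by omega), ht k i hk,
            if_neg (by omega), if_neg (by omega)]
      · rw [e10, e11]; exact h1
      · rw [e10, e11]
        intro h
        refine ReflTransGen.tail (h2 h) ?_
        refine ⟨_, hr, rfl, rfl, ?_⟩
        simp only [CEff]
        exact ⟨en3, funext u3⟩
    · exact absurd (ht.uniq (by norm_num) en0).1 (by norm_num)
    · exact absurd (ht.uniq (by norm_num) en0).1 (by norm_num)

/-- first rule of a zero test -/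
theorem step_z1 {nc : ℕ} {D : List CRule} {v0 : List ℕ} {C Z : ℕ} {m : ℕ → ℕ}
    (hI : Iv nc D v0 C Z m) {t q j q' : ℕ}
    (hr : D[t]? = some (q, Sum.inr j, q')) (N : ℕ)
    (hen : ∀ p, ([pl 0 q, pl 9 0] : List ℕ).count p ≤ m p) :
    Iv nc D v0 C Z (useR ([pl 0 q, pl 9 0], [pl 1 t, pl 10 0], N) m) := by
  set m' := useR ([pl 0 q, pl 9 0], [pl 1 t, pl 10 0], N) m with hm'
  have en0 : 1 ≤ m (pl 0 q) := by
    have := hen (pl 0 q)
    simp [List.count_cons, pl_iff] at this
    omega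
  have en9 : 1 ≤ m (pl 9 0) := by
    have := hen (pl 9 0)
    simp [List.count_cons, pl_iff] at this
    omega
  have u : ∀ k i, k < 12 → m' (pl k i) = m (pl k i) - ((if 0 = k ∧ q = i then 1 else 0)
      + (if 9 = k ∧ 0 = i then 1 else 0))
      + ((if 1 = k ∧ t = i then 1 else 0) + (if 10 = k ∧ 0 = i then 1 else 0)) := by
    intro k i hk
    simp only [hm', useR, List.count_cons, List.count_nil, beq_iff_eq,
      pl_iff (show 0 < 12 by norm_num) hk, pl_iff (show 9 < 12 by norm_num) hk,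
      pl_iff (show 1 < 12 by norm_num) hk, pl_iff (show 10 < 12 by norm_num) hk]
    omega
  have u3 : ∀ i, m' (pl 3 i) = m (pl 3 i) := by intro i; rw [u 3 i (by norm_num)]; simp
  have u4 : ∀ i, m' (pl 4 i) = m (pl 4 i) := by intro i; rw [u 4 i (by norm_num)]; simp
  have u5 : ∀ i, m' (pl 5 i) = m (pl 5 i) := by intro i; rw [u 5 i (by norm_num)]; simp
  have u9 : m' (pl 9 0) = m (pl 9 0) - 1 := by rw [u 9 0 (by norm_num)]; simp
  have u10 : m' (pl 10 0) = m (pl 10 0) + 1 := by rw [u 10 0 (by norm_num)]; simp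
  have u11 : m' (pl 11 0) = m (pl 11 0) := by rw [u 11 0 (by norm_num)]; simp
  refine ⟨?_, ?_, ?_, ?_⟩
  · intro i hi; rw [u3, u4, u5]; exact hI.sum i hi
  · intro i hi; rw [u3]; exact hI.out i hi
  · rw [u9, u10]; have := hI.tot; omega
  · rcases hI.ctl with ⟨p, ht, h1, h2⟩ | ⟨t', _, _, _, _, ht, _⟩ | ⟨t', _, _, _, ht, _⟩
    · obtain ⟨-, rfl⟩ := ht.uniq (by norm_num) en0
      right; left
      refine ⟨t, q, j, q', m (pl 10 0), ?_, hr, u10, ?_, ?_⟩
      · intro k i hk
        rw [u k i (by omega), ht k i hk]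
        split_ifs <;> omega
      · rw [u11, u5]; omega
      · rw [u11, u5]
        intro h
        exact (h2 (by omega)).congr u3
    · exact absurd (ht.uniq (by norm_num) en0).1 (by norm_num)
    · exact absurd (ht.uniq (by norm_num) en0).1 (by norm_num)

/-- first loop of a zero test -/
theorem step_z2 {nc : ℕ} {D : List CRule} {v0 : List ℕ} {C Z : ℕ} {m : ℕ → ℕ}
    (hI : Iv nc D v0 C Z m) {t q j q' : ℕ}
    (hr : D[t]? = some (q, Sum.inr j, q')) (N : ℕ)
    (hen : ∀ p, ([pl 1 t, pl 4 j] : List ℕ).count p ≤ m p) :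
    Iv nc D v0 C Z (useR ([pl 1 t, pl 4 j], [pl 1 t, pl 5 j, pl 11 0], N) m) := by
  set m' := useR ([pl 1 t, pl 4 j], [pl 1 t, pl 5 j, pl 11 0], N) m with hm'
  have en1 : 1 ≤ m (pl 1 t) := by
    have := hen (pl 1 t)
    simp [List.count_cons, pl_iff] at this
    omega
  have en4 : 1 ≤ m (pl 4 j) := by
    have := hen (pl 4 j)
    simp [List.count_cons, pl_iff] at this
    omega
  have u : ∀ k i, k < 12 → m' (pl k i) = m (pl k i) - ((if 1 = k ∧ t = i then 1 else 0)
      + (if 4 = k ∧ j = i then 1 else 0))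
      + ((if 1 = k ∧ t = i then 1 else 0) + (if 5 = k ∧ j = i then 1 else 0)
        + (if 11 = k ∧ 0 = i then 1 else 0)) := by
    intro k i hk
    simp only [hm', useR, List.count_cons, List.count_nil, beq_iff_eq,
      pl_iff (show 1 < 12 by norm_num) hk, pl_iff (show 4 < 12 by norm_num) hk,
      pl_iff (show 5 < 12 by norm_num) hk, pl_iff (show 11 < 12 by norm_num) hk]
    omega
  have u3 : ∀ i, m' (pl 3 i) = m (pl 3 i) := by intro i; rw [u 3 i (by norm_num)]; simp
  have u4 : ∀ i, m' (pl 4 i) = m (pl 4 i) - (if j = i then 1 else 0) := by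
    intro i; rw [u 4 i (by norm_num)]; simp
  have u5 : ∀ i, m' (pl 5 i) = m (pl 5 i) + (if j = i then 1 else 0) := by
    intro i; rw [u 5 i (by norm_num)]; simp
  have u9 : m' (pl 9 0) = m (pl 9 0) := by rw [u 9 0 (by norm_num)]; simp
  have u10 : m' (pl 10 0) = m (pl 10 0) := by rw [u 10 0 (by norm_num)]; simp
  have u11 : m' (pl 11 0) = m (pl 11 0) + 1 := by rw [u 11 0 (by norm_num)]; simp
  refine ⟨?_, ?_, ?_, ?_⟩
  · intro i hi; rw [u3, u4, u5]
    have := hI.sum i hi
    split_ifs with h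
    · subst h; omega
    · omega
  · intro i hi; rw [u3]; exact hI.out i hi
  · rw [u9, u10]; exact hI.tot
  · rcases hI.ctl with ⟨p, ht, h1, h2⟩ | ⟨t', q1, j1, q1', e, ht, hd, he, h1, h2⟩ |
      ⟨t', _, _, _, ht, _⟩
    · exact absurd (ht.uniq (by norm_num) en1).1 (by norm_num)
    · obtain ⟨-, rfl⟩ := ht.uniq (by norm_num) en1
      rw [hr] at hd
      simp only [Option.some.injEq, Prod.mk.injEq, Sum.inr.injEq] at hd
      obtain ⟨rfl, rfl, rfl⟩ := hd
      right; left
      refine ⟨t, q, j, q', e, ?_, hr, by rw [u10]; exact he, ?_, ?_⟩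
      · intro k i hk
        rw [u k i (by omega), ht k i hk]
        split_ifs <;> omega
      · rw [u11, u5, if_pos rfl]; omega
      · rw [u11, u5, if_pos rfl]
        intro h
        exact (h2 (by omega)).congr u3
    · exact absurd (ht.uniq (by norm_num) en1).1 (by norm_num)

/-- switch to the second loop -/
theorem step_z3 {ns nc : ℕ} {D : List CRule} {v0 : List ℕ} {C Z : ℕ} {m : ℕ → ℕ}
    (hD : GoodC ns nc D) (hI : Iv nc D v0 C Z m) {t q j q' : ℕ}
    (hr : D[t]? = some (q, Sum.inr j, q')) (N : ℕ)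
    (hen : ∀ p, ([pl 1 t] : List ℕ).count p ≤ m p) :
    Iv nc D v0 C Z (useR ([pl 1 t], [pl 2 t], N) m) := by
  set m' := useR ([pl 1 t], [pl 2 t], N) m with hm'
  have en1 : 1 ≤ m (pl 1 t) := by
    have := hen (pl 1 t)
    simp [pl_iff] at this
    omega
  have u : ∀ k i, k < 12 → m' (pl k i) = m (pl k i) - (if 1 = k ∧ t = i then 1 else 0)
      + (if 2 = k ∧ t = i then 1 else 0) := by
    intro k i hk
    simp only [hm', useR, List.count_cons, List.count_nil, beq_iff_eq,
      pl_iff (show 1 < 12 by norm_num) hk, pl_iff (show 2 < 12 by norm_num) hk]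
    omega
  have uo : ∀ k i, k < 12 → 3 ≤ k → m' (pl k i) = m (pl k i) := by
    intro k i hk h3
    rw [u k i hk, if_neg (by omega), if_neg (by omega)]
    omega
  have hjn : j < nc := by
    have hmem : (q, Sum.inr j, q') ∈ D := List.mem_of_getElem? hr
    obtain ⟨-, -, hg⟩ := hD _ hmem
    exact hg
  refine ⟨?_, ?_, ?_, ?_⟩
  · intro i hi
    rw [uo 3 i (by norm_num) (by norm_num), uo 4 i (by norm_num) (by norm_num),
      uo 5 i (by norm_num) (by norm_num)]
    exact hI.sum i hi
  · intro i hi; rw [uo 3 i (by norm_num) (by norm_num)]; exact hI.out i hi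
  · rw [uo 9 0 (by norm_num) (by norm_num), uo 10 0 (by norm_num) (by norm_num)]; exact hI.tot
  · rcases hI.ctl with ⟨p, ht, h1, h2⟩ | ⟨t', q1, j1, q1', e, ht, hd, he, h1, h2⟩ |
      ⟨t', _, _, _, ht, _⟩
    · exact absurd (ht.uniq (by norm_num) en1).1 (by norm_num)
    · obtain ⟨-, rfl⟩ := ht.uniq (by norm_num) en1
      rw [hr] at hd
      simp only [Option.some.injEq, Prod.mk.injEq, Sum.inr.injEq] at hd
      obtain ⟨rfl, rfl, rfl⟩ := hd
      right; right
      have hsum := hI.sum j hjn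
      have hexp : m (pl 10 0) * C = e * C + C := by rw [he]; ring
      refine ⟨t, q, j, q', ?_, hr, ?_, ?_⟩
      · intro k i hk
        rw [u k i (by omega), ht k i hk]
        split_ifs <;> omega
      · rw [uo 11 0 (by norm_num) (by norm_num), uo 10 0 (by norm_num) (by norm_num), hexp]
        omega
      · rw [uo 11 0 (by norm_num) (by norm_num), uo 10 0 (by norm_num) (by norm_num), hexp,
          uo 3 j (by norm_num) (by norm_num)]
        intro h
        refine ⟨(h2 (by omega)).congr (fun i => uo 3 i (by norm_num) (by norm_num)), by omega⟩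
    · exact absurd (ht.uniq (by norm_num) en1).1 (by norm_num)

/-- second loop -/
theorem step_z4 {nc : ℕ} {D : List CRule} {v0 : List ℕ} {C Z : ℕ} {m : ℕ → ℕ}
    (hI : Iv nc D v0 C Z m) {t q j q' : ℕ}
    (hr : D[t]? = some (q, Sum.inr j, q')) (N : ℕ)
    (hen : ∀ p, ([pl 2 t, pl 5 j] : List ℕ).count p ≤ m p) :
    Iv nc D v0 C Z (useR ([pl 2 t, pl 5 j], [pl 2 t, pl 4 j], N) m) := by
  set m' := useR ([pl 2 t, pl 5 j], [pl 2 t, pl 4 j], N) m with hm'
  have en2 : 1 ≤ m (pl 2 t) := by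
    have := hen (pl 2 t)
    simp [List.count_cons, pl_iff] at this
    omega
  have en5 : 1 ≤ m (pl 5 j) := by
    have := hen (pl 5 j)
    simp [List.count_cons, pl_iff] at this
    omega
  have u : ∀ k i, k < 12 → m' (pl k i) = m (pl k i) - ((if 2 = k ∧ t = i then 1 else 0)
      + (if 5 = k ∧ j = i then 1 else 0))
      + ((if 2 = k ∧ t = i then 1 else 0) + (if 4 = k ∧ j = i then 1 else 0)) := by
    intro k i hk
    simp only [hm', useR, List.count_cons, List.count_nil, beq_iff_eq,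
      pl_iff (show 2 < 12 by norm_num) hk, pl_iff (show 4 < 12 by norm_num) hk,
      pl_iff (show 5 < 12 by norm_num) hk]
    omega
  have u3 : ∀ i, m' (pl 3 i) = m (pl 3 i) := by intro i; rw [u 3 i (by norm_num)]; simp
  have u4 : ∀ i, m' (pl 4 i) = m (pl 4 i) + (if j = i then 1 else 0) := by
    intro i; rw [u 4 i (by norm_num)]; simp
  have u5 : ∀ i, m' (pl 5 i) = m (pl 5 i) - (if j = i then 1 else 0) := by
    intro i; rw [u 5 i (by norm_num)]; simp
  have u9 : m' (pl 9 0) = m (pl 9 0) := by rw [u 9 0 (by norm_num)]; simp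
  have u10 : m' (pl 10 0) = m (pl 10 0) := by rw [u 10 0 (by norm_num)]; simp
  have u11 : m' (pl 11 0) = m (pl 11 0) := by rw [u 11 0 (by norm_num)]; simp
  refine ⟨?_, ?_, ?_, ?_⟩
  · intro i hi; rw [u3, u4, u5]
    have := hI.sum i hi
    split_ifs with h
    · subst h; omega
    · omega
  · intro i hi; rw [u3]; exact hI.out i hi
  · rw [u9, u10]; exact hI.tot
  · rcases hI.ctl with ⟨p, ht, h1, h2⟩ | ⟨t', _, _, _, _, ht, _⟩ |
      ⟨t', q1, j1, q1', ht, hd, h1, h2⟩
    · exact absurd (ht.uniq (by norm_num) en2).1 (by norm_num)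
    · exact absurd (ht.uniq (by norm_num) en2).1 (by norm_num)
    · obtain ⟨-, rfl⟩ := ht.uniq (by norm_num) en2
      rw [hr] at hd
      simp only [Option.some.injEq, Prod.mk.injEq, Sum.inr.injEq] at hd
      obtain ⟨rfl, rfl, rfl⟩ := hd
      right; right
      refine ⟨t, q, j, q', ?_, hr, ?_, ?_⟩
      · intro k i hk
        rw [u k i (by omega), ht k i hk]
        split_ifs <;> omega
      · rw [u11, u10]; exact h1
      · rw [u11, u10, u3]
        intro h
        exact ⟨(h2 h).1.congr u3, (h2 h).2⟩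

/-- exit of a zero test -/
theorem step_z5 {nc : ℕ} {D : List CRule} {v0 : List ℕ} {C Z : ℕ} {m : ℕ → ℕ}
    (hI : Iv nc D v0 C Z m) {t q j q' : ℕ}
    (hr : D[t]? = some (q, Sum.inr j, q')) (N : ℕ)
    (hen : ∀ p, ([pl 2 t] : List ℕ).count p ≤ m p) :
    Iv nc D v0 C Z (useR ([pl 2 t], [pl 0 q'], N) m) := by
  set m' := useR ([pl 2 t], [pl 0 q'], N) m with hm'
  have en2 : 1 ≤ m (pl 2 t) := by
    have := hen (pl 2 t)
    simp [pl_iff] at this
    omega
  have u : ∀ k i, k < 12 → m' (pl k i) = m (pl k i) - (if 2 = k ∧ t = i then 1 else 0)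
      + (if 0 = k ∧ q' = i then 1 else 0) := by
    intro k i hk
    simp only [hm', useR, List.count_cons, List.count_nil, beq_iff_eq,
      pl_iff (show 2 < 12 by norm_num) hk, pl_iff (show 0 < 12 by norm_num) hk]
    omega
  have uo : ∀ k i, k < 12 → 3 ≤ k → m' (pl k i) = m (pl k i) := by
    intro k i hk h3
    rw [u k i hk, if_neg (by omega), if_neg (by omega)]
    omega
  refine ⟨?_, ?_, ?_, ?_⟩
  · intro i hi
    rw [uo 3 i (by norm_num) (by norm_num), uo 4 i (by norm_num) (by norm_num),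
      uo 5 i (by norm_num) (by norm_num)]
    exact hI.sum i hi
  · intro i hi; rw [uo 3 i (by norm_num) (by norm_num)]; exact hI.out i hi
  · rw [uo 9 0 (by norm_num) (by norm_num), uo 10 0 (by norm_num) (by norm_num)]; exact hI.tot
  · rcases hI.ctl with ⟨p, ht, h1, h2⟩ | ⟨t', _, _, _, _, ht, _⟩ |
      ⟨t', q1, j1, q1', ht, hd, h1, h2⟩
    · exact absurd (ht.uniq (by norm_num) en2).1 (by norm_num)
    · exact absurd (ht.uniq (by norm_num) en2).1 (by norm_num)
    · obtain ⟨-, rfl⟩ := ht.uniq (by norm_num) en2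
      rw [hr] at hd
      simp only [Option.some.injEq, Prod.mk.injEq, Sum.inr.injEq] at hd
      obtain ⟨rfl, rfl, rfl⟩ := hd
      left
      refine ⟨q', ?_, ?_, ?_⟩
      · intro k i hk
        rw [u k i (by omega), ht k i hk]
        split_ifs <;> omega
      · rw [uo 11 0 (by norm_num) (by norm_num), uo 10 0 (by norm_num) (by norm_num)]
        exact h1
      · rw [uo 11 0 (by norm_num) (by norm_num), uo 10 0 (by norm_num) (by norm_num)]
        intro h
        obtain ⟨h3, h4⟩ := h2 h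
        refine ReflTransGen.tail h3 ?_
        refine ⟨_, List.mem_of_getElem? hr, rfl, rfl, ?_⟩
        simp only [CEff]
        exact ⟨h4, funext fun i => uo 3 i (by norm_num) (by norm_num)⟩

/-- every rule preserves the invariant -/
theorem step {ns nc : ℕ} {D : List CRule} {v0 : List ℕ} {C Z N : ℕ} {m : ℕ → ℕ}
    (hD : GoodC ns nc D) (hI : Iv nc D v0 C Z m) {r : Rule} (hr : r ∈ sims N D)
    (hen : ∀ p, r.1.count p ≤ m p) : Iv nc D v0 C Z (useR r m) := by
  unfold sims at hr
  obtain ⟨⟨⟨q, ins, q'⟩, t⟩, hri, hr⟩ := List.mem_flatMap.1 hr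
  have hDt : D[t]? = some (q, ins, q') := List.mem_zipIdx_iff_getElem?.1 hri
  cases ins with
  | inl pp =>
    obtain ⟨pre, post⟩ := pp
    simp only [simRules, List.mem_singleton] at hr
    subst hr
    exact step_add hD hI (List.mem_of_getElem? hDt) N hen
  | inr j =>
    simp only [simRules, List.mem_cons, List.not_mem_nil, or_false] at hr
    rcases hr with rfl | rfl | rfl | rfl | rfl
    · exact step_z1 hI hDt N hen
    · exact step_z2 hI hDt N hen
    · exact step_z3 hD hI hDt N hen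
    · exact step_z4 hI hDt N hen
    · exact step_z5 hI hDt N hen

theorem run {ns nc : ℕ} {D : List CRule} {v0 : List ℕ} {C Z N : ℕ}
    (hD : GoodC ns nc D) : ∀ (u : List ℕ) (m m' : ℕ → ℕ), Iv nc D v0 C Z m →
    RRun (sims N D) u m m' → Iv nc D v0 C Z m' := by
  intro u
  induction u with
  | nil =>
    intro m m' hI h
    have : m = m' := h
    rw [← this]; exact hI
  | cons i u ih =>
    intro m m' hI h
    obtain ⟨h1, h2, h3⟩ := h
    refine ih _ _ (step (N := N) hD hI ?_ h2) h3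
    unfold rl
    rw [List.getD_eq_getElem _ _ h1]
    exact List.getElem_mem h1

end Pool.Agent.H453R2.JS.SIM

namespace Pool.Agent.H453R2.JS

open SIM in
theorem SIM_holds : S_SIM := by
  intro ns nc D v0 C Z N u m1 hD hv hC hrun h1 h2 h3
  have hI := run hD u _ _ (init (ns := ns) hv hC) hrun
  rcases hI.ctl with ⟨p, ht, h4, h5⟩ | ⟨t', _, _, _, _, ht, _⟩ | ⟨t', _, _, _, ht, _⟩
  · obtain ⟨-, rfl⟩ := ht.uniq (by norm_num) h1
    have htot := hI.tot
    have he : m1 (pl 10 0) = Z := by omega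
    rw [he] at h4 h5
    exact ⟨_, h5 (le_antisymm h4 h3)⟩
  · exact absurd (ht.uniq (by norm_num) h1).1 (by norm_num)
  · exact absurd (ht.uniq (by norm_num) h1).1 (by norm_num)

end Pool.Agent.H453R2.JS
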