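import Pool.Agent.H453R2.JS.Spec

namespace Pool.Agent.H453R2.JS

namespace SIMC

/-- One use of a rule. -/
def Stp (R : List Rule) (i : ℕ) (m m' : ℕ → ℕ) : Prop :=
  i < R.length ∧ (∀ p, (rl R i).1.count p ≤ m p) ∧ useR (rl R i) m = m'

theorem rrun_cons {R : List Rule} {i : ℕ} {u : List ℕ} {m m' m'' : ℕ → ℕ} (h : Stp R i m m')
    (h' : RRun R u m' m'') : RRun R (i :: u) m m'' := ⟨h.1, h.2.1, by rw [h.2.2]; exact h'⟩

theorem rrun_single {R : List Rule} {i : ℕ} {m m' : ℕ → ℕ} (h : Stp R i m m') : RRun R [i] m m' :=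
  rrun_cons h rfl

theorem rrun_append {R : List Rule} {u v : List ℕ} : ∀ {m m' m'' : ℕ → ℕ}, RRun R u m m' →
    RRun R v m' m'' → RRun R (u ++ v) m m'' := by
  induction u with
  | nil =>
    intro m m' m'' h h'
    have : m = m' := h
    rw [this]
    exact h'
  | cons i u ih =>
    intro m m' m'' h h'
    exact ⟨h.1, h.2.1, ih h.2.2 h'⟩

theorem rrun_loop {R : List Rule} {a : ℕ} (f : ℕ → ℕ → ℕ) (S : ℕ)
    (h : ∀ s < S, Stp R a (f s) (f (s + 1))) : RRun R (List.replicate S a) (f 0) (f S) := by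
  induction S with
  | zero => rfl
  | succ S ih =>
    rw [List.replicate_succ']
    exact rrun_append (ih fun s hs => h s (by omega)) (rrun_single (h S (by omega)))

theorem exists_idx {R : List Rule} {r : Rule} (h : r ∈ R) : ∃ a, a < R.length ∧ rl R a = r := by
  obtain ⟨a, ha, h2⟩ := List.mem_iff_getElem.mp h
  refine ⟨a, ha, ?_⟩
  unfold rl
  rw [List.getD_eq_getElem _ _ ha, h2]

theorem cnt1 (a p : ℕ) : [a].count p = if p = a then 1 else 0 := by
  rw [List.count_cons, List.count_nil]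
  by_cases h : p = a
  · simp [h]
  · have : ¬ a = p := fun e => h e.symm
    simp [h, this]

theorem cntc (a p : ℕ) (l : List ℕ) : (a :: l).count p = l.count p + if p = a then 1 else 0 := by
  rw [List.count_cons]
  by_cases h : p = a
  · simp [h]
  · have : ¬ a = p := fun e => h e.symm
    simp [h, this]

theorem cnt_map (k : ℕ) (hk : k < 12) (l : List ℕ) (p : ℕ) :
    (l.map (pl k)).count p = if p % 12 = k then l.count (p / 12) else 0 := by
  induction l with
  | nil => simp
  | cons a l ih =>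
    rw [List.map_cons, cntc, cntc, ih]
    unfold pl
    by_cases h : p % 12 = k
    · rw [if_pos h, if_pos h]
      by_cases h2 : p / 12 = a
      · rw [if_pos h2, if_pos (by omega)]
      · rw [if_neg h2, if_neg (by omega)]
    · rw [if_neg h, if_neg h, if_neg (by omega)]

/-- Markings. -/
def mk (kq iq : ℕ) (w3 w4 w5 : ℕ → ℕ) (y t e : ℕ) : ℕ → ℕ := fun p =>
  if p = 12 * iq + kq then 1 else if p % 12 = 3 then w3 (p / 12) else if p % 12 = 4 then w4 (p / 12)
  else if p % 12 = 5 then w5 (p / 12) else if p = 9 then y else if p = 10 then t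
  else if p = 11 then e else 0

/-- The rule is a loop of a zero test. -/
def lp (r : Rule) : Prop := r.1.length = 2 ∧ r.1.getD 0 0 % 12 ≠ 0

section rules

variable {R : List Rule} {a i j q q' N : ℕ}

theorem st0 (ha : a < R.length) (hr : rl R a = ([pl 0 q, pl 9 0], [pl 1 i, pl 10 0], N))
    (w3 w4 w5 : ℕ → ℕ) (y t e : ℕ) :
    Stp R a (mk 0 q w3 w4 w5 (y + 1) t e) (mk 1 i w3 w4 w5 y (t + 1) e) := by
  refine ⟨ha, ?_, ?_⟩
  · intro p
    rw [hr]
    simp only [cntc, List.count_nil, pl, mk]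
    split_ifs <;> omega
  · funext p
    simp only [useR, hr, cntc, List.count_nil, pl, mk]
    split_ifs <;> omega

theorem st1 (ha : a < R.length) (hr : rl R a = ([pl 1 i, pl 4 j], [pl 1 i, pl 5 j, pl 11 0], N))
    (w3 w4 w5 w4' w5' : ℕ → ℕ) (y t e : ℕ) (h4 : w4 j = w4' j + 1) (h4' : ∀ x, x ≠ j → w4 x = w4' x)
    (h5 : w5' j = w5 j + 1) (h5' : ∀ x, x ≠ j → w5 x = w5' x) :
    Stp R a (mk 1 i w3 w4 w5 y t e) (mk 1 i w3 w4' w5' y t (e + 1)) := by
  refine ⟨ha, ?_, ?_⟩
  · intro p
    rw [hr]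
    simp only [cntc, List.count_nil, pl, mk]
    by_cases h : p / 12 = j
    · rw [h]; split_ifs <;> omega
    · split_ifs <;> omega
  · funext p
    simp only [useR, hr, cntc, List.count_nil, pl, mk]
    by_cases h : p / 12 = j
    · rw [h]; split_ifs <;> omega
    · have e1 := h4' _ h
      have e2 := h5' _ h
      split_ifs <;> omega

theorem st2 (ha : a < R.length) (hr : rl R a = ([pl 1 i], [pl 2 i], N))
    (w3 w4 w5 : ℕ → ℕ) (y t e : ℕ) :
    Stp R a (mk 1 i w3 w4 w5 y t e) (mk 2 i w3 w4 w5 y t e) := by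
  refine ⟨ha, ?_, ?_⟩
  · intro p
    rw [hr]
    simp only [cntc, List.count_nil, pl, mk]
    split_ifs <;> omega
  · funext p
    simp only [useR, hr, cntc, List.count_nil, pl, mk]
    split_ifs <;> omega

theorem st3 (ha : a < R.length) (hr : rl R a = ([pl 2 i, pl 5 j], [pl 2 i, pl 4 j], N))
    (w3 w4 w5 w4' w5' : ℕ → ℕ) (y t e : ℕ) (h4 : w4' j = w4 j + 1) (h4' : ∀ x, x ≠ j → w4 x = w4' x)
    (h5 : w5 j = w5' j + 1) (h5' : ∀ x, x ≠ j → w5 x = w5' x) :
    Stp R a (mk 2 i w3 w4 w5 y t e) (mk 2 i w3 w4' w5' y t e) := by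
  refine ⟨ha, ?_, ?_⟩
  · intro p
    rw [hr]
    simp only [cntc, List.count_nil, pl, mk]
    by_cases h : p / 12 = j
    · rw [h]; split_ifs <;> omega
    · split_ifs <;> omega
  · funext p
    simp only [useR, hr, cntc, List.count_nil, pl, mk]
    by_cases h : p / 12 = j
    · rw [h]; split_ifs <;> omega
    · have e1 := h4' _ h
      have e2 := h5' _ h
      split_ifs <;> omega

theorem st4 (ha : a < R.length) (hr : rl R a = ([pl 2 i], [pl 0 q'], N))
    (w3 w4 w5 : ℕ → ℕ) (y t e : ℕ) :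
    Stp R a (mk 2 i w3 w4 w5 y t e) (mk 0 q' w3 w4 w5 y t e) := by
  refine ⟨ha, ?_, ?_⟩
  · intro p
    rw [hr]
    simp only [cntc, List.count_nil, pl, mk]
    split_ifs <;> omega
  · funext p
    simp only [useR, hr, cntc, List.count_nil, pl, mk]
    split_ifs <;> omega

theorem sta {pre post : List ℕ} (ha : a < R.length) (hr : rl R a =
      (pl 0 q :: (pre.map (pl 3) ++ post.map (pl 4)),
      pl 0 q' :: (post.map (pl 3) ++ pre.map (pl 4)), N))
    (w3 w4 w5 w3' w4' : ℕ → ℕ) (y t e : ℕ) (h3 : ∀ x, pre.count x ≤ w3 x)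
    (h3' : ∀ x, w3' x = w3 x - pre.count x + post.count x)
    (h4 : ∀ x, post.count x ≤ w4 x)
    (h4' : ∀ x, w4' x = w4 x - post.count x + pre.count x) :
    Stp R a (mk 0 q w3 w4 w5 y t e) (mk 0 q' w3' w4' w5 y t e) := by
  refine ⟨ha, ?_, ?_⟩
  · intro p
    rw [hr]
    have e1 := h3 (p / 12)
    have e2 := h4 (p / 12)
    simp only [cntc, List.count_append, cnt_map 3 (by norm_num), cnt_map 4 (by norm_num), pl, mk]
    split_ifs <;> omega
  · funext p
    have e1 := h3 (p / 12)
    have e2 := h4 (p / 12)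
    have e3 := h3' (p / 12)
    have e4 := h4' (p / 12)
    simp only [useR, hr, cntc, List.count_append, cnt_map 3 (by norm_num),
      cnt_map 4 (by norm_num), pl, mk]
    split_ifs <;> omega

end rules

/-- The rules of a zero test. -/
structure ZR (R : List Rule) (N i j q q' a0 a1 a2 a3 a4 : ℕ) : Prop where
  l0 : a0 < R.length
  l1 : a1 < R.length
  l2 : a2 < R.length
  l3 : a3 < R.length
  l4 : a4 < R.length
  r0 : rl R a0 = ([pl 0 q, pl 9 0], [pl 1 i, pl 10 0], N)
  r1 : rl R a1 = ([pl 1 i, pl 4 j], [pl 1 i, pl 5 j, pl 11 0], N)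
  r2 : rl R a2 = ([pl 1 i], [pl 2 i], N)
  r3 : rl R a3 = ([pl 2 i, pl 5 j], [pl 2 i, pl 4 j], N)
  r4 : rl R a4 = ([pl 2 i], [pl 0 q'], N)

/-- The sequence of a zero test. -/
def zb (C a0 a1 a2 a3 a4 : ℕ) : List ℕ :=
  a0 :: (List.replicate C a1 ++ (a2 :: (List.replicate C a3 ++ [a4])))

theorem zblock {R : List Rule} {N i j q q' a0 a1 a2 a3 a4 : ℕ} (h : ZR R N i j q q' a0 a1 a2 a3 a4)
    (C : ℕ) (w3 w4 w5 : ℕ → ℕ) (y t e : ℕ) (h4 : w4 j = C) (h5 : w5 j = 0) :
    RRun R (zb C a0 a1 a2 a3 a4) (mk 0 q w3 w4 w5 (y + 1) t e)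
      (mk 0 q' w3 w4 w5 y (t + 1) (e + C)) := by
  have e4 : Function.update w4 j C = w4 := by rw [← h4]; exact Function.update_eq_self _ _
  have e5 : Function.update w5 j 0 = w5 := by rw [← h5]; exact Function.update_eq_self _ _
  have k1 := rrun_loop (R := R) (a := a1)
    (fun s => mk 1 i w3 (Function.update w4 j (C - s)) (Function.update w5 j s) y (t + 1) (e + s)) C
    (fun s hs => by
      refine st1 h.l1 h.r1 _ _ _ _ _ _ _ _ ?_ ?_ ?_ ?_
      · rw [Function.update_self, Function.update_self]; omega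
      · intro x hx; rw [Function.update_of_ne hx, Function.update_of_ne hx]
      · rw [Function.update_self, Function.update_self]
      · intro x hx; rw [Function.update_of_ne hx, Function.update_of_ne hx])
  have k3 := rrun_loop (R := R) (a := a3)
    (fun s => mk 2 i w3 (Function.update w4 j s) (Function.update w5 j (C - s)) y (t + 1) (e + C)) C
    (fun s hs => by
      refine st3 h.l3 h.r3 _ _ _ _ _ _ _ _ ?_ ?_ ?_ ?_
      · rw [Function.update_self, Function.update_self]
      · intro x hx; rw [Function.update_of_ne hx, Function.update_of_ne hx]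
      · rw [Function.update_self, Function.update_self]; omega
      · intro x hx; rw [Function.update_of_ne hx, Function.update_of_ne hx])
  simp only [Nat.sub_zero, Nat.sub_self, Nat.add_zero, e4, e5] at k1 k3
  refine rrun_cons (st0 h.l0 h.r0 w3 w4 w5 y t e) ?_
  refine rrun_append k1 ?_
  refine rrun_cons (st2 h.l2 h.r2 _ _ _ _ _ _) ?_
  exact rrun_append k3 (rrun_single (st4 h.l4 h.r4 _ _ _ _ _ _))

theorem cnt_rep (C a x : ℕ) : (List.replicate C a).count x = if x = a then C else 0 := by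
  rw [List.count_replicate]
  by_cases h : x = a
  · simp [h]
  · have : ¬ a = x := fun e => h e.symm
    simp [h, this]

theorem zb_count {R : List Rule} {N i j q q' a0 a1 a2 a3 a4 : ℕ}
    (h : ZR R N i j q q' a0 a1 a2 a3 a4) (C x : ℕ) :
    (lp (rl R x) → (zb C a0 a1 a2 a3 a4).count x ≤ C) ∧
    (¬ lp (rl R x) → (zb C a0 a1 a2 a3 a4).count x ≤ 1) := by
  have hc : (zb C a0 a1 a2 a3 a4).count x = (if x = a0 then 1 else 0) + (if x = a1 then C else 0) +
      (if x = a2 then 1 else 0) + (if x = a3 then C else 0) + (if x = a4 then 1 else 0) := by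
    unfold zb
    rw [cntc, List.count_append, cntc, List.count_append, cnt_rep, cnt_rep, cnt1]
    omega
  have l0 : ¬ lp (rl R a0) := by rw [h.r0]; simp [lp, pl]
  have l1 : lp (rl R a1) := by
    rw [h.r1]
    refine ⟨rfl, ?_⟩
    show (12 * i + 1) % 12 ≠ 0
    omega
  have l2 : ¬ lp (rl R a2) := by rw [h.r2]; simp [lp]
  have l3 : lp (rl R a3) := by
    rw [h.r3]
    refine ⟨rfl, ?_⟩
    show (12 * i + 2) % 12 ≠ 0
    omega
  have l4 : ¬ lp (rl R a4) := by rw [h.r4]; simp [lp]
  constructor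
  · intro hx
    have x0 : x ≠ a0 := fun e => l0 (e ▸ hx)
    have x2 : x ≠ a2 := fun e => l2 (e ▸ hx)
    have x4 : x ≠ a4 := fun e => l4 (e ▸ hx)
    have x13 : ¬ (x = a1 ∧ x = a3) := by
      rintro ⟨e1, e3⟩
      have := h.r1
      rw [← e1, e3, h.r3] at this
      simp [pl] at this
    rw [hc, if_neg x0, if_neg x2, if_neg x4]
    by_cases h1 : x = a1
    · have h3 : x ≠ a3 := fun e => x13 ⟨h1, e⟩
      rw [if_pos h1, if_neg h3]; omega
    · rw [if_neg h1]; split_ifs <;> omega
  · intro hx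
    have x1 : x ≠ a1 := fun e => hx (e ▸ l1)
    have x3 : x ≠ a3 := fun e => hx (e ▸ l3)
    have x02 : ¬ (x = a0 ∧ x = a2) := by
      rintro ⟨e1, e3⟩
      have := h.r0
      rw [← e1, e3, h.r2] at this
      simp at this
    have x04 : ¬ (x = a0 ∧ x = a4) := by
      rintro ⟨e1, e3⟩
      have := h.r0
      rw [← e1, e3, h.r4] at this
      simp at this
    have x24 : ¬ (x = a2 ∧ x = a4) := by
      rintro ⟨e1, e3⟩
      have := h.r2
      rw [← e1, e3, h.r4] at this
      simp [pl] at this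
    rw [hc, if_neg x1, if_neg x3]
    by_cases h0 : x = a0
    · rw [if_pos h0, if_neg (fun e => x02 ⟨h0, e⟩), if_neg (fun e => x04 ⟨h0, e⟩)]
    · rw [if_neg h0]
      by_cases h2 : x = a2
      · rw [if_pos h2, if_neg (fun e => x24 ⟨h2, e⟩)]
      · rw [if_neg h2]; split_ifs <;> omega

theorem mem_sims {N : ℕ} {D : List CRule} {r : CRule} (hr : r ∈ D) :
    ∃ i, ∀ x ∈ simRules N (r, i), x ∈ sims N D := by
  obtain ⟨i, hi, h⟩ := List.mem_iff_getElem.mp hr
  refine ⟨i, fun x hx => ?_⟩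
  unfold sims
  rw [List.mem_flatMap]
  refine ⟨(r, i), ?_, hx⟩
  rw [List.mem_zipIdx_iff_getElem?]
  simp only
  rw [List.getElem?_eq_getElem hi, h]

theorem exists_zr {N : ℕ} {D : List CRule} {r : CRule} {j : ℕ} (hr : r ∈ D)
    (hj : r.2.1 = Sum.inr j) :
    ∃ i a0 a1 a2 a3 a4, ZR (sims N D) N i j r.1 r.2.2 a0 a1 a2 a3 a4 := by
  obtain ⟨i, hi⟩ := mem_sims (N := N) hr
  have hs : simRules N (r, i) = [([pl 0 r.1, pl 9 0], [pl 1 i, pl 10 0], N),
     ([pl 1 i, pl 4 j], [pl 1 i, pl 5 j, pl 11 0], N),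
     ([pl 1 i], [pl 2 i], N),
     ([pl 2 i, pl 5 j], [pl 2 i, pl 4 j], N),
     ([pl 2 i], [pl 0 r.2.2], N)] := by
    unfold simRules
    simp only
    rw [hj]
  rw [hs] at hi
  obtain ⟨a0, l0, e0⟩ := exists_idx (hi ([pl 0 r.1, pl 9 0], [pl 1 i, pl 10 0], N) (by simp))
  obtain ⟨a1, l1, e1⟩ := exists_idx (hi ([pl 1 i, pl 4 j], [pl 1 i, pl 5 j, pl 11 0], N) (by simp))
  obtain ⟨a2, l2, e2⟩ := exists_idx (hi ([pl 1 i], [pl 2 i], N) (by simp))
  obtain ⟨a3, l3, e3⟩ := exists_idx (hi ([pl 2 i, pl 5 j], [pl 2 i, pl 4 j], N) (by simp))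
  obtain ⟨a4, l4, e4⟩ := exists_idx (hi ([pl 2 i], [pl 0 r.2.2], N) (by simp))
  exact ⟨i, a0, a1, a2, a3, a4, l0, l1, l2, l3, l4, e0, e1, e2, e3, e4⟩

theorem exists_ar {N : ℕ} {D : List CRule} {r : CRule} {pre post : List ℕ} (hr : r ∈ D)
    (hj : r.2.1 = Sum.inl (pre, post)) :
    ∃ a, a < (sims N D).length ∧ rl (sims N D) a =
      (pl 0 r.1 :: (pre.map (pl 3) ++ post.map (pl 4)),
      pl 0 r.2.2 :: (post.map (pl 3) ++ pre.map (pl 4)), N) := by
  obtain ⟨i, hi⟩ := mem_sims (N := N) hr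
  have hs : simRules N (r, i) = [(pl 0 r.1 :: (pre.map (pl 3) ++ post.map (pl 4)),
      pl 0 r.2.2 :: (post.map (pl 3) ++ pre.map (pl 4)), N)] := by
    unfold simRules
    simp only
    rw [hj]
  rw [hs] at hi
  exact exists_idx (hi _ (by simp))

theorem crun_le {D : List CRule} {C n z : ℕ} {c c' : CCfg} (h : CRun D C n z c c') :
    ∀ j, c.2 j ≤ C := by
  cases h <;> assumption

/-- Values of the counters and of their complements. -/
def W3 (nc : ℕ) (c : CCfg) : ℕ → ℕ := fun x => if x < nc then c.2 x else 0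
def W4 (nc C : ℕ) (c : CCfg) : ℕ → ℕ := fun x => if x < nc then C - c.2 x else 0

theorem main {ns nc : ℕ} {D : List CRule} (hD : GoodC ns nc D) (N C : ℕ) {n z : ℕ} {c c' : CCfg}
    (h : CRun D C n z c c') : ∀ t, ∃ u,
      RRun (sims N D) u (mk 0 c.1 (W3 nc c) (W4 nc C c) (fun _ => 0) z t (t * C))
        (mk 0 c'.1 (W3 nc c') (W4 nc C c') (fun _ => 0) 0 (t + z) ((t + z) * C)) ∧
      ∀ x, (lp (rl (sims N D) x) → u.count x ≤ z * C) ∧
        (¬ lp (rl (sims N D) x) → u.count x ≤ n) := by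
  induction h with
  | refl c h =>
    intro t
    exact ⟨[], rfl, fun x => ⟨fun _ => by simp, fun _ => by simp⟩⟩
  | @add n z c c' c'' r pre post hr h1 h2 hi he h hrun ih =>
    intro t
    obtain ⟨u, hu, hcnt⟩ := ih t
    obtain ⟨a, ha, har⟩ := exists_ar (N := N) hr hi
    have hg := (hD r hr).2.2
    rw [hi] at hg he
    obtain ⟨g1, g2, -⟩ := hg
    obtain ⟨e1, e2⟩ := he
    have hle := crun_le hrun
    have hval : ∀ x, c'.2 x = c.2 x - pre.count x + post.count x := fun x => congrFun e2 x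
    have p0 : ∀ x, nc ≤ x → pre.count x = 0 := fun x hx =>
      List.count_eq_zero.mpr fun hm => by have := (g1 x hm).1; omega
    have q0 : ∀ x, nc ≤ x → post.count x = 0 := fun x hx =>
      List.count_eq_zero.mpr fun hm => by have := g2 x hm; omega
    have hdis : ∀ x, pre.count x = 0 ∨ post.count x = 0 := by
      intro x
      by_cases hx : x ∈ pre
      · exact Or.inr (List.count_eq_zero.mpr (g1 x hx).2)
      · exact Or.inl (List.count_eq_zero.mpr hx)
    refine ⟨a :: u, ?_, ?_⟩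
    · refine rrun_cons ?_ hu
      rw [← h1, ← h2]
      refine sta ha har _ _ _ _ _ _ _ _ ?_ ?_ ?_ ?_
      · intro x
        have k1 := e1 x
        have k2 := p0 x
        unfold W3
        split_ifs <;> omega
      · intro x
        have k1 := hval x
        have k2 := p0 x
        have k3 := q0 x
        unfold W3
        split_ifs <;> omega
      · intro x
        have k1 := hval x
        have k3 := q0 x
        have k4 := hle x
        have k5 := hdis x
        unfold W4
        split_ifs <;> omega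
      · intro x
        have k0 := e1 x
        have k1 := hval x
        have k2 := p0 x
        have k3 := q0 x
        have k4 := hle x
        have k5 := hdis x
        have k6 := h x
        unfold W4
        split_ifs <;> omega
    · intro x
      have k1 := hcnt x
      have hla : ¬ lp (rl (sims N D) a) := by
        rw [har]
        rintro ⟨-, h3⟩
        apply h3
        show (12 * r.1 + 0) % 12 = 0
        omega
      rw [cntc]
      constructor
      · intro hx
        have hxa : x ≠ a := fun e => hla (e ▸ hx)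
        rw [if_neg hxa]
        exact k1.1 hx
      · intro hx
        have := k1.2 hx
        split_ifs <;> omega
  | @zero n z c c' c'' r j hr h1 h2 hi he h hrun ih =>
    intro t
    obtain ⟨u, hu, hcnt⟩ := ih (t + 1)
    obtain ⟨i, a0, a1, a2, a3, a4, hz⟩ := exists_zr (N := N) hr hi
    have hg := (hD r hr).2.2
    rw [hi] at hg he
    have hj : j < nc := hg
    obtain ⟨e1, e2⟩ := he
    refine ⟨zb C a0 a1 a2 a3 a4 ++ u, ?_, ?_⟩
    · have e3 : t + (z + 1) = t + 1 + z := by ring
      rw [e3]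
      refine rrun_append ?_ hu
      have e4 : W3 nc c' = W3 nc c := by unfold W3; rw [e2]
      have e5 : W4 nc C c' = W4 nc C c := by unfold W4; rw [e2]
      rw [← h1, ← h2, e4, e5]
      have e6 : (t + 1) * C = t * C + C := by ring
      rw [e6]
      refine zblock hz C _ _ _ _ _ _ ?_ rfl
      unfold W4
      rw [if_pos hj, e1, Nat.sub_zero]
    · intro x
      have k1 := hcnt x
      have k2 := zb_count hz C x
      rw [List.count_append]
      constructor
      · intro hx
        have := k1.1 hx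
        have := k2.1 hx
        have e3 : (z + 1) * C = z * C + C := by ring
        omega
      · intro hx
        have := k1.2 hx
        have := k2.2 hx
        omega

end SIMC

open SIMC in
theorem SIMC_holds : S_SIMC := by
  classical
  intro ns nc D v0 C Z N n c hD hv hrun hc hn hZ hZC
  obtain ⟨u, hu, hcnt⟩ := main hD N C hrun 0
  have h0 : mk0 nc v0 C Z = mk 0 (cfg0 0 v0).1 (W3 nc (cfg0 0 v0)) (W4 nc C (cfg0 0 v0))
      (fun _ => 0) Z 0 (0 * C) := by
    funext p
    simp only [mk0, mk, pl, W3, W4, cfg0, Nat.zero_mul, Nat.mul_zero, Nat.zero_add, Nat.add_zero]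
    by_cases a0 : p = 0
    · rw [if_pos a0, if_pos a0]
    by_cases a9 : p = 9
    · subst a9; simp
    rw [if_neg a0, if_neg a0, if_neg a9]
    by_cases a3 : p % 12 = 3
    · rw [if_pos a3]
      by_cases hn : p / 12 < nc
      · rw [if_pos ⟨a3, hn⟩, if_pos hn]
      · rw [if_neg (fun h => hn h.2), if_neg (fun h => hn h.2), if_neg hn]
    rw [if_neg a3, if_neg (fun h : p % 12 = 3 ∧ p / 12 < nc => a3 h.1)]
    by_cases a4 : p % 12 = 4
    · rw [if_pos a4]
      by_cases hn : p / 12 < nc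
      · rw [if_pos ⟨a4, hn⟩, if_pos hn]
      · rw [if_neg (fun h => hn h.2), if_neg hn]
    rw [if_neg a4, if_neg (fun h : p % 12 = 4 ∧ p / 12 < nc => a4 h.1), if_neg a9]
    simp
  rw [← h0] at hu
  refine ⟨u, _, hu, ?_, ?_, ?_, ?_⟩
  · intro i
    by_cases hi : lp (rl (sims N D) i)
    · exact ((hcnt i).1 hi).trans hZC
    · exact ((hcnt i).2 hi).trans hn
  · rw [hc]
    simp [mk, pl]
  · rw [hc]
    simp [mk, pl]
  · rw [hc]
    simp [mk, pl]

end Pool.Agent.H453R2.JS
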