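import Pool.Agent.H453R2.JS.Spec

/-! # TCG: bounds for `toC` and `v0Of` (helper368) -/

namespace Pool.Agent.H453R2.JS

namespace TCG

theorem idx_lt {a b n h : ℕ} (ha : a < n) (hh : h < b) : a * b + h < n * b := by
  have h1 : (a + 1) * b ≤ n * b := Nat.mul_le_mul_right b ha
  rw [Nat.add_mul, Nat.one_mul] at h1
  omega

theorem aux_lt {nm b τ h e n : ℕ} (hτ : τ < n) (hh : h < b) (he : e < 4) :
    aux nm b τ h e < nm + 4 * (n * b) := by
  have := idx_lt hτ hh
  unfold aux
  omega

theorem cv_lt {b i h K : ℕ} (hi : i < K) (hh : h < b) : cv b i h < 1 + 2 * (K * b) := by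
  have := idx_lt hi hh
  unfold cv
  omega

theorem ct_lt {b i h K : ℕ} (hi : i < K) (hh : h < b) : ct b i h < 1 + 2 * (K * b) := by
  have := idx_lt hi hh
  unfold ct
  omega

theorem cv_pos (b i h : ℕ) : cv b i h ≠ 0 := by unfold cv; omega

theorem cv_pos' (b i h : ℕ) : 0 ≠ cv b i h := by unfold cv; omega

theorem ct_pos (b i h : ℕ) : ct b i h ≠ 0 := by unfold ct; omega

theorem val_le (l : List Bool) : val l + 2 ≤ 2 ^ (l.length + 1) := by
  induction l with
  | nil => simp [val]
  | cons β l ih =>
    have hβ : β.toNat ≤ 1 := Bool.toNat_le β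
    have : val (β :: l) = 2 * val l + 1 + β.toNat := rfl
    rw [this, List.length_cons, pow_succ]
    omega

theorem blk_len (w : ℕ) (x : List Bool) (t : ℕ) : (blk w x t).length ≤ w := by
  unfold blk
  rw [List.length_reverse, List.length_take]
  exact min_le_left _ _

theorem gad_good (nm K b n τ h : ℕ) (r : ℕ × Ins × ℕ) (hb : 1 ≤ b) (hτ : τ < n) (hh : h < b)
    (h1 : r.1 < nm) (h2 : r.2.2 < nm) (h3 : match r.2.1 with
    | Ins.push i _ => i < K
    | Ins.pop i _ => i < K
    | Ins.empty i => i < K) :
    GoodC (nm + 4 * (n * b)) (1 + 2 * (K * b)) (gad nm b τ r h) := by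
  have a0 : aux nm b τ h 0 < nm + 4 * (n * b) := aux_lt hτ hh (by norm_num)
  have a1 : aux nm b τ h 1 < nm + 4 * (n * b) := aux_lt hτ hh (by norm_num)
  have a2 : aux nm b τ h 2 < nm + 4 * (n * b) := aux_lt hτ hh (by norm_num)
  have a3 : aux nm b τ h 3 < nm + 4 * (n * b) := aux_lt hτ hh (by norm_num)
  have r1 : r.1 < nm + 4 * (n * b) := by omega
  have r2 : r.2.2 < nm + 4 * (n * b) := by omega
  have z0 : 0 < 1 + 2 * (K * b) := by omega
  have hh' : h - 1 < b := by omega
  have h0 : 0 < b := hb
  obtain ⟨q, ins, q'⟩ := r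
  cases ins with
  | push i β =>
    simp only at h3
    have c1 := cv_lt h3 hh
    have c2 := ct_lt h3 hh
    have c3 := ct_lt h3 hh'
    have hβ : β.toNat ≤ 1 := Bool.toNat_le β
    intro s hs
    simp only [gad, List.mem_cons, List.not_mem_nil, or_false] at hs
    rcases hs with rfl | rfl | rfl | rfl | rfl | rfl | rfl
    · exact ⟨r1, a0, by simp [c2], by simp, by simp⟩
    · exact ⟨r1, a0, by simp [c3], by simp, by simp⟩
    · exact ⟨a0, a0, by simp [c1, cv_pos], by simp, by simp⟩
    · exact ⟨a0, a1, c1⟩
    · exact ⟨a1, a1, by simp [cv_pos'], by simp [c1], by simp⟩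
    · exact ⟨a1, a2, z0⟩
    · refine ⟨a2, r2, by simp, ?_, ?_⟩
      · intro j hj
        rw [List.mem_cons, List.mem_replicate] at hj
        rcases hj with rfl | ⟨_, rfl⟩
        · exact c2
        · exact c1
      · simp only [List.length_nil, List.length_cons, List.length_replicate]
        omega
  | pop i β =>
    simp only at h3
    have c1 := cv_lt h3 hh
    have c2 := ct_lt h3 hh
    have c3 := ct_lt h3 hh'
    have hβ : β.toNat ≤ 1 := Bool.toNat_le β
    intro s hs
    simp only [gad, List.mem_cons, List.not_mem_nil, or_false] at hs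
    rcases hs with rfl | rfl | rfl | rfl | rfl | rfl | rfl | rfl
    · refine ⟨r1, a0, ?_, by simp, ?_⟩
      · intro j hj
        rw [List.mem_cons, List.mem_replicate] at hj
        rcases hj with rfl | ⟨_, rfl⟩
        · exact ⟨c2, by simp⟩
        · exact ⟨c1, by simp⟩
      · simp only [List.length_nil, List.length_cons, List.length_replicate]
        omega
    · exact ⟨a0, a0, by simp [c1, cv_pos], by simp, by simp⟩
    · exact ⟨a0, a1, c1⟩
    · exact ⟨a1, a1, by simp [cv_pos'], by simp [c1], by simp⟩
    · exact ⟨a1, a2, z0⟩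
    · exact ⟨a2, r2, by simp, by simp [c2], by simp⟩
    · exact ⟨a2, a3, c1⟩
    · exact ⟨a3, r2, by simp, by simp [c3], by simp⟩
  | empty i =>
    simp only at h3
    have c1 := cv_lt h3 h0
    have c2 := ct_lt h3 h0
    intro s hs
    simp only [gad, List.mem_cons, List.not_mem_nil, or_false] at hs
    rcases hs with rfl | rfl | rfl
    · exact ⟨r1, a0, by simp [c2], by simp, by simp⟩
    · exact ⟨a0, a1, c1⟩
    · exact ⟨a1, r2, by simp, by simp [c2], by simp⟩

theorem v0_mem {K w b : ℕ} {x : List Bool} {n e : ℕ} (hn : 2 ^ (w + 1) ≤ n)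
    (he : e ∈ v0Of K w b x) : e ≤ n := by
  have h2 : 2 ≤ n := le_trans (by
    calc 2 = 2 ^ 1 := by norm_num
      _ ≤ 2 ^ (w + 1) := Nat.pow_le_pow_right (by norm_num) (by omega)) hn
  unfold v0Of at he
  rw [List.mem_cons, List.mem_flatMap] at he
  rcases he with rfl | ⟨t, _, ht⟩
  · omega
  · split_ifs at ht with h1 h2' h2' <;>
      simp only [List.mem_cons, List.not_mem_nil, or_false] at ht
    · rcases ht with rfl | rfl
      · have h3 := val_le (blk w x t)
        have h4 : 2 ^ ((blk w x t).length + 1) ≤ 2 ^ (w + 1) :=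
          Nat.pow_le_pow_right (by norm_num) (by have := blk_len w x t; omega)
        omega
      · omega
    · rcases ht with rfl | rfl
      · have h3 := val_le (blk w x t)
        have h4 : 2 ^ ((blk w x t).length + 1) ≤ 2 ^ (w + 1) :=
          Nat.pow_le_pow_right (by norm_num) (by have := blk_len w x t; omega)
        omega
      · omega
    · rcases ht with rfl | rfl <;> omega
    · rcases ht with rfl | rfl <;> omega

theorem v0_len (K w b : ℕ) (x : List Bool) : (v0Of K w b x).length = 1 + 2 * (K * b) := by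
  unfold v0Of
  rw [List.length_cons, List.length_flatMap]
  have : (List.range (K * b)).map (fun t => (if t < b then [val (blk w x t), if t = top w x then 1 else 0]
    else [0, if t % b = 0 then 1 else 0]).length) = (List.range (K * b)).map (fun _ => 2) := by
    apply List.map_congr_left
    intro t _
    split_ifs <;> rfl
  rw [this]
  simp
  ring

end TCG

theorem TCG_holds : S_TCG := by
  refine ⟨?_, ?_⟩
  · intro nm K b M hM hnm hb
    have hns : 2 ≤ nsOf nm b M := by unfold nsOf; omega
    refine ⟨?_, hns⟩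
    intro r hr
    unfold toC at hr
    rw [List.mem_cons] at hr
    rcases hr with rfl | hr
    · have h1 : 1 < nsOf nm b M := by omega
      refine ⟨h1, h1, ?_⟩
      show 0 < ncOf K b
      unfold ncOf
      omega
    · rw [List.mem_flatMap] at hr
      obtain ⟨⟨r', τ⟩, hri, hr⟩ := hr
      rw [List.mem_flatMap] at hr
      obtain ⟨h, hh, hr⟩ := hr
      rw [List.mem_range] at hh
      have hτ : τ < M.length := by
        have := List.snd_lt_of_mem_zipIdx hri
        simpa using this
      have hmem : r' ∈ M := List.fst_mem_of_mem_zipIdx hri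
      obtain ⟨g1, g2, g3⟩ := hM r' hmem
      exact TCG.gad_good nm K b M.length τ h r' hb hτ hh g1 g2 g3 r hr
  · intro K w b x n hn
    refine ⟨?_, ?_⟩
    · rw [TCG.v0_len]
      unfold ncOf
      exact le_rfl
    · intro j
      rw [List.getD_eq_getElem?_getD]
      cases hj : (v0Of K w b x)[j]? with
      | none => simp
      | some e =>
        rw [Option.getD_some]
        exact TCG.v0_mem hn (List.mem_of_getElem? hj)

end Pool.Agent.H453R2.JS
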