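import Pool.Agent.H453R2.JS.Spec2

namespace Pool.Agent.H453R2.JS

open Relation Turing Pool.Agent.NPC Pool.Agent.H633R2

namespace TIME

/-- The state of the loop: a counter in unary and the argument. -/
abbrev St : Type := List Unit × RArg

/-- Double the fourth component. -/
def dbl (a : RArg) : RArg := (a.1, a.2.1, a.2.2.1, a.2.2.2 ++ a.2.2.2)

/-- One round. -/
def rnd (s : St) : St := bif s.1.isEmpty then s else (s.1.tail, dbl s.2)

theorem dbl_poly : Poly dbl := by
  have h1 : Poly (fun a : RArg => a.1) := Poly.fst Poly.id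
  have h2 : Poly (fun a : RArg => a.2.1) := Poly.fst (Poly.snd Poly.id)
  have h3 : Poly (fun a : RArg => a.2.2.1) := Poly.fst (Poly.snd (Poly.snd Poly.id))
  have h4 : Poly (fun a : RArg => a.2.2.2) := Poly.snd (Poly.snd (Poly.snd Poly.id))
  exact Poly.pair h1 (Poly.pair h2 (Poly.pair h3 (Poly.append h4 h4)))

theorem rnd_poly : Poly rnd := by
  have h1 : Poly (fun s : St => s.1) := Poly.fst Poly.id
  have h2 : Poly (fun s : St => s.2) := Poly.snd Poly.id
  exact Poly.cond (Poly.isEmpty h1) Poly.id (Poly.pair (Poly.tail h1) (dbl_poly.comp h2))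

theorem rnd_iter : ∀ (k : ℕ) (c : List Unit) (a : RArg),
    rnd^[k] (c, a) = (c.drop k, dbl^[min k c.length] a) := by
  intro k
  induction k with
  | zero => intro c a; simp
  | succ k ih =>
    intro c a
    rw [Function.iterate_succ_apply]
    cases c with
    | nil =>
      have h : rnd ([], a) = ([], a) := rfl
      rw [h, ih]
      simp
    | cons u c =>
      have h : rnd (u :: c, a) = (c, dbl a) := rfl
      rw [h, ih]
      have h2 : min (k + 1) (u :: c).length = min k c.length + 1 := by
        rw [List.length_cons]; omega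
      rw [h2, Function.iterate_succ_apply, List.drop_succ_cons]

theorem dbl_iter (x : List Bool) (w b : List Unit) (n : ℕ) : ∀ m : ℕ,
    dbl^[m] (x, w, b, List.replicate n ()) = (x, w, b, List.replicate (n * 2 ^ m) ()) := by
  intro m
  induction m with
  | zero => simp
  | succ m ih =>
    rw [Function.iterate_succ_apply', ih]
    unfold dbl
    rw [List.replicate_append_replicate]
    have : n * 2 ^ m + n * 2 ^ m = n * 2 ^ (m + 1) := by ring
    rw [this]

theorem sz_units (n : ℕ) : sz (List.replicate n ()) = 2 * n + 1 := by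
  induction n with
  | zero => simp
  | succ n ih => rw [List.replicate_succ, sz_list_cons, ih, sz_unit]; ring

/-- The start state. -/
def start (k B C0 : ℕ) (x : List Bool) : St :=
  (List.replicate (x.length / k) (), (x, List.replicate (x.length / k + 1) (),
    List.replicate B (), List.replicate (4 * C0) ()))

theorem start_poly (k B C0 : ℕ) :
    Poly (fun x : List Bool => (List.replicate (x.length / k) (), start k B C0 x)) := by
  have h0 : UPoly (fun x : List Bool => x.length / k) :=
    UPoly.of_le (NPC.Poly.div (NPC.Poly.length NPC.Poly.id) (NPC.Poly.const k)) (UPoly.length NPC.Poly.id)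
      (fun x => Nat.div_le_self _ _)
  have h1 : Poly (fun x : List Bool => List.replicate (x.length / k) ()) := h0
  have h2 : Poly (fun x : List Bool => List.replicate (x.length / k + 1) ()) :=
    h0.add (UPoly.const 1)
  exact Poly.pair h1 (Poly.pair h1 (Poly.pair Poly.id (Poly.pair h2 (Poly.pair
    (NPC.Poly.const _) (NPC.Poly.const _)))))

theorem sz_state (k B C0 : ℕ) (x : List Bool) (j : ℕ) :
    sz (rnd^[j] (start k B C0 x)) ≤ (2 * B + 8 * C0 + 20) * (x.length + 1) *
      2 ^ (x.length / k) := by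
  unfold start
  rw [rnd_iter, dbl_iter, sz_pair, sz_pair, sz_pair, sz_pair, sz_units, sz_units, sz_units]
  have h1 : sz ((List.replicate (x.length / k) ()).drop j) ≤ 2 * (x.length / k) + 1 :=
    (Poly.sz_drop_le _ j).trans (sz_units _).le
  have h2 := sz_listBool_le x
  have h3 : x.length / k ≤ x.length := Nat.div_le_self _ _
  have h4 : 2 ^ min j (List.replicate (x.length / k) ()).length ≤ 2 ^ (x.length / k) := by
    apply Nat.pow_le_pow_right (by norm_num)
    rw [List.length_replicate]
    exact min_le_right _ _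
  have h5 : 1 ≤ 2 ^ (x.length / k) := Nat.one_le_two_pow
  generalize 2 ^ min j (List.replicate (x.length / k) ()).length = Q at *
  generalize 2 ^ (x.length / k) = P at *
  generalize x.length / k = m at *
  generalize x.length = l at *
  generalize sz ((List.replicate m ()).drop j) = s1 at *
  generalize sz x = s2 at *
  have h6 : 4 * C0 * Q ≤ 4 * C0 * P := Nat.mul_le_mul_left _ h4
  have h7 : (2 * B + 8 * C0 + 20) * (l + 1) * P =
      (2 * B) * (l + 1) * P + (8 * C0) * P + (8 * C0) * (l * P) + 20 * (l + 1) * P := by ring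
  have h8 : 2 * B ≤ (2 * B) * (l + 1) * P := by
    calc 2 * B = 2 * B * 1 * 1 := by ring
      _ ≤ (2 * B) * (l + 1) * P := by gcongr; omega
  have h9 : 20 * (l + 1) ≤ 20 * (l + 1) * P := Nat.le_mul_of_pos_right _ h5
  have h10 : 0 ≤ (8 * C0) * (l * P) := Nat.zero_le _
  have h11 : 8 * C0 * P = 2 * (4 * C0 * P) := by ring
  omega

/-- exponentials beat powers -/
theorem pow_le_two_pow (q : ℕ) : ∃ c : ℕ, ∀ l : ℕ, (l + 1) ^ q ≤ c * 2 ^ l := by
  have h := tendsto_pow_const_div_const_pow_of_one_lt q (r := (2 : ℝ)) (by norm_num)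
  obtain ⟨C, hC⟩ := h.bddAbove_range
  obtain ⟨n, hn⟩ := exists_nat_ge (2 * C)
  refine ⟨n, fun l => ?_⟩
  have h1 : ((l + 1 : ℕ) : ℝ) ^ q / 2 ^ (l + 1) ≤ C := hC ⟨l + 1, rfl⟩
  rw [div_le_iff₀ (by positivity)] at h1
  have h2 : ((l + 1 : ℕ) : ℝ) ^ q ≤ (n : ℝ) * 2 ^ l := by
    calc ((l + 1 : ℕ) : ℝ) ^ q ≤ C * 2 ^ (l + 1) := h1
      _ = (2 * C) * 2 ^ l := by ring
      _ ≤ (n : ℝ) * 2 ^ l := by gcongr
  exact_mod_cast h2

theorem eval_le (q : Polynomial ℕ) {D N : ℕ} (hN : 1 ≤ N) (hD : q.natDegree ≤ D) :
    q.eval N ≤ N ^ D * q.eval 1 := by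
  have h := eval_mul_le q (x := N) (y := 1) hN
  rw [mul_one] at h
  exact h.trans (Nat.mul_le_mul_right _ (Nat.pow_le_pow_right hN hD))

end TIME

open TIME in
theorem TIME_holds : S_TIME := by
  intro g hg
  obtain ⟨cg, h, pg, _, hrun⟩ := (fptTime_iff _ _).1 hg
  obtain ⟨cf, pf, hf⟩ := rnd_poly
  obtain ⟨cs, ps, hs⟩ := (Poly.snd Poly.id : Poly (fun s : St => s.2))
  obtain ⟨cr, pr, hr⟩ := PC.rawBool
  set D : ℕ := pf.natDegree + ps.natDegree + pg.natDegree with hD
  refine ⟨D + 1, fun k B C0 hk => ?_⟩
  obtain ⟨cd, pd, hd⟩ := PC.comp (start_poly k B C0) PC.rawIn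
  set c1 : ℕ := 2 * B + 8 * C0 + 20 with hc1
  set Rd : ℕ := pd.natDegree with hRd
  set K1 : ℕ := pd.eval 1 + 13 + (2 * pf.eval 1 * c1 ^ D + 5) + ps.eval 1 * c1 ^ D +
    h B * pg.eval 1 * c1 ^ D + pr.eval 3 with hK1
  set W : ℕ → ℕ := fun l => (l + 1) ^ (Rd + D + 1) * (2 ^ (l / k)) ^ D with hW
  let prog : Cmd ℕ := Cmd.seq cd (Cmd.seq split (Cmd.seq (Cmd.loop 1 (Cmd.seq (Cmd.pop 1) (ev cf)))
    (Cmd.seq cs (Cmd.seq cg cr))))
  have hprog : ∀ x : List Bool, Runs prog (inp x) (inp [g (x, List.replicate (x.length / k + 1) (),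
      List.replicate B (), List.replicate (C0 * 2 ^ (x.length / k + 2)) ())])
      (K1 * W x.length) := by
    intro x
    have h1 := hd x
    simp only at h1
    rw [inp_eq_st (bits _)] at h1
    have h2 := split_runs (TEnc.toT (List.replicate (x.length / k) ())) (TEnc.toT (start k B C0 x))
    have h3 := loop_runs (eb := (bits : St → List Bool)) hf
      (c1 * (x.length + 1) * 2 ^ (x.length / k))
      (TEnc.toT (List.replicate (x.length / k) ())).enc.reverse (start k B C0 x)
      (fun j _ => by
        rw [bits_length]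
        exact sz_state k B C0 x j)
    have hl : (TEnc.toT (List.replicate (x.length / k) ())).enc.reverse.length =
        2 * (x.length / k) + 1 := by
      rw [List.length_reverse]
      exact sz_units _
    rw [hl] at h3
    have hst : rnd^[2 * (x.length / k) + 1] (start k B C0 x) =
        ([], (x, List.replicate (x.length / k + 1) (), List.replicate B (),
          List.replicate (C0 * 2 ^ (x.length / k + 2)) ())) := by
      unfold start
      rw [rnd_iter, dbl_iter, List.length_replicate]
      have e1 : min (2 * (x.length / k) + 1) (x.length / k) = x.length / k := by omega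
      have e2 : 4 * C0 * 2 ^ (x.length / k) = C0 * 2 ^ (x.length / k + 2) := by ring
      rw [e1, e2, List.drop_eq_nil_of_le (by rw [List.length_replicate]; omega)]
    have hszf := sz_state k B C0 x (2 * (x.length / k) + 1)
    rw [hst] at h3 hszf
    have h4 := hs ([], (x, List.replicate (x.length / k + 1) (), List.replicate B (),
          List.replicate (C0 * 2 ^ (x.length / k + 2)) ()))
    have h5 := hrun (x, List.replicate (x.length / k + 1) (), List.replicate B (),
          List.replicate (C0 * 2 ^ (x.length / k + 2)) ())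
    have h6 := hr (g (x, List.replicate (x.length / k + 1) (), List.replicate B (),
          List.replicate (C0 * 2 ^ (x.length / k + 2)) ()))
    rw [inp_eq_st (bits _)] at h4
    have hall := h1.seq (h2.seq (h3.seq (h4.seq (h5.seq h6))))
    refine hall.mono ?_
    -- the arithmetic
    rw [bits_length, bits_length, bits_length]
    have ha2 : (TEnc.toT (List.replicate (x.length / k) ())).size = 2 * (x.length / k) + 1 :=
      sz_units _
    rw [ha2]
    have hsz2 : sz ((x, List.replicate (x.length / k + 1) (), List.replicate B (),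
          List.replicate (C0 * 2 ^ (x.length / k + 2)) ()) : RArg) ≤
        c1 * (x.length + 1) * 2 ^ (x.length / k) := by
      rw [sz_pair] at hszf
      rw [hc1]
      omega
    have hb3 : pr.eval (sz (g (x, List.replicate (x.length / k + 1) (), List.replicate B (),
          List.replicate (C0 * 2 ^ (x.length / k + 2)) ()))) ≤ pr.eval 3 :=
      eval_mono pr (sz_bool_le _)
    have hlenB : (List.replicate B ()).length = B := List.length_replicate
    simp only [hlenB]
    have hN1 : 1 ≤ c1 * (x.length + 1) * 2 ^ (x.length / k) :=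
      Nat.mul_pos (Nat.mul_pos (by omega) (Nat.succ_pos _)) (Nat.two_pow_pos _)
    have g1 := (eval_le pf hN1 (show pf.natDegree ≤ D by omega))
    have g2 := (eval_mono ps (show sz (([], (x, List.replicate (x.length / k + 1) (),
      List.replicate B (), List.replicate (C0 * 2 ^ (x.length / k + 2)) ())) : St) ≤
        c1 * (x.length + 1) * 2 ^ (x.length / k) from hszf)).trans
      (eval_le ps hN1 (show ps.natDegree ≤ D by omega))
    have g3 := (eval_mono pg hsz2).trans (eval_le pg hN1 (show pg.natDegree ≤ D by omega))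
    have g4 : pd.eval x.length ≤ (x.length + 1) ^ Rd * pd.eval 1 :=
      (eval_mono pd (Nat.le_succ _)).trans (eval_le pd (Nat.succ_pos _) le_rfl)
    have g5 : x.length / k ≤ x.length := Nat.div_le_self _ _
    have hP : 1 ≤ (2 ^ (x.length / k)) ^ D := Nat.one_le_pow _ _ (Nat.two_pow_pos _)
    have hLL : ∀ i, i ≤ Rd + D + 1 → (x.length + 1) ^ i ≤ W x.length := by
      intro i hi
      calc (x.length + 1) ^ i ≤ (x.length + 1) ^ (Rd + D + 1) :=
            Nat.pow_le_pow_right (Nat.succ_pos _) hi
        _ = (x.length + 1) ^ (Rd + D + 1) * 1 := (mul_one _).symm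
        _ ≤ W x.length := Nat.mul_le_mul_left _ hP
    have w1 : (x.length + 1) ^ Rd ≤ W x.length := hLL Rd (by omega)
    have w2 : x.length + 1 ≤ W x.length := by
      have := hLL 1 (by omega)
      rwa [pow_one] at this
    have w3 : (c1 * (x.length + 1) * 2 ^ (x.length / k)) ^ D * (x.length + 1) ≤
        c1 ^ D * W x.length := by
      have e : (c1 * (x.length + 1) * 2 ^ (x.length / k)) ^ D * (x.length + 1) =
          c1 ^ D * ((x.length + 1) ^ (D + 1) * (2 ^ (x.length / k)) ^ D) := by
        rw [mul_pow, mul_pow]; ring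
      rw [e]
      refine Nat.mul_le_mul_left _ (Nat.mul_le_mul_right _ ?_)
      exact Nat.pow_le_pow_right (Nat.succ_pos _) (by omega)
    have w4 : (c1 * (x.length + 1) * 2 ^ (x.length / k)) ^ D ≤ c1 ^ D * W x.length :=
      (Nat.le_mul_of_pos_right _ (Nat.succ_pos _)).trans w3
    have w5 : 1 ≤ W x.length := (Nat.succ_pos _).trans_le w2
    generalize (c1 * (x.length + 1) * 2 ^ (x.length / k)) ^ D = ND at *
    generalize Polynomial.eval (c1 * (x.length + 1) * 2 ^ (x.length / k)) pf = A1 at *
    generalize Polynomial.eval (sz (([], (x, List.replicate (x.length / k + 1) (),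
      List.replicate B (), List.replicate (C0 * 2 ^ (x.length / k + 2)) ())) : St)) ps = A2 at *
    generalize Polynomial.eval (sz ((x, List.replicate (x.length / k + 1) (), List.replicate B (),
          List.replicate (C0 * 2 ^ (x.length / k + 2)) ()) : RArg)) pg = A3 at *
    generalize Polynomial.eval x.length pd = A4 at *
    generalize Polynomial.eval (sz (g (x, List.replicate (x.length / k + 1) (),
      List.replicate B (), List.replicate (C0 * 2 ^ (x.length / k + 2)) ()))) pr = A5 at *
    generalize W x.length = w at *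
    generalize x.length / k = m at *
    generalize x.length = l at *
    generalize (l + 1) ^ Rd = LR at *
    -- each term
    have t1 : A4 ≤ pd.eval 1 * w := by
      calc A4 ≤ LR * pd.eval 1 := g4
        _ ≤ w * pd.eval 1 := Nat.mul_le_mul_right _ w1
        _ = pd.eval 1 * w := mul_comm _ _
    have t2 : 5 * (2 * m + 1) + 3 ≤ 13 * w := by omega
    have t3 : (A1 + 2) * (2 * m + 1) + 1 ≤ (2 * pf.eval 1 * c1 ^ D + 5) * w := by
      have e1 : A1 * (2 * m + 1) ≤ 2 * pf.eval 1 * c1 ^ D * w := by
        calc A1 * (2 * m + 1) ≤ (ND * pf.eval 1) * (2 * (l + 1)) :=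
              Nat.mul_le_mul g1 (by omega)
          _ = 2 * pf.eval 1 * (ND * (l + 1)) := by ring
          _ ≤ 2 * pf.eval 1 * (c1 ^ D * w) := Nat.mul_le_mul_left _ w3
          _ = 2 * pf.eval 1 * c1 ^ D * w := by ring
      have e2 : (A1 + 2) * (2 * m + 1) + 1 = A1 * (2 * m + 1) + (4 * m + 3) := by ring
      have e3 : (2 * pf.eval 1 * c1 ^ D + 5) * w = 2 * pf.eval 1 * c1 ^ D * w + 5 * w := by ring
      rw [e2, e3]
      omega
    have t4 : A2 ≤ ps.eval 1 * c1 ^ D * w := by
      calc A2 ≤ ND * ps.eval 1 := g2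
        _ ≤ (c1 ^ D * w) * ps.eval 1 := Nat.mul_le_mul_right _ w4
        _ = ps.eval 1 * c1 ^ D * w := by ring
    have t5 : h B * A3 ≤ h B * pg.eval 1 * c1 ^ D * w := by
      calc h B * A3 ≤ h B * (ND * pg.eval 1) := Nat.mul_le_mul_left _ g3
        _ ≤ h B * ((c1 ^ D * w) * pg.eval 1) :=
            Nat.mul_le_mul_left _ (Nat.mul_le_mul_right _ w4)
        _ = h B * pg.eval 1 * c1 ^ D * w := by ring
    have t6 : A5 ≤ pr.eval 3 * w := by
      calc A5 ≤ pr.eval 3 := hb3
        _ = pr.eval 3 * 1 := (mul_one _).symm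
        _ ≤ pr.eval 3 * w := Nat.mul_le_mul_left _ w5
    have t7 : K1 * w = pd.eval 1 * w + 13 * w + (2 * pf.eval 1 * c1 ^ D + 5) * w +
        ps.eval 1 * c1 ^ D * w + h B * pg.eval 1 * c1 ^ D * w + pr.eval 3 * w := by
      rw [hK1]; ring
    rw [t7]
    omega
  obtain ⟨Mt, hMt⟩ := toTm (ea := fun x : List Bool => x) (eb := fun b : Bool => [b])
    (f := fun x : List Bool => g (x, List.replicate (x.length / k + 1) (),
      List.replicate B (), List.replicate (C0 * 2 ^ (x.length / k + 2)) ())) prog
    (fun x => K1 * W x.length) hprog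
  obtain ⟨c3, hc3⟩ := pow_le_two_pow ((Rd + D + 1) * k)
  refine ⟨Mt, fun l => K1 * W l + 1, (K1 + 1) ^ k * c3, fun l => ?_, hMt⟩
  have hW1 : 1 ≤ W l := Nat.mul_pos (Nat.pow_pos (Nat.succ_pos _))
    (Nat.pow_pos (Nat.two_pow_pos _))
  calc (K1 * W l + 1) ^ k ≤ ((K1 + 1) * W l) ^ k := by
        apply Nat.pow_le_pow_left
        nlinarith
    _ = (K1 + 1) ^ k * ((l + 1) ^ ((Rd + D + 1) * k) * ((2 ^ (l / k)) ^ k) ^ D) := by
        rw [mul_pow, hW]
        simp only
        rw [mul_pow, ← pow_mul, ← pow_mul, ← pow_mul, ← pow_mul, mul_comm D k]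
        ring_nf
    _ ≤ (K1 + 1) ^ k * ((c3 * 2 ^ l) * (2 ^ l) ^ D) := by
        refine Nat.mul_le_mul_left _ (Nat.mul_le_mul (hc3 l) (Nat.pow_le_pow_left ?_ D))
        rw [← pow_mul]
        exact Nat.pow_le_pow_right (by norm_num) (Nat.div_mul_le_self l k)
    _ = (K1 + 1) ^ k * c3 * 2 ^ ((D + 1) * l) := by
        rw [← pow_mul, mul_assoc, mul_assoc, ← pow_add]
        congr 3
        ring

end Pool.Agent.H453R2.JS
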