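import Pool.Agent.H453R2.JS.Spec

/-!
# Timed jobs give a schedule
-/

namespace Pool.Agent.H453R2.JS

namespace TJ

/-- A permutation of the image of a list is the image of a permutation of the list. -/
theorem exists_perm {α β : Type} (f : α → β) {l J : List β} (h : l.Perm J) :
    ∀ A : List α, A.map f = l → ∃ A' : List α, A.Perm A' ∧ A'.map f = J := by
  induction h with
  | nil =>
    intro A hA
    exact ⟨A, List.Perm.refl _, hA⟩
  | cons x _ ih =>
    intro A hA
    obtain ⟨a, A1, rfl, h1, h2⟩ := List.map_eq_cons_iff.1 hA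
    obtain ⟨A', h3, h4⟩ := ih A1 h2
    exact ⟨a :: A', h3.cons a, by rw [List.map_cons, h1, h4]⟩
  | swap x y l =>
    intro A hA
    obtain ⟨a, A1, rfl, h1, h2⟩ := List.map_eq_cons_iff.1 hA
    obtain ⟨b, A2, rfl, h3, h4⟩ := List.map_eq_cons_iff.1 h2
    exact ⟨b :: a :: A2, List.Perm.swap _ _ _, by rw [List.map_cons, List.map_cons, h1, h3, h4]⟩
  | trans _ _ ih1 ih2 =>
    intro A hA
    obtain ⟨A1, h1, h2⟩ := ih1 A hA
    obtain ⟨A2, h3, h4⟩ := ih2 A1 h2
    exact ⟨A2, h1.trans h3, h4⟩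

/-- The timed operation number `i` of the timed job number `j`. -/
def topOf (A : List (List TOp)) (j i : ℕ) : Option TOp := (A[j]?).bind (fun b => b[i]?)

theorem opOf_eq (A : List (List TOp)) (j i : ℕ) :
    opOf (A.map (List.map Prod.fst)) j i = (topOf A j i).map Prod.fst := by
  unfold opOf topOf
  rw [List.getElem?_map]
  cases A[j]? with
  | none => rfl
  | some a =>
    rw [Option.map_some, Option.bind_some, Option.bind_some, List.getElem?_map]

/-- The start times. -/
noncomputable def st (A : List (List TOp)) (j i : ℕ) : ℝ :=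
  match topOf A j i with
  | none => 0
  | some u => (u.2 : ℝ)

theorem st_some {A : List (List TOp)} {j i : ℕ} {u : TOp} (h : topOf A j i = some u) :
    st A j i = (u.2 : ℝ) := by
  unfold st
  rw [h]

theorem opOf_some {A : List (List TOp)} {j i : ℕ} {o : ℕ × ℕ}
    (h : opOf (A.map (List.map Prod.fst)) j i = some o) :
    ∃ u, topOf A j i = some u ∧ u.1 = o := by
  rw [opOf_eq, Option.map_eq_some_iff] at h
  exact h

theorem topOf_some {A : List (List TOp)} {j i : ℕ} {u : TOp} (h : topOf A j i = some u) :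
    ∃ (hj : j < A.length) (hi : i < A[j].length), A[j][i] = u := by
  unfold topOf at h
  obtain ⟨a, h1, h2⟩ := Option.bind_eq_some_iff.1 h
  obtain ⟨hj, rfl⟩ := List.getElem?_eq_some_iff.1 h1
  obtain ⟨hi, rfl⟩ := List.getElem?_eq_some_iff.1 h2
  exact ⟨hj, hi, rfl⟩

/-- Two operations do not collide. -/
def R (u v : TOp) : Prop := u.1.1 = v.1.1 → u.2 + u.1.2 ≤ v.2 ∨ v.2 + v.1.2 ≤ u.2

theorem R_symm {u v : TOp} (h : R u v) : R v u := fun h1 => (h h1.symm).symm

theorem pw {α : Type} {Q : α → α → Prop} (hQ : ∀ u v, Q u v → Q v u) {l : List α}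
    (h : l.Pairwise Q) {i j : ℕ} (hi : i < l.length) (hj : j < l.length) (hij : i ≠ j) :
    Q l[i] l[j] := by
  rw [List.pairwise_iff_getElem] at h
  rcases lt_or_gt_of_ne hij with h1 | h1
  · exact h i j hi hj h1
  · exact hQ _ _ (h j i hj hi h1)

theorem main (A : List (List TOp)) (L : ℕ)
    (h1 : ∀ a ∈ A, a.IsChain (fun u v => u.2 + u.1.2 ≤ v.2))
    (h2 : A.flatten.Pairwise R) (h3 : ∀ a ∈ A, ∀ u ∈ a, u.2 + u.1.2 ≤ L) :
    ∃ S : ℕ → ℕ → ℝ, IsSchedule (A.map (List.map Prod.fst)) S ∧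
      ∀ j i o, opOf (A.map (List.map Prod.fst)) j i = some o → S j i + o.2 ≤ L := by
  obtain ⟨h2a, h2b⟩ := List.pairwise_flatten.1 h2
  refine ⟨st A, ⟨?_, ?_, ?_⟩, ?_⟩
  · intro j i o h
    obtain ⟨u, hu, _⟩ := opOf_some h
    rw [st_some hu]
    exact Nat.cast_nonneg _
  · intro j i o o' h h'
    obtain ⟨u, hu, rfl⟩ := opOf_some h
    obtain ⟨u', hu', _⟩ := opOf_some h'
    rw [st_some hu, st_some hu']
    obtain ⟨hj, hi, rfl⟩ := topOf_some hu
    obtain ⟨_, hi', rfl⟩ := topOf_some hu'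
    have h4 := List.isChain_iff_getElem.1 (h1 _ (List.getElem_mem hj)) i hi'
    exact_mod_cast h4
  · intro j i j' i' o o' h h' ho hne
    obtain ⟨u, hu, rfl⟩ := opOf_some h
    obtain ⟨u', hu', rfl⟩ := opOf_some h'
    rw [st_some hu, st_some hu']
    obtain ⟨hj, hi, rfl⟩ := topOf_some hu
    obtain ⟨hj', hi', rfl⟩ := topOf_some hu'
    have key : R A[j][i] A[j'][i'] := by
      by_cases hjj : j = j'
      · subst hjj
        have hii : i ≠ i' := by
          intro h5
          exact hne (by rw [h5])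
        exact pw (fun _ _ => R_symm) (h2a _ (List.getElem_mem hj)) hi hi' hii
      · exact pw (Q := fun l₁ l₂ => ∀ x ∈ l₁, ∀ y ∈ l₂, R x y)
          (fun l₁ l₂ h5 x hx y hy => R_symm (h5 y hy x hx)) h2b hj hj' hjj _
          (List.getElem_mem hi) _ (List.getElem_mem hi')
    rcases key ho with h4 | h4
    · left
      exact_mod_cast h4
    · right
      exact_mod_cast h4
  · intro j i o h
    obtain ⟨u, hu, rfl⟩ := opOf_some h
    rw [st_some hu]
    obtain ⟨hj, hi, rfl⟩ := topOf_some hu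
    have h4 := h3 _ (List.getElem_mem hj) _ (List.getElem_mem hi)
    exact_mod_cast h4

end TJ

open TJ in
theorem TJ_holds : S_TJ := by
  intro J L A hJ hperm hch hpw hL
  obtain ⟨A', h1, h2⟩ := exists_perm (List.map Prod.fst) hperm A rfl
  refine ⟨hJ, ?_⟩
  have h3 : ∀ a ∈ A', a.IsChain (fun u v => u.2 + u.1.2 ≤ v.2) :=
    fun a ha => hch a (h1.mem_iff.2 ha)
  have h4 : A'.flatten.Pairwise R := by
    have h5 : A.flatten.Pairwise R := hpw
    exact (h1.flatten.pairwise_iff (fun h => R_symm h)).1 h5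
  have h5 : ∀ a ∈ A', ∀ u ∈ a, u.2 + u.1.2 ≤ L := fun a ha => hL a (h1.mem_iff.2 ha)
  have h6 := main A' L h3 h4 h5
  rw [h2] at h6
  exact h6

end Pool.Agent.H453R2.JS
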