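import Pool.Agent.H453R2.JS.Spec

namespace Pool.Agent.H453R2.JS

namespace VAL

theorem inj : Function.Injective val := by
  intro l
  induction l with
  | nil =>
    intro l' h
    cases l' with
    | nil => rfl
    | cons b l' => simp only [val] at h; omega
  | cons b l ih =>
    intro l' h
    cases l' with
    | nil => simp only [val] at h; omega
    | cons b' l' =>
      simp only [val] at h
      cases b <;> cases b' <;> simp only [Bool.toNat_true, Bool.toNat_false] at h
      · rw [ih (by omega : val l = val l')]
      · omega
      · omega
      · rw [ih (by omega : val l = val l')]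

theorem bd (l : List Bool) : val l + 2 ≤ 2 ^ (l.length + 1) := by
  induction l with
  | nil => simp [val]
  | cons b l ih =>
    simp only [val, List.length_cons]
    have hb : b.toNat ≤ 1 := by cases b <;> simp
    rw [pow_succ 2 (l.length + 1)]
    omega

theorem inv (l : List Bool) (β : Bool) (y : ℕ) (h : val l = 2 * y + 1 + β.toNat) :
    ∃ l', l = β :: l' ∧ val l' = y := by
  cases l with
  | nil => simp only [val] at h; omega
  | cons b l =>
    simp only [val] at h
    refine ⟨l, ?_, ?_⟩
    · cases b <;> cases β <;> simp only [Bool.toNat_true, Bool.toNat_false] at h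
      · rfl
      · omega
      · omega
      · rfl
    · cases b <;> cases β <;> simp only [Bool.toNat_true, Bool.toNat_false] at h <;> omega

end VAL

theorem VAL_holds : S_VAL := by
  refine ⟨VAL.inj, VAL.bd, VAL.inv, ?_⟩
  intro w x h hw hh
  unfold top at hh
  unfold blk
  have h1 : x.length - 1 < h * w := by
    rw [Nat.div_lt_iff_lt_mul (by omega)] at hh
    exact hh
  have h2 : x.reverse.drop (h * w) = [] := by
    apply List.drop_eq_nil_of_le
    rw [List.length_reverse]
    omega
  rw [h2]
  simp

end Pool.Agent.H453R2.JS
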