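import Pool.Agent.H453R2.JS.Spec

namespace Pool.Agent.H453R2.JS

theorem ZI_holds : S_ZI := by
  classical
  intro O F s p L hp hd hL hsum
  have hdis : (F : Set O).PairwiseDisjoint (fun o => Finset.Ico (s o) (s o + p o)) := by
    intro a ha b hb hab
    refine Finset.disjoint_left.2 fun x hx hy => ?_
    rw [Finset.mem_Ico] at hx hy
    rcases hd a ha b hb hab with h | h <;> omega
  have hcard : (F.biUnion fun o => Finset.Ico (s o) (s o + p o)).card = L := by
    rw [Finset.card_biUnion hdis, ← hsum]
    refine Finset.sum_congr rfl fun o _ => ?_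
    rw [Nat.card_Ico, Nat.add_sub_cancel_left]
  have hsub : (F.biUnion fun o => Finset.Ico (s o) (s o + p o)) ⊆ Finset.range L := by
    intro x hx
    rw [Finset.mem_biUnion] at hx
    obtain ⟨o, ho, hx⟩ := hx
    rw [Finset.mem_Ico] at hx
    rw [Finset.mem_range]
    have := hL o ho
    omega
  have heq : (F.biUnion fun o => Finset.Ico (s o) (s o + p o)) = Finset.range L :=
    Finset.eq_of_subset_of_card_le hsub (by rw [hcard, Finset.card_range])
  have h1 : ∀ x < L, ∃ o ∈ F, s o ≤ x ∧ x < s o + p o := by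
    intro x hx
    have : x ∈ F.biUnion fun o => Finset.Ico (s o) (s o + p o) := by
      rw [heq]; exact Finset.mem_range.2 hx
    rw [Finset.mem_biUnion] at this
    obtain ⟨o, ho, h⟩ := this
    rw [Finset.mem_Ico] at h
    exact ⟨o, ho, h⟩
  refine ⟨h1, ?_, ?_⟩
  · rintro x hx h0
    obtain ⟨o, ho, h2, h3⟩ := h1 x hx
    rcases Nat.eq_or_lt_of_le h2 with h | h
    · exact ⟨o, ho, h⟩
    · rcases h0 with h0 | ⟨o₀, ho₀, h0⟩
      · omega
      · exfalso
        have hp0 := hp o₀ ho₀
        by_cases he : o = o₀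
        · subst he; omega
        · rcases hd o ho o₀ ho₀ he with h4 | h4 <;> omega
  · intro x hx G hG hGx
    have h2 : Finset.range (x + 1) ⊆ G.biUnion fun o => Finset.Ico (s o) (s o + p o) := by
      intro y hy
      rw [Finset.mem_range] at hy
      obtain ⟨o, ho, h3, h4⟩ := h1 y (by omega)
      rw [Finset.mem_biUnion]
      exact ⟨o, hGx o ho (by omega), Finset.mem_Ico.2 ⟨h3, h4⟩⟩
    calc x + 1 = (Finset.range (x + 1)).card := (Finset.card_range _).symm
      _ ≤ _ := Finset.card_le_card h2
      _ ≤ ∑ o ∈ G, (Finset.Ico (s o) (s o + p o)).card := Finset.card_biUnion_le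
      _ = ∑ o ∈ G, p o := by
          refine Finset.sum_congr rfl fun o _ => ?_
          rw [Nat.card_Ico, Nat.add_sub_cancel_left]

end Pool.Agent.H453R2.JS
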