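import Pool.Agent.H453R2.JS.Spec

namespace Pool.Agent.H453R2.JS

namespace ZIJ

theorem sum_get {α : Type} (f : α → ℕ) (l : List α) (N : ℕ) (h : l.length ≤ N) :
    ∑ i ∈ Finset.range N, ((l[i]?).map f).getD 0 = (l.map f).sum := by
  induction l generalizing N with
  | nil => simp
  | cons a l ih =>
    obtain ⟨M, rfl⟩ : ∃ M, N = M + 1 := ⟨N - 1, by simp at h; omega⟩
    rw [Finset.sum_range_succ']
    simp only [List.getElem?_cons_succ, List.getElem?_cons_zero, Option.map_some, Option.getD_some,
      List.map_cons, List.sum_cons]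
    rw [ih M (by simpa using h), add_comm]

theorem filter_sum (m : ℕ) (l : List (ℕ × ℕ)) :
    ((l.filter (fun o => o.1 = m)).map Prod.snd).sum
      = (l.map (fun o => if o.1 = m then o.2 else 0)).sum := by
  induction l with
  | nil => rfl
  | cons a l ih =>
    by_cases h : a.1 = m
    · simp only [List.filter_cons, h, decide_true, if_true, List.map_cons, List.sum_cons, ih]
    · simp [List.filter_cons, h, ih]

theorem flatten_sum (g : ℕ × ℕ → ℕ) (J : List Job) :
    (J.flatten.map g).sum = (J.map (fun B => (B.map g).sum)).sum := by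
  induction J with
  | nil => rfl
  | cons B J ih =>
    simp only [List.flatten_cons, List.map_append, List.sum_append, List.map_cons, List.sum_cons, ih]

theorem opOf_mem {J : List Job} {j i : ℕ} {o : ℕ × ℕ} (h : opOf J j i = some o) :
    j < J.length ∧ i < J.flatten.length ∧ ∃ B ∈ J, o ∈ B := by
  unfold opOf at h
  rw [Option.bind_eq_some_iff] at h
  obtain ⟨B, hB, hi⟩ := h
  have h1 : B ∈ J := List.mem_of_getElem? hB
  have h2 : j < J.length := (List.getElem?_eq_some_iff.1 hB).1
  have h3 : i < B.length := (List.getElem?_eq_some_iff.1 hi).1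
  have h4 : B.length ≤ J.flatten.length := (List.sublist_flatten_of_mem h1).length_le
  exact ⟨h2, by omega, B, h1, List.mem_of_getElem? hi⟩

theorem opLen_eq {J : List Job} {j i : ℕ} {o : ℕ × ℕ} (h : opOf J j i = some o) :
    opLen J (j, i) = o.2 := by
  unfold opLen
  rw [h]
  rfl

open Classical in
/-- the operations on machine `m` -/
noncomputable def F0 (J : List Job) (m : ℕ) : Finset (ℕ × ℕ) :=
  (Finset.range J.length ×ˢ Finset.range J.flatten.length).filter
    (fun p => ∃ o, opOf J p.1 p.2 = some o ∧ o.1 = m)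

theorem mem_F0 {J : List Job} {m : ℕ} {p : ℕ × ℕ} :
    p ∈ F0 J m ↔ ∃ o, opOf J p.1 p.2 = some o ∧ o.1 = m := by
  classical
  unfold F0
  rw [Finset.mem_filter, Finset.mem_product, Finset.mem_range, Finset.mem_range]
  constructor
  · exact fun h => h.2
  · rintro ⟨o, ho, hm⟩
    have := opOf_mem ho
    exact ⟨⟨this.1, this.2.1⟩, o, ho, hm⟩

theorem sum_F0 (J : List Job) (m : ℕ) : ∑ p ∈ F0 J m, opLen J p = load J m := by
  classical
  unfold F0 load
  rw [Finset.sum_filter, Finset.sum_product, filter_sum, flatten_sum,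
    ← sum_get _ J J.length le_rfl]
  refine Finset.sum_congr rfl fun j hj => ?_
  have hj' := Finset.mem_range.1 hj
  have hB : J[j]? = some J[j] := List.getElem?_eq_getElem hj'
  have hlen : (J[j]).length ≤ J.flatten.length :=
    (List.sublist_flatten_of_mem (List.getElem_mem hj')).length_le
  rw [hB, Option.map_some, Option.getD_some, ← sum_get _ _ _ hlen]
  refine Finset.sum_congr rfl fun i _ => ?_
  have e1 : opOf J j i = (J[j])[i]? := by
    unfold opOf
    rw [hB]
    rfl
  rcases h : (J[j])[i]? with _ | o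
  · rw [if_neg]
    · rfl
    · rintro ⟨o, ho, -⟩
      rw [e1, h] at ho
      exact absurd ho (by simp)
  · have e2 : opOf J j i = some o := by rw [e1, h]
    simp only [Option.map_some, Option.getD_some]
    by_cases hm : o.1 = m
    · rw [if_pos ⟨o, e2, hm⟩, if_pos hm, opLen_eq e2]
    · rw [if_neg, if_neg hm]
      rintro ⟨o', ho', hm'⟩
      rw [e2] at ho'
      cases ho'
      exact hm hm'

end ZIJ

open ZIJ in
theorem ZIJ_holds (hZI : S_ZI) : S_ZIJ := by
  classical
  intro J L S m hpos hS hload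
  have key := hZI (ℕ × ℕ) (F0 J m) (fun p => S p.1 p.2) (opLen J) L ?_ ?_ ?_ ?_
  · obtain ⟨-, k2, k3⟩ := key
    constructor
    · intro x hx h
      obtain ⟨p, hp, hpx⟩ := k2 x hx (by
        rcases h with h | ⟨j, i, o, ho, hm, hs⟩
        · exact Or.inl h
        · refine Or.inr ⟨(j, i), mem_F0.2 ⟨o, ho, hm⟩, ?_⟩
          rw [opLen_eq ho]
          exact hs)
      obtain ⟨o, ho, hm⟩ := mem_F0.1 hp
      exact ⟨p.1, p.2, o, ho, hm, hpx⟩
    · intro x hx F hF
      have h1 := k3 x hx (F0 J m ∩ F) Finset.inter_subset_left (by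
        intro p hp hs
        rw [Finset.mem_inter]
        refine ⟨hp, ?_⟩
        obtain ⟨o, ho, hm⟩ := mem_F0.1 hp
        exact hF p.1 p.2 o ho hm hs)
      exact h1.trans (Finset.sum_le_sum_of_subset Finset.inter_subset_right)
  · intro p hp
    obtain ⟨o, ho, hm⟩ := mem_F0.1 hp
    obtain ⟨-, -, B, hB, hoB⟩ := opOf_mem ho
    have : opLen J p = o.2 := opLen_eq ho
    rw [this]
    exact hpos B hB o hoB
  · intro a ha b hb hab
    obtain ⟨o, ho, hm⟩ := mem_F0.1 ha
    obtain ⟨o', ho', hm'⟩ := mem_F0.1 hb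
    have e1 : opLen J a = o.2 := opLen_eq ho
    have e2 : opLen J b = o'.2 := opLen_eq ho'
    rw [e1, e2]
    exact hS.disj a.1 a.2 b.1 b.2 o o' ho ho' (hm.trans hm'.symm) hab
  · intro p hp
    obtain ⟨o, ho, hm⟩ := mem_F0.1 hp
    have e1 : opLen J p = o.2 := opLen_eq ho
    rw [e1]
    exact hS.le p.1 p.2 o ho
  · rw [sum_F0]
    exact hload

end Pool.Agent.H453R2.JS
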