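import Pool.Agent.H453R2.JS.Fin
import Pool.Agent.H453R2.JS.T_ASG
import Pool.Agent.H453R2.JS.T_CLAST
import Pool.Agent.H453R2.JS.T_COMPG
import Pool.Agent.H453R2.JS.T_CSTEP
import Pool.Agent.H453R2.JS.T_CIND
import Pool.Agent.H453R2.JS.T_CYC
import Pool.Agent.H453R2.JS.T_CYS
import Pool.Agent.H453R2.JS.T_EXT
import Pool.Agent.H453R2.JS.T_FLR
import Pool.Agent.H453R2.JS.T_FLU
import Pool.Agent.H453R2.JS.T_GM
import Pool.Agent.H453R2.JS.T_JOK
import Pool.Agent.H453R2.JS.T_LEG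
import Pool.Agent.H453R2.JS.T_LOAD
import Pool.Agent.H453R2.JS.T_MCC
import Pool.Agent.H453R2.JS.T_MCCE
import Pool.Agent.H453R2.JS.T_MCCP
import Pool.Agent.H453R2.JS.T_MCCQ
import Pool.Agent.H453R2.JS.T_MCS
import Pool.Agent.H453R2.JS.T_MCSA
import Pool.Agent.H453R2.JS.T_MCSB
import Pool.Agent.H453R2.JS.T_MCSC
import Pool.Agent.H453R2.JS.T_MCSD
import Pool.Agent.H453R2.JS.T_MONO
import Pool.Agent.H453R2.JS.T_NN
import Pool.Agent.H453R2.JS.T_OPTA
import Pool.Agent.H453R2.JS.T_OPTB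
import Pool.Agent.H453R2.JS.T_PAR
import Pool.Agent.H453R2.JS.T_PH
import Pool.Agent.H453R2.JS.T_POLYA
import Pool.Agent.H453R2.JS.T_POLYB
import Pool.Agent.H453R2.JS.T_POLYC
import Pool.Agent.H453R2.JS.T_RG
import Pool.Agent.H453R2.JS.T_SCHA
import Pool.Agent.H453R2.JS.T_SCHB
import Pool.Agent.H453R2.JS.T_SIM
import Pool.Agent.H453R2.JS.T_SIMC
import Pool.Agent.H453R2.JS.T_TCG
import Pool.Agent.H453R2.JS.T_TIME
import Pool.Agent.H453R2.JS.T_TJ
import Pool.Agent.H453R2.JS.T_TRG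
import Pool.Agent.H453R2.JS.T_VAL
import Pool.Agent.H453R2.JS.T_ZI
import Pool.Agent.H453R2.JS.T_ZIJ

/-!
# All tasks together
-/

namespace Pool.Agent.H453R2.JS

open Relation Turing Pool.Agent.NPC Pool.Agent.H633R2

theorem SOUND_holds : S_SOUND :=
  sound_of FLR_holds (EXT_holds LOAD_holds (ZIJ_holds ZI_holds) JOK_holds)
    (CIND_holds CSTEP_holds CLAST_holds) NN_holds CYS_holds TRG_holds RG_holds
    (PH_holds LEG_holds) SIM_holds TCG_holds
    (MCS_holds MCSA_holds MCSB_holds (MCSC_holds VAL_holds) (MCSD_holds VAL_holds))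

theorem COMPL_holds : S_COMPL :=
  compl_of TJ_holds JOK_holds ASG_holds SCHA_holds SCHB_holds CYC_holds TRG_holds RG_holds
    (FLU_holds LEG_holds) SIMC_holds TCG_holds (MCC_holds MCCP_holds MCCQ_holds MCCE_holds)

theorem POLY_holds : S_POLY := poly_of POLYA_holds POLYB_holds POLYC_holds

theorem RED_holds : S_RED := red_of SOUND_holds COMPL_holds PAR_holds POLY_holds GM_holds

theorem kap_holds : IsFpt kap3 JobShop → ∀ L, InNTISP L → InSubexp L :=
  fin_kap SOUND_holds COMPL_holds PAR_holds POLY_holds TIME_holds COMPG_holds GM_holds MONO_holds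

theorem four_holds : IsFpt (fun I : List Job × ℕ => pmax I.1) JobShop4 →
    ∀ L, InNTISP L → InSubexp L :=
  fin_four SOUND_holds COMPL_holds PAR_holds POLY_holds TIME_holds COMPG_holds GM_holds MONO_holds

theorem opt_holds : FptTime (fun J : List Job => pmax J + nmax J) optC →
    ∀ L, InNTISP L → InSubexp L :=
  fin_opt SOUND_holds COMPL_holds PAR_holds POLY_holds TIME_holds COMPG_holds GM_holds MONO_holds
    (OPTB_holds OPTA_holds)

end Pool.Agent.H453R2.JS
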