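import Mathlib

/-!
# Three-machine job shop with short jobs, parameterized by the largest processing time

Definitions: the job shop problem; walks with counters using every transition a prescribed number
of times; rules on places (a Petri net in which every rule fires a prescribed number of times);
counter machines with zero tests; nondeterministic multi-stack machines; the reductions between
them.
-/

namespace Pool.Agent.H453R2.JS

/-! ## The job shop problem -/

/-- A job: the list of its operations `(machine, processing time)`, in order. -/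
abbrev Job : Type := List (ℕ × ℕ)

/-- A job of `J3||C_max`: machines `0`, `1`, `2`, positive processing times, consecutive operations
on different machines. -/
def JobOk (J : Job) : Prop :=
  (∀ o ∈ J, o.1 < 3 ∧ 0 < o.2) ∧ J.IsChain (fun a b => a.1 ≠ b.1)

/-- The operation number `i` of the job number `j`. -/
def opOf (J : List Job) (j i : ℕ) : Option (ℕ × ℕ) := (J[j]?).bind (fun b => b[i]?)

/-- `S j i` is the start time of operation `i` of job `j`: the operations of a job are processed in
order, and a machine processes one operation at a time. -/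
structure IsSchedule (J : List Job) (S : ℕ → ℕ → ℝ) : Prop where
  nonneg : ∀ j i o, opOf J j i = some o → 0 ≤ S j i
  order : ∀ j i o o', opOf J j i = some o → opOf J j (i + 1) = some o' →
    S j i + o.2 ≤ S j (i + 1)
  disj : ∀ j i j' i' o o', opOf J j i = some o → opOf J j' i' = some o' → o.1 = o'.1 →
    (j, i) ≠ (j', i') → S j i + o.2 ≤ S j' i' ∨ S j' i' + o'.2 ≤ S j i

/-- The decision version of `J3||C_max`: the instance is `(jobs, L)`; is there a schedule of
makespan at most `L`? -/
def JobShop (I : List Job × ℕ) : Prop :=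
  (∀ J ∈ I.1, JobOk J) ∧ ∃ S : ℕ → ℕ → ℝ, IsSchedule I.1 S ∧
    ∀ j i o, opOf I.1 j i = some o → S j i + o.2 ≤ I.2

/-- The largest processing time. -/
def pmax (J : List Job) : ℕ := (J.flatten.map Prod.snd).foldr max 0

/-- The largest number of operations of a job. -/
def nmax (J : List Job) : ℕ := (J.map List.length).foldr max 0

/-! ## Walks with counters and prescribed multiplicities -/

/-- An action: nothing, or increase (`true`) or decrease (`false`) a counter. -/
abbrev Act : Type := Option (ℕ × Bool)

/-- A transition: source, action, target. -/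
abbrev Tr : Type := ℕ × Act × ℕ

/-- The list of transitions is a walk from `q` to `r`. -/
def IsWalk : ℕ → ℕ → List Tr → Prop
  | q, r, [] => q = r
  | q, r, t :: w => t.1 = q ∧ IsWalk t.2.2 r w

/-- How often the action `a` occurs. -/
def nact (a : Act) (w : List Tr) : ℕ := w.countP (fun t => t.2.1 = a)

/-- All counters (started at `0`) stay nonnegative. -/
def Nonneg (w : List Tr) : Prop :=
  ∀ l, l <+: w → ∀ j, nact (some (j, false)) l ≤ nact (some (j, true)) l

/-- No decrement immediately after an increment. -/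
def Gap (w : List Tr) : Prop :=
  w.IsChain (fun a b => ∀ j j', a.2.1 = some (j, true) → b.2.1 ≠ some (j', false))

/-- The transitions of the list `T` can be arranged into a closed walk at state `0` along which the
counters stay nonnegative. -/
def Arr (T : List Tr) : Prop := ∃ w : List Tr, w.Perm T ∧ IsWalk 0 0 w ∧ Nonneg w

/-- The same, with no decrement immediately after an increment. -/
def ArrGap (T : List Tr) : Prop := ∃ w : List Tr, w.Perm T ∧ IsWalk 0 0 w ∧ Nonneg w ∧ Gap w

/-! ## From walks to job shops -/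

/-- Number of codes of actions. -/
def cW (nc : ℕ) : ℕ := 2 * nc + 1
/-- The slack. -/
def cE (nq nc : ℕ) : ℕ := cW nc * nq
/-- The base length. -/
def cB (nq nc : ℕ) : ℕ := 4 * cE nq nc + 4
/-- The length of the operations on machine `1` released by action operations. -/
def cMu (nq nc : ℕ) : ℕ := 1 + 3 * cE nq nc
/-- The length coding a state. -/
def cAl (nq nc q : ℕ) : ℕ := cB nq nc + cW nc * q
/-- The length coding an action. -/
def cKa (nq nc : ℕ) : Act → ℕ
  | none => cB nq nc
  | some (j, true) => cB nq nc + 1 + 2 * j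
  | some (j, false) => cB nq nc + 2 + 2 * j
/-- The length of the operation on machine `2` of a transition. -/
def cBe (nq nc : ℕ) (t : Tr) : ℕ := 1 + cKa nq nc t.2.1 + cAl nq nc t.2.2
/-- The start frame on machine `2`. -/
def cBs (nq nc : ℕ) : ℕ := 1 + cB nq nc + cAl nq nc 0
/-- An upper bound for all the `cBe`. -/
def cMax (nq nc : ℕ) : ℕ := 1 + 2 * cB nq nc + 2 * cE nq nc
/-- The end frame on machine `2`. -/
def cEnd (nq nc : ℕ) : ℕ := cMax nq nc + 1 - cMu nq nc

/-- The job of a transition. -/
def jobT (nq nc : ℕ) (t : Tr) : Job :=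
  [(0, cAl nq nc t.1), (2, cBe nq nc t), (0, 1), (1, cBe nq nc t - cMu nq nc)]

/-- The kinds of action jobs: a token which is created and later removed; a token which is only
created; a dummy. -/
inductive KJ : Type
  | full (j : ℕ)
  | inc (j : ℕ)
  | dum
  deriving DecidableEq

/-- The action jobs. -/
def kjob (nq nc : ℕ) : KJ → Job
  | KJ.full j => [(0, cKa nq nc (some (j, true))), (1, cMu nq nc),
      (0, cKa nq nc (some (j, false))), (1, cMu nq nc)]
  | KJ.inc j => [(0, cKa nq nc (some (j, true))), (1, cMu nq nc)]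
  | KJ.dum => [(0, cKa nq nc none), (1, cMu nq nc)]

/-- The list of the action jobs of a list of transitions. -/
def kjs (nc : ℕ) (T : List Tr) : List KJ :=
  ((List.range nc).flatMap fun j =>
    List.replicate (nact (some (j, false)) T) (KJ.full j) ++
    List.replicate (nact (some (j, true)) T - nact (some (j, false)) T) (KJ.inc j)) ++
  List.replicate (nact none T + 1) KJ.dum

/-- The five special jobs. -/
def specials (nq nc : ℕ) : List Job :=
  [[(2, cBs nq nc), (0, 1), (1, cBs nq nc - cMu nq nc)],
   [(0, 1), (1, cMax nq nc - cMu nq nc)],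
   [(1, 1)],
   [(0, cAl nq nc 0), (2, cEnd nq nc)],
   [(0, cMax nq nc - cMu nq nc)]]

/-- The jobs of the job shop instance of a list of transitions. -/
def inst (nq nc : ℕ) (T : List Tr) : List Job :=
  specials nq nc ++ (T.map (jobT nq nc) ++ (kjs nc T).map (kjob nq nc))

/-- Its makespan bound. -/
def bound (nq nc : ℕ) (T : List Tr) : ℕ :=
  (T.map (cBe nq nc)).sum + cBs nq nc + cEnd nq nc

/-- The bounds on states and counters and the balances of a list of transitions. -/
structure Good (nq nc : ℕ) (T : List Tr) : Prop where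
  pos : 0 < nq
  src : ∀ t ∈ T, t.1 < nq
  tgt : ∀ t ∈ T, t.2.2 < nq
  cnt : ∀ t ∈ T, ∀ j b, t.2.1 = some (j, b) → j < nc
  sum : (T.map (fun t => t.1)).sum = (T.map (fun t => t.2.2)).sum
  bal : ∀ j, nact (some (j, false)) T ≤ nact (some (j, true)) T

/-! ## The schedule of a walk -/

/-- A timed operation: `((machine, length), start)`. -/
abbrev TOp : Type := (ℕ × ℕ) × ℕ

/-- The sequence of actions, with the dummy action of the start frame. -/
def acts (w : List Tr) : List Act := none :: w.map (fun t => t.2.1)

/-- The start time of frame `a` (frame `0` is the start frame, frame `a + 1` belongs to `w[a]`). -/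
def sT (nq nc : ℕ) (w : List Tr) (a : ℕ) : ℕ :=
  ((cBs nq nc :: w.map (cBe nq nc)).take a).sum

/-- The length of the action operation in frame `a`. -/
def kap (nq nc : ℕ) (w : List Tr) (a : ℕ) : ℕ := cKa nq nc ((acts w).getD a none)

/-- The timed job of the transition `t` executed in frame `a + 1`. -/
def tjT (nq nc : ℕ) (w : List Tr) (t : Tr) (a : ℕ) : List TOp :=
  [((0, cAl nq nc t.1), sT nq nc w a + 1 + kap nq nc w a), ((2, cBe nq nc t), sT nq nc w (a + 1)),
   ((0, 1), sT nq nc w (a + 2)),
   ((1, cBe nq nc t - cMu nq nc), sT nq nc w (a + 1) + (cMax nq nc + 1))]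

/-- The timed action jobs. -/
def tjK (nq nc : ℕ) (w : List Tr) : KJ × ℕ × ℕ → List TOp
  | (KJ.full j, a, b) =>
    [((0, cKa nq nc (some (j, true))), sT nq nc w a + 1),
     ((1, cMu nq nc), sT nq nc w a + (cMax nq nc + 1 - cMu nq nc)),
     ((0, cKa nq nc (some (j, false))), sT nq nc w b + 1),
     ((1, cMu nq nc), sT nq nc w b + (cMax nq nc + 1 - cMu nq nc))]
  | (KJ.inc j, a, _) =>
    [((0, cKa nq nc (some (j, true))), sT nq nc w a + 1),
     ((1, cMu nq nc), sT nq nc w a + (cMax nq nc + 1 - cMu nq nc))]
  | (KJ.dum, a, _) =>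
    [((0, cKa nq nc none), sT nq nc w a + 1),
     ((1, cMu nq nc), sT nq nc w a + (cMax nq nc + 1 - cMu nq nc))]

/-- The timed special jobs. -/
def tjS (nq nc : ℕ) (w : List Tr) : List (List TOp) :=
  [[((2, cBs nq nc), 0), ((0, 1), sT nq nc w 1), ((1, cBs nq nc - cMu nq nc), cMax nq nc + 1)],
   [((0, 1), 0), ((1, cMax nq nc - cMu nq nc), 1)],
   [((1, 1), 0)],
   [((0, cAl nq nc 0), sT nq nc w w.length + 1 + kap nq nc w w.length),
    ((2, cEnd nq nc), sT nq nc w (w.length + 1))],
   [((0, cMax nq nc - cMu nq nc), sT nq nc w (w.length + 1) + 1)]]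

/-- All the timed jobs: `A` lists the action jobs with the frames of their operations. -/
def tjobs (nq nc : ℕ) (w : List Tr) (A : List (KJ × ℕ × ℕ)) : List (List TOp) :=
  tjS nq nc w ++ (w.zipIdx.map (fun ta => tjT nq nc w ta.1 ta.2) ++ A.map (tjK nq nc w))

/-- The frames used by an action job. -/
def kpos : KJ × ℕ × ℕ → List ℕ
  | (KJ.full _, a, b) => [a, b]
  | (KJ.inc _, a, _) => [a]
  | (KJ.dum, a, _) => [a]

/-- The frames fit. -/
def kok (w : List Tr) : KJ × ℕ × ℕ → Prop
  | (KJ.full j, a, b) => (acts w)[a]? = some (some (j, true)) ∧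
      (acts w)[b]? = some (some (j, false)) ∧ a + 2 ≤ b
  | (KJ.inc j, a, _) => (acts w)[a]? = some (some (j, true))
  | (KJ.dum, a, _) => (acts w)[a]? = some none

/-- An assignment of frames to the action jobs. -/
structure Asg (nc : ℕ) (w : List Tr) (A : List (KJ × ℕ × ℕ)) : Prop where
  perm : (A.map Prod.fst).Perm (kjs nc w)
  pos : (A.flatMap kpos).Perm (List.range (w.length + 1))
  ok : ∀ a ∈ A, kok w a

/-! ## The abstract form of a schedule without idle time -/

/-- The operations on machine `0`: state operations of the transition jobs and of the end job,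
unit operations of the transition jobs and of the first two special jobs, action operations, the
filler. -/
inductive O1 (n : ℕ) (KO : Type) : Type
  | al (i : Fin n)
  | alE
  | rho (i : Fin n)
  | rhoS
  | rhoS'
  | ka (k : KO)
  | fil

/-- The operations on machine `2`. -/
inductive O3 (n : ℕ) : Type
  | tr (i : Fin n)
  | S
  | E

/-- Lengths on machine `0`. -/
def len1 (nq nc : ℕ) (T : List Tr) {KO : Type} (code : KO → Act) : O1 T.length KO → ℕ
  | O1.al i => cAl nq nc (T.get i).1
  | O1.alE => cAl nq nc 0
  | O1.rho _ => 1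
  | O1.rhoS => 1
  | O1.rhoS' => 1
  | O1.ka k => cKa nq nc (code k)
  | O1.fil => cMax nq nc - cMu nq nc

/-- The length of the operation on machine `1` directly after the given operation on machine
`0`. -/
def w1 (nq nc : ℕ) (T : List Tr) {KO : Type} : O1 T.length KO → ℕ
  | O1.al _ => 0
  | O1.alE => 0
  | O1.rho i => cBe nq nc (T.get i) - cMu nq nc
  | O1.rhoS => cBs nq nc - cMu nq nc
  | O1.rhoS' => cMax nq nc - cMu nq nc
  | O1.ka _ => cMu nq nc
  | O1.fil => 0

/-- Lengths on machine `2`. -/
def len3 (nq nc : ℕ) (T : List Tr) : O3 T.length → ℕ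
  | O3.tr i => cBe nq nc (T.get i)
  | O3.S => cBs nq nc
  | O3.E => cEnd nq nc

/-- The state operation before an operation on machine `2` (`none` for the start frame). -/
def alOf {n : ℕ} {KO : Type} : O3 n → Option (O1 n KO)
  | O3.tr i => some (O1.al i)
  | O3.S => none
  | O3.E => some O1.alE

/-- The unit operations. -/
def isRho {n : ℕ} {KO : Type} : O1 n KO → Prop
  | O1.rho _ => True
  | O1.rhoS => True
  | O1.rhoS' => True
  | _ => False

/-- The state coded by a state operation. -/
def stOf (T : List Tr) {KO : Type} : O1 T.length KO → ℕ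
  | O1.al i => (T.get i).1
  | _ => 0

/-- The action of a frame. -/
def actOf (T : List Tr) : O3 T.length → Act
  | O3.tr i => (T.get i).2.1
  | _ => none

/-- The target of a frame. -/
def tgtOf (T : List Tr) : O3 T.length → ℕ
  | O3.tr i => (T.get i).2.2
  | _ => 0

/-- A schedule without idle time, as seen from the machines `0` and `2`. -/
structure Sys (nq nc : ℕ) (T : List Tr) (L : ℕ) where
  /-- the action operations -/
  KO : Type
  dec : DecidableEq KO
  code : KO → Act
  code_lt : ∀ k j b, code k = some (j, b) → j < nc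
  /-- start times on machine `0` -/
  s1 : O1 T.length KO → ℕ
  /-- start times on machine `2` -/
  s3 : O3 T.length → ℕ
  end1 : ∀ o, s1 o + len1 nq nc T code o ≤ L
  end3 : ∀ o, s3 o + len3 nq nc T o ≤ L
  dis1 : ∀ a b, a ≠ b → s1 a + len1 nq nc T code a ≤ s1 b ∨ s1 b + len1 nq nc T code b ≤ s1 a
  dis3 : ∀ a b, a ≠ b → s3 a + len3 nq nc T a ≤ s3 b ∨ s3 b + len3 nq nc T b ≤ s3 a
  next1 : ∀ x < L, (x = 0 ∨ ∃ o, s1 o + len1 nq nc T code o = x) → ∃ o, s1 o = x
  next3 : ∀ x < L, (x = 0 ∨ ∃ o, s3 o + len3 nq nc T o = x) → ∃ o, s3 o = x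
  prec_al : ∀ i, s1 (O1.al i) + cAl nq nc (T.get i).1 ≤ s3 (O3.tr i)
  prec_alE : s1 O1.alE + cAl nq nc 0 ≤ s3 O3.E
  prec_rho : ∀ i, s3 (O3.tr i) + cBe nq nc (T.get i) ≤ s1 (O1.rho i)
  prec_rhoS : s3 O3.S + cBs nq nc ≤ s1 O1.rhoS
  work : ∀ x < L, ∀ F : Finset (O1 T.length KO),
    (∀ o, s1 o + len1 nq nc T code o ≤ x → o ∈ F) → x + 1 ≤ 1 + ∑ o ∈ F, w1 nq nc T o
  /-- the increment operation of the job of a decrement operation -/
  partner : KO → KO
  partner_code : ∀ k j, code k = some (j, false) → code (partner k) = some (j, true)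
  partner_lt : ∀ k j, code k = some (j, false) → s1 (O1.ka (partner k)) < s1 (O1.ka k)
  partner_inj : ∀ k k' j j', code k = some (j, false) → code k' = some (j', false) →
    partner k = partner k' → k = k'

/-- The situation at the start time `s` of the frame `c` on machine `2`: `F` is the set of the
operations started before `s` on machine `0`, `ρ` is the unit operation which has to be processed
next, and `β` the length of the previous frame. -/
structure AtFrame {nq nc : ℕ} {T : List Tr} {L : ℕ} (Y : Sys nq nc T L) (s : ℕ)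
    (F : Finset (O1 T.length Y.KO)) (c : O3 T.length) (ρ : O1 T.length Y.KO) (β : ℕ) : Prop where
  start : Y.s3 c = s
  mem : ∀ o, o ∈ F ↔ Y.s1 o < s
  bdry : s = 0 ∨ ∃ o, Y.s1 o + len1 nq nc T Y.code o = s
  fin : ∀ o ∈ F, Y.s1 o + len1 nq nc T Y.code o ≤ s
  βlo : 1 + 2 * cB nq nc ≤ β
  βhi : β ≤ cMax nq nc
  sum : 1 + ∑ o ∈ F, w1 nq nc T o + β = s + (cMax nq nc + 1)
  wρ : w1 nq nc T ρ + cMu nq nc = β
  ρrho : isRho ρ
  ρnot : s ≤ Y.s1 ρ
  others : ∀ o, isRho o → s ≤ Y.s1 o → o ≠ ρ → s + len3 nq nc T c ≤ Y.s1 o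
  alpha : ∀ z a, alOf z = some a → Y.s1 a < s → Y.s3 z ≤ s
  hS : Y.s3 O3.S ≤ s
  hE : s ≤ Y.s3 O3.E

/-- The form of a whole schedule. -/
def Concl {nq nc : ℕ} {T : List Tr} {L : ℕ} (Y : Sys nq nc T L) : Prop :=
  ∃ (w : List (Fin T.length)) (kk : List Y.KO), w.Perm (List.finRange T.length) ∧
    IsWalk 0 0 (w.map T.get) ∧ kk.map Y.code = none :: w.map (fun i => (T.get i).2.1) ∧
    kk.Pairwise (fun a b => Y.s1 (O1.ka a) < Y.s1 (O1.ka b)) ∧ ∀ k, k ∈ kk

/-! ## Rules on places, each used a prescribed number of times -/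

/-- A rule: the places from which a token is taken, the places on which a token is put, and how
often the rule must be used. -/
abbrev Rule : Type := List ℕ × List ℕ × ℕ

/-- The rule number `i` (a void rule outside the list). -/
def rl (R : List Rule) (i : ℕ) : Rule := R.getD i ([], [], 0)

/-- The number of tokens taken from `p` by the sequence `w` of rules. -/
def preC (R : List Rule) (w : List ℕ) (p : ℕ) : ℕ := (w.map (fun i => (rl R i).1.count p)).sum

/-- The number of tokens put on `p` by the sequence `w` of rules. -/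
def postC (R : List Rule) (w : List ℕ) (p : ℕ) : ℕ := (w.map (fun i => (rl R i).2.1.count p)).sum

/-- Started without tokens, the sequence `w` of rules can be used in this order. -/
def Legal (R : List Rule) (w : List ℕ) : Prop :=
  ∀ l i, (l ++ [i]) <+: w → ∀ p, preC R (l ++ [i]) p ≤ postC R l p

/-- All the rules can be used, each as often as prescribed, in some order. -/
def Fires (R : List Rule) : Prop :=
  ∃ w : List ℕ, (∀ i, w.count i = (rl R i).2.2) ∧ Legal R w

/-- The marking after the use of a rule. -/
def useR (r : Rule) (m : ℕ → ℕ) : ℕ → ℕ := fun p => m p - r.1.count p + r.2.1.count p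

/-- The sequence `u` of rules of `R` can be used from the marking `m` and leads to `m'`. -/
def RRun (R : List Rule) : List ℕ → (ℕ → ℕ) → (ℕ → ℕ) → Prop
  | [], m, m' => m = m'
  | i :: u, m, m' => i < R.length ∧ (∀ p, (rl R i).1.count p ≤ m p) ∧ RRun R u (useR (rl R i) m) m'

/-- The walk through new states `s, s + 1, ...` from `q` to `0` with the actions `as` and a final
dummy action. -/
def link : ℕ → ℕ → List Act → List Tr
  | q, _, [] => [(q, none, 0)]
  | q, s, a :: as => (q, a, s) :: link s (s + 1) as

/-- The cycle at `0` of the rule number `i`. -/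
def cyc (D i : ℕ) (r : Rule) : List Tr :=
  link 0 (1 + i * D) (r.1.map (fun p => some (p, false)) ++ r.2.1.map (fun p => some (p, true)))

/-- The transitions of a list of rules. -/
def toT (D : ℕ) (R : List Rule) : List Tr :=
  R.zipIdx.flatMap (fun ri => (List.replicate ri.1.2.2 (cyc D ri.2 ri.1)).flatten)

/-- The properties of the lists of rules needed for the reduction to walks. -/
structure GoodR (D np : ℕ) (R : List Rule) : Prop where
  len : ∀ r ∈ R, r.1.length + r.2.1.length ≤ D
  ne : ∀ r ∈ R, r.1 ++ r.2.1 ≠ []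
  pl : ∀ r ∈ R, ∀ p ∈ r.1 ++ r.2.1, p < np
  bal : ∀ p, (R.map (fun r => r.2.2 * r.1.count p)).sum ≤
    (R.map (fun r => r.2.2 * r.2.1.count p)).sum

/-! ## Counter machines with zero tests -/

/-- Instructions: take tokens from the counters of the first list and put tokens on those of the
second, or test that a counter is zero. -/
abbrev CI : Type := (List ℕ × List ℕ) ⊕ ℕ

/-- A transition of a counter machine. -/
abbrev CRule : Type := ℕ × CI × ℕ

/-- Configurations of a counter machine. -/
abbrev CCfg : Type := ℕ × (ℕ → ℕ)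

/-- The effect of an instruction. -/
def CEff : CI → (ℕ → ℕ) → (ℕ → ℕ) → Prop
  | Sum.inl (pre, post), v, v' => (∀ j, pre.count j ≤ v j) ∧
      v' = fun j => v j - pre.count j + post.count j
  | Sum.inr j, v, v' => v j = 0 ∧ v' = v

/-- One step of a counter machine. -/
def CStep (D : List CRule) (c c' : CCfg) : Prop :=
  ∃ r ∈ D, r.1 = c.1 ∧ r.2.2 = c'.1 ∧ CEff r.2.1 c.2 c'.2

/-- `CRun D C n z c c'`: a run from `c` to `c'` with `n` steps, `z` of them zero tests, along which
all counters are at most `C`. -/
inductive CRun (D : List CRule) (C : ℕ) : ℕ → ℕ → CCfg → CCfg → Prop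
  | refl (c : CCfg) (h : ∀ j, c.2 j ≤ C) : CRun D C 0 0 c c
  | add {n z : ℕ} {c c' c'' : CCfg} (r : CRule) (pre post : List ℕ) (hr : r ∈ D)
      (h1 : r.1 = c.1) (h2 : r.2.2 = c'.1) (hi : r.2.1 = Sum.inl (pre, post))
      (he : CEff r.2.1 c.2 c'.2) (h : ∀ j, c.2 j ≤ C) (hrun : CRun D C n z c' c'') :
      CRun D C (n + 1) z c c''
  | zero {n z : ℕ} {c c' c'' : CCfg} (r : CRule) (j : ℕ) (hr : r ∈ D)
      (h1 : r.1 = c.1) (h2 : r.2.2 = c'.1) (hi : r.2.1 = Sum.inr j)
      (he : CEff r.2.1 c.2 c'.2) (h : ∀ j, c.2 j ≤ C) (hrun : CRun D C n z c' c'') :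
      CRun D C (n + 1) (z + 1) c c''

/-- States below `ns`, counters below `nc`, short instructions in which no counter occurs both in
the first and in the second list. -/
def GoodC (ns nc : ℕ) (D : List CRule) : Prop :=
  ∀ r ∈ D, r.1 < ns ∧ r.2.2 < ns ∧
    match r.2.1 with
    | Sum.inl (pre, post) => (∀ j ∈ pre, j < nc ∧ j ∉ post) ∧ (∀ j ∈ post, j < nc) ∧
        pre.length + post.length ≤ 3
    | Sum.inr j => j < nc

/-- The places: kind `k < 12` and number `i`. Kinds: `0` states, `1`, `2` the two loops of a zero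
test, `3` counters, `4` their complements, `5` the auxiliary places of the counters, `6` the
initial phase, `7` the gate phase, `8` the final phase, `9` unused tests, `10` used tests, `11`
executed test loops. -/
def pl (k i : ℕ) : ℕ := 12 * i + k

/-- The rules simulating one transition (number `i`) of a counter machine. -/
def simRules (N : ℕ) (ri : CRule × ℕ) : List Rule :=
  match ri.1.2.1 with
  | Sum.inl (pre, post) =>
    [(pl 0 ri.1.1 :: (pre.map (pl 3) ++ post.map (pl 4)),
      pl 0 ri.1.2.2 :: (post.map (pl 3) ++ pre.map (pl 4)), N)]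
  | Sum.inr j =>
    [([pl 0 ri.1.1, pl 9 0], [pl 1 ri.2, pl 10 0], N),
     ([pl 1 ri.2, pl 4 j], [pl 1 ri.2, pl 5 j, pl 11 0], N),
     ([pl 1 ri.2], [pl 2 ri.2], N),
     ([pl 2 ri.2, pl 5 j], [pl 2 ri.2, pl 4 j], N),
     ([pl 2 ri.2], [pl 0 ri.1.2.2], N)]

/-- All the rules simulating transitions. -/
def sims (N : ℕ) (D : List CRule) : List Rule := D.zipIdx.flatMap (simRules N)

/-- The places which are filled in the final phase. -/
def simPlaces (ns nc nd : ℕ) : List ℕ :=
  (List.range ns).map (pl 0) ++ ((List.range nd).map (pl 1) ++ ((List.range nd).map (pl 2) ++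
  ((List.range nc).map (pl 3) ++ ((List.range nc).map (pl 4) ++ ((List.range nc).map (pl 5) ++
  [pl 9 0, pl 10 0, pl 11 0])))))

/-- The rules of a counter machine `D` with start values `v0`, capacity `C`, number of zero tests
`Z`; `N` is the multiplicity of the simulation rules and `F` that of the filling rules. -/
def toR (ns nc : ℕ) (D : List CRule) (v0 : List ℕ) (C Z N F : ℕ) : List Rule :=
  ([], [pl 6 0], 1) ::
  ((List.range nc).map (fun j => (([pl 6 0], [pl 6 0, pl 3 j], min (v0.getD j 0) C) : Rule)) ++
  ((List.range nc).map (fun j => (([pl 6 0], [pl 6 0, pl 4 j], C - v0.getD j 0) : Rule)) ++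
  (([pl 6 0], [pl 6 0, pl 9 0], Z) :: ([pl 6 0], [pl 0 0], 1) ::
  (sims N D ++
  (([pl 0 1], [pl 7 0], 1) :: ([pl 7 0, pl 10 0], [pl 7 0], Z) ::
   ([pl 7 0, pl 11 0], [pl 7 0], Z * C) :: ([pl 7 0], [pl 8 0], 1) ::
  (simPlaces ns nc D.length).map (fun x => (([pl 8 0], [pl 8 0, x], F) : Rule)))))))

/-- A sufficient multiplicity of the filling rules. -/
def fillF (D : List CRule) (C Z N : ℕ) : ℕ :=
  ((sims N D).map (fun r => N * r.1.length)).sum + Z * C + Z + 1

/-- The marking at the beginning of the simulation. -/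
def mk0 (nc : ℕ) (v0 : List ℕ) (C Z : ℕ) : ℕ → ℕ := fun p =>
  if p = pl 0 0 then 1 else if p = pl 9 0 then Z
  else if p % 12 = 3 ∧ p / 12 < nc then v0.getD (p / 12) 0
  else if p % 12 = 4 ∧ p / 12 < nc then C - v0.getD (p / 12) 0
  else 0

/-- The configuration with state `q` and counter values given by a list. -/
def cfg0 (q : ℕ) (v0 : List ℕ) : CCfg := (q, fun j => v0.getD j 0)

/-! ## Nondeterministic machines with several stacks -/

/-- Instructions: push a bit on a stack, pop a given bit, test that a stack is empty. -/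
inductive Ins : Type
  | push (i : ℕ) (b : Bool)
  | pop (i : ℕ) (b : Bool)
  | empty (i : ℕ)
  deriving DecidableEq

/-- A nondeterministic machine with several stacks: a finite list of transitions (state,
instruction, state). The initial state is `0`, the accepting state is `1`. -/
abbrev Mach : Type := List (ℕ × Ins × ℕ)

/-- Configurations: state and stacks (top first). -/
abbrev MCfg : Type := ℕ × (ℕ → List Bool)

/-- The effect of an instruction. -/
def MEff : Ins → (ℕ → List Bool) → (ℕ → List Bool) → Prop
  | Ins.push i b, s, s' => s' = Function.update s i (b :: s i)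
  | Ins.pop i b, s, s' => ∃ l, s i = b :: l ∧ s' = Function.update s i l
  | Ins.empty i, s, s' => s i = [] ∧ s' = s

/-- One step. -/
def MStep (M : Mach) (c c' : MCfg) : Prop :=
  ∃ r ∈ M, r.1 = c.1 ∧ r.2.2 = c'.1 ∧ MEff r.2.1 c.2 c'.2

/-- The initial configuration: the input on stack `0`. -/
def minit (x : List Bool) : MCfg := (0, Function.update (fun _ => []) 0 x)

/-- The machine accepts `x`: some run reaches the accepting state. -/
def Accepts (M : Mach) (x : List Bool) : Prop :=
  ∃ c, Relation.ReflTransGen (MStep M) (minit x) c ∧ c.1 = 1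

/-- `MRun M S t c c'`: a run of `t` steps from `c` to `c'` along which all stacks have length at
most `S`. -/
inductive MRun (M : Mach) (S : ℕ) : ℕ → MCfg → MCfg → Prop
  | refl (c : MCfg) (h : ∀ i, (c.2 i).length ≤ S) : MRun M S 0 c c
  | step {t : ℕ} {c c' c'' : MCfg} (h : ∀ i, (c.2 i).length ≤ S) (hs : MStep M c c')
      (hr : MRun M S t c' c'') : MRun M S (t + 1) c c''

/-- The machine accepts `x` within `t` steps and with stacks of length at most `S`. -/
def AcceptsIn (M : Mach) (x : List Bool) (t S : ℕ) : Prop :=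
  ∃ t' ≤ t, ∃ c, MRun M S t' (minit x) c ∧ c.1 = 1

/-- States below `nm`, stacks below `K`. -/
def GoodM (nm K : ℕ) (M : Mach) : Prop :=
  ∀ r ∈ M, r.1 < nm ∧ r.2.2 < nm ∧
    match r.2.1 with
    | Ins.push i _ => i < K
    | Ins.pop i _ => i < K
    | Ins.empty i => i < K

/-- The counter holding block `h` of stack `i` (there are `b` blocks per stack). -/
def cv (b i h : ℕ) : ℕ := 1 + 2 * (i * b + h)
/-- The counter telling (value `1`) that block `h` is the top block of stack `i`. -/
def ct (b i h : ℕ) : ℕ := 2 + 2 * (i * b + h)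

/-- Auxiliary states. -/
def aux (nm b τ h e : ℕ) : ℕ := nm + 4 * (τ * b + h) + e

/-- The counter machine transitions for transition number `τ` of the stack machine and block `h`.
Counter `0` is auxiliary. -/
def gad (nm b : ℕ) (τ : ℕ) (r : ℕ × Ins × ℕ) (h : ℕ) : List CRule :=
  match r.2.1 with
  | Ins.push i β =>
    [(r.1, Sum.inl ([ct b i h], []), aux nm b τ h 0),
     (r.1, Sum.inl ([ct b i (h - 1)], []), aux nm b τ h 0),
     (aux nm b τ h 0, Sum.inl ([cv b i h], [0]), aux nm b τ h 0),
     (aux nm b τ h 0, Sum.inr (cv b i h), aux nm b τ h 1),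
     (aux nm b τ h 1, Sum.inl ([0], [cv b i h, cv b i h]), aux nm b τ h 1),
     (aux nm b τ h 1, Sum.inr 0, aux nm b τ h 2),
     (aux nm b τ h 2, Sum.inl ([], ct b i h :: List.replicate (1 + β.toNat) (cv b i h)), r.2.2)]
  | Ins.pop i β =>
    [(r.1, Sum.inl (ct b i h :: List.replicate (1 + β.toNat) (cv b i h), []), aux nm b τ h 0),
     (aux nm b τ h 0, Sum.inl ([cv b i h, cv b i h], [0]), aux nm b τ h 0),
     (aux nm b τ h 0, Sum.inr (cv b i h), aux nm b τ h 1),
     (aux nm b τ h 1, Sum.inl ([0], [cv b i h]), aux nm b τ h 1),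
     (aux nm b τ h 1, Sum.inr 0, aux nm b τ h 2),
     (aux nm b τ h 2, Sum.inl ([], [ct b i h]), r.2.2),
     (aux nm b τ h 2, Sum.inr (cv b i h), aux nm b τ h 3),
     (aux nm b τ h 3, Sum.inl ([], [ct b i (h - 1)]), r.2.2)]
  | Ins.empty i =>
    [(r.1, Sum.inl ([ct b i 0], []), aux nm b τ h 0),
     (aux nm b τ h 0, Sum.inr (cv b i 0), aux nm b τ h 1),
     (aux nm b τ h 1, Sum.inl ([], [ct b i 0]), r.2.2)]

/-- The counter machine simulating the stack machine `M` with `b` blocks per stack. -/
def toC (nm b : ℕ) (M : Mach) : List CRule :=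
  (1, Sum.inr 0, 1) ::
    M.zipIdx.flatMap (fun ri => (List.range b).flatMap (fun h => gad nm b ri.2 ri.1 h))

/-- The number of a string (bijective binary numeration). -/
def val : List Bool → ℕ
  | [] => 0
  | β :: l => 2 * val l + 1 + β.toNat

/-- Block `h` of a stack, for blocks of length `w` counted from the bottom. -/
def blk (w : ℕ) (s : List Bool) (h : ℕ) : List Bool := ((s.reverse.drop (h * w)).take w).reverse

/-- The number of the top block. -/
def top (w : ℕ) (s : List Bool) : ℕ := (s.length - 1) / w

/-- The initial values of the counters (`K` stacks). -/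
def v0Of (K w b : ℕ) (x : List Bool) : List ℕ :=
  0 :: (List.range (K * b)).flatMap (fun t =>
    if t < b then [val (blk w x t), if t = top w x then 1 else 0]
    else [0, if t % b = 0 then 1 else 0])

/-! ## The whole reduction -/

/-- Number of states of the counter machine. -/
def nsOf (nm b : ℕ) (M : Mach) : ℕ := nm + 4 * (M.length * b)
/-- Number of its counters. -/
def ncOf (K b : ℕ) : ℕ := 1 + 2 * (K * b)
/-- Number of places. -/
def npOf (nm K b : ℕ) (M : Mach) : ℕ :=
  12 * (nsOf nm b M + ncOf K b + (toC nm b M).length + 1)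
/-- Multiplicity of the simulation rules. -/
def multN (n : ℕ) : ℕ := 20 * ((n + 1) * (n + 1))
/-- The rules. -/
def ruleOf (nm K : ℕ) (M : Mach) (x : List Bool) (w b n : ℕ) : List Rule :=
  toR (nsOf nm b M) (ncOf K b) (toC nm b M) (v0Of K w b x) n (3 * n) (multN n)
    (fillF (toC nm b M) n (3 * n) (multN n))
/-- Number of states of the walk. -/
def nqOf (nm K : ℕ) (M : Mach) (x : List Bool) (w b n : ℕ) : ℕ :=
  1 + (ruleOf nm K M x w b n).length * 8
/-- The job shop instance of the machine `M` (states below `nm`, stacks below `K`), the input `x`,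
the block length `w`, the number of blocks `b` and the bound `n` for the running time and for
`2 ^ (w + 1)`. -/
def redF (nm K : ℕ) (M : Mach) (x : List Bool) (w b n : ℕ) : List Job × ℕ :=
  (inst (nqOf nm K M x w b n) (npOf nm K b M) (toT 8 (ruleOf nm K M x w b n)),
   bound (nqOf nm K M x w b n) (npOf nm K b M) (toT 8 (ruleOf nm K M x w b n)))

end Pool.Agent.H453R2.JS
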