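import Pool.Agent.H453R2.JS.Spec3

/-!
# Assembly of the complexity part
-/

namespace Pool.Agent.H453R2.JS

open Relation Turing Pool.Agent.NPC Pool.Agent.H633R2

/-- The reduction, with the bounds for the parameters. -/
def S_RED : Prop := ∀ M : Mach, ∃ (f : RArg → List Job × ℕ) (c : ℕ), Poly f ∧
  ∀ (x : List Bool) (w b n : ℕ),
    nmax (f (x, List.replicate w (), List.replicate b (), List.replicate n ())).1 ≤ 4 ∧
    pmax (f (x, List.replicate w (), List.replicate b (), List.replicate n ())).1 ≤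
      c * (b + 1) ^ 2 ∧
    (1 ≤ b → 1 ≤ w → x.length ≤ b * w → 2 ^ (w + 1) ≤ n →
      (JobShop (f (x, List.replicate w (), List.replicate b (), List.replicate n ())) →
        Accepts M x) ∧
      (AcceptsIn M x n (b * w) →
        JobShop (f (x, List.replicate w (), List.replicate b (), List.replicate n ()))))

theorem redG_rep (nm K : ℕ) (M : Mach) (x : List Bool) (w b n : ℕ) :
    redG nm K M (x, List.replicate w (), List.replicate b (), List.replicate n ()) =
      redF nm K M x w b n := by simp [redG]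

theorem red_of (h1 : S_SOUND) (h2 : S_COMPL) (h3 : S_PAR) (h4 : S_POLY) (h7 : S_GM) : S_RED := by
  intro M
  obtain ⟨nm, K, hM, hnm, hK⟩ := h7 M
  obtain ⟨cp, hcp⟩ := h3 nm K M hM hnm
  refine ⟨redG nm K M, cp, h4 nm K M, fun x w b n => ?_⟩
  rw [redG_rep]
  exact ⟨(hcp x w b n).1, (hcp x w b n).2, fun hb hw hx hn =>
    ⟨h1 nm K M x w b n hM hnm hK hb hw hx hn, h2 nm K M x w b n hM hnm hK hb hw hx hn⟩⟩

/-- The general form of the conclusion. -/
theorem fin_gen (h1 : S_SOUND) (h2 : S_COMPL) (h5 : S_TIME)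
    (h7 : S_GM) (h8 : S_MONO) (dJ : List Job × ℕ → Bool)
    (hdJ : ∀ nm K M, GoodM nm K M → 2 ≤ nm →
      FptTime (fun a : RArg => a.2.2.1.length) (fun a => dJ (redG nm K M a)))
    (hJ : ∀ nm K M, GoodM nm K M → 2 ≤ nm → ∀ a : RArg,
      dJ (redG nm K M a) = true ↔ JobShop (redG nm K M a)) :
    ∀ L, InNTISP L → InSubexp L := by
  classical
  rintro L ⟨M, t0, s, ht0, hL1, hL2⟩ d
  obtain ⟨nm, K, hM, hnm, hK⟩ := h7 M
  have hg := hdJ nm K M hM hnm
  obtain ⟨e, he⟩ := h5 _ hg
  set k : ℕ := (e + 1) * (d + 1) with hk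
  have hk1 : 1 ≤ k := Nat.mul_pos (by omega) (by omega)
  obtain ⟨c0, hc0⟩ := ht0 k
  obtain ⟨Mt, t, c, ht, hMt⟩ := he k ((s + 1) * (k + 1)) (c0 + 1) hk1
  refine ⟨Mt, t, c + 1, fun ℓ => ?_, fun x => ?_⟩
  · -- the time bound
    by_cases h0 : t ℓ = 0
    · rw [h0]
      rcases Nat.eq_zero_or_pos d with rfl | hd
      · rw [pow_zero]; exact Nat.mul_pos (Nat.succ_pos c) (Nat.two_pow_pos ℓ)
      · rw [Nat.zero_pow hd]; exact Nat.zero_le _
    have hpos : 1 ≤ t ℓ := Nat.one_le_iff_ne_zero.2 h0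
    have h1' := ht ℓ
    rw [hk] at h1'
    have h2' : t ℓ ^ ((e + 1) * (d + 1)) = (t ℓ ^ (d + 1)) ^ (e + 1) := by
      rw [← pow_mul, Nat.mul_comm]
    have h3' : (t ℓ ^ (d + 1)) ^ (e + 1) ≤ ((c + 1) * 2 ^ ℓ) ^ (e + 1) := by
      rw [← h2']
      refine h1'.trans ?_
      rw [mul_pow]
      refine Nat.mul_le_mul ?_ ?_
      · calc c ≤ (c + 1) ^ 1 := by rw [pow_one]; omega
          _ ≤ (c + 1) ^ (e + 1) := Nat.pow_le_pow_right (by omega) (by omega)
      · rw [← pow_mul]
        exact Nat.pow_le_pow_right (by omega) (by nlinarith)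
    have h4' : t ℓ ^ (d + 1) ≤ (c + 1) * 2 ^ ℓ := (Nat.pow_le_pow_iff_left (by omega)).1 h3'
    exact (Nat.pow_le_pow_right hpos (by omega)).trans h4'
  · -- correctness
    have hx := hMt x
    set w := x.length / k + 1 with hw
    set b := (s + 1) * (k + 1) with hb
    set n := (c0 + 1) * 2 ^ (x.length / k + 2) with hn
    have hkw : x.length ≤ k * w := by
      have := Nat.div_add_mod x.length k
      have h5' := Nat.mod_lt x.length hk1
      rw [hw]; nlinarith
    have hbw : s * x.length + s ≤ b * w := by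
      have h6' : (s + 1) * x.length ≤ (s + 1) * (k * w) := Nat.mul_le_mul_left _ hkw
      have h7' : 1 ≤ w := Nat.succ_pos _
      rw [hb]; nlinarith
    have hbw2 : x.length ≤ b * w := by
      have h6' : (s + 1) * x.length ≤ (s + 1) * (k * w) := Nat.mul_le_mul_left _ hkw
      rw [hb]; nlinarith
    have hb1 : 1 ≤ b := Nat.mul_pos (by omega) (by omega)
    have hw1 : 1 ≤ w := Nat.succ_pos _
    have hn2 : 2 ^ (w + 1) ≤ n := by
      rw [hn, hw]
      calc 2 ^ (x.length / k + 1 + 1) = 1 * 2 ^ (x.length / k + 2) := by ring_nf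
        _ ≤ (c0 + 1) * 2 ^ (x.length / k + 2) := Nat.mul_le_mul_right _ (by omega)
    have hn3 : t0 x.length ≤ n := by
      have h8' : t0 x.length ^ k ≤ n ^ k := by
        refine (hc0 x.length).trans ?_
        rw [hn, mul_pow, ← pow_mul]
        refine Nat.mul_le_mul ?_ ?_
        · calc c0 ≤ (c0 + 1) ^ 1 := by rw [pow_one]; omega
            _ ≤ (c0 + 1) ^ k := Nat.pow_le_pow_right (by omega) hk1
        · refine Nat.pow_le_pow_right (by omega) ?_
          have : x.length ≤ k * w := hkw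
          rw [hw] at this
          nlinarith
      exact (Nat.pow_le_pow_iff_left (by omega)).1 h8'
    have key : dJ (redG nm K M (x, List.replicate w (), List.replicate b (),
        List.replicate n ())) = decide (x ∈ L) := by
      have h9' := hJ nm K M hM hnm (x, List.replicate w (), List.replicate b (),
        List.replicate n ())
      have h10 : redG nm K M (x, List.replicate w (), List.replicate b (),
        List.replicate n ()) = redF nm K M x w b n := by simp [redG]
      rw [h10] at h9' ⊢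
      by_cases hxL : x ∈ L
      · have h11 := h2 nm K M x w b n hM hnm hK hb1 hw1 hbw2 hn2
          (h8 _ _ _ _ _ _ hn3 hbw (hL1 x hxL))
        rw [h9'.2 h11]; simp [hxL]
      · have h11 : ¬ JobShop (redF nm K M x w b n) := fun h =>
          hxL (hL2 x (h1 nm K M x w b n hM hnm hK hb1 hw1 hbw2 hn2 h))
        have h12 : dJ (redF nm K M x w b n) = false := by
          rw [← Bool.not_eq_true, h9']; exact h11
        rw [h12]; simp [hxL]
    rw [← key]
    exact hx

/-- The decision version with the parameter `p_max + n_max`. -/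
theorem fin_kap (h1 : S_SOUND) (h2 : S_COMPL) (h3 : S_PAR) (h4 : S_POLY) (h5 : S_TIME)
    (h6 : S_COMPG) (h7 : S_GM) (h8 : S_MONO) :
    IsFpt kap3 JobShop → ∀ L, InNTISP L → InSubexp L := by
  rintro ⟨dJ, hdJ, hJ⟩
  refine fin_gen h1 h2 h5 h7 h8 dJ (fun nm K M hM hnm => ?_) (fun nm K M _ _ a => hJ _)
  obtain ⟨cp, hcp⟩ := h3 nm K M hM hnm
  exact h6 kap3 dJ hdJ (redG nm K M) (h4 nm K M) cp (fun a => by
    have := hcp a.1 a.2.1.length a.2.2.1.length a.2.2.2.length
    unfold kap3 redG; omega)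

/-- At most four operations per job, parameter `p_max`. -/
theorem fin_four (h1 : S_SOUND) (h2 : S_COMPL) (h3 : S_PAR) (h4 : S_POLY) (h5 : S_TIME)
    (h6 : S_COMPG) (h7 : S_GM) (h8 : S_MONO) :
    IsFpt (fun I : List Job × ℕ => pmax I.1) JobShop4 → ∀ L, InNTISP L → InSubexp L := by
  rintro ⟨dJ, hdJ, hJ⟩
  refine fin_gen h1 h2 h5 h7 h8 dJ (fun nm K M hM hnm => ?_) (fun nm K M hM hnm a => ?_)
  · obtain ⟨cp, hcp⟩ := h3 nm K M hM hnm
    exact h6 (fun I => pmax I.1) dJ hdJ (redG nm K M) (h4 nm K M) cp (fun a => by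
      have := hcp a.1 a.2.1.length a.2.2.1.length a.2.2.2.length
      simp only [redG]; omega)
  · obtain ⟨cp, hcp⟩ := h3 nm K M hM hnm
    have := hcp a.1 a.2.1.length a.2.2.1.length a.2.2.2.length
    rw [hJ]
    exact ⟨fun h => h.2, fun h => ⟨this.1, h⟩⟩

/-- The optimisation version. -/
theorem fin_opt (h1 : S_SOUND) (h2 : S_COMPL) (h3 : S_PAR) (h4 : S_POLY) (h5 : S_TIME)
    (h6 : S_COMPG) (h7 : S_GM) (h8 : S_MONO) (h9 : S_OPTB) :
    FptTime (fun J : List Job => pmax J + nmax J) optC → ∀ L, InNTISP L → InSubexp L :=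
  fun h => fin_kap h1 h2 h3 h4 h5 h6 h7 h8 (h9 h)

end Pool.Agent.H453R2.JS
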