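import Pool.Agent.H453R2.JS.Defs

/-!
# Statements of the tasks (elementary part)
-/

namespace Pool.Agent.H453R2.JS

open Relation

/-! ### Schedules -/

/-- A schedule with natural start times and makespan at most `L`. -/
structure NSched (J : List Job) (L : ℕ) (S : ℕ → ℕ → ℕ) : Prop where
  order : ∀ j i o o', opOf J j i = some o → opOf J j (i + 1) = some o' →
    S j i + o.2 ≤ S j (i + 1)
  disj : ∀ j i j' i' o o', opOf J j i = some o → opOf J j' i' = some o' → o.1 = o'.1 →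
    (j, i) ≠ (j', i') → S j i + o.2 ≤ S j' i' ∨ S j' i' + o'.2 ≤ S j i
  le : ∀ j i o, opOf J j i = some o → S j i + o.2 ≤ L

/-- The length of an operation (`0` if there is none). -/
def opLen (J : List Job) (p : ℕ × ℕ) : ℕ := ((opOf J p.1 p.2).map Prod.snd).getD 0

/-- The total processing time on machine `m`. -/
def load (J : List Job) (m : ℕ) : ℕ := ((J.flatten.filter (fun o => o.1 = m)).map Prod.snd).sum

/-- Rounding down the start times. -/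
def S_FLR : Prop := ∀ (J : List Job) (L : ℕ) (S : ℕ → ℕ → ℝ), IsSchedule J S →
  (∀ j i o, opOf J j i = some o → S j i + o.2 ≤ L) → ∃ S' : ℕ → ℕ → ℕ, NSched J L S'

/-- No idle time, abstract form. -/
def S_ZI : Prop := ∀ (O : Type) (F : Finset O) (s p : O → ℕ) (L : ℕ),
  (∀ o ∈ F, 0 < p o) → (∀ a ∈ F, ∀ b ∈ F, a ≠ b → s a + p a ≤ s b ∨ s b + p b ≤ s a) →
  (∀ o ∈ F, s o + p o ≤ L) → ∑ o ∈ F, p o = L →
  (∀ x < L, ∃ o ∈ F, s o ≤ x ∧ x < s o + p o) ∧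
  (∀ x < L, (x = 0 ∨ ∃ o ∈ F, s o + p o = x) → ∃ o ∈ F, s o = x) ∧
  ∀ x < L, ∀ G ⊆ F, (∀ o ∈ F, s o ≤ x → o ∈ G) → x + 1 ≤ ∑ o ∈ G, p o

/-- No idle time, for a machine of a job shop. -/
def S_ZIJ : Prop := ∀ (J : List Job) (L : ℕ) (S : ℕ → ℕ → ℕ) (m : ℕ),
  (∀ B ∈ J, ∀ o ∈ B, 0 < o.2) → NSched J L S → load J m = L →
  (∀ x < L, (x = 0 ∨ ∃ j i o, opOf J j i = some o ∧ o.1 = m ∧ S j i + o.2 = x) →
    ∃ j i o, opOf J j i = some o ∧ o.1 = m ∧ S j i = x) ∧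
  ∀ x < L, ∀ F : Finset (ℕ × ℕ),
    (∀ j i o, opOf J j i = some o → o.1 = m → S j i ≤ x → (j, i) ∈ F) →
    x + 1 ≤ ∑ p ∈ F, opLen J p

/-- All three machines have load `bound`. -/
def S_LOAD : Prop := ∀ nq nc T, Good nq nc T → ∀ m < 3, load (inst nq nc T) m = bound nq nc T

/-- The jobs are admissible. -/
def S_JOK : Prop := ∀ nq nc T, Good nq nc T → ∀ B ∈ inst nq nc T, JobOk B

/-- Timed jobs give a schedule. -/
def S_TJ : Prop := ∀ (J : List Job) (L : ℕ) (A : List (List TOp)),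
  (∀ B ∈ J, JobOk B) → (A.map (List.map Prod.fst)).Perm J →
  (∀ a ∈ A, a.IsChain (fun u v => u.2 + u.1.2 ≤ v.2)) →
  A.flatten.Pairwise (fun u v => u.1.1 = v.1.1 → u.2 + u.1.2 ≤ v.2 ∨ v.2 + v.1.2 ≤ u.2) →
  (∀ a ∈ A, ∀ u ∈ a, u.2 + u.1.2 ≤ L) → JobShop (J, L)

/-! ### From schedules to walks -/

/-- The abstract form of a schedule of the instance of `T`. -/
def S_EXT : Prop := ∀ nq nc T S, Good nq nc T → NSched (inst nq nc T) (bound nq nc T) S →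
  Nonempty (Sys nq nc T (bound nq nc T))

/-- One frame. -/
def S_CSTEP : Prop := ∀ (nq nc : ℕ) (T : List Tr) (L : ℕ) (Y : Sys nq nc T L)
  (s : ℕ) (F : Finset (O1 T.length Y.KO)) (c : O3 T.length) (ρ : O1 T.length Y.KO) (β : ℕ),
  Good nq nc T → AtFrame Y s F c ρ β → c ≠ O3.E →
  Y.s1 ρ = s ∧ ∃ (k : Y.KO) (z : O3 T.length) (a : O1 T.length Y.KO),
    Y.code k = actOf T c ∧ alOf z = some a ∧ stOf T a = tgtOf T c ∧
    Y.s3 z = s + len3 nq nc T c ∧ Y.s1 (O1.ka k) = s + 1 ∧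
    Y.s1 a = s + 1 + cKa nq nc (Y.code k) ∧
    Y.s1 a + len1 nq nc T Y.code a = s + len3 nq nc T c ∧
    ∀ o, s ≤ Y.s1 o → Y.s1 o < s + len3 nq nc T c → o = ρ ∨ o = O1.ka k ∨ o = a

/-- The last frame. -/
def S_CLAST : Prop := ∀ (nq nc : ℕ) (T : List Tr) (L : ℕ) (Y : Sys nq nc T L)
  (s : ℕ) (F : Finset (O1 T.length Y.KO)) (ρ : O1 T.length Y.KO) (β : ℕ),
  Good nq nc T → AtFrame Y s F O3.E ρ β →
  L = s + len3 nq nc T O3.E ∧ (∀ z, Y.s3 z ≤ s) ∧ ∀ o, s ≤ Y.s1 o → o = ρ ∨ o = O1.fil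

/-- All frames. -/
def S_CIND : Prop := ∀ (nq nc : ℕ) (T : List Tr) (L : ℕ) (Y : Sys nq nc T L),
  Good nq nc T → Concl Y

/-- The counters stay nonnegative. -/
def S_NN : Prop := ∀ (nq nc : ℕ) (T : List Tr) (L : ℕ) (Y : Sys nq nc T L), Concl Y → Arr T

/-! ### From walks to schedules -/

/-- Increments and decrements are matched first in, first out. -/
def S_ASG : Prop := ∀ (nc : ℕ) (w : List Tr), (∀ t ∈ w, ∀ j b, t.2.1 = some (j, b) → j < nc) →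
  Nonneg w → Gap w → ∃ A, Asg nc w A

/-- The timed jobs are the jobs of the instance, in order and in time. -/
def S_SCHA : Prop := ∀ (nq nc : ℕ) (T w : List Tr) (A : List (KJ × ℕ × ℕ)), Good nq nc T →
  w.Perm T → IsWalk 0 0 w → Asg nc w A →
  ((tjobs nq nc w A).map (List.map Prod.fst)).Perm (inst nq nc T) ∧
  (∀ a ∈ tjobs nq nc w A, a.IsChain (fun u v => u.2 + u.1.2 ≤ v.2)) ∧
  ∀ a ∈ tjobs nq nc w A, ∀ u ∈ a, u.2 + u.1.2 ≤ bound nq nc T

/-- The timed jobs do not collide. -/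
def S_SCHB : Prop := ∀ (nq nc : ℕ) (T w : List Tr) (A : List (KJ × ℕ × ℕ)), Good nq nc T →
  w.Perm T → IsWalk 0 0 w → Asg nc w A →
  (tjobs nq nc w A).flatten.Pairwise
    (fun u v => u.1.1 = v.1.1 → u.2 + u.1.2 ≤ v.2 ∨ v.2 + v.1.2 ≤ u.2)

/-! ### Rules and walks -/

/-- Sequences of rules: legality in terms of markings. -/
def S_LEG : Prop := (∀ (R : List Rule) (w : List ℕ), (∀ i ∈ w, i < R.length) →
    (Legal R w ↔ ∃ m', RRun R w (fun _ => 0) m')) ∧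
  (∀ (R : List Rule) (u v : List ℕ) (m m' : ℕ → ℕ),
    RRun R (u ++ v) m m' ↔ ∃ m1, RRun R u m m1 ∧ RRun R v m1 m') ∧
  ∀ (R : List Rule) (w : List ℕ) (m m' : ℕ → ℕ), RRun R w m m' →
    (∀ i ∈ w, i < R.length) ∧ ∀ p, m' p + preC R w p = m p + postC R w p

/-- A walk decomposes into cycles. -/
def S_CYS : Prop := ∀ D np R, GoodR D np R → Arr (toT D R) → Fires R

/-- A sequence of rules gives a walk. -/
def S_CYC : Prop := ∀ D np R, GoodR D np R → Fires R → ArrGap (toT D R)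

/-- Bounds and balances. -/
def S_TRG : Prop := ∀ D np R, GoodR D np R → Good (1 + R.length * D) np (toT D R)

/-! ### Counter machines and rules -/

/-- The phases of a sequence of rules. -/
def S_PH : Prop := ∀ ns nc D v0 C Z N F, GoodC ns nc D → v0.length ≤ nc →
  (∀ j, v0.getD j 0 ≤ C) → Fires (toR ns nc D v0 C Z N F) →
  ∃ u m1, RRun (sims N D) u (mk0 nc v0 C Z) m1 ∧ 1 ≤ m1 (pl 0 1) ∧ Z ≤ m1 (pl 10 0) ∧
    Z * C ≤ m1 (pl 11 0)

/-- A complete simulation is correct. -/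
def S_SIM : Prop := ∀ ns nc D v0 C Z N u m1, GoodC ns nc D → v0.length ≤ nc →
  (∀ j, v0.getD j 0 ≤ C) → RRun (sims N D) u (mk0 nc v0 C Z) m1 → 1 ≤ m1 (pl 0 1) →
  Z ≤ m1 (pl 10 0) → Z * C ≤ m1 (pl 11 0) →
  ∃ v, ReflTransGen (CStep D) (cfg0 0 v0) (1, v)

/-- A run of the counter machine can be simulated. -/
def S_SIMC : Prop := ∀ ns nc D v0 C Z N n c, GoodC ns nc D → v0.length ≤ nc →
  CRun D C n Z (cfg0 0 v0) c → c.1 = 1 → n ≤ N → Z ≤ N → Z * C ≤ N →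
  ∃ u m1, RRun (sims N D) u (mk0 nc v0 C Z) m1 ∧ (∀ i, u.count i ≤ N) ∧ 1 ≤ m1 (pl 0 1) ∧
    m1 (pl 10 0) = Z ∧ m1 (pl 11 0) = Z * C

/-- The other phases of the simulation. -/
def S_FLU : Prop := ∀ ns nc D v0 C Z N F u m1, GoodC ns nc D → 2 ≤ ns → v0.length ≤ nc →
  (∀ j, v0.getD j 0 ≤ C) → fillF D C Z N ≤ F → RRun (sims N D) u (mk0 nc v0 C Z) m1 →
  (∀ i, u.count i ≤ N) → 1 ≤ m1 (pl 0 1) → m1 (pl 10 0) = Z → m1 (pl 11 0) = Z * C →
  Fires (toR ns nc D v0 C Z N F)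

/-- Bounds and balances of the rules. -/
def S_RG : Prop := ∀ ns nc D v0 C Z N F, GoodC ns nc D → 2 ≤ ns → v0.length ≤ nc →
  (∀ j, v0.getD j 0 ≤ C) → fillF D C Z N ≤ F →
  GoodR 8 (12 * (ns + nc + D.length + 1)) (toR ns nc D v0 C Z N F)

/-! ### Stack machines and counter machines -/

/-- Bounds for the counter machine. -/
def S_TCG : Prop := (∀ nm K b M, GoodM nm K M → 2 ≤ nm → 1 ≤ b →
    GoodC (nsOf nm b M) (ncOf K b) (toC nm b M) ∧ 2 ≤ nsOf nm b M) ∧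
  ∀ K w b x n, 2 ^ (w + 1) ≤ n → (v0Of K w b x).length ≤ ncOf K b ∧
    ∀ j, (v0Of K w b x).getD j 0 ≤ n

/-- Basic facts about the coding of stacks. -/
def S_VAL : Prop := Function.Injective val ∧ (∀ l, val l + 2 ≤ 2 ^ (l.length + 1)) ∧
  (∀ (l : List Bool) (β : Bool) (y : ℕ), val l = 2 * y + 1 + β.toNat →
    ∃ l', l = β :: l' ∧ val l' = y) ∧
  ∀ (w : ℕ) (x : List Bool) (h : ℕ), 1 ≤ w → top w x < h → blk w x h = []

/-- The stack with the blocks `B tp, ..., B 0` (top block first). -/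
def stk (B : ℕ → List Bool) (tp : ℕ) : List Bool := ((List.range (tp + 1)).reverse.map B).flatten

/-- The counters represent stack `i` with blocks `B` and top block number `tp`. -/
def RepI (b i : ℕ) (v : ℕ → ℕ) (B : ℕ → List Bool) (tp : ℕ) : Prop :=
  tp < b ∧ (∀ h < b, v (cv b i h) = if h ≤ tp then val (B h) else 0) ∧
  ∀ h < b, v (ct b i h) = if h = tp then 1 else 0

/-- The same while block `h` of stack `i` is being processed: the token is removed and the value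
of block `h` is arbitrary. -/
def RepJ (b i h : ℕ) (v : ℕ → ℕ) (B : ℕ → List Bool) : Prop :=
  h < b ∧ (∀ h' < b, h' ≠ h → v (cv b i h') = if h' < h then val (B h') else 0) ∧
  ∀ h' < b, v (ct b i h') = 0

/-- The stack of an instruction. -/
def insI : Ins → ℕ
  | Ins.push i _ => i
  | Ins.pop i _ => i
  | Ins.empty i => i

/-- The block processed by an instruction. -/
def insH : Ins → ℕ → ℕ
  | Ins.push _ _, h => h
  | Ins.pop _ _, h => h
  | Ins.empty _, _ => 0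

/-- Phase `e` of an instruction: `v` is the value of the block counter, `y` that of counter `0`,
`V` the value of the block in the beginning. -/
def phase : Ins → ℕ → ℕ → ℕ → ℕ → Prop
  | Ins.push _ _, 0, v, y, V => v + y = V
  | Ins.push _ _, 1, v, y, V => v + 2 * y = 2 * V
  | Ins.push _ _, 2, v, y, V => v = 2 * V ∧ y = 0
  | Ins.pop _ β, 0, v, y, V => v + 2 * y + 1 + β.toNat = V
  | Ins.pop _ β, 1, v, y, V => 2 * (v + y) + 1 + β.toNat = V
  | Ins.pop _ β, 2, v, y, V => y = 0 ∧ 2 * v + 1 + β.toNat = V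
  | Ins.pop _ β, 3, v, y, V => y = 0 ∧ v = 0 ∧ 1 + β.toNat = V
  | Ins.empty _, 0, v, y, V => v = V ∧ y = 0
  | Ins.empty _, 1, v, y, V => v = V ∧ y = 0 ∧ V = 0
  | _, _, _, _, _ => False

/-- The invariant in the main states. -/
def InvM (nm K b : ℕ) (M : Mach) (x : List Bool) (c : CCfg) : Prop :=
  c.1 < nm ∧ c.2 0 = 0 ∧ ∃ s : ℕ → List Bool, ReflTransGen (MStep M) (minit x) (c.1, s) ∧
    ∀ i < K, ∃ B tp, RepI b i c.2 B tp ∧ s i = stk B tp

/-- The invariant in the auxiliary state `e` for the transition number `τ` and block `h`. -/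
def InvA (nm K b : ℕ) (M : Mach) (x : List Bool) (τ : ℕ) (r : ℕ × Ins × ℕ) (h e : ℕ)
    (c : CCfg) : Prop :=
  M[τ]? = some r ∧ h < b ∧ e < 4 ∧ c.1 = aux nm b τ h e ∧
    ∃ s : ℕ → List Bool, ReflTransGen (MStep M) (minit x) (r.1, s) ∧
      (∀ i < K, i ≠ insI r.2.1 → ∃ B tp, RepI b i c.2 B tp ∧ s i = stk B tp) ∧
      ∃ B, RepJ b (insI r.2.1) (insH r.2.1 h) c.2 B ∧ s (insI r.2.1) = stk B (insH r.2.1 h) ∧
        phase r.2.1 e (c.2 (cv b (insI r.2.1) (insH r.2.1 h))) (c.2 0)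
          (val (B (insH r.2.1 h)))

/-- The invariant. -/
def Inv (nm K b : ℕ) (M : Mach) (x : List Bool) (c : CCfg) : Prop :=
  InvM nm K b M x c ∨ ∃ τ r h e, InvA nm K b M x τ r h e c

/-- Steps from main states. -/
def S_MCSA : Prop := ∀ nm K b M x c c', GoodM nm K M → 2 ≤ nm → 1 ≤ b →
  InvM nm K b M x c → CStep (toC nm b M) c c' → Inv nm K b M x c'

/-- Steps from auxiliary states of a push instruction. -/
def S_MCSB : Prop := ∀ nm K b M x c c' τ r h e i β, GoodM nm K M → 2 ≤ nm → 1 ≤ b →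
  r.2.1 = Ins.push i β → InvA nm K b M x τ r h e c → CStep (toC nm b M) c c' → Inv nm K b M x c'

/-- Steps from auxiliary states of a pop instruction. -/
def S_MCSC : Prop := ∀ nm K b M x c c' τ r h e i β, GoodM nm K M → 2 ≤ nm → 1 ≤ b →
  r.2.1 = Ins.pop i β → InvA nm K b M x τ r h e c → CStep (toC nm b M) c c' → Inv nm K b M x c'

/-- Steps from auxiliary states of an empty instruction. -/
def S_MCSD : Prop := ∀ nm K b M x c c' τ r h e i, GoodM nm K M → 2 ≤ nm → 1 ≤ b →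
  r.2.1 = Ins.empty i → InvA nm K b M x τ r h e c → CStep (toC nm b M) c c' → Inv nm K b M x c'

/-- The counter machine accepts only if the stack machine does. -/
def S_MCS : Prop := ∀ nm K b w M x, GoodM nm K M → 2 ≤ nm → 1 ≤ K → 1 ≤ b → 1 ≤ w →
  x.length ≤ b * w →
  (∃ v, ReflTransGen (CStep (toC nm b M)) (cfg0 0 (v0Of K w b x)) (1, v)) → Accepts M x

/-- The canonical counter values of the stacks `s`. -/
def rep (K w b : ℕ) (s : ℕ → List Bool) : ℕ → ℕ := fun j =>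
  if j = 0 ∨ K * b ≤ (j - 1) / 2 then 0
  else if j % 2 = 1 then val (blk w (s ((j - 1) / 2 / b)) ((j - 1) / 2 % b))
  else if (j - 1) / 2 % b = top w (s ((j - 1) / 2 / b)) then 1 else 0

/-- Simulation of one instruction push. -/
def S_MCCP : Prop := ∀ nm K b w M C s i β r, GoodM nm K M → 2 ≤ nm → 1 ≤ b → 1 ≤ w →
  2 ^ (w + 1) ≤ C → r ∈ M → r.2.1 = Ins.push i β → (s i).length + 1 ≤ b * w →
  (∀ i', (s i').length ≤ b * w) → ∃ n z,
    CRun (toC nm b M) C n z (r.1, rep K w b s)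
      (r.2.2, rep K w b (Function.update s i (β :: s i))) ∧ n ≤ 2 * C + 8 ∧ z ≤ 3

/-- Simulation of one instruction pop. -/
def S_MCCQ : Prop := ∀ nm K b w M C s i β r l, GoodM nm K M → 2 ≤ nm → 1 ≤ b → 1 ≤ w →
  2 ^ (w + 1) ≤ C → r ∈ M → r.2.1 = Ins.pop i β → s i = β :: l →
  (∀ i', (s i').length ≤ b * w) → ∃ n z,
    CRun (toC nm b M) C n z (r.1, rep K w b s)
      (r.2.2, rep K w b (Function.update s i l)) ∧ n ≤ 2 * C + 8 ∧ z ≤ 3

/-- Simulation of one instruction empty. -/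
def S_MCCE : Prop := ∀ nm K b w M C s i r, GoodM nm K M → 2 ≤ nm → 1 ≤ b → 1 ≤ w →
  2 ^ (w + 1) ≤ C → r ∈ M → r.2.1 = Ins.empty i → s i = [] →
  (∀ i', (s i').length ≤ b * w) → ∃ n z,
    CRun (toC nm b M) C n z (r.1, rep K w b s) (r.2.2, rep K w b s) ∧ n ≤ 2 * C + 8 ∧ z ≤ 3

/-- The counter machine accepts if the stack machine does. -/
def S_MCC : Prop := ∀ nm K b w M x C t Z, GoodM nm K M → 2 ≤ nm → 1 ≤ K → 1 ≤ b → 1 ≤ w →
  x.length ≤ b * w → 2 ^ (w + 1) ≤ C → 3 * t ≤ Z → AcceptsIn M x t (b * w) →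
  ∃ n c, CRun (toC nm b M) C n Z (cfg0 0 (v0Of K w b x)) c ∧ c.1 = 1 ∧ n ≤ t * (2 * C + 8) + Z

/-! ### Parameters -/

/-- At most four operations per job, and processing times at most quadratic in the number of
blocks. -/
def S_PAR : Prop := ∀ nm K M, GoodM nm K M → 2 ≤ nm → ∃ c, ∀ x w b n,
  nmax (redF nm K M x w b n).1 ≤ 4 ∧ pmax (redF nm K M x w b n).1 ≤ c * (b + 1) ^ 2

/-! ### Main statements -/

/-- The reduction is sound. -/
def S_SOUND : Prop := ∀ nm K M x w b n, GoodM nm K M → 2 ≤ nm → 1 ≤ K → 1 ≤ b → 1 ≤ w →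
  x.length ≤ b * w → 2 ^ (w + 1) ≤ n → JobShop (redF nm K M x w b n) → Accepts M x

/-- The reduction is complete. -/
def S_COMPL : Prop := ∀ nm K M x w b n, GoodM nm K M → 2 ≤ nm → 1 ≤ K → 1 ≤ b → 1 ≤ w →
  x.length ≤ b * w → 2 ^ (w + 1) ≤ n → AcceptsIn M x n (b * w) → JobShop (redF nm K M x w b n)

/-- Assembly. -/
theorem sound_of (h1 : S_FLR) (h2 : S_EXT) (h3 : S_CIND) (h4 : S_NN) (h5 : S_CYS) (h6 : S_TRG)
    (h7 : S_RG) (h8 : S_PH) (h9 : S_SIM) (h10 : S_TCG) (h11 : S_MCS) : S_SOUND := by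
  intro nm K M x w b n hM hnm hK hb hw hx hn hJ
  obtain ⟨-, S, hS, hSL⟩ := hJ
  obtain ⟨S', hS'⟩ := h1 _ _ S hS hSL
  obtain ⟨hC, hns⟩ := h10.1 nm K b M hM hnm hb
  obtain ⟨hv1, hv2⟩ := h10.2 K w b x n hn
  have hR := h7 (nsOf nm b M) (ncOf K b) (toC nm b M) (v0Of K w b x) n (3 * n) (multN n)
    (fillF (toC nm b M) n (3 * n) (multN n)) hC hns hv1 hv2 le_rfl
  have hT := h6 8 _ _ hR
  obtain ⟨Y⟩ := h2 _ _ _ S' hT hS'
  have hF := h5 8 _ _ hR (h4 _ _ _ _ Y (h3 _ _ _ _ Y hT))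
  obtain ⟨u, m1, hu, e1, e2, e3⟩ := h8 _ _ _ _ _ _ _ _ hC hv1 hv2 hF
  exact h11 nm K b w M x hM hnm hK hb hw hx (h9 _ _ _ _ _ _ _ u m1 hC hv1 hv2 hu e1 e2 e3)

theorem compl_of (h1 : S_TJ) (h2 : S_JOK) (h3 : S_ASG) (h4 : S_SCHA) (h5 : S_SCHB) (h6 : S_CYC)
    (h7 : S_TRG) (h8 : S_RG) (h9 : S_FLU) (h10 : S_SIMC) (h11 : S_TCG) (h12 : S_MCC) :
    S_COMPL := by
  intro nm K M x w b n hM hnm hK hb hw hx hn hA
  obtain ⟨hC, hns⟩ := h11.1 nm K b M hM hnm hb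
  obtain ⟨hv1, hv2⟩ := h11.2 K w b x n hn
  have hR := h8 (nsOf nm b M) (ncOf K b) (toC nm b M) (v0Of K w b x) n (3 * n) (multN n)
    (fillF (toC nm b M) n (3 * n) (multN n)) hC hns hv1 hv2 le_rfl
  have hT := h7 8 _ _ hR
  obtain ⟨n', c, hrun, hc, hn'⟩ := h12 nm K b w M x n n (3 * n) hM hnm hK hb hw hx hn le_rfl hA
  have e1 : n' ≤ multN n := by unfold multN; nlinarith
  have e2 : 3 * n ≤ multN n := by unfold multN; nlinarith
  have e3 : 3 * n * n ≤ multN n := by unfold multN; nlinarith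
  obtain ⟨u, m1, hu, f0, f1, f2, f3⟩ := h10 _ _ _ _ _ _ _ n' c hC hv1 hrun hc e1 e2 e3
  have hF := h9 _ _ _ _ _ _ _ _ u m1 hC hns hv1 hv2 le_rfl hu f0 f1 f2 f3
  obtain ⟨W, hW, hW1, hW2, hW3⟩ := h6 8 _ _ hR hF
  obtain ⟨A, hAs⟩ := h3 _ W (fun t ht => hT.cnt t (hW.mem_iff.1 ht)) hW2 hW3
  obtain ⟨g1, g2, g3⟩ := h4 _ _ _ W A hT hW hW1 hAs
  exact h1 _ _ (tjobs _ _ W A) (h2 _ _ _ hT) g1 g2 (h5 _ _ _ W A hT hW hW1 hAs) g3

end Pool.Agent.H453R2.JS
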