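import Pool.Agent.H453R2.JS.Spec
import Pool.Agent.H633R2.Fpt

/-!
# Statements of the tasks (complexity part)
-/

namespace Pool.Agent.H453R2.JS

open Relation Turing Pool.Agent.NPC Pool.Agent.H633R2

/-- The arguments of the reduction: the input string; block length, number of blocks and the bound
`n`, in unary. -/
abbrev RArg : Type := List Bool × List Unit × List Unit × List Unit

/-- The reduction, on encoded arguments. -/
def redG (nm K : ℕ) (M : Mach) (a : RArg) : List Job × ℕ :=
  redF nm K M a.1 a.2.1.length a.2.2.1.length a.2.2.2.length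

/-- The rules are computed in polynomial time and their multiplicities are bounded in unary. -/
def S_POLYA : Prop := ∀ nm K M,
  Poly (fun a : RArg => ruleOf nm K M a.1 a.2.1.length a.2.2.1.length a.2.2.2.length) ∧
  UPoly (fun a : RArg => npOf nm K a.2.2.1.length M) ∧
  ∃ u : RArg → ℕ, UPoly u ∧ ∀ a, ∀ r ∈ ruleOf nm K M a.1 a.2.1.length a.2.2.1.length
    a.2.2.2.length, r.2.2 ≤ u a

/-- The transitions are computed in polynomial time. -/
def S_POLYB : Prop := ∀ (R : RArg → List Rule) (u : RArg → ℕ), Poly R → UPoly u →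
  (∀ a, ∀ r ∈ R a, r.2.2 ≤ u a) → Poly (fun a => toT 8 (R a))

/-- The job shop instance is computed in polynomial time. -/
def S_POLYC : Prop := ∀ (T : RArg → List Tr) (nq np : RArg → ℕ), Poly T → UPoly nq → UPoly np →
  Poly (fun a => (inst (nq a) (np a) (T a), bound (nq a) (np a) (T a)))

/-- The reduction is computed in polynomial time. -/
def S_POLY : Prop := ∀ nm K M, Poly (redG nm K M)

theorem poly_of (hA : S_POLYA) (hB : S_POLYB) (hC : S_POLYC) : S_POLY := by
  intro nm K M
  obtain ⟨h1, h2, u, hu, hru⟩ := hA nm K M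
  have hT := hB _ u h1 hu hru
  have hq : UPoly (fun a : RArg => nqOf nm K M a.1 a.2.1.length a.2.2.1.length
      a.2.2.2.length) := by
    unfold nqOf
    exact (UPoly.const 1).add ((UPoly.length h1).mul (UPoly.const 8))
  exact hC _ _ _ hT hq h2

/-- `t` is subexponential: `t ℓ = 2 ^ o(ℓ)`. -/
def Subexp (t : ℕ → ℕ) : Prop := ∀ d : ℕ, ∃ c, ∀ ℓ, t ℓ ^ d ≤ c * 2 ^ ℓ

/-- The language `L` is accepted by a nondeterministic machine with several stacks in
subexponential time and linear space: for every `x ∈ L` there is an accepting run with at most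
`t |x|` steps along which all stacks have length at most `s * |x| + s`, and only the strings in `L`
are accepted. -/
def InNTISP (L : Set (List Bool)) : Prop :=
  ∃ (M : Mach) (t : ℕ → ℕ) (s : ℕ), Subexp t ∧
    (∀ x ∈ L, AcceptsIn M x (t x.length) (s * x.length + s)) ∧ ∀ x, Accepts M x → x ∈ L

open Classical in
/-- The language `L` is decided by deterministic Turing machines in time `2 ^ o(ℓ)`: for every `d`
some machine decides `L` within `O(2 ^ (ℓ / d))` steps. -/
def InSubexp (L : Set (List Bool)) : Prop :=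
  ∀ d : ℕ, ∃ (Mt : TM2ComputableAux Bool Bool) (t : ℕ → ℕ) (c : ℕ), (∀ ℓ, t ℓ ^ d ≤ c * 2 ^ ℓ) ∧
    ∀ x : List Bool, TmRuns Mt x [decide (x ∈ L)] (t x.length)

/-- The parameter `p_max + n_max`. -/
def kap3 (I : List Job × ℕ) : ℕ := pmax I.1 + nmax I.1

/-- Padding: an fpt algorithm, applied with unary arguments of exponential size. -/
def S_TIME : Prop := ∀ g : RArg → Bool, FptTime (fun a : RArg => a.2.2.1.length) g →
  ∃ e : ℕ, ∀ k B C0 : ℕ, 1 ≤ k → ∃ (Mt : TM2ComputableAux Bool Bool) (t : ℕ → ℕ) (c : ℕ),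
    (∀ ℓ, t ℓ ^ k ≤ c * 2 ^ (e * ℓ)) ∧
    ∀ x : List Bool, TmRuns Mt x [g (x, List.replicate (x.length / k + 1) (),
      List.replicate B (), List.replicate (C0 * 2 ^ (x.length / k + 2)) ())] (t x.length)

/-- Composition of the fpt algorithm with the reduction. -/
def S_COMP : Prop := ∀ (dJ : List Job × ℕ → Bool), FptTime kap3 dJ →
  ∀ (f : RArg → List Job × ℕ), Poly f → ∀ c, (∀ a, kap3 (f a) ≤ c * (a.2.2.1.length + 1) ^ 2 + 4) →
    FptTime (fun a : RArg => a.2.2.1.length) (fun a => dJ (f a))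

/-- Every machine has finitely many states and stacks. -/
def S_GM : Prop := ∀ M : Mach, ∃ nm K, GoodM nm K M ∧ 2 ≤ nm ∧ 1 ≤ K

/-- The main conclusion. -/
def S_FIN : Prop := IsFpt kap3 JobShop → ∀ L, InNTISP L → InSubexp L

/-- More time and space. -/
def S_MONO : Prop := ∀ M x t t' S S', t ≤ t' → S ≤ S' → AcceptsIn M x t S → AcceptsIn M x t' S'

theorem fin_of (h1 : S_SOUND) (h2 : S_COMPL) (h3 : S_PAR) (h4 : S_POLY) (h5 : S_TIME)
    (h6 : S_COMP) (h7 : S_GM) (h8 : S_MONO) : S_FIN := by
  classical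
  rintro ⟨dJ, hdJ, hJ⟩ L ⟨M, t0, s, ht0, hL1, hL2⟩ d
  obtain ⟨nm, K, hM, hnm, hK⟩ := h7 M
  obtain ⟨cp, hcp⟩ := h3 nm K M hM hnm
  have hg := h6 dJ hdJ (redG nm K M) (h4 nm K M) cp (fun a => by
    have := hcp a.1 a.2.1.length a.2.2.1.length a.2.2.2.length
    unfold kap3 redG; omega)
  obtain ⟨e, he⟩ := h5 _ hg
  set k : ℕ := (e + 1) * (d + 1) with hk
  have hk1 : 1 ≤ k := Nat.mul_pos (by omega) (by omega)
  obtain ⟨c0, hc0⟩ := ht0 k
  obtain ⟨Mt, t, c, ht, hMt⟩ := he k ((s + 1) * (k + 1)) (c0 + 1) hk1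
  refine ⟨Mt, t, c + 1, fun ℓ => ?_, fun x => ?_⟩
  · -- the time bound
    by_cases h0 : t ℓ = 0
    · rw [h0]
      rcases Nat.eq_zero_or_pos d with rfl | hd
      · rw [pow_zero]; exact Nat.mul_pos (Nat.succ_pos c) (Nat.two_pow_pos ℓ)
      · rw [Nat.zero_pow hd]; exact Nat.zero_le _
    have hpos : 1 ≤ t ℓ := Nat.one_le_iff_ne_zero.2 h0
    have h1' := ht ℓ
    rw [hk] at h1'
    have h2' : t ℓ ^ ((e + 1) * (d + 1)) = (t ℓ ^ (d + 1)) ^ (e + 1) := by
      rw [← pow_mul, Nat.mul_comm]
    have h3' : (t ℓ ^ (d + 1)) ^ (e + 1) ≤ ((c + 1) * 2 ^ ℓ) ^ (e + 1) := by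
      rw [← h2']
      refine h1'.trans ?_
      rw [mul_pow]
      refine Nat.mul_le_mul ?_ ?_
      · calc c ≤ (c + 1) ^ 1 := by rw [pow_one]; omega
          _ ≤ (c + 1) ^ (e + 1) := Nat.pow_le_pow_right (by omega) (by omega)
      · rw [← pow_mul]
        exact Nat.pow_le_pow_right (by omega) (by nlinarith)
    have h4' : t ℓ ^ (d + 1) ≤ (c + 1) * 2 ^ ℓ := (Nat.pow_le_pow_iff_left (by omega)).1 h3'
    exact (Nat.pow_le_pow_right hpos (by omega)).trans h4'
  · -- correctness
    have hx := hMt x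
    set w := x.length / k + 1 with hw
    set b := (s + 1) * (k + 1) with hb
    set n := (c0 + 1) * 2 ^ (x.length / k + 2) with hn
    have hkw : x.length ≤ k * w := by
      have := Nat.div_add_mod x.length k
      have h5' := Nat.mod_lt x.length hk1
      rw [hw]; nlinarith
    have hbw : s * x.length + s ≤ b * w := by
      have h6' : (s + 1) * x.length ≤ (s + 1) * (k * w) := Nat.mul_le_mul_left _ hkw
      have h7' : 1 ≤ w := Nat.succ_pos _
      rw [hb]; nlinarith
    have hbw2 : x.length ≤ b * w := by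
      have h6' : (s + 1) * x.length ≤ (s + 1) * (k * w) := Nat.mul_le_mul_left _ hkw
      rw [hb]; nlinarith
    have hb1 : 1 ≤ b := Nat.mul_pos (by omega) (by omega)
    have hw1 : 1 ≤ w := Nat.succ_pos _
    have hn2 : 2 ^ (w + 1) ≤ n := by
      rw [hn, hw]
      calc 2 ^ (x.length / k + 1 + 1) = 1 * 2 ^ (x.length / k + 2) := by ring_nf
        _ ≤ (c0 + 1) * 2 ^ (x.length / k + 2) := Nat.mul_le_mul_right _ (by omega)
    have hn3 : t0 x.length ≤ n := by
      have h8' : t0 x.length ^ k ≤ n ^ k := by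
        refine (hc0 x.length).trans ?_
        rw [hn, mul_pow, ← pow_mul]
        refine Nat.mul_le_mul ?_ ?_
        · calc c0 ≤ (c0 + 1) ^ 1 := by rw [pow_one]; omega
            _ ≤ (c0 + 1) ^ k := Nat.pow_le_pow_right (by omega) hk1
        · refine Nat.pow_le_pow_right (by omega) ?_
          have : x.length ≤ k * w := hkw
          rw [hw] at this
          nlinarith
      exact (Nat.pow_le_pow_iff_left (by omega)).1 h8'
    have key : dJ (redG nm K M (x, List.replicate w (), List.replicate b (),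
        List.replicate n ())) = decide (x ∈ L) := by
      have h9' := hJ (redG nm K M (x, List.replicate w (), List.replicate b (),
        List.replicate n ()))
      have h10 : redG nm K M (x, List.replicate w (), List.replicate b (),
        List.replicate n ()) = redF nm K M x w b n := by simp [redG]
      rw [h10] at h9' ⊢
      by_cases hxL : x ∈ L
      · have h11 := h2 nm K M x w b n hM hnm hK hb1 hw1 hbw2 hn2
          (h8 _ _ _ _ _ _ hn3 hbw (hL1 x hxL))
        rw [h9'.2 h11]; simp [hxL]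
      · have h11 : ¬ JobShop (redF nm K M x w b n) := fun h =>
          hxL (hL2 x (h1 nm K M x w b n hM hnm hK hb1 hw1 hbw2 hn2 h))
        have h12 : dJ (redF nm K M x w b n) = false := by
          rw [← Bool.not_eq_true, h9']; exact h11
        rw [h12]; simp [hxL]
    rw [← key]
    exact hx

end Pool.Agent.H453R2.JS
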