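import Pool.Agent.H453R2.JS.Spec2

/-!
# Statements of the tasks (the optimisation version)
-/

namespace Pool.Agent.H453R2.JS

open Relation Turing Pool.Agent.NPC Pool.Agent.H633R2

/-- The minimal makespan. -/
noncomputable def optC (J : List Job) : ℕ := sInf {L : ℕ | JobShop (J, L)}

/-- The decision version in terms of the minimal makespan (there is always a schedule, e.g. the
one processing one operation after the other). -/
def S_OPTA : Prop := ∀ (J : List Job) (L : ℕ),
  JobShop (J, L) ↔ (∀ B ∈ J, JobOk B) ∧ optC J ≤ L

/-- If the minimal makespan can be computed in fpt time then the decision version is fpt. -/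
def S_OPTB : Prop := FptTime (fun J : List Job => pmax J + nmax J) optC → IsFpt kap3 JobShop

/-- The restriction to jobs with at most four operations, with the parameter `p_max`. -/
def JobShop4 (I : List Job × ℕ) : Prop := nmax I.1 ≤ 4 ∧ JobShop I

/-- Composition of an fpt algorithm with a polynomial-time reduction, general form. -/
def S_COMPG : Prop := ∀ (κ : List Job × ℕ → ℕ) (dJ : List Job × ℕ → Bool), FptTime κ dJ →
  ∀ (f : RArg → List Job × ℕ), Poly f → ∀ c, (∀ a, κ (f a) ≤ c * (a.2.2.1.length + 1) ^ 2 + 4) →
    FptTime (fun a : RArg => a.2.2.1.length) (fun a => dJ (f a))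

end Pool.Agent.H453R2.JS
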