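import Pool.Agent.H453R2.JS.Spec

namespace Pool.Agent.H453R2.JS

namespace LEG

theorem preC_append (R : List Rule) (u v : List ℕ) (p : ℕ) :
    preC R (u ++ v) p = preC R u p + preC R v p := by
  simp [preC]

theorem preC_single (R : List Rule) (i p : ℕ) : preC R [i] p = (rl R i).1.count p := by
  simp [preC]

theorem preC_cons (R : List Rule) (i : ℕ) (u : List ℕ) (p : ℕ) :
    preC R (i :: u) p = (rl R i).1.count p + preC R u p := by
  simp [preC]

theorem postC_cons (R : List Rule) (i : ℕ) (u : List ℕ) (p : ℕ) :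
    postC R (i :: u) p = (rl R i).2.1.count p + postC R u p := by
  simp [postC]

theorem run_append (R : List Rule) (u v : List ℕ) : ∀ (m m' : ℕ → ℕ),
    RRun R (u ++ v) m m' ↔ ∃ m1, RRun R u m m1 ∧ RRun R v m1 m' := by
  induction u with
  | nil =>
    intro m m'
    constructor
    · intro h
      exact ⟨m, rfl, h⟩
    · rintro ⟨m1, h1, h2⟩
      have h1' : m = m1 := h1
      subst h1'
      exact h2
  | cons i u ih =>
    intro m m'
    constructor
    · intro h
      have h' : i < R.length ∧ (∀ p, (rl R i).1.count p ≤ m p) ∧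
        RRun R (u ++ v) (useR (rl R i) m) m' := h
      obtain ⟨h1, h2, h3⟩ := h'
      obtain ⟨m1, h4, h5⟩ := (ih _ _).1 h3
      exact ⟨m1, ⟨h1, h2, h4⟩, h5⟩
    · rintro ⟨m1, h1, h2⟩
      have h1' : i < R.length ∧ (∀ p, (rl R i).1.count p ≤ m p) ∧
        RRun R u (useR (rl R i) m) m1 := h1
      obtain ⟨h3, h4, h5⟩ := h1'
      exact ⟨h3, h4, (ih _ _).2 ⟨m1, h5, h2⟩⟩

theorem run_bal (R : List Rule) (w : List ℕ) : ∀ (m m' : ℕ → ℕ), RRun R w m m' →
    (∀ i ∈ w, i < R.length) ∧ ∀ p, m' p + preC R w p = m p + postC R w p := by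
  induction w with
  | nil =>
    intro m m' h
    have h' : m = m' := h
    subst h'
    refine ⟨fun i hi => absurd hi (by simp), fun p => by simp [preC, postC]⟩
  | cons i u ih =>
    intro m m' h
    have h' : i < R.length ∧ (∀ p, (rl R i).1.count p ≤ m p) ∧
      RRun R u (useR (rl R i) m) m' := h
    obtain ⟨h1, h2, h3⟩ := h'
    obtain ⟨h4, h5⟩ := ih _ _ h3
    refine ⟨fun j hj => ?_, fun p => ?_⟩
    · rcases List.mem_cons.1 hj with rfl | hj
      · exact h1
      · exact h4 j hj
    · have h6 := h5 p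
      have h7 := h2 p
      rw [preC_cons, postC_cons]
      simp only [useR] at h6
      omega

theorem legal_prefix {R : List Rule} {u v : List ℕ} (h : Legal R (u ++ v)) : Legal R u :=
  fun l i hl => h l i (hl.trans (List.prefix_append u v))

theorem legal_run (R : List Rule) (w : List ℕ) : (∀ i ∈ w, i < R.length) → Legal R w →
    ∃ m', RRun R w (fun _ => 0) m' := by
  induction w using List.reverseRecOn with
  | nil => exact fun _ _ => ⟨_, rfl⟩
  | append_singleton v i ih =>
    intro hw hL
    obtain ⟨m1, h1⟩ := ih (fun j hj => hw j (List.mem_append_left _ hj)) (legal_prefix hL)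
    refine ⟨useR (rl R i) m1, (run_append R v [i] _ _).2 ⟨m1, h1, hw i (by simp), fun p => ?_, rfl⟩⟩
    have h2 := hL v i List.prefix_rfl p
    have h3 := (run_bal R v _ _ h1).2 p
    rw [preC_append, preC_single] at h2
    omega

theorem run_legal (R : List Rule) (w : List ℕ) (m' : ℕ → ℕ) (h : RRun R w (fun _ => 0) m') :
    Legal R w := by
  rintro l i ⟨v, rfl⟩ p
  rw [List.append_assoc, run_append] at h
  obtain ⟨m1, h1, h2⟩ := h
  have h2' : i < R.length ∧ (∀ p, (rl R i).1.count p ≤ m1 p) ∧
    RRun R v (useR (rl R i) m1) m' := h2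
  have h3 := h2'.2.1 p
  have h4 := (run_bal R l _ _ h1).2 p
  rw [preC_append, preC_single]
  omega

end LEG

theorem LEG_holds : S_LEG :=
  ⟨fun R w hw => ⟨LEG.legal_run R w hw, fun ⟨m', h⟩ => LEG.run_legal R w m' h⟩,
    fun R u v m m' => LEG.run_append R u v m m', fun R w m m' h => LEG.run_bal R w m m' h⟩

end Pool.Agent.H453R2.JS
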