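import Pool.Agent.H453R2.JS.Spec3

/-! The optimisation version implies the decision version in fpt time. -/

namespace Pool.Agent.H453R2.JS

open Relation Turing Pool.Agent.NPC Pool.Agent.H633R2

namespace OPTB

/-- Boolean test for `JobOk`. -/
def okB (B : Job) : Bool :=
  (B.all fun o => decide (o.1 < 3) && decide (0 < o.2)) &&
    ((B.zip B.tail).all fun p => !decide (p.1.1 = p.2.1))

theorem chain_iff : ∀ B : Job, B.IsChain (fun a b => a.1 ≠ b.1) ↔
    ((B.zip B.tail).all fun p => !decide (p.1.1 = p.2.1)) = true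
  | [] => by simp
  | [a] => by simp
  | a :: b :: l => by
    have ih := chain_iff (b :: l)
    rw [List.isChain_cons_cons, ih]
    simp

theorem okB_iff (B : Job) : okB B = true ↔ JobOk B := by
  unfold okB JobOk
  rw [Bool.and_eq_true, chain_iff, List.all_eq_true]
  simp

theorem poly_okB : Poly okB := by
  refine Poly.and (Poly.all (p := fun (_ : Job) (o : ℕ × ℕ) => decide (o.1 < 3) && decide (0 < o.2))
    Poly.id (Poly.and (Poly.decide_lt (Poly.fst (Poly.snd Poly.id)) (NPC.Poly.const 3))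
      (Poly.decide_lt (NPC.Poly.const 0) (Poly.snd (Poly.snd Poly.id))))) ?_
  refine Poly.all (l := fun B : Job => B.zip B.tail)
    (p := fun (_ : Job) (p : (ℕ × ℕ) × (ℕ × ℕ)) => !decide (p.1.1 = p.2.1))
    (Poly.zip Poly.id (Poly.tail Poly.id)) ?_
  exact Poly.not (Poly.decide_eq (Poly.fst (Poly.fst (Poly.snd Poly.id)))
    (Poly.fst (Poly.snd (Poly.snd Poly.id))))

theorem poly_ok : Poly (fun J : List Job => J.all okB) :=
  Poly.all (p := fun (_ : List Job) (B : Job) => okB B) Poly.id (poly_okB.comp (Poly.snd Poly.id))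

end OPTB

theorem OPTB_holds (hA : S_OPTA) : S_OPTB := by
  intro h
  have h1 : FptTime kap3 (fun I : List Job × ℕ => optC I.1) :=
    FptTime.comp (κ' := fun J : List Job => pmax J + nmax J) h
      (FptTime.of_poly (Poly.fst Poly.id)) Computable.id (fun _ => le_rfl)
  have h2 : FptTime kap3 (fun I : List Job × ℕ => (I.2, I.1.all OPTB.okB)) :=
    FptTime.of_poly (Poly.pair (Poly.snd Poly.id) (OPTB.poly_ok.comp (Poly.fst Poly.id)))
  have h3 := FptTime.pair h1 h2
  have h4 : Poly (fun x : ℕ × (ℕ × Bool) => x.2.2 && decide (x.1 ≤ x.2.1)) :=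
    Poly.and (Poly.snd (Poly.snd Poly.id))
      (Poly.decide_le (Poly.fst Poly.id) (Poly.fst (Poly.snd Poly.id)))
  refine ⟨_, FptTime.poly_comp h4 h3, fun I => ?_⟩
  obtain ⟨J, L⟩ := I
  rw [hA J L]
  simp only [Bool.and_eq_true, List.all_eq_true, decide_eq_true_eq, OPTB.okB_iff]

end Pool.Agent.H453R2.JS
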