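import Pool.Agent.H453R2.JS.Spec

namespace Pool.Agent.H453R2.JS

namespace TRG

theorem link_mem (q s : ℕ) (as : List Act) : ∀ t ∈ link q s as,
    (t.1 = q ∨ (s ≤ t.1 ∧ t.1 < s + as.length)) ∧
    (t.2.2 = 0 ∨ (s ≤ t.2.2 ∧ t.2.2 < s + as.length)) ∧
    (t.2.1 = none ∨ t.2.1 ∈ as) := by
  induction as generalizing q s with
  | nil =>
    intro t ht
    simp only [link, List.mem_singleton] at ht
    subst ht
    exact ⟨Or.inl rfl, Or.inl rfl, Or.inl rfl⟩
  | cons a as ih =>
    intro t ht
    simp only [link, List.mem_cons] at ht
    rcases ht with rfl | ht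
    · refine ⟨Or.inl rfl, Or.inr ⟨le_rfl, ?_⟩, Or.inr (List.mem_cons_self)⟩
      simp only [List.length_cons]
      omega
    · obtain ⟨h1, h2, h3⟩ := ih s (s+1) t ht
      simp only [List.length_cons]
      refine ⟨?_, ?_, ?_⟩
      · right; omega
      · rcases h2 with h2 | h2
        · exact Or.inl h2
        · right; omega
      · rcases h3 with h3 | h3
        · exact Or.inl h3
        · exact Or.inr (List.mem_cons_of_mem _ h3)

theorem link_sum (q s : ℕ) (as : List Act) :
    ((link q s as).map (fun t => t.1)).sum = ((link q s as).map (fun t => t.2.2)).sum + q := by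
  induction as generalizing q s with
  | nil => simp [link]
  | cons a as ih =>
    have := ih s (s+1)
    simp only [link, List.map_cons, List.sum_cons]
    omega

theorem link_nact (q s : ℕ) (as : List Act) (j : ℕ) (b : Bool) :
    nact (some (j, b)) (link q s as) = as.count (some (j, b)) := by
  induction as generalizing q s with
  | nil => simp [link, nact]
  | cons a as ih =>
    have := ih s (s+1)
    unfold nact at this ⊢
    simp only [link, List.countP_cons, List.count_cons, this]
    congr 1
    by_cases h : a = some (j, b)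
    · simp [h]
    · simp [h]

theorem cyc_nact_false (D i : ℕ) (r : Rule) (j : ℕ) :
    nact (some (j, false)) (cyc D i r) = r.1.count j := by
  unfold cyc
  rw [link_nact, List.count_append]
  have h1 : (r.1.map (fun p => some (p, false))).count (some (j, false)) = r.1.count j :=
    List.count_map_of_injective _ (fun p : ℕ => (some (p, false) : Act))
      (fun a b h => by simpa using h) j
  have h2 : (r.2.1.map (fun p => some (p, true))).count (some (j, false)) = 0 := by
    rw [List.count_eq_zero]
    simp
  rw [h1, h2, Nat.add_zero]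

theorem cyc_nact_true (D i : ℕ) (r : Rule) (j : ℕ) :
    nact (some (j, true)) (cyc D i r) = r.2.1.count j := by
  unfold cyc
  rw [link_nact, List.count_append]
  have h1 : (r.2.1.map (fun p => some (p, true))).count (some (j, true)) = r.2.1.count j :=
    List.count_map_of_injective _ (fun p : ℕ => (some (p, true) : Act))
      (fun a b h => by simpa using h) j
  have h2 : (r.1.map (fun p => some (p, false))).count (some (j, true)) = 0 := by
    rw [List.count_eq_zero]
    simp
  rw [h1, h2, Nat.zero_add]

theorem toT_mem (D : ℕ) (R : List Rule) (t : Tr) (ht : t ∈ toT D R) :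
    ∃ r ∈ R, ∃ i < R.length, t ∈ cyc D i r := by
  unfold toT at ht
  rw [List.mem_flatMap] at ht
  obtain ⟨ri, hri, ht⟩ := ht
  rw [List.mem_flatten] at ht
  obtain ⟨l, hl, ht⟩ := ht
  rw [List.mem_replicate] at hl
  obtain ⟨_, rfl⟩ := hl
  obtain ⟨r, i⟩ := ri
  have h1 := List.mem_zipIdx hri
  refine ⟨r, ?_, i, ?_, ht⟩
  · obtain ⟨_, h2, h3⟩ := h1
    rw [h3]
    exact List.getElem_mem _
  · omega

theorem toT_nact (D : ℕ) (R : List Rule) (a : Act) (f : Rule → ℕ)
    (h : ∀ i r, nact a (cyc D i r) = f r) :
    nact a (toT D R) = (R.map (fun r => r.2.2 * f r)).sum := by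
  unfold toT nact
  rw [List.countP_flatMap]
  have h1 : (List.map (List.countP (fun t : Tr => decide (t.2.1 = a)) ∘
      fun ri : Rule × ℕ => (List.replicate ri.1.2.2 (cyc D ri.2 ri.1)).flatten) R.zipIdx) =
      List.map ((fun r : Rule => r.2.2 * f r) ∘ Prod.fst) R.zipIdx := by
    apply List.map_congr_left
    intro ri _
    simp only [Function.comp_apply]
    rw [List.countP_flatten, List.map_replicate, List.sum_replicate, smul_eq_mul]
    congr 1
    exact h ri.2 ri.1
  rw [h1, ← List.map_map, List.zipIdx_map_fst]

theorem flat_sum (LL : List (List Tr))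
    (h : ∀ l ∈ LL, (l.map (fun t => t.1)).sum = (l.map (fun t => t.2.2)).sum) :
    ((LL.flatten).map (fun t => t.1)).sum = ((LL.flatten).map (fun t => t.2.2)).sum := by
  induction LL with
  | nil => rfl
  | cons l LL ih =>
    rw [List.flatten_cons, List.map_append, List.map_append, List.sum_append, List.sum_append,
      h l List.mem_cons_self, ih (fun l' hl' => h l' (List.mem_cons_of_mem _ hl'))]

end TRG

open TRG in
theorem TRG_holds : S_TRG := by
  intro D np R hR
  have hlen : ∀ i r, (cyc D i r) = link 0 (1 + i * D)
      (r.1.map (fun p => some (p, false)) ++ r.2.1.map (fun p => some (p, true))) := fun _ _ => rfl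
  have hb : ∀ t ∈ toT D R, t.1 < 1 + R.length * D ∧ t.2.2 < 1 + R.length * D ∧
      ∀ j b, t.2.1 = some (j, b) → j < np := by
    intro t ht
    obtain ⟨r, hr, i, hi, ht⟩ := toT_mem D R t ht
    rw [hlen] at ht
    obtain ⟨h1, h2, h3⟩ := link_mem _ _ _ t ht
    simp only [List.length_append, List.length_map] at h1 h2
    have h4 := hR.len r hr
    have h5 : (i + 1) * D ≤ R.length * D := Nat.mul_le_mul_right D hi
    have h6 : (i + 1) * D = i * D + D := by ring
    refine ⟨by omega, by omega, ?_⟩
    intro j b hj
    rw [hj] at h3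
    rcases h3 with h3 | h3
    · exact absurd h3 (by simp)
    · apply hR.pl r hr
      rw [List.mem_append, List.mem_map, List.mem_map] at h3
      rw [List.mem_append]
      rcases h3 with ⟨p, hp, he⟩ | ⟨p, hp, he⟩
      · left
        have : p = j := by simpa using congrArg (fun o : Act => (o.map Prod.fst)) he
        rwa [← this]
      · right
        have : p = j := by simpa using congrArg (fun o : Act => (o.map Prod.fst)) he
        rwa [← this]
  refine ⟨by omega, fun t ht => (hb t ht).1, fun t ht => (hb t ht).2.1,
    fun t ht => (hb t ht).2.2, ?_, ?_⟩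
  · unfold toT
    rw [List.flatMap_def]
    apply flat_sum
    intro l hl
    rw [List.mem_map] at hl
    obtain ⟨ri, _, rfl⟩ := hl
    apply flat_sum
    intro l hl
    rw [List.mem_replicate] at hl
    obtain ⟨_, rfl⟩ := hl
    rw [hlen]
    have := link_sum 0 (1 + ri.2 * D)
      (ri.1.1.map (fun p => some (p, false)) ++ ri.1.2.1.map (fun p => some (p, true)))
    omega
  · intro j
    rw [toT_nact D R _ (fun r => r.1.count j) (fun i r => cyc_nact_false D i r j),
      toT_nact D R _ (fun r => r.2.1.count j) (fun i r => cyc_nact_true D i r j)]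
    exact hR.bal j

end Pool.Agent.H453R2.JS
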